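import Pool.Agent.ALG.Defs

/-!
# [ALG-A1] automorphic growth of subgroups of finite index
-/

set_option autoImplicit false

namespace ALG

open AG

/-- PROOF. `AG.exists_char G H`: a characteristic subgroup `K ≤ H` of finite index. `MulAut G` acts on the finite set `G ⧸ K` (`φ` maps `x K` to `φ x K`), the kernel `𝔸` of this
action (as a homomorphism to `Equiv.Perm (G ⧸ K)`, or: `𝔸 = {φ | ∀ x, x⁻¹ * φ x ∈ K}`) has finite index because it is the kernel of a homomorphism to a finite group
(`Subgroup.finiteIndex_ker`). For `φ ∈ 𝔸` and `x : G`, `x⁻¹ * φ x ∈ K ≤ H`, hence `φ x ∈ H ↔ x ∈ H`. -/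
theorem stab_fi {G : Type*} [Group G] [Group.FG G] (H : Subgroup G) [H.FiniteIndex] :
    ∃ 𝔸 : Subgroup (MulAut G), 𝔸.FiniteIndex ∧ ∀ φ ∈ 𝔸, ∀ x : G, φ x ∈ H ↔ x ∈ H := by
  classical
  obtain ⟨K, hKH, hKc, hKf⟩ := AG.exists_char G H
  have : Finite (G ⧸ K) := Subgroup.finite_quotient_of_finiteIndex
  let ρ : MulAut G →* MulAut (G ⧸ K) := MonoidHom.mk'
    (fun φ => QuotientGroup.congr K K φ (Subgroup.characteristic_iff_map_eq.mp inferInstance φ))
    (by
      intro a b
      ext q
      induction q using QuotientGroup.induction_on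
      rfl)
  have : Finite (MulAut (G ⧸ K)) :=
    Finite.of_injective (fun (f : MulAut (G ⧸ K)) => (f : (G ⧸ K) → (G ⧸ K)))
      (fun f g h => MulEquiv.ext (congrFun h))
  refine ⟨ρ.ker, inferInstance, ?_⟩
  intro φ hφ x
  have h1 : ρ φ (QuotientGroup.mk x) = QuotientGroup.mk x := by
    rw [MonoidHom.mem_ker.1 hφ]
    rfl
  have h2 : (QuotientGroup.mk x : G ⧸ K) = QuotientGroup.mk (φ x) := h1.symm
  rw [QuotientGroup.eq] at h2
  have h3 := hKH h2
  constructor
  · intro h
    have h4 := H.mul_mem h (H.inv_mem h3)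
    simpa using h4
  · intro h
    have h4 := H.mul_mem h h3
    simpa using h4

theorem A1_count {G : Type*} [Group G] (S : Finset G) (𝔸 : Subgroup (MulAut G))
    [𝔸.FiniteIndex] (n : ℕ) {ι : Type*} (g : ι → G) (hg : ∀ i, g i ∈ ball S n)
    (hinv : ∀ i j, (∃ φ ∈ 𝔸, φ (g i) = g j) → i = j) :
    Nat.card ι ≤ 𝔸.index * autGrowth S n := by
  classical
  have hfin : (autOrbit '' ball S n).Finite := (ball_finite S n).image _
  have : Finite (autOrbit '' ball S n) := hfin
  have : Finite (MulAut G ⧸ 𝔸) := Subgroup.finite_quotient_of_finiteIndex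
  let r : Set G → G := fun O => if h : O.Nonempty then h.some else 1
  have hr : ∀ i, ∃ ψ : MulAut G, ψ (g i) = r (autOrbit (g i)) := by
    intro i
    have hne : (autOrbit (g i)).Nonempty := ⟨_, autOrbit_self _⟩
    have h1 : r (autOrbit (g i)) ∈ autOrbit (g i) := by
      simp only [r, dif_pos hne]
      exact hne.some_mem
    exact h1
  choose ψ hψ using hr
  unfold autGrowth
  rw [← Nat.card_coe_set_eq, Subgroup.index, ← Nat.card_prod]
  refine Nat.card_le_card_of_injective
    (fun i => ((QuotientGroup.mk (ψ i) : MulAut G ⧸ 𝔸),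
      (⟨autOrbit (g i), g i, hg i, rfl⟩ : (autOrbit '' ball S n : Set (Set G))))) ?_
  intro i j hij
  have h1 : autOrbit (g i) = autOrbit (g j) := congrArg (fun z => (Prod.snd z).val) hij
  have h2 : (QuotientGroup.mk (ψ j) : MulAut G ⧸ 𝔸) = QuotientGroup.mk (ψ i) :=
    (congrArg Prod.fst hij).symm
  rw [QuotientGroup.eq] at h2
  refine hinv i j ⟨_, h2, ?_⟩
  rw [MulAut.mul_apply, hψ i, h1, ← hψ j, MulAut.inv_apply_self]

/-- the restriction of an automorphism to an invariant subgroup -/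
noncomputable def A1_res {G : Type*} [Group G] (H : Subgroup G) (φ : MulAut G)
    (h : ∀ x : G, φ x ∈ H ↔ x ∈ H) : MulAut H where
  toFun x := ⟨φ x, (h x).2 x.2⟩
  invFun x := ⟨φ⁻¹ x, (h _).1 (by rw [MulAut.apply_inv_self]; exact x.2)⟩
  left_inv x := by
    apply Subtype.ext
    exact MulAut.inv_apply_self _ _ _
  right_inv x := by
    apply Subtype.ext
    exact MulAut.apply_inv_self _ _ _
  map_mul' x y := by
    apply Subtype.ext
    exact map_mul φ _ _

/-- PROOF. `𝔸` of `stab_fi`, `r = 𝔸.index`, `k` with `(t : G) ∈ ball S k` for all `t ∈ T` (`AG.exists_ball_subset`), so `ball T n` is mapped into `ball S (k n)` by the inclusion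
(list argument as in `AG.ball_subset_ball`). Let `A` be a finite set of `autOrbit T`-classes, choose representatives `g i ∈ ball T n` in pairwise different `Aut H`-orbits. Map
`g i` to `autOrbit (g i : G)`. Every fibre has at most `r` elements: if `g 0, ..., g r` are in one `Aut G`-orbit, `g i = φ_i (g 0)` with `φ_i ∈ MulAut G`, two of the `φ_i`
are in the same coset `𝔸 φ`, `φ_j = α φ_i` with `α ∈ 𝔸`, so `g j = α (g i)` and `α` restricts to an automorphism of `H` (by `stab_fi` for `α` and `α⁻¹`), contradiction.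
So `autGrowth T n ≤ r * autGrowth S (k n)` (`Finset.card_le_mul_card_image` or similar; everything is finite by `AG.ball_finite`). -/
theorem sub_growth {G : Type*} [Group G] (S : Finset G)
    (hS : Subgroup.closure (S : Set G) = ⊤) (H : Subgroup G) [H.FiniteIndex] (T : Finset H) :
    ∃ r k : ℕ, ∀ n, autGrowth T n ≤ r * autGrowth S (k * n) := by
  classical
  have : Group.FG G := (Group.fg_def (G := G)).2 ⟨S, hS⟩
  obtain ⟨𝔸, h𝔸, hst⟩ := stab_fi H
  obtain ⟨k, hk⟩ := exists_ball_subset S (T.image Subtype.val) (fun t _ => by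
    rw [hS]
    exact Subgroup.mem_top t)
  refine ⟨𝔸.index, k, fun n => ?_⟩
  have hin : ∀ h ∈ ball T n, (h : G) ∈ ball S (k * n) := by
    rintro h ⟨l, hl, hT, rfl⟩
    refine ball_subset_ball hk n ⟨l.map Subtype.val, by simpa using hl, ?_, ?_⟩
    · intro x hx
      rw [List.mem_map] at hx
      obtain ⟨y, hy, rfl⟩ := hx
      rcases hT y hy with h1 | h1
      · exact Or.inl (Finset.mem_image_of_mem _ h1)
      · right
        exact Finset.mem_image.2 ⟨y⁻¹, h1, rfl⟩
    · exact (map_list_prod H.subtype l).symm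
  have hex : ∀ O : (autOrbit '' ball T n : Set (Set H)), ∃ h : H, h ∈ ball T n ∧
      autOrbit h = O.1 := fun O => O.2
  choose h hh hO using hex
  have := A1_count S 𝔸 (k * n) (fun O => (h O : G)) (fun O => hin _ (hh O)) (by
    rintro i j ⟨φ, hφ, hφ'⟩
    apply Subtype.ext
    rw [← hO i, ← hO j, autOrbit_eq_iff]
    exact ⟨A1_res H φ (hst φ hφ), Subtype.ext hφ'⟩)
  rw [Nat.card_coe_set_eq] at this
  exact this

/-- PROOF. From `sub_growth`: `r * (C * (k n + 1)^d) ≤ (r C (k+1)^d) * (n+1)^d`. -/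
theorem polyBdd_sub {G : Type*} [Group G] (S : Finset G)
    (hS : Subgroup.closure (S : Set G) = ⊤) (H : Subgroup G) [H.FiniteIndex] (T : Finset H)
    (h : PolyBdd (autGrowth S)) : PolyBdd (autGrowth T) := by
  obtain ⟨C, d, hC⟩ := h
  obtain ⟨r, k, hr⟩ := sub_growth S hS H T
  refine ⟨r * C * (k + 1) ^ d, d, fun n => (hr n).trans ?_⟩
  calc r * autGrowth S (k * n) ≤ r * (C * (k * n + 1) ^ d) := Nat.mul_le_mul_left _ (hC _)
    _ ≤ r * (C * ((k + 1) * (n + 1)) ^ d) :=
        Nat.mul_le_mul_left _ (Nat.mul_le_mul_left _ (Nat.pow_le_pow_left (by nlinarith) d))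
    _ = _ := by rw [mul_pow]; ring

end ALG
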