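import Pool.Agent.ALG.Defs

/-!
# [ALG-A2] lower bounds for the automorphic growth
-/

set_option autoImplicit false

namespace ALG

open AG

/-- PROOF. `i ↦ autOrbit (g i)` is an injective map into `autOrbit '' ball S n` (`AG.autOrbit_eq_iff`), a finite set (`AG.ball_finite`). -/
theorem le_autGrowth {G : Type*} [Group G] (S : Finset G) (n : ℕ) {ι : Type*} (g : ι → G)
    (hg : ∀ i, g i ∈ ball S n) (hinv : ∀ i j, (∃ φ : MulAut G, φ (g i) = g j) → i = j) :
    Nat.card ι ≤ autGrowth S n := by
  have hfin : (autOrbit '' ball S n).Finite := (ball_finite S n).image _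
  haveI : Finite (autOrbit '' ball S n) := hfin
  unfold autGrowth
  rw [← Nat.card_coe_set_eq]
  refine Nat.card_le_card_of_injective
    (fun i => (⟨autOrbit (g i), g i, hg i, rfl⟩ : (autOrbit '' ball S n : Set (Set G)))) ?_
  intro i j hij
  have h1 : autOrbit (g i) = autOrbit (g j) := congrArg Subtype.val hij
  exact hinv i j ((autOrbit_eq_iff _ _).1 h1)

/-- PROOF. The fibres of `i ↦ autOrbit (g i)` have at most `𝔸.index` elements: if `g i = φ_i (g 0)`, `i` in a set with more than `𝔸.index` elements, then two of the `φ_i` are in the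
same right coset `𝔸 φ`, `φ_j = α φ_i`, `α ∈ 𝔸`, so `g j = α (g i)`, contradiction. (`ι` is finite because the image is finite and the fibres are finite.) -/
theorem le_autGrowth_fi {G : Type*} [Group G] (S : Finset G) (𝔸 : Subgroup (MulAut G))
    [𝔸.FiniteIndex] (n : ℕ) {ι : Type*} (g : ι → G) (hg : ∀ i, g i ∈ ball S n)
    (hinv : ∀ i j, (∃ φ ∈ 𝔸, φ (g i) = g j) → i = j) :
    Nat.card ι ≤ 𝔸.index * autGrowth S n := by
  classical
  have hfin : (autOrbit '' ball S n).Finite := (ball_finite S n).image _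
  haveI : Finite (autOrbit '' ball S n) := hfin
  haveI : Finite (MulAut G ⧸ 𝔸) := Subgroup.finite_quotient_of_finiteIndex
  let r : Set G → G := fun O => if h : O.Nonempty then h.some else 1
  have hr : ∀ i, ∃ ψ : MulAut G, ψ (g i) = r (autOrbit (g i)) := by
    intro i
    have hne : (autOrbit (g i)).Nonempty := ⟨_, autOrbit_self _⟩
    have h1 : r (autOrbit (g i)) ∈ autOrbit (g i) := by
      simp only [r, dif_pos hne]
      exact hne.some_mem
    exact h1
  choose ψ hψ using hr
  unfold autGrowth
  rw [← Nat.card_coe_set_eq, Subgroup.index, ← Nat.card_prod]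
  refine Nat.card_le_card_of_injective
    (fun i => ((QuotientGroup.mk (ψ i) : MulAut G ⧸ 𝔸),
      (⟨autOrbit (g i), g i, hg i, rfl⟩ : (autOrbit '' ball S n : Set (Set G))))) ?_
  intro i j hij
  have h1 : autOrbit (g i) = autOrbit (g j) := congrArg (fun z => (Prod.snd z).val) hij
  have h2 : (QuotientGroup.mk (ψ j) : MulAut G ⧸ 𝔸) = QuotientGroup.mk (ψ i) :=
    (congrArg Prod.fst hij).symm
  rw [QuotientGroup.eq] at h2
  refine hinv i j ⟨_, h2, ?_⟩
  rw [MulAut.mul_apply, hψ i, h1, ← hψ j, MulAut.inv_apply_self]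

end ALG
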