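import Pool.Agent.ALG.Defs

/-!
# [ALG-B1] short words in finite quotients
-/

set_option autoImplicit false

namespace ALG

open AG

/-- PROOF. Let `A n = f '' ball S n ⊆ Λ`, increasing. If `A n = A (n+1)` then `A m = A n` for all `m ≥ n` (an element of `ball S (m+1)` is `s^{±1} * h` with `h ∈ ball S m`, or: induct on
the list). The cardinalities are at least `1` and at most `Nat.card Λ`, so some `n < Nat.card Λ` has `A n = A (n+1)` (otherwise they increase strictly `Nat.card Λ` times).
Hence `f g ∈ A m` for some `m` (`AG.exists_mem_ball`) implies `f g ∈ A n ⊆ A (Nat.card Λ)`. -/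
theorem short_word {G Λ : Type*} [Group G] [Group Λ] [Finite Λ] (S : Finset G)
    (hS : Subgroup.closure (S : Set G) = ⊤) (f : G →* Λ) (g : G) :
    ∃ h ∈ ball S (Nat.card Λ), f h = f g := by
  classical
  have hmono : ∀ n, f '' ball S n ⊆ f '' ball S (n + 1) := fun n =>
    Set.image_mono (ball_mono S (Nat.le_succ n))
  -- stabilisation
  have hstab : ∀ n, f '' ball S n = f '' ball S (n + 1) → ∀ m, f '' ball S m ⊆ f '' ball S n := by
    intro n hn m
    rintro _ ⟨x, ⟨l, -, hlS, rfl⟩, rfl⟩
    clear m
    induction l with
    | nil => exact ⟨1, one_mem_ball S n, by simp⟩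
    | cons a l ih =>
      obtain ⟨y, hy, hfy⟩ := ih (fun x hx => hlS x (List.mem_cons_of_mem _ hx))
      have ha : a ∈ ball S 1 := ⟨[a], by simp, by
        intro x hx
        rw [List.mem_singleton] at hx
        subst hx
        exact hlS x List.mem_cons_self, by simp⟩
      have hay : a * y ∈ ball S (n + 1) := by
        rw [add_comm]; exact mul_mem_ball ha hy
      have : f (a * y) ∈ f '' ball S n := by
        rw [hn]; exact ⟨_, hay, rfl⟩
      rw [List.prod_cons, map_mul, ← hfy, ← map_mul]
      exact this
  -- some small `n` is stable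
  have hex : ∃ n < Nat.card Λ, f '' ball S n = f '' ball S (n + 1) := by
    by_contra hcon
    push Not at hcon
    have hcard : ∀ n ≤ Nat.card Λ, n + 1 ≤ (f '' ball S n).ncard := by
      intro n
      induction n with
      | zero =>
        intro _
        have : (f '' ball S 0).Nonempty := ⟨f 1, 1, one_mem_ball S 0, rfl⟩
        have := (Set.ncard_pos (Set.toFinite _)).2 this
        omega
      | succ n ih =>
        intro hn
        have h1 := ih (by omega)
        have h2 : f '' ball S n ⊂ f '' ball S (n + 1) :=
          lt_of_le_of_ne (hmono n) (hcon n (by omega))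
        have h3 := Set.ncard_lt_ncard h2 (Set.toFinite _)
        omega
    have h1 := hcard (Nat.card Λ) le_rfl
    have h2 : (f '' ball S (Nat.card Λ)).ncard ≤ Nat.card Λ := Set.ncard_le_card _
    omega
  obtain ⟨n, hn, hst⟩ := hex
  have hg : g ∈ Subgroup.closure (S : Set G) := by rw [hS]; trivial
  obtain ⟨m, hm⟩ := exists_mem_ball hg
  obtain ⟨h, hh, hfh⟩ := hstab n hst m ⟨g, hm, rfl⟩
  exact ⟨h, ball_mono S hn.le hh, hfh⟩

end ALG
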