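import Pool.Agent.ALG.Defs

/-!
# [ALG-B2] iterated commutators in a perfect group
-/

set_option autoImplicit false

namespace ALG

/-- PROOF. Induction on `k`; `(x y x⁻¹ y⁻¹)⁻¹ = y x y⁻¹ x⁻¹`. -/
theorem CC_inv {D : Type*} [Group D] (k : ℕ) {x : D} (hx : x ∈ CC D k) : x⁻¹ ∈ CC D k := by
  cases k with
  | zero => exact Set.mem_univ _
  | succ k =>
    obtain ⟨a, ha, b, hb, rfl⟩ := hx
    exact ⟨b, hb, a, ha, by group⟩

/-- PROOF. Induction on `k`, conjugation is an automorphism. -/
theorem CC_conj {D : Type*} [Group D] (k : ℕ) {x : D} (hx : x ∈ CC D k) (g : D) :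
    g * x * g⁻¹ ∈ CC D k := by
  induction k generalizing x with
  | zero => exact Set.mem_univ _
  | succ k ih =>
    obtain ⟨a, ha, b, hb, rfl⟩ := hx
    exact ⟨g * a * g⁻¹, ih ha, g * b * g⁻¹, ih hb, by group⟩

/-- PROOF. Induction on `k`, `k = 0` is clear. Let `N = closure (CC D (k+1))`, a normal subgroup by `CC_conj`. For `x ∈ CC D k` the set `{y | x y x⁻¹ y⁻¹ ∈ N}` is a subgroup (because
`N` is normal) containing `CC D k`, so it is everything; then for every `y` the set `{x | x y x⁻¹ y⁻¹ ∈ N}` is a subgroup containing `CC D k`, so it is everything. So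
`⁅⊤, ⊤⁆ ≤ N`. -/
theorem closure_CC {D : Type*} [Group D] (h : ⁅(⊤ : Subgroup D), (⊤ : Subgroup D)⁆ = ⊤) (k : ℕ) :
    Subgroup.closure (CC D k) = ⊤ := by
  induction k with
  | zero => exact Subgroup.closure_univ
  | succ k ih =>
    obtain ⟨N, hN⟩ : ∃ N, N = Subgroup.closure (CC D (k + 1)) := ⟨_, rfl⟩
    have hNn : N.Normal := by
      refine ⟨fun x hx g => ?_⟩
      have h1 : N ≤ N.comap (MulAut.conj g).toMonoidHom := by
        conv_lhs => rw [hN]
        rw [Subgroup.closure_le]
        intro y hy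
        rw [SetLike.mem_coe, Subgroup.mem_comap, hN]
        exact Subgroup.subset_closure (CC_conj (k + 1) hy g)
      exact h1 hx
    have hq : ∀ z, (QuotientGroup.mk' N) z = 1 ↔ z ∈ N := by
      intro z
      rw [← MonoidHom.mem_ker, QuotientGroup.ker_mk']
    have h1 : ∀ x ∈ CC D k, ∀ y ∈ CC D k,
        (QuotientGroup.mk' N) y * (QuotientGroup.mk' N) x = (QuotientGroup.mk' N) x * (QuotientGroup.mk' N) y := by
      intro x hx y hy
      have h2 : (QuotientGroup.mk' N) (x * y * x⁻¹ * y⁻¹) = 1 := by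
        rw [hq, hN]
        exact Subgroup.subset_closure ⟨x, hx, y, hy, rfl⟩
      simp only [map_mul, map_inv] at h2
      exact (mul_inv_eq_iff_eq_mul.mp (mul_inv_eq_one.mp h2)).symm
    have h3 : ∀ x ∈ CC D k, ∀ y : D,
        (QuotientGroup.mk' N) y * (QuotientGroup.mk' N) x = (QuotientGroup.mk' N) x * (QuotientGroup.mk' N) y := by
      intro x hx y
      have h4 : (⊤ : Subgroup D) ≤ (Subgroup.centralizer {(QuotientGroup.mk' N) x}).comap (QuotientGroup.mk' N) := by
        rw [← ih, Subgroup.closure_le]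
        intro y hy
        rw [SetLike.mem_coe, Subgroup.mem_comap, Subgroup.mem_centralizer_singleton_iff]
        exact h1 x hx y hy
      have h5 := h4 (Subgroup.mem_top y)
      rw [Subgroup.mem_comap, Subgroup.mem_centralizer_singleton_iff] at h5
      exact h5
    have h6 : ∀ x y : D,
        (QuotientGroup.mk' N) y * (QuotientGroup.mk' N) x = (QuotientGroup.mk' N) x * (QuotientGroup.mk' N) y := by
      intro x y
      have h4 : (⊤ : Subgroup D) ≤ (Subgroup.centralizer {(QuotientGroup.mk' N) y}).comap (QuotientGroup.mk' N) := by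
        rw [← ih, Subgroup.closure_le]
        intro x hx
        rw [SetLike.mem_coe, Subgroup.mem_comap, Subgroup.mem_centralizer_singleton_iff]
        exact (h3 x hx y).symm
      have h5 := h4 (Subgroup.mem_top x)
      rw [Subgroup.mem_comap, Subgroup.mem_centralizer_singleton_iff] at h5
      exact h5.symm
    rw [← hN, eq_top_iff, ← h, Subgroup.commutator_le]
    intro x _ y _
    rw [← hq, map_commutatorElement, commutatorElement_eq_one_iff_mul_comm]
    exact (h6 x y).symm

open scoped Pointwise in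
/-- PROOF. `D` is finite and generated by `CC D k`, which is closed under inverses and contains `1` (`1 = x x x⁻¹ x⁻¹`; `1 ∈ CC D k` by induction). The sets of the products of `n` elements of
`CC D k` increase, and become stationary after at most `Nat.card D` steps (as soon as two consecutive ones are equal). -/
theorem word_CC {D : Type*} [Group D] [Finite D] (h : ⁅(⊤ : Subgroup D), (⊤ : Subgroup D)⁆ = ⊤) (k : ℕ)
    (t : D) : ∃ l : List D, l.length ≤ Nat.card D ∧ (∀ x ∈ l, x ∈ CC D k) ∧ l.prod = t := by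
  have := Fintype.ofFinite D
  have h1 : (1 : D) ∈ CC D k := by
    induction k with
    | zero => exact Set.mem_univ _
    | succ k ih => exact ⟨1, ih, 1, ih, by simp⟩
  obtain ⟨P, hP⟩ : ∃ P, P = powCardSubgroup (CC D k) ⟨1, h1⟩ := ⟨_, rfl⟩
  have hPc : (P : Set D) = CC D k ^ Fintype.card D := by rw [hP]; exact coe_powCardSubgroup _ _
  have h2 : Subgroup.closure (CC D k) ≤ P := by
    rw [Subgroup.closure_le, hPc]
    have h3 : CC D k ^ 1 ⊆ CC D k ^ Fintype.card D :=
      Set.pow_subset_pow_right h1 Fintype.card_pos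
    rwa [pow_one] at h3
  rw [closure_CC h k] at h2
  have h3 : t ∈ CC D k ^ Fintype.card D := by
    rw [← hPc]
    exact h2 (Subgroup.mem_top t)
  rw [Set.mem_pow] at h3
  obtain ⟨f, hf⟩ := h3
  refine ⟨List.ofFn fun i => (f i : D), ?_, ?_, hf⟩
  · rw [List.length_ofFn, Nat.card_eq_fintype_card]
  · intro x hx
    rw [List.mem_ofFn] at hx
    obtain ⟨i, rfl⟩ := hx
    exact (f i).2

end ALG
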