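import Pool.Agent.ALG.Defs

/-!
# [ALG-B3] balanced commutators kill many quotients
-/

set_option autoImplicit false

namespace ALG

open AG

theorem b3_card_le_one {ι : Type*} (I : Finset ι) (h : I.card ≤ 1) :
    I = ∅ ∨ ∃ i, I ⊆ {i} := by
  rcases Nat.le_one_iff_eq_zero_or_eq_one.mp h with h | h
  · exact Or.inl (Finset.card_eq_zero.mp h)
  · obtain ⟨i, hi⟩ := Finset.card_eq_one.mp h
    exact Or.inr ⟨i, by rw [hi]⟩

/-- PROOF. Induction on `k`, for all `I` and `z`. `k = 0`: `I` is empty (use `h0`) or `I = {i}` (use `h`). Step: split `I = I₁ ∪ I₂` with `I₁.card ≤ 2 ^ k`, `I₂.card ≤ 2 ^ k`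
(`Finset.exists_subset_card_eq` or similar), `z = x y x⁻¹ y⁻¹`, `x, y ∈ CC D k`; take `g₁` for `I₁, x` and `g₂` for `I₂, y` and `g = g₁ g₂ g₁⁻¹ g₂⁻¹`: `ψ i g = 1` for `i ∈ I₁`
(`ψ i g₁ = 1`) and for `i ∈ I₂`, and the length is at most `4 * (4 ^ k * B)`. -/
theorem tree {G Λ : Type*} [Group G] [Group Λ] (S : Finset G) (φ : G →* Λ) (D : Subgroup Λ)
    {ι : Type*} (Λ' : ι → Type*) [∀ i, Group (Λ' i)] (ψ : ∀ i, G →* Λ' i) (B : ℕ)
    (h0 : ∀ t ∈ D, ∃ g ∈ ball S B, φ g = t)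
    (h : ∀ i, ∀ t ∈ D, ∃ g ∈ ball S B, ψ i g = 1 ∧ φ g = t) (k : ℕ) (I : Finset ι)
    (hI : I.card ≤ 2 ^ k) (z : D) (hz : z ∈ CC D k) :
    ∃ g ∈ ball S (4 ^ k * B), (∀ i ∈ I, ψ i g = 1) ∧ φ g = (z : Λ) := by
  classical
  induction k generalizing I z with
  | zero =>
    rw [pow_zero, one_mul]
    rw [pow_zero] at hI
    rcases b3_card_le_one I hI with hI | ⟨i, hi⟩
    · obtain ⟨g, hg, h1⟩ := h0 z z.2
      refine ⟨g, hg, ?_, h1⟩
      intro i hi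
      rw [hI] at hi
      exact absurd hi (Finset.notMem_empty i)
    · obtain ⟨g, hg, h1, h2⟩ := h i z z.2
      refine ⟨g, hg, ?_, h2⟩
      intro j hj
      have := hi hj
      rw [Finset.mem_singleton] at this
      rw [this]
      exact h1
  | succ k ih =>
    obtain ⟨x, hx, y, hy, rfl⟩ := hz
    obtain ⟨I₁, hI₁, hc⟩ := Finset.exists_subset_card_eq (s := I) (n := I.card / 2) (Nat.div_le_self _ _)
    have hc2 : (I \ I₁).card = I.card - I.card / 2 := by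
      rw [Finset.card_sdiff_of_subset hI₁, hc]
    rw [pow_succ] at hI
    obtain ⟨g₁, hg₁, h1, h2⟩ := ih I₁ (by omega) x hx
    obtain ⟨g₂, hg₂, h3, h4⟩ := ih (I \ I₁) (by omega) y hy
    refine ⟨g₁ * g₂ * g₁⁻¹ * g₂⁻¹, ?_, ?_, ?_⟩
    · refine ball_mono S ?_ (mul_mem_ball (mul_mem_ball (mul_mem_ball hg₁ hg₂) (inv_mem_ball hg₁)) (inv_mem_ball hg₂))
      rw [pow_succ]
      apply le_of_eq
      ring
    · intro i hi
      by_cases hi1 : i ∈ I₁
      · simp [h1 i hi1]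
      · have h5 := h3 i (Finset.mem_sdiff.mpr ⟨hi, hi1⟩)
        simp [h5]
    · simp [h2, h4]

end ALG
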