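import Pool.Agent.ALG.B1
import Pool.Agent.ALG.B2
import Pool.Agent.ALG.B3

/-!
# [ALG-B4] isolation of a perfect quotient
-/

set_option autoImplicit false

namespace ALG

open AG

/-- PROOF. Let `k` be minimal with `M ≤ 2 ^ k`; since `1 ≤ M`, `2 ^ k ≤ 2 M` and `4 ^ k ≤ 4 M²`. `short_word` for the homomorphism `g ↦ (φ g, ψ i g)` to `Λ × Λ' i` (at most `b²`
elements) turns `h` into the hypothesis `h` of `tree` with `B = b ^ 2`; `h0` in the same way. `word_CC` for the group `D` (`⁅(⊤ : Subgroup D), (⊤ : Subgroup D)⁆ = ⊤` follows from `hD`;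
`Nat.card D ≤ Nat.card Λ ≤ b`) writes `t` as a product of at most `b` elements of `CC D k`; for each take the element of `tree` with `I = Finset.univ` (`ι` is finite), and multiply.
Length at most `b * (4 ^ k * b ^ 2) ≤ 4 M² b³`. -/
theorem isolate {G Λ : Type*} [Group G] [Group Λ] [Finite Λ] (S : Finset G)
    (hS : Subgroup.closure (S : Set G) = ⊤) (φ : G →* Λ) (D : Subgroup Λ) (hD : ⁅D, D⁆ = D)
    (hφ : D ≤ φ.range) {ι : Type*} [Finite ι] (Λ' : ι → Type*) [∀ i, Group (Λ' i)]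
    [∀ i, Finite (Λ' i)] (ψ : ∀ i, G →* Λ' i) (h : ∀ i, ∀ t ∈ D, ∃ g, ψ i g = 1 ∧ φ g = t)
    (b M : ℕ) (hb : Nat.card Λ ≤ b) (hb' : ∀ i, Nat.card (Λ' i) ≤ b) (hM : Nat.card ι ≤ M)
    (hM1 : 1 ≤ M) (t : Λ) (ht : t ∈ D) :
    ∃ g ∈ ball S (4 * M ^ 2 * b ^ 3), (∀ i, ψ i g = 1) ∧ φ g = t := by
  have := Fintype.ofFinite ι
  have hb1 : 1 ≤ b := le_trans Nat.card_pos hb
  have hbb : b ≤ b ^ 2 := by nlinarith
  -- the level
  obtain ⟨k, hk1, hk2⟩ : ∃ k, M ≤ 2 ^ k ∧ 2 ^ k ≤ 2 * M := by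
    refine ⟨Nat.log 2 M + 1, (Nat.lt_pow_succ_log_self (by norm_num) M).le, ?_⟩
    have h1 := Nat.pow_log_le_self 2 (x := M) (by omega)
    rw [pow_succ]
    omega
  -- the hypotheses of `tree`
  have h0' : ∀ t ∈ D, ∃ g ∈ ball S (b ^ 2), φ g = t := by
    intro t ht
    obtain ⟨g, rfl⟩ := hφ ht
    obtain ⟨h, hh, he⟩ := short_word S hS φ g
    exact ⟨h, ball_mono S (le_trans hb hbb) hh, he⟩
  have h' : ∀ i, ∀ t ∈ D, ∃ g ∈ ball S (b ^ 2), ψ i g = 1 ∧ φ g = t := by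
    intro i t ht
    obtain ⟨g, hg1, hg2⟩ := h i t ht
    obtain ⟨g', hg', he⟩ := short_word S hS (φ.prod (ψ i)) g
    rw [MonoidHom.prod_apply, MonoidHom.prod_apply, Prod.mk.injEq, hg1, hg2] at he
    refine ⟨g', ball_mono S ?_ hg', he.2, he.1⟩
    rw [Nat.card_prod, pow_two]
    exact Nat.mul_le_mul hb (hb' i)
  -- `D` is perfect
  have hD' : ⁅(⊤ : Subgroup D), (⊤ : Subgroup D)⁆ = ⊤ := by
    apply Subgroup.map_injective D.subtype_injective
    rw [Subgroup.map_commutator, ← MonoidHom.range_eq_map, Subgroup.range_subtype, hD]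
  obtain ⟨l, hl1, hl2, hl3⟩ := word_CC hD' k ⟨t, ht⟩
  have key : ∀ l : List D, (∀ x ∈ l, x ∈ CC D k) → ∃ g ∈ ball S (l.length * (4 ^ k * b ^ 2)),
      (∀ i, ψ i g = 1) ∧ φ g = ((l.prod : D) : Λ) := by
    intro l
    induction l with
    | nil => intro _; exact ⟨1, one_mem_ball S _, fun i => map_one _, by simp⟩
    | cons a l ih =>
      intro hl
      obtain ⟨g, hg1, hg2, hg3⟩ := ih fun x hx => hl x (List.mem_cons_of_mem a hx)
      obtain ⟨g', hg1', hg2', hg3'⟩ := tree S φ D Λ' ψ (b ^ 2) h0' h' k Finset.univ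
        (by rw [Finset.card_univ, ← Nat.card_eq_fintype_card]; exact le_trans hM hk1) a (hl a List.mem_cons_self)
      refine ⟨g' * g, ?_, ?_, ?_⟩
      · refine ball_mono S ?_ (mul_mem_ball hg1' hg1)
        rw [List.length_cons, add_mul, one_mul, add_comm]
      · intro i
        rw [map_mul, hg2 i, hg2' i (Finset.mem_univ i), one_mul]
      · rw [map_mul, hg3, hg3', List.prod_cons, Subgroup.coe_mul]
  obtain ⟨g, hg1, hg2, hg3⟩ := key l hl2
  refine ⟨g, ball_mono S ?_ hg1, hg2, by rw [hg3, hl3]⟩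
  have h4 : 4 ^ k ≤ 4 * M ^ 2 := by
    calc 4 ^ k = (2 ^ k) ^ 2 := by rw [← pow_mul, mul_comm, pow_mul]; norm_num
      _ ≤ (2 * M) ^ 2 := Nat.pow_le_pow_left hk2 2
      _ = 4 * M ^ 2 := by ring
  have hDb : Nat.card D ≤ b := le_trans (Nat.card_le_card_of_injective D.subtype D.subtype_injective) hb
  calc l.length * (4 ^ k * b ^ 2) ≤ b * (4 * M ^ 2 * b ^ 2) :=
        Nat.mul_le_mul (le_trans hl1 hDb) (Nat.mul_le_mul_right _ h4)
    _ = 4 * M ^ 2 * b ^ 3 := by ring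

end ALG
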