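import Pool.Agent.ALG.Defs

/-!
# [ALG-C1] simple quotients
-/

set_option autoImplicit false

namespace ALG

/-- PROOF. `φ(ker ψ)` is a normal subgroup of the simple group `T`. If it is trivial then `ker ψ ≤ ker φ`, and `ψ(ker φ)` is a normal subgroup of `T'`, so it is trivial
(then `ker φ ≤ ker ψ`, so they are equal, contradiction) or everything (then `ker φ ⊔ ker ψ = ⊤`, i.e. `ker φ = ⊤` and `T` is trivial, contradiction). So `φ(ker ψ) = T`. -/
theorem simple_indep {G T T' : Type*} [Group G] [Group T] [Group T'] [IsSimpleGroup T]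
    [IsSimpleGroup T'] (φ : G →* T) (ψ : G →* T') (hφ : Function.Surjective φ)
    (hψ : Function.Surjective ψ) (h : φ.ker ≠ ψ.ker) (t : T) : ∃ g, ψ g = 1 ∧ φ g = t := by
  have hn : (ψ.ker.map φ).Normal := Subgroup.Normal.map inferInstance φ hφ
  rcases hn.eq_bot_or_eq_top with h1 | h1
  · exfalso
    have h2 : ψ.ker ≤ φ.ker := by
      intro x hx
      have : φ x ∈ ψ.ker.map φ := Subgroup.mem_map_of_mem φ hx
      rw [h1, Subgroup.mem_bot] at this
      exact this
    have hn2 : (φ.ker.map ψ).Normal := Subgroup.Normal.map inferInstance ψ hψ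
    rcases hn2.eq_bot_or_eq_top with h3 | h3
    · apply h
      refine le_antisymm ?_ h2
      intro x hx
      have : ψ x ∈ φ.ker.map ψ := Subgroup.mem_map_of_mem ψ hx
      rw [h3, Subgroup.mem_bot] at this
      exact this
    · -- `φ.ker = ⊤`
      obtain ⟨a, ha⟩ := exists_ne (1 : T)
      obtain ⟨x, rfl⟩ := hφ a
      have h4 : ψ x ∈ φ.ker.map ψ := by rw [h3]; exact Subgroup.mem_top _
      obtain ⟨y, hy, hyx⟩ := h4
      have h5 : y⁻¹ * x ∈ ψ.ker := by rw [MonoidHom.mem_ker, map_mul, map_inv, hyx, inv_mul_cancel]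
      have h6 := h2 h5
      rw [MonoidHom.mem_ker, map_mul, map_inv, MonoidHom.mem_ker.mp hy, inv_one, one_mul] at h6
      exact ha h6
  · have h2 : t ∈ ψ.ker.map φ := by rw [h1]; exact Subgroup.mem_top _
    obtain ⟨g, hg, hgt⟩ := h2
    exact ⟨g, hg, hgt⟩

/-- PROOF. The quotient of `G` by the common kernel. -/
theorem equiv_of_ker_eq {G T T' : Type*} [Group G] [Group T] [Group T'] (φ : G →* T)
    (ψ : G →* T') (hφ : Function.Surjective φ) (hψ : Function.Surjective ψ)
    (h : φ.ker = ψ.ker) : ∃ β : T ≃* T', ∀ g, ψ g = β (φ g) := by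
  refine ⟨((QuotientGroup.quotientKerEquivOfSurjective φ hφ).symm.trans
    (QuotientGroup.quotientMulEquivOfEq h)).trans (QuotientGroup.quotientKerEquivOfSurjective ψ hψ), fun g => ?_⟩
  have h1 : (QuotientGroup.quotientKerEquivOfSurjective φ hφ).symm (φ g) = (g : G ⧸ φ.ker) := by
    rw [MulEquiv.symm_apply_eq]
    rfl
  rw [MulEquiv.trans_apply, MulEquiv.trans_apply, h1]
  rfl

/-- PROOF. The commutator subgroup is normal and not trivial. -/
theorem perfect_of_simple {T : Type*} [Group T] [IsSimpleGroup T]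
    (h : ∃ x y : T, x * y ≠ y * x) : ⁅(⊤ : Subgroup T), (⊤ : Subgroup T)⁆ = ⊤ := by
  have hn : (⁅(⊤ : Subgroup T), (⊤ : Subgroup T)⁆).Normal := inferInstance
  rcases hn.eq_bot_or_eq_top with h1 | h1
  · exfalso
    obtain ⟨x, y, hxy⟩ := h
    have h2 := Subgroup.commutator_mem_commutator (Subgroup.mem_top x) (Subgroup.mem_top y)
    rw [h1, Subgroup.mem_bot, commutatorElement_eq_one_iff_mul_comm] at h2
    exact hxy h2
  · exact h1

end ALG
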