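import Pool.Agent.ALG.B4
import Pool.Agent.ALG.C1

/-!
# [ALG-C2] groups with many finite simple quotients
-/

set_option autoImplicit false

namespace ALG

open AG

/-- PROOF. Let `k = S.card`, `f i : G →* T i` surjective. For fixed `i` let `ι` be the type of the pairs `(j, ψ)`, `ψ : G →* T j` surjective with `ψ.ker ≠ (f i).ker`; it has at most
`∑_j (T j).card ^ k ≤ Q * Q ^ k` elements (a homomorphism is determined by its values on `S`). Apply `isolate` to `φ = f i`, `D = ⊤` (perfect by `perfect_of_simple`), `ψ` (hypothesis `h`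
by `simple_indep`), `b = Q`, `M = Q ^ (k+1)`: for every `t : T i` there is `g` of length at most `4 Q^(2k+2) Q^3` with `f i g = t` and `ψ g = 1` for all the `ψ` above. -/
theorem isolate_simple {G : Type*} [Group G] (S : Finset G)
    (hS : Subgroup.closure (S : Set G) = ⊤) {Q s : ℕ} (T : Fin s → Type) [∀ i, Group (T i)]
    [∀ i, Finite (T i)] [∀ i, IsSimpleGroup (T i)] (hab : ∀ i, ∃ x y : T i, x * y ≠ y * x)
    (hsQ : s ≤ Q) (hQ : 2 ≤ Q) (hcard : ∀ i, Nat.card (T i) ≤ Q) (f : ∀ i, G →* T i)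
    (hf : ∀ i, Function.Surjective (f i)) (i : Fin s) (t : T i) :
    ∃ g ∈ ball S (4 * Q ^ (2 * S.card + 5)), f i g = t ∧
      ∀ (j : Fin s) (ψ : G →* T j), Function.Surjective ψ → ψ.ker ≠ (f i).ker → ψ g = 1 := by
  classical
  obtain ⟨ι, hι⟩ : ∃ ι : Type _, ι = (Σ j : Fin s, {ψ : G →* T j // Function.Surjective ψ ∧ ψ.ker ≠ (f i).ker}) := ⟨_, rfl⟩
  -- the homomorphisms are determined by the values on `S`
  have hinj : ∀ j, Function.Injective (fun (ψ : G →* T j) (x : S) => ψ x) := by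
    intro j ψ ψ' h
    refine MonoidHom.eq_of_eqOn_dense hS fun x hx => ?_
    exact congrFun h ⟨x, hx⟩
  have hfinj : ∀ j, Finite (G →* T j) := fun j => Finite.of_injective _ (hinj j)
  have hcardj : ∀ j, Nat.card (G →* T j) ≤ Q ^ S.card := by
    intro j
    calc Nat.card (G →* T j) ≤ Nat.card (S → T j) := Nat.card_le_card_of_injective _ (hinj j)
      _ = Nat.card (T j) ^ S.card := by rw [Nat.card_fun, Nat.card_eq_fintype_card (α := S), Fintype.card_coe]
      _ ≤ Q ^ S.card := Nat.pow_le_pow_left (hcard j) _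
  have hιfin : Finite ι := by rw [hι]; infer_instance
  have hιcard : Nat.card ι ≤ Q ^ (S.card + 1) := by
    rw [hι, Nat.card_sigma]
    calc ∑ j : Fin s, Nat.card {ψ : G →* T j // Function.Surjective ψ ∧ ψ.ker ≠ (f i).ker} ≤
        ∑ _j : Fin s, Q ^ S.card := Finset.sum_le_sum fun j _ =>
          le_trans (Nat.card_le_card_of_injective _ Subtype.val_injective) (hcardj j)
      _ = s * Q ^ S.card := by rw [Finset.sum_const, Finset.card_univ, Fintype.card_fin, smul_eq_mul]
      _ ≤ Q * Q ^ S.card := Nat.mul_le_mul_right _ hsQ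
      _ = Q ^ (S.card + 1) := by rw [pow_succ']
  subst hι
  obtain ⟨g, hg1, hg2, hg3⟩ := isolate S hS (f i) ⊤ (perfect_of_simple (hab i))
    (by rw [MonoidHom.range_eq_top.mpr (hf i)])
    (ι := Σ j : Fin s, {ψ : G →* T j // Function.Surjective ψ ∧ ψ.ker ≠ (f i).ker})
    (fun x => T x.1) (fun x => x.2.1)
    (fun x t _ => simple_indep (f i) x.2.1 (hf i) x.2.2.1 (fun h => x.2.2.2 h.symm) t)
    Q (Q ^ (S.card + 1)) (hcard i) (fun x => hcard x.1) hιcard (Nat.one_le_pow _ _ (by omega)) t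
    (Subgroup.mem_top t)
  refine ⟨g, ball_mono S ?_ hg1, hg3, fun j ψ h1 h2 => hg2 ⟨j, ψ, h1, h2⟩⟩
  apply le_of_eq
  rw [← pow_mul]
  ring

end ALG
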