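import Pool.Agent.ALG.A2
import Pool.Agent.ALG.C2

/-!
# [ALG-C3] groups with many finite simple quotients
-/

set_option autoImplicit false

namespace ALG

open AG

theorem c3_prod_ball {G : Type*} [Group G] (S : Finset G) (B : ℕ) (l : List G)
    (h : ∀ x ∈ l, x ∈ ball S B) : l.prod ∈ ball S (l.length * B) := by
  induction l with
  | nil => simpa using one_mem_ball S 0
  | cons a l ih =>
    rw [List.prod_cons, List.length_cons, Nat.succ_mul, Nat.add_comm]
    exact mul_mem_ball (h a List.mem_cons_self) (ih fun x hx => h x (List.mem_cons_of_mem _ hx))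

theorem c3_single {ι M : Type*} [DecidableEq ι] [Monoid M] (a : ι → M) (j : ι)
    (ha : ∀ i, i ≠ j → a i = 1) (l : List ι) (hl : l.Nodup) :
    (l.map a).prod = if j ∈ l then a j else 1 := by
  induction l with
  | nil => simp
  | cons b l ih =>
    rw [List.nodup_cons] at hl
    rw [List.map_cons, List.prod_cons, ih hl.2]
    by_cases hb : b = j
    · subst hb
      simp [hl.1]
    · rw [ha b hb, one_mul]
      have h1 : (j ∈ b :: l) ↔ j ∈ l := by
        rw [List.mem_cons]
        constructor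
        · rintro (h | h)
          · exact absurd h.symm hb
          · exact h
        · exact Or.inr
      simp only [h1]

theorem c3_arith (C₀ d k Q s : ℕ) (hQ : 2 ≤ Q) (hs : s ≤ Q) :
    C₀ * (s * (4 * Q ^ (2 * k + 5)) + 1) ^ d ≤ Q ^ (C₀ + 3 * d + (2 * k + 6) * d) := by
  have h1 : s * (4 * Q ^ (2 * k + 5)) + 1 ≤ Q ^ 3 * Q ^ (2 * k + 6) := by
    have h2 : s * (4 * Q ^ (2 * k + 5)) ≤ 4 * Q ^ (2 * k + 6) := by
      calc s * (4 * Q ^ (2 * k + 5)) ≤ Q * (4 * Q ^ (2 * k + 5)) := Nat.mul_le_mul_right _ hs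
        _ = 4 * Q ^ (2 * k + 6) := by ring
    have h3 : 1 ≤ Q ^ (2 * k + 6) := Nat.one_le_pow _ _ (by omega)
    have h4 : 8 ≤ Q ^ 3 := by
      calc 8 = 2 ^ 3 := by norm_num
        _ ≤ Q ^ 3 := Nat.pow_le_pow_left hQ 3
    nlinarith
  have h5 : C₀ ≤ Q ^ C₀ := (Nat.lt_pow_self (by omega)).le
  calc C₀ * (s * (4 * Q ^ (2 * k + 5)) + 1) ^ d ≤ Q ^ C₀ * (Q ^ 3 * Q ^ (2 * k + 6)) ^ d :=
        Nat.mul_le_mul h5 (Nat.pow_le_pow_left h1 d)
    _ = Q ^ (C₀ + 3 * d + (2 * k + 6) * d) := by
        rw [mul_pow, ← pow_mul, ← pow_mul, ← pow_add, ← pow_add]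
        congr 1
        ring

/-- PROOF. Suppose `autGrowth S n ≤ C₀ (n+1)^d`; `k = S.card`. Put `C = C₀ + 3 d + (2k+6) d` and take `Q, s, T` from `h C`, `f i : G →* T i` surjective. Let
`c i ∈ Set.range (autOrbit (G := T i))` be a choice of orbits, and `t i` a representative of `c i`. With the `g_i` of `isolate_simple` for `i, t i` let `g_c = ∏ g_i` (in some order), its length
is at most `4 Q^(2k+6)`. For a surjective `ψ : G →* T j`: `ψ g_i = 1` if `ψ.ker ≠ (f i).ker`; if `i ≠ j` the kernels are different (`equiv_of_ker_eq`). So `ψ g_c = ψ g_j`, and this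
is `1` if `ψ.ker ≠ (f j).ker` and `β (t j)`, `β ∈ Aut (T j)`, if `ψ.ker = (f j).ker` (`equiv_of_ker_eq`). So `{autOrbit (ψ g_c) | ψ surjective onto T j}` is contained in
`{autOrbit 1, c j}` and contains `c j`; this set depends only on the `Aut G`-orbit of `g_c` (`ψ ↦ ψ ∘ φ`). If `φ g_c = g_c'` then for every `j`: `c j ∈ {autOrbit 1, c' j}` and
`c' j ∈ {autOrbit 1, c j}`, so `c j = c' j`. By `le_autGrowth` (with `ι = ∀ i, Set.range autOrbit`, of cardinality `∏ autClasses (T i)`):
`Q^C < ∏ autClasses (T i) ≤ autGrowth S (4 Q^(2k+6)) ≤ C₀ (4 Q^(2k+6) + 1)^d ≤ 2^C₀ (2^3 Q^(2k+6))^d ≤ Q^C`, a contradiction. -/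
theorem not_polyBdd_of_manySimple {G : Type*} [Group G] (S : Finset G)
    (hS : Subgroup.closure (S : Set G) = ⊤) (h : ManySimple G) : ¬ PolyBdd (autGrowth S) := by
  classical
  rintro ⟨C₀, d, hbd⟩
  obtain ⟨Q, s, T, hT, hsQ, hQ, hall, hiso, hprod⟩ :=
    h (C₀ + 3 * d + (2 * S.card + 6) * d)
  have i1 : ∀ i, IsSimpleGroup (T i) := fun i => (hall i).1
  have i2 : ∀ i, Finite (T i) := fun i => (hall i).2.2.1
  have hab : ∀ i, ∃ x y : T i, x * y ≠ y * x := fun i => (hall i).2.1
  have hcard : ∀ i, Nat.card (T i) ≤ Q := fun i => (hall i).2.2.2.1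
  choose f hf using fun i => (hall i).2.2.2.2
  choose g hgball hgf hgψ using
    fun (i : Fin s) (t : T i) => isolate_simple S hS T hab hsQ hQ hcard f hf i t
  let t : (∀ i, Set.range (autOrbit (G := T i))) → ∀ i, T i := fun c i => (c i).2.choose
  have ht : ∀ c i, autOrbit (t c i) = (c i : Set (T i)) := fun c i => (c i).2.choose_spec
  let E : (∀ i, Set.range (autOrbit (G := T i))) → G := fun c =>
    ((List.finRange s).map fun i => g i (t c i)).prod
  have hψE : ∀ c j (ψ : G →* T j), Function.Surjective ψ → ψ (E c) = ψ (g j (t c j)) := by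
    intro c j ψ hψ
    show ψ (((List.finRange s).map fun i => g i (t c i)).prod) = _
    rw [map_list_prod, List.map_map]
    rw [c3_single (ψ ∘ fun i => g i (t c i)) j ?_ _ (List.nodup_finRange s)]
    · rw [if_pos (List.mem_finRange j)]
      rfl
    · intro i hij
      refine hgψ i (t c i) j ψ hψ ?_
      intro hker
      obtain ⟨β, -⟩ := equiv_of_ker_eq ψ (f i) hψ (hf i) hker
      exact (hiso j i (Ne.symm hij)).false β
  have hA : ∀ c j (ψ : G →* T j), Function.Surjective ψ →
      autOrbit (ψ (E c)) = autOrbit 1 ∨ autOrbit (ψ (E c)) = (c j : Set (T j)) := by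
    intro c j ψ hψ
    rw [hψE c j ψ hψ]
    by_cases hker : ψ.ker = (f j).ker
    · right
      obtain ⟨β, hβ⟩ := equiv_of_ker_eq (f j) ψ (hf j) hψ hker.symm
      rw [hβ, hgf, ← ht c j]
      exact ((autOrbit_eq_iff _ _).2 ⟨β, rfl⟩).symm
    · left
      rw [hgψ j (t c j) j ψ hψ hker]
  have hB : ∀ c j, autOrbit (f j (E c)) = (c j : Set (T j)) := by
    intro c j
    rw [hψE c j (f j) (hf j), hgf, ht]
  have hstep : ∀ c c' (φ : MulAut G), φ (E c) = E c' → ∀ j,
      (c' j : Set (T j)) = autOrbit 1 ∨ (c' j : Set (T j)) = (c j : Set (T j)) := by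
    intro c c' φ hφ j
    have h1 := hA c j ((f j).comp φ.toMonoidHom) ((hf j).comp φ.surjective)
    have h2 : ((f j).comp φ.toMonoidHom) (E c) = f j (E c') := by
      rw [← hφ]
      rfl
    rw [h2, hB] at h1
    exact h1
  have hle := le_autGrowth S (s * (4 * Q ^ (2 * S.card + 5))) E (by
    intro c
    have h1 := c3_prod_ball S (4 * Q ^ (2 * S.card + 5))
      ((List.finRange s).map fun i => g i (t c i)) (by
        intro x hx
        rw [List.mem_map] at hx
        obtain ⟨i, -, rfl⟩ := hx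
        exact hgball i (t c i))
    rw [List.length_map, List.length_finRange] at h1
    exact h1) (by
    rintro c c' ⟨φ, hφ⟩
    funext j
    apply Subtype.ext
    have h1 := hstep c c' φ hφ j
    have h2 := hstep c' c φ⁻¹ (by
      rw [← hφ]
      exact φ.symm_apply_apply (E c)) j
    rcases h1 with h1 | h1
    · rcases h2 with h2 | h2
      · rw [h1, h2]
      · exact h2
    · exact h1.symm)
  have hcd : Nat.card (∀ i, Set.range (autOrbit (G := T i))) = ∏ i, autClasses (T i) := by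
    rw [Nat.card_pi]
    rfl
  rw [hcd] at hle
  exact absurd (hprod.trans_le (hle.trans ((hbd _).trans (c3_arith C₀ d S.card Q s hQ hsQ))))
    (lt_irrefl _)

end ALG
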