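import Pool.Agent.ALG.Defs

/-!
# [ALG-D1] a finite linear group without nonsolvable `p`-part is solvable up to bounded index
-/

set_option autoImplicit false

namespace ALG

/-- PROOF. If `p ∣ Nat.card ρ.range`, take an element `ρ x` of order `p` (Cauchy), `orderOf x = p^a m`, `p ∤ m`, then `x ^ m ∈ pE p Γ` and `ρ (x^m) = (ρ x)^m ≠ 1`, contradiction to `h`. -/
theorem not_dvd_of_trivial {p : ℕ} (hp : p.Prime) {Γ E : Type*} [Group Γ] [Finite Γ]
    [Group E] (ρ : Γ →* E) (h : ∀ u ∈ pE p Γ, ρ u = 1) : ¬ p ∣ Nat.card ρ.range := by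
  intro hdvd
  have : Fact p.Prime := ⟨hp⟩
  have hfin : Finite ρ.range := Finite.of_surjective _ ρ.rangeRestrict_surjective
  obtain ⟨⟨_, ⟨x, rfl⟩⟩, hx⟩ := exists_prime_orderOf_dvd_card' p hdvd
  have hox : 0 < orderOf x := orderOf_pos x
  obtain ⟨a, m, hm, hxm⟩ := Nat.exists_eq_pow_mul_and_not_dvd hox.ne' p hp.one_lt.ne'
  have h1 : x ^ m ∈ pE p Γ := by
    apply Subgroup.subset_closure
    refine ⟨a, ?_⟩
    rw [← pow_mul, mul_comm, ← hxm, pow_orderOf_eq_one]
  have h2 := h _ h1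
  rw [map_pow] at h2
  have h3 : orderOf (ρ x) = p := by
    rw [← hx]
    exact (orderOf_injective ρ.range.subtype Subtype.val_injective ⟨ρ x, x, rfl⟩)
  have h4 : orderOf (ρ x) ∣ m := orderOf_dvd_of_pow_eq_one h2
  rw [h3] at h4
  exact hm h4

end ALG
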