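import Pool.Agent.ALG.J7

/-!
# [ALG-J8] Jordan's theorem for groups of order prime to the characteristic
-/

set_option autoImplicit false

namespace ALG

/-- PROOF. `O = WittVector p F` (`F` is perfect), complete for the ideal `I = span {p}` (`WittVector.isAdicCompleteIdealSpanP`), `O ⧸ I ≃ F` by `WittVector.constantCoeff` (surjective, kernel `I`:
`WittVector.mem_span_p_iff_coeff_zero_eq_zero`). The order of `Λ` is a unit of `O`, its constant coefficient is not `0` (`WittVector.isUnit_of_coeff_zero_ne_zero`). `lift_hom`. -/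
theorem lift_witt {p : ℕ} [Fact p.Prime] {F Λ : Type} [Field F] [Finite F] [CharP F p]
    [Group Λ] [Finite Λ] (hp : ¬ p ∣ Nat.card Λ) {N : ℕ}
    (ρ : Λ →* Matrix.GeneralLinearGroup (Fin N) F) :
    ∃ ρ' : Λ →* Matrix.GeneralLinearGroup (Fin N) (WittVector p F), ∀ x,
      Matrix.GeneralLinearGroup.map (WittVector.constantCoeff) (ρ' x) = ρ x := by
  have hfin := Fintype.ofFinite Λ
  let e : (WittVector p F ⧸ Ideal.span {(p : WittVector p F)}) ≃+* F :=
    WittVector.quotientPEquiv
  have hn : IsUnit ((Fintype.card Λ : ℕ) : WittVector p F) := by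
    apply WittVector.isUnit_of_coeff_zero_ne_zero
    have h1 : ((Fintype.card Λ : ℕ) : WittVector p F).coeff 0 = ((Fintype.card Λ : ℕ) : F) :=
      map_natCast (WittVector.constantCoeff (p := p) (R := F)) _
    rw [h1]
    intro h2
    rw [CharP.cast_eq_zero_iff F p, ← Nat.card_eq_fintype_card] at h2
    exact hp h2
  let ρ₁ : Λ →* Matrix.GeneralLinearGroup (Fin N)
      (WittVector p F ⧸ Ideal.span {(p : WittVector p F)}) :=
    (Matrix.GeneralLinearGroup.map (e.symm : F →+* _)).comp ρ
  obtain ⟨ρ', h⟩ := lift_hom (Ideal.span {(p : WittVector p F)}) hn ρ₁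
  refine ⟨ρ', fun x => ?_⟩
  apply Units.ext
  ext i j
  have h1 := congrArg (fun A : Matrix.GeneralLinearGroup (Fin N)
      (WittVector p F ⧸ Ideal.span {(p : WittVector p F)}) =>
      (A : Matrix (Fin N) (Fin N) (WittVector p F ⧸ Ideal.span {(p : WittVector p F)})) i j) (h x)
  have h2 : Ideal.Quotient.mk (Ideal.span {(p : WittVector p F)})
      ((ρ' x : Matrix (Fin N) (Fin N) (WittVector p F)) i j) =
      e.symm ((ρ x : Matrix (Fin N) (Fin N) F) i j) := h1
  have h3 := congrArg e h2
  rw [RingEquiv.apply_symm_apply] at h3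
  exact h3

end ALG
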