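import Pool.Agent.ALG.J5
import Pool.Agent.ALG.J8

/-!
# [ALG-J8b] the theorem of Jordan for groups of order prime to the characteristic
-/

set_option autoImplicit false

namespace ALG

theorem j8b_charZero (p : ℕ) [hp : Fact p.Prime] (F : Type) [Field F] [Finite F] [CharP F p] :
    CharZero (WittVector p F) := by
  apply charZero_of_inj_zero
  intro n hn
  by_contra h0
  obtain ⟨a, m, hm, rfl⟩ := Nat.exists_eq_pow_mul_and_not_dvd h0 p hp.out.one_lt.ne'
  rw [Nat.cast_mul, Nat.cast_pow] at hn
  rcases mul_eq_zero.mp hn with h1 | h1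
  · exact WittVector.p_nonzero p F (eq_zero_of_pow_eq_zero h1)
  · have h2 : IsUnit ((m : ℕ) : WittVector p F) := by
      apply WittVector.isUnit_of_coeff_zero_ne_zero
      have h3 : ((m : ℕ) : WittVector p F).coeff 0 = ((m : ℕ) : F) :=
        map_natCast (WittVector.constantCoeff (p := p) (R := F)) _
      rw [h3]
      intro h4
      rw [CharP.cast_eq_zero_iff F p] at h4
      exact hm h4
    exact h2.ne_zero h1

theorem j8b_map_injective {R S : Type*} [CommRing R] [CommRing S] {N : ℕ} (f : R →+* S)
    (hf : Function.Injective f) (A B : Matrix.GeneralLinearGroup (Fin N) R)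
    (h : Matrix.GeneralLinearGroup.map f A = Matrix.GeneralLinearGroup.map f B) : A = B := by
  apply Units.ext
  ext i j
  apply hf
  exact congrArg (fun C : Matrix.GeneralLinearGroup (Fin N) S =>
    (C : Matrix (Fin N) (Fin N) S) i j) h

/-- PROOF. `J` of `jordan_charZero N`. Lift `ρ` by `lift_witt`, compose with the injection of `WittVector p F` (an integral domain) into its field of fractions, which has characteristic zero (if
`n = 0` in `WittVector p F` with `n = p^a m`, `p ∤ m`: `m` is a unit and `p ≠ 0`, `WittVector.p_nonzero`). The `B` of `jordan_charZero` works: the images of the elements of `B` commute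
over the field of fractions, so over `WittVector p F`, so over `F`. -/
theorem jordan_coprime (N : ℕ) : ∃ J : ℕ, ∀ (p : ℕ) (_ : p.Prime) (F Λ : Type) [Field F]
    [Finite F] [CharP F p] [Group Λ] [Finite Λ], ¬ p ∣ Nat.card Λ →
    ∀ ρ : Λ →* Matrix.GeneralLinearGroup (Fin N) F, ∃ B : Subgroup Λ, B.index ≤ J ∧
      ∀ x ∈ B, ∀ y ∈ B, ρ x * ρ y = ρ y * ρ x := by
  obtain ⟨J, hJ⟩ := jordan_charZero N
  refine ⟨J, fun p hp F Λ _ _ _ _ _ hdvd ρ => ?_⟩
  have hfp : Fact p.Prime := ⟨hp⟩
  obtain ⟨ρ', h⟩ := lift_witt hdvd ρ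
  have hcz := j8b_charZero p F
  have hinj : Function.Injective (algebraMap (WittVector p F) (FractionRing (WittVector p F))) :=
    IsFractionRing.injective _ _
  have hcz' : CharZero (FractionRing (WittVector p F)) :=
    charZero_of_injective_algebraMap hinj
  obtain ⟨B, hB, hcomm⟩ := hJ (FractionRing (WittVector p F)) Λ
    ((Matrix.GeneralLinearGroup.map
      (algebraMap (WittVector p F) (FractionRing (WittVector p F)))).comp ρ')
  refine ⟨B, hB, fun x hx y hy => ?_⟩
  have h1 := hcomm x hx y hy
  rw [MonoidHom.comp_apply, MonoidHom.comp_apply] at h1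
  have h2 : ρ' x * ρ' y = ρ' y * ρ' x := by
    apply j8b_map_injective _ hinj
    rw [map_mul, map_mul, h1]
  have h3 := congrArg (Matrix.GeneralLinearGroup.map (WittVector.constantCoeff (p := p) (R := F))) h2
  rw [map_mul, map_mul, h x, h y] at h3
  exact h3

end ALG
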