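import Pool.Agent.ALG.I6
import Pool.Agent.ALG.J8b
import Pool.Agent.ALG.D1

/-!
# [ALG-D1b] a finite linear group without nonsolvable p-part is solvable up to bounded index
-/

set_option autoImplicit false

namespace ALG

theorem d1b_dser_anti {G : Type*} [Group G] (K : Subgroup G) (i : ℕ) :
    dser K (i + 1) ≤ dser K i := by
  show ⁅dser K i, dser K i⁆ ≤ dser K i
  rw [Subgroup.commutator_le]
  intro x hx y hy
  rw [commutatorElement_def]
  exact mul_mem (mul_mem (mul_mem hx hy) (inv_mem hx)) (inv_mem hy)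

theorem d1b_dser_le_one {G : Type*} [Group G] (K : Subgroup G) (i : ℕ) :
    dser K (i + 1) ≤ dser K 1 := by
  induction i with
  | zero => exact le_rfl
  | succ i ih => exact (d1b_dser_anti K (i + 1)).trans ih

/-- commuting images kill the commutator subgroup -/
theorem d1b_comm {G E : Type*} [Group G] [Monoid E] (ρ : G →* E) (K : Subgroup G)
    (h : ∀ x ∈ K, ∀ y ∈ K, ρ x * ρ y = ρ y * ρ x) : ∀ z ∈ ⁅K, K⁆, ρ z = 1 := by
  have h1 : ⁅K, K⁆ ≤ ρ.toHomUnits.ker := by
    rw [Subgroup.commutator_le]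
    intro x hx y hy
    rw [MonoidHom.mem_ker, commutatorElement_def, map_mul, map_mul, map_mul, map_inv, map_inv]
    have h2 : ρ.toHomUnits x * ρ.toHomUnits y = ρ.toHomUnits y * ρ.toHomUnits x := by
      apply Units.ext
      exact h x hx y hy
    rw [h2]
    group
  intro z hz
  have h3 := h1 hz
  rw [MonoidHom.mem_ker] at h3
  have h4 := congrArg (fun u : Eˣ => (u : E)) h3
  exact h4

/-- restriction to an invariant subspace -/
def d1b_res {F V Γ : Type*} [Field F] [AddCommGroup V] [Module F V] [Group Γ]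
    (ρ : Γ →* Module.End F V) (W : Submodule F V) (hW : ∀ g, ∀ w ∈ W, ρ g w ∈ W) :
    Γ →* Module.End F W where
  toFun g := (ρ g).restrict (hW g)
  map_one' := by
    ext w
    simp
  map_mul' g h := by
    ext w
    simp [LinearMap.restrict_apply]

/-- the quotient by an invariant subspace -/
def d1b_quo {F V Γ : Type*} [Field F] [AddCommGroup V] [Module F V] [Group Γ]
    (ρ : Γ →* Module.End F V) (W : Submodule F V) (hW : ∀ g, ∀ w ∈ W, ρ g w ∈ W) :
    Γ →* Module.End F (V ⧸ W) where
  toFun g := W.mapQ W (ρ g) (fun w hw => hW g w hw)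
  map_one' := by
    ext w
    simp
  map_mul' g h := by
    ext w
    simp

theorem d1b_irr (N J : ℕ) (Jf : ℕ → ℕ) (hJ : ∀ n, n ≤ N → Jf n ≤ J)
    (hJf : ∀ n, ∀ (p : ℕ) (_ : p.Prime) (F Λ : Type) [Field F]
      [Finite F] [CharP F p] [Group Λ] [Finite Λ], ¬ p ∣ Nat.card Λ →
      ∀ ρ : Λ →* Matrix.GeneralLinearGroup (Fin n) F, ∃ B : Subgroup Λ, B.index ≤ Jf n ∧
        ∀ x ∈ B, ∀ y ∈ B, ρ x * ρ y = ρ y * ρ x)
    (p : ℕ) (hp : p.Prime) (F V Γ : Type) [Field F] [Finite F]
    [CharP F p] [AddCommGroup V] [Module F V] [FiniteDimensional F V] [Group Γ] [Finite Γ]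
    (ρ : Γ →* Module.End F V) (hN : Module.finrank F V ≤ N) (hNp : N ^ 2 < p)
    (hs : Group.IsSolvable (pE p Γ)) (hirr : Irr ρ) :
    ∀ x ∈ lowCore J Γ, ∀ y ∈ lowCore J Γ, ρ x * ρ y = ρ y * ρ x := by
  have hdim : Module.finrank F V ^ 2 < p := lt_of_le_of_lt (Nat.pow_le_pow_left hN 2) hNp
  have h1 : ∀ u ∈ pE p Γ, ρ.toHomUnits u = 1 := by
    intro u hu
    apply Units.ext
    exact irr_finite hp ρ hirr hdim hs u hu
  have h2 := not_dvd_of_trivial hp ρ.toHomUnits h1
  let b := Module.finBasis F V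
  let σ : ρ.toHomUnits.range →* Matrix.GeneralLinearGroup (Fin (Module.finrank F V)) F :=
    (Units.map (LinearMap.toMatrixAlgEquiv b).toAlgHom.toRingHom.toMonoidHom).comp
      ρ.toHomUnits.range.subtype
  have hfin : Finite ρ.toHomUnits.range :=
    Finite.of_surjective _ ρ.toHomUnits.rangeRestrict_surjective
  obtain ⟨B, hB, hcomm⟩ := hJf (Module.finrank F V) p hp F ρ.toHomUnits.range h2 σ
  have h3 : lowCore J Γ ≤ B.comap ρ.toHomUnits.rangeRestrict := by
    have h4 : (B.comap ρ.toHomUnits.rangeRestrict).index = B.index :=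
      Subgroup.index_comap_of_surjective _ ρ.toHomUnits.rangeRestrict_surjective
    refine iInf₂_le _ ?_
    rw [h4]
    exact ⟨Subgroup.FiniteIndex.index_ne_zero, hB.trans (hJ _ hN)⟩
  intro x hx y hy
  have h5 := hcomm _ (h3 hx) _ (h3 hy)
  have h6 : (ρ.toHomUnits.rangeRestrict x) * (ρ.toHomUnits.rangeRestrict y) =
      (ρ.toHomUnits.rangeRestrict y) * (ρ.toHomUnits.rangeRestrict x) := by
    have hinj : Function.Injective σ := by
      intro a c hac
      apply Subtype.ext
      apply Units.ext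
      have h7 := congrArg (fun u : Matrix.GeneralLinearGroup (Fin (Module.finrank F V)) F =>
        (u : Matrix (Fin (Module.finrank F V)) (Fin (Module.finrank F V)) F)) hac
      exact (LinearMap.toMatrixAlgEquiv b).injective h7
    apply hinj
    rw [map_mul, map_mul]
    exact h5
  have h8 := congrArg (fun u : ρ.toHomUnits.range => ((u : (Module.End F V)ˣ) : Module.End F V)) h6
  exact h8

theorem d1b_main (N J : ℕ) (Jf : ℕ → ℕ) (hJ : ∀ n, n ≤ N → Jf n ≤ J)
    (hJf : ∀ n, ∀ (p : ℕ) (_ : p.Prime) (F Λ : Type) [Field F]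
      [Finite F] [CharP F p] [Group Λ] [Finite Λ], ¬ p ∣ Nat.card Λ →
      ∀ ρ : Λ →* Matrix.GeneralLinearGroup (Fin n) F, ∃ B : Subgroup Λ, B.index ≤ Jf n ∧
        ∀ x ∈ B, ∀ y ∈ B, ρ x * ρ y = ρ y * ρ x)
    (p : ℕ) (hp : p.Prime) (F Γ : Type) [Field F] [Finite F]
    [CharP F p] [Group Γ] [Finite Γ] (hNp : N ^ 2 < p)
    (hs : Group.IsSolvable (pE p Γ)) (m : ℕ) : ∀ (V : Type) [AddCommGroup V] [Module F V]
    [FiniteDimensional F V]
    (ρ : Γ →* Module.End F V), Module.finrank F V ≤ N → Module.finrank F V ≤ m →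
    ∀ x ∈ dser (lowCore J Γ) m, ρ x = 1 := by
  induction m with
  | zero =>
    intro V _ _ _ ρ _ hm x _
    have : Subsingleton V := Module.finrank_zero_iff.1 (Nat.le_zero.1 hm)
    ext v
    exact Subsingleton.elim _ _
  | succ m ih =>
    intro V _ _ _ ρ hN hm x hx
    by_cases hirr : Irr ρ
    · exact d1b_comm ρ (lowCore J Γ)
        (d1b_irr N J Jf hJ hJf p hp F V Γ ρ hN hNp hs hirr) x (d1b_dser_le_one _ m hx)
    · unfold Irr at hirr
      push Not at hirr
      obtain ⟨W, hW, hW1, hW2⟩ := hirr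
      have h1 : Module.finrank F W < Module.finrank F V := Submodule.finrank_lt hW2
      have h2 : Module.finrank F (V ⧸ W) < Module.finrank F V := by
        have h3 := Submodule.finrank_quotient_add_finrank W
        have h4 : 0 < Module.finrank F W := by
          rw [Module.finrank_pos_iff, Submodule.nontrivial_iff_ne_bot]
          exact hW1
        omega
      have h3 := ih W (d1b_res ρ W hW) (by omega) (by omega)
      have h4 := ih (V ⧸ W) (d1b_quo ρ W hW) (by omega) (by omega)
      refine d1b_comm ρ (dser (lowCore J Γ) m) ?_ x hx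
      have h5 : ∀ y ∈ dser (lowCore J Γ) m, ∀ w ∈ W, ρ y w = w := by
        intro y hy w hw
        have h6 := h3 y hy
        have h7 := congrArg (fun f : Module.End F W => ((f ⟨w, hw⟩ : W) : V)) h6
        exact h7
      have h6 : ∀ y ∈ dser (lowCore J Γ) m, ∀ v, ρ y v - v ∈ W := by
        intro y hy v
        have h7 := h4 y hy
        have h8 := congrArg (fun f : Module.End F (V ⧸ W) => f (W.mkQ v)) h7
        have h9 : W.mkQ (ρ y v) = W.mkQ v := h8
        rw [← Submodule.ker_mkQ W, LinearMap.mem_ker, map_sub, h9, sub_self]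
      intro y hy z hz
      ext v
      show ρ y (ρ z v) = ρ z (ρ y v)
      have e1 : ρ y (ρ z v) = ρ y v + (ρ z v - v) := by
        have h7 : ρ z v = v + (ρ z v - v) := by abel
        conv_lhs => rw [h7]
        rw [map_add, h5 y hy _ (h6 z hz v)]
      have e2 : ρ z (ρ y v) = ρ z v + (ρ y v - v) := by
        have h7 : ρ y v = v + (ρ y v - v) := by abel
        conv_lhs => rw [h7]
        rw [map_add, h5 z hz _ (h6 y hy v)]
      rw [e1, e2]
      abel

/-- PROOF. `J` is the maximum of the constants of `jordan_coprime` for all degrees at most `N` (at least `1`). Claim: for all `V` of dimension `n ≤ N`, `n ≤ m` implies that `ρ` is trivial on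
`dser (lowCore J Γ) m`, by strong induction on `n`. `n = 0` is trivial. If `ρ` is irreducible: `irr_finite` and `not_dvd_of_trivial` show that `ρ.range` (as a subgroup of the units of
`Module.End F V`) has order prime to `p`; `jordan_coprime` for the group `ρ.range` and a basis of `V`: a subgroup `B` of `ρ.range` of index at most `J` which is commutative. The preimage
of `B` in `Γ` has index at most `J` (and not `0`), so it contains `lowCore J Γ`; so the images of the elements of `lowCore J Γ` commute and `ρ` is trivial on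
`dser (lowCore J Γ) 1`, and `1 ≤ n ≤ m`. If there is an invariant subspace `W`, not `0` and not `⊤`: the restriction to `W` and the quotient `V ⧸ W` have smaller dimension, so `dser (lowCore J Γ) (m-1)` acts trivially on
`W` and on `V ⧸ W`; two such endomorphisms `1 + x`, `1 + y` with `x, y : V → W → 0` commute (`x y = y x = 0`), so `dser _ m` acts trivially. -/
theorem kill (N : ℕ) : ∃ J : ℕ, ∀ (p : ℕ) (_ : p.Prime) (F V Γ : Type) [Field F] [Finite F]
    [CharP F p] [AddCommGroup V] [Module F V] [FiniteDimensional F V] [Group Γ] [Finite Γ]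
    (ρ : Γ →* Module.End F V), Module.finrank F V ≤ N → N ^ 2 < p →
      Group.IsSolvable (pE p Γ) → ∀ x ∈ dser (lowCore J Γ) N, ρ x = 1 := by
  choose Jf hJf using jordan_coprime
  refine ⟨(Finset.range (N + 1)).sup Jf, ?_⟩
  intro p hp F V Γ _ _ _ _ _ _ _ _ ρ hN hNp hs x hx
  refine d1b_main N ((Finset.range (N + 1)).sup Jf) Jf ?_ hJf p hp F Γ hNp hs N V ρ hN hN x hx
  intro n hn
  exact Finset.le_sup (f := Jf) (Finset.mem_range.2 (by omega))

end ALG
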