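import Pool.Agent.ALG.Defs

/-!
# [ALG-D2] nonsolvable `p`-parts of the reductions of a linear group
-/

set_option autoImplicit false

namespace ALG

open AG

/-- PROOF. `G` has only finitely many subgroups of index at most `J` (`AG.g1_finite_hom` for `Equiv.Perm (Fin J)`; or: `lowCore J G` contains the intersection of the kernels of all
homomorphisms to `Equiv.Perm (Fin n)`, `n ≤ J`, as in `AG.exists_char`). -/
theorem lowCore_finiteIndex (G : Type*) [Group G] [Group.FG G] (J : ℕ) :
    (lowCore J G).FiniteIndex := by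
  have hfin : ∀ n : Fin (J + 1), Finite (G →* Equiv.Perm (Fin n)) := fun n =>
    g1_finite_hom G (Equiv.Perm (Fin n))
  have h0 : ∀ n : Fin (J + 1), (⨅ f : G →* Equiv.Perm (Fin n), f.ker).FiniteIndex := fun n => by
    have := hfin n
    exact Subgroup.finiteIndex_iInf fun f => inferInstance
  have h1 : (⨅ n : Fin (J + 1), ⨅ f : G →* Equiv.Perm (Fin n), f.ker).FiniteIndex :=
    Subgroup.finiteIndex_iInf fun n => h0 n
  refine Subgroup.finiteIndex_of_le (H := ⨅ n : Fin (J + 1), ⨅ f : G →* Equiv.Perm (Fin n), f.ker) ?_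
  unfold lowCore
  refine le_iInf fun H => le_iInf fun hH => ?_
  have : H.FiniteIndex := ⟨hH.1⟩
  haveI hfin : Finite (G ⧸ H) := Subgroup.finite_quotient_of_finiteIndex
  have e : (G ⧸ H) ≃ Fin H.index := by
    unfold Subgroup.index
    exact Finite.equivFin _
  let ρ : G →* Equiv.Perm (Fin H.index) :=
    (e.permCongrHom : Equiv.Perm (G ⧸ H) ≃* Equiv.Perm (Fin H.index)).toMonoidHom.comp
      (MulAction.toPermHom G (G ⧸ H))
  have h1 : ρ.ker ≤ H := by
    have h2 : ρ.ker = (MulAction.toPermHom G (G ⧸ H)).ker := by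
      ext x
      rw [MonoidHom.mem_ker, MonoidHom.mem_ker]
      show e.permCongrHom ((MulAction.toPermHom G (G ⧸ H)) x) = 1 ↔ _
      rw [map_eq_one_iff _ (MulEquiv.injective _)]
    rw [h2, ← Subgroup.normalCore_eq_ker]
    exact Subgroup.normalCore_le H
  refine le_trans ?_ h1
  refine (iInf_le _ (⟨H.index, by omega⟩ : Fin (J + 1))).trans ?_
  exact iInf_le _ ρ

/-- PROOF. For `B ≤ Γ` of index at most `J` the preimage has index at most `J` and not `0` (`Subgroup.index_comap` for the range, `φ` surjective). Derived series: induction. -/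
theorem map_dser_lowCore {G Γ : Type*} [Group G] [Group Γ] (φ : G →* Γ)
    (hφ : Function.Surjective φ) (J i : ℕ) {x : G} (hx : x ∈ dser (lowCore J G) i) :
    φ x ∈ dser (lowCore J Γ) i := by
  have h : (dser (lowCore J G) i).map φ ≤ dser (lowCore J Γ) i := by
    clear hx
    induction i with
    | zero =>
      rintro _ ⟨x, hx, rfl⟩
      show φ x ∈ lowCore J Γ
      have hx' : x ∈ lowCore J G := hx
      unfold lowCore at *
      rw [Subgroup.mem_iInf] at *
      intro B
      rw [Subgroup.mem_iInf]
      intro hB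
      have h1 := hx' (B.comap φ)
      rw [Subgroup.mem_iInf] at h1
      exact h1 (by rwa [Subgroup.index_comap_of_surjective B hφ])
    | succ i ih =>
      show (⁅dser (lowCore J G) i, dser (lowCore J G) i⁆).map φ ≤
        ⁅dser (lowCore J Γ) i, dser (lowCore J Γ) i⁆
      rw [Subgroup.map_commutator]
      exact Subgroup.commutator_mono ih ih
  exact h ⟨x, hx, rfl⟩

theorem d2_map_dser {G E : Type*} [Group G] [Group E] (f : G →* E) (K : Subgroup G) (i : ℕ) :
    (dser K i).map f = dser (K.map f) i := by
  induction i with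
  | zero => rfl
  | succ i ih =>
    show (⁅dser K i, dser K i⁆).map f = ⁅dser (K.map f) i, dser (K.map f) i⁆
    rw [Subgroup.map_commutator, ih]

theorem d2_derived {G : Type*} [Group G] (K : Subgroup G) (i : ℕ) :
    (derivedSeries K i).map K.subtype = dser K i := by
  induction i with
  | zero =>
    rw [derivedSeries_zero, ← MonoidHom.range_eq_map, Subgroup.range_subtype]
    rfl
  | succ i ih =>
    rw [derivedSeries_succ, Subgroup.map_commutator, ih]
    rfl

/-- PROOF. If `ρ` is trivial on `dser (lowCore J G) N`, the image of `lowCore J G` under `ρ` is a solvable subgroup of finite index of `ρ.range`. -/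
theorem exists_not_killed {G : Type*} [Group G] [Group.FG G] {E : Type*} [Group E]
    (ρ : G →* E) (h : ¬ VirtSolvable ρ.range) (J N : ℕ) :
    ∃ g₀ ∈ dser (lowCore J G) N, ρ g₀ ≠ 1 := by
  by_contra hcon
  push Not at hcon
  apply h
  have hfi := lowCore_finiteIndex G J
  refine ⟨(lowCore J G).map ρ.rangeRestrict, ?_, ?_⟩
  · constructor
    have h1 := Subgroup.index_map_dvd (lowCore J G) ρ.rangeRestrict_surjective
    intro h0
    rw [h0, zero_dvd_iff] at h1
    exact hfi.index_ne_zero h1
  · refine ⟨N, ?_⟩
    have h1 := d2_derived ((lowCore J G).map ρ.rangeRestrict) N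
    rw [← d2_map_dser] at h1
    have h2 : (dser (lowCore J G) N).map ρ.rangeRestrict = ⊥ := by
      rw [eq_bot_iff]
      rintro _ ⟨x, hx, rfl⟩
      rw [Subgroup.mem_bot]
      exact Subtype.ext (hcon x hx)
    rw [h2, Subgroup.map_eq_bot_iff_of_injective _ (Subgroup.subtype_injective _)] at h1
    exact h1

/-- PROOF. The derived series of a finite group becomes stationary. -/
theorem exists_perfect {U : Type*} [Group U] [Finite U] (h : ¬ Group.IsSolvable U) :
    ∃ D : Subgroup U, D ≠ ⊥ ∧ ⁅D, D⁆ = D := by
  let n := Function.argmin (fun n : ℕ => Nat.card (derivedSeries U n))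
  refine ⟨derivedSeries U n, fun h0 => h ⟨n, h0⟩, ?_⟩
  have h1 : Nat.card (derivedSeries U n) ≤ Nat.card (derivedSeries U (n + 1)) :=
    Function.argmin_le (fun n : ℕ => Nat.card (derivedSeries U n)) (n + 1)
  rw [derivedSeries_succ] at h1
  exact Subgroup.eq_of_le_of_card_ge (Subgroup.commutator_le_left _ _) h1

end ALG
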