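import Pool.Agent.ALG.Defs

/-!
# [ALG-E1] reduction of algebraic numbers to finite fields of bounded degree
-/

set_option autoImplicit false

namespace ALG

/-- residue fields of a finite `ℤ`-algebra -/
theorem e1_field {B : Type*} [CommRing B] {n : ℕ} (f : (Fin n → ℤ) →ₗ[ℤ] B) (hf : Function.Surjective f)
    (Q : Ideal B) [hQ : Q.IsMaximal] (p : ℕ) [hp : Fact p.Prime] (hpQ : (p : B) ∈ Q) :
    ∃ j, 1 ≤ j ∧ j ≤ n ∧ Nonempty ((B ⧸ Q) ≃+* GaloisField p j) := by
  classical
  let _ : Field (B ⧸ Q) := Ideal.Quotient.field Q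
  have hch : CharP (B ⧸ Q) p := by
    have h1 : ((p : ℕ) : B ⧸ Q) = 0 := by
      have h2 := Ideal.Quotient.eq_zero_iff_mem.2 hpQ
      rwa [map_natCast] at h2
    exact (CharP.charP_iff_prime_eq_zero hp.out).2 h1
  let _ : Algebra (ZMod p) (B ⧸ Q) := ZMod.algebra _ p
  let g : (Fin n → ZMod p) →ₗ[ZMod p] (B ⧸ Q) :=
    Fintype.linearCombination (ZMod p) fun i => Ideal.Quotient.mk Q (f (Pi.single i 1))
  have hg : Function.Surjective g := by
    intro x
    obtain ⟨b, rfl⟩ := Ideal.Quotient.mk_surjective x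
    obtain ⟨v, rfl⟩ := hf b
    refine ⟨fun i => (v i : ZMod p), ?_⟩
    have h1 : f v = ∑ i, v i • f (Pi.single i 1) := by
      conv_lhs => rw [← Finset.univ_sum_single v, map_sum]
      refine Finset.sum_congr rfl fun i _ => ?_
      rw [← map_smul]
      congr 1
      rw [← Pi.single_smul, smul_eq_mul, mul_one]
    rw [h1, map_sum]
    change Fintype.linearCombination (ZMod p) _ _ = _
    rw [Fintype.linearCombination_apply]
    refine Finset.sum_congr rfl fun i _ => ?_
    rw [Algebra.smul_def, map_intCast, zsmul_eq_mul, map_mul, map_intCast]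
  have hfin : Module.Finite (ZMod p) (B ⧸ Q) := Module.Finite.of_surjective g hg
  have hle : Module.finrank (ZMod p) (B ⧸ Q) ≤ n := by
    have h1 := LinearMap.finrank_le_finrank_of_surjective hg
    rwa [Module.finrank_fin_fun] at h1
  have hpos : 0 < Module.finrank (ZMod p) (B ⧸ Q) := Module.finrank_pos
  have hF : Finite (B ⧸ Q) := Module.finite_of_finite (ZMod p)
  let _ : Fintype (B ⧸ Q) := Fintype.ofFinite _
  let _ : Fintype (GaloisField p (Module.finrank (ZMod p) (B ⧸ Q))) := Fintype.ofFinite _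
  refine ⟨Module.finrank (ZMod p) (B ⧸ Q), hpos, hle, ⟨FiniteField.ringEquivOfCardEq ?_⟩⟩
  rw [← Nat.card_eq_fintype_card, ← Nat.card_eq_fintype_card, GaloisField.card p _ hpos.ne',
    Module.natCard_eq_pow_finrank (K := ZMod p), Nat.card_zmod]

/-- PROOF. Let `Z = Y ∪ {y₀⁻¹}`. There is a positive integer `D` such that all elements of `Z` are integral over `ℤ[1/D]` (multiply each of them by an integer to make it integral over `ℤ`), so
`A = Algebra.adjoin ℤ (Z ∪ {D⁻¹})` is a finitely generated module over its subring `ℤ[1/D]`, with `e` generators (`e ≥ 1`). `P₀ = D`. For `p > D` prime, `p` is not a unit in `ℤ[1/D]`, so it is not a unit of `A` (integral extension; or: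
`1 = p a` with `a ∈ A`, `a` integral over `ℤ[1/D]`, `a = 1/p` rational, and `ℤ[1/D]` is integrally closed / elementary). Let `m` be a maximal ideal of `A` containing `p`. `A ⧸ m` is spanned by `e` elements over the
image of `ℤ[1/D]`, which is the prime field with `p` elements (the image of `D⁻¹` is the inverse of the image of `D`). So `A ⧸ m` is a field with `p ^ j` elements, `1 ≤ j ≤ e`, isomorphic to
`GaloisField p j`, and `y₀` is a unit of `A`. Restrict to `Algebra.adjoin ℤ Y`. -/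
theorem spec_finite (Y : Finset (AlgebraicClosure ℚ)) (y₀ : AlgebraicClosure ℚ) (h0 : y₀ ≠ 0)
    (hy : y₀ ∈ Algebra.adjoin ℤ (Y : Set (AlgebraicClosure ℚ))) :
    ∃ e P₀ : ℕ, ∀ (p : ℕ) [Fact p.Prime], P₀ < p → ∃ j, 1 ≤ j ∧ j ≤ e ∧
      ∃ π : Algebra.adjoin ℤ (Y : Set (AlgebraicClosure ℚ)) →+* GaloisField p j,
        π ⟨y₀, hy⟩ ≠ 0 := by
  classical
  have hZal : Algebra.IsAlgebraic ℤ (AlgebraicClosure ℚ) :=
    (IsFractionRing.comap_isAlgebraic_iff (A := ℤ) (K := ℚ) (C := AlgebraicClosure ℚ)).2 (AlgebraicClosure.isAlgebraic ℚ)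
  obtain ⟨D, hD0, hD⟩ := Algebra.IsAlgebraic.exists_integral_multiples ℤ (insert y₀⁻¹ Y)
  let s : Set (AlgebraicClosure ℚ) := (fun z => D • z) '' ((insert y₀⁻¹ Y : Finset (AlgebraicClosure ℚ)) : Set _)
  have hs : s.Finite := (Finset.finite_toSet _).image _
  have hsi : ∀ x ∈ s, IsIntegral ℤ x := by
    rintro x ⟨z, hz, rfl⟩
    exact hD z hz
  let B : Subalgebra ℤ (AlgebraicClosure ℚ) := Algebra.adjoin ℤ s
  have hB : Module.Finite ℤ B := Algebra.finite_adjoin_of_finite_of_isIntegral hs hsi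
  obtain ⟨n, f, hf⟩ := Module.Finite.exists_fin' ℤ B
  have hBi : Algebra.IsIntegral ℤ B := Algebra.IsIntegral.of_finite ℤ B
  have hinj : Function.Injective (algebraMap ℤ B) := by
    intro a b hab
    have h1 := congrArg (algebraMap B (AlgebraicClosure ℚ)) hab
    rw [eq_intCast, eq_intCast, map_intCast, map_intCast] at h1
    exact_mod_cast h1
  have hDL : ((D : ℤ) : AlgebraicClosure ℚ) ≠ 0 := by exact_mod_cast hD0
  let d : B := (D : B)
  have hdL : algebraMap B (AlgebraicClosure ℚ) d = (D : AlgebraicClosure ℚ) := map_intCast _ _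
  let S := Localization.Away d
  let ι : S →+* AlgebraicClosure ℚ := IsLocalization.Away.lift d (g := algebraMap B (AlgebraicClosure ℚ))
    (by rw [hdL]; exact hDL.isUnit)
  have hι : ∀ b : B, ι (algebraMap B S b) = (b : AlgebraicClosure ℚ) := fun b =>
    IsLocalization.Away.lift_eq d _ b
  have hιinj : Function.Injective ι := by
    refine (IsLocalization.lift_injective_iff _).2 fun x y => ⟨fun h => ?_, fun h => ?_⟩
    · have h1 := congrArg ι h
      rw [hι, hι] at h1
      exact h1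
    · have h1 : x = y := Subtype.ext h
      rw [h1]
  have hZ : ∀ z ∈ (insert y₀⁻¹ Y : Finset (AlgebraicClosure ℚ)), z ∈ ι.range := by
    intro z hz
    have h1 : D • z ∈ B := Algebra.subset_adjoin ⟨z, hz, rfl⟩
    have h2 : ι (algebraMap B S ⟨D • z, h1⟩) = D • z := hι _
    have h3 : ι (algebraMap B S d) = D := by rw [hι]; exact hdL
    have h4 : IsUnit (algebraMap B S d) := IsLocalization.Away.algebraMap_isUnit d
    obtain ⟨u, hu⟩ := h4
    refine ⟨algebraMap B S ⟨D • z, h1⟩ * ((u⁻¹ : Sˣ) : S), ?_⟩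
    have h5 : ι ((u⁻¹ : Sˣ) : S) = (D : AlgebraicClosure ℚ)⁻¹ := by
      have h6 : (u : S) * ((u⁻¹ : Sˣ) : S) = 1 := u.mul_inv
      have h7 := congrArg ι h6
      rw [map_mul, map_one, hu, h3] at h7
      exact eq_inv_of_mul_eq_one_right h7
    rw [map_mul, h2, h5, zsmul_eq_mul]
    field_simp
  have hYr : ∀ x ∈ Algebra.adjoin ℤ (Y : Set (AlgebraicClosure ℚ)), x ∈ ι.range := by
    let R' : Subalgebra ℤ (AlgebraicClosure ℚ) := subalgebraOfSubring ι.range
    have h1 : Algebra.adjoin ℤ (Y : Set (AlgebraicClosure ℚ)) ≤ R' := by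
      refine Algebra.adjoin_le fun x hx => ?_
      exact hZ x (Finset.mem_insert_of_mem hx)
    exact fun x hx => h1 hx
  let e : S ≃+* ι.range := RingEquiv.ofBijective ι.rangeRestrict
    ⟨fun a b hab => hιinj (congrArg Subtype.val hab), ι.rangeRestrict_surjective⟩
  let j : Algebra.adjoin ℤ (Y : Set (AlgebraicClosure ℚ)) →+* ι.range :=
    (algebraMap (Algebra.adjoin ℤ (Y : Set (AlgebraicClosure ℚ))) (AlgebraicClosure ℚ)).codRestrict ι.range
      fun x => hYr _ x.2
  refine ⟨n, D.natAbs, fun p hp hpD => ?_⟩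
  -- a prime above `p`
  have hpP : (Ideal.span {(p : ℤ)}).IsPrime :=
    (Ideal.span_singleton_prime (by exact_mod_cast hp.out.ne_zero)).2 (Nat.prime_iff_prime_int.1 hp.out)
  have hpM : (Ideal.span {(p : ℤ)}).IsMaximal :=
    hpP.isMaximal (by
      rw [Ne, Ideal.span_singleton_eq_bot]
      exact_mod_cast hp.out.ne_zero)
  obtain ⟨Q, hQ, hQp⟩ := Ideal.exists_ideal_over_prime_of_isIntegral_of_isDomain (S := B) (Ideal.span {(p : ℤ)})
    (by
      rw [(RingHom.injective_iff_ker_eq_bot _).1 hinj]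
      exact bot_le)
  have hQM : Q.IsMaximal := Ideal.isMaximal_of_isIntegral_of_isMaximal_comap Q (by rw [hQp]; exact hpM)
  have hpQ : (p : B) ∈ Q := by
    have h1 : (p : ℤ) ∈ Ideal.comap (algebraMap ℤ B) Q := by
      rw [hQp]
      exact Ideal.mem_span_singleton_self _
    have h2 := Ideal.mem_comap.1 h1
    rw [eq_intCast, Int.cast_natCast] at h2
    exact h2
  obtain ⟨k, hk1, hkn, ⟨E⟩⟩ := e1_field f hf Q p hpQ
  have hdQ : d ∉ Q := by
    intro h1
    have h2 : D ∈ Ideal.comap (algebraMap ℤ B) Q := by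
      rw [Ideal.mem_comap, eq_intCast]
      exact h1
    rw [hQp, Ideal.mem_span_singleton] at h2
    have h3 := Int.natAbs_dvd_natAbs.2 h2
    rw [Int.natAbs_natCast] at h3
    exact absurd (Nat.le_of_dvd (Int.natAbs_pos.2 hD0) h3) (not_le.2 hpD)
  let g0 : B →+* GaloisField p k := (E : (B ⧸ Q) →+* GaloisField p k).comp (Ideal.Quotient.mk Q)
  have hgd : IsUnit (g0 d) := by
    rw [isUnit_iff_ne_zero]
    intro h1
    have h2 : E (Ideal.Quotient.mk Q d) = 0 := h1
    rw [EmbeddingLike.map_eq_zero_iff, Ideal.Quotient.eq_zero_iff_mem] at h2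
    exact hdQ h2
  let g : S →+* GaloisField p k := IsLocalization.Away.lift d hgd
  refine ⟨k, hk1, hkn, (g.comp (e.symm : ι.range →+* S)).comp j, ?_⟩
  have hy₀ : y₀⁻¹ ∈ ι.range := hZ _ (Finset.mem_insert_self _ _)
  have h1 : j ⟨y₀, hy⟩ * (⟨y₀⁻¹, hy₀⟩ : ι.range) = 1 := by
    apply Subtype.ext
    change y₀ * y₀⁻¹ = 1
    exact mul_inv_cancel₀ h0
  intro h2
  have h3 := congrArg (g.comp (e.symm : ι.range →+* S)) h1
  rw [map_mul, map_one] at h3
  have h4 : (g.comp (e.symm : ι.range →+* S)) (j ⟨y₀, hy⟩) = 0 := h2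
  rw [h4, zero_mul] at h3
  exact zero_ne_one h3

end ALG
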