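import Pool.Agent.ALG.E0
import Pool.Agent.ALG.E1

/-!
# [ALG-E2] specialization of representations
-/

set_option autoImplicit false

namespace ALG

/-- the representation over the ring generated by the entries -/
theorem e2_descend {G : Type*} [Group G] {K : Type*} [Field K] (N : ℕ)
    (ρ : G →* Matrix.GeneralLinearGroup (Fin N) K) (R : Subring K) (hR : ∀ g i k, (ρ g : Matrix (Fin N) (Fin N) K) i k ∈ R) :
    ∃ ρ' : G →* Matrix.GeneralLinearGroup (Fin N) R, ∀ g i k,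
      (((ρ' g : Matrix (Fin N) (Fin N) R) i k : R) : K) = (ρ g : Matrix (Fin N) (Fin N) K) i k := by
  let M : G → Matrix (Fin N) (Fin N) R := fun g i k => ⟨(ρ g : Matrix (Fin N) (Fin N) K) i k, hR g i k⟩
  have hinj : Function.Injective (fun A : Matrix (Fin N) (Fin N) R => A.map (R.subtype)) := by
    intro A B h
    ext i k
    have h1 := congrFun (congrFun h i) k
    exact h1
  have hM : ∀ g, (M g).map R.subtype = (ρ g : Matrix (Fin N) (Fin N) K) := by
    intro g
    ext i k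
    rfl
  have hmul : ∀ g h, M (g * h) = M g * M h := by
    intro g h
    apply hinj
    change (M (g * h)).map R.subtype = (M g * M h).map R.subtype
    rw [Matrix.map_mul, hM, hM, hM, map_mul, Units.val_mul]
  have hone : M 1 = 1 := by
    apply hinj
    change (M 1).map R.subtype = (1 : Matrix (Fin N) (Fin N) R).map R.subtype
    rw [hM, map_one, Units.val_one, Matrix.map_one _ (map_zero _) (map_one _)]
  let F : G →* Matrix (Fin N) (Fin N) R := ⟨⟨M, hone⟩, hmul⟩
  exact ⟨F.toHomUnits, fun g i k => rfl⟩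

/-- the entries are in the ring generated by the entries of the generators -/
theorem e2_entries {G : Type*} [Group G] {K : Type*} [Field K] (N : ℕ)
    (ρ : G →* Matrix.GeneralLinearGroup (Fin N) K) (T : Set G) (hT : Subgroup.closure T = ⊤) (R : Subring K)
    (h1 : ∀ g ∈ T, ∀ i k, (ρ g : Matrix (Fin N) (Fin N) K) i k ∈ R)
    (h2 : ∀ g ∈ T, ∀ i k, (ρ g⁻¹ : Matrix (Fin N) (Fin N) K) i k ∈ R) (g : G) :
    (∀ i k, (ρ g : Matrix (Fin N) (Fin N) K) i k ∈ R) ∧ ∀ i k, (ρ g⁻¹ : Matrix (Fin N) (Fin N) K) i k ∈ R := by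
  have hg : g ∈ Subgroup.closure T := by rw [hT]; exact Subgroup.mem_top g
  have hmul : ∀ a b : G, (∀ i k, (ρ a : Matrix (Fin N) (Fin N) K) i k ∈ R) → (∀ i k, (ρ b : Matrix (Fin N) (Fin N) K) i k ∈ R) →
      ∀ i k, (ρ (a * b) : Matrix (Fin N) (Fin N) K) i k ∈ R := by
    intro a b ha hb i k
    rw [map_mul, Units.val_mul, Matrix.mul_apply]
    exact Subring.sum_mem _ fun l _ => Subring.mul_mem _ (ha i l) (hb l k)
  induction hg using Subgroup.closure_induction with
  | mem x hx => exact ⟨h1 x hx, h2 x hx⟩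
  | one =>
    have h3 : ∀ i k, (ρ (1 : G) : Matrix (Fin N) (Fin N) K) i k ∈ R := by
      intro i k
      rw [map_one, Units.val_one, Matrix.one_apply]
      split_ifs
      · exact Subring.one_mem _
      · exact Subring.zero_mem _
    exact ⟨h3, by rw [inv_one]; exact h3⟩
  | mul a b _ _ ha hb => exact ⟨hmul a b ha.1 hb.1, by rw [mul_inv_rev]; exact hmul _ _ hb.2 ha.2⟩
  | inv a _ ha => exact ⟨ha.2, by rw [inv_inv]; exact ha.1⟩

/-- PROOF. Let `S` be a finite generating set of `G`, `X` the set of the entries of `ρ s` and `(ρ s)⁻¹`, `s ∈ S`; all entries of all `ρ g` are in `R = Algebra.adjoin ℤ X`, so `ρ` comes from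
`ρ' : G →* GL (Fin N) R`. `ρ g₀ ≠ 1`: some entry `f` of `ρ g₀ - 1` is not `0`, `f ∈ R`. `spec_QB` gives `π : R →+* AlgebraicClosure ℚ` with `π f ≠ 0`. Let `Y = π '' X` and `y₀ = π f`; the image of `π` is
`Algebra.adjoin ℤ Y`. `spec_finite` gives `π' : Algebra.adjoin ℤ Y →+* GaloisField p j` with `π' y₀ ≠ 0`; `φ = (π' ∘ π)` applied to the entries of `ρ'` (`Matrix.GeneralLinearGroup.map`). -/
theorem spec_rep {G : Type*} [Group G] [Group.FG G] {K : Type*} [Field K] [CharZero K]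
    (N : ℕ) (ρ : G →* Matrix.GeneralLinearGroup (Fin N) K) (g₀ : G) (h : ρ g₀ ≠ 1) :
    ∃ e P₀ : ℕ, ∀ (p : ℕ) [Fact p.Prime], P₀ < p → ∃ j, 1 ≤ j ∧ j ≤ e ∧
      ∃ φ : G →* Matrix.GeneralLinearGroup (Fin N) (GaloisField p j), φ g₀ ≠ 1 := by
  classical
  obtain ⟨T, hT⟩ := Group.fg_def.1 (inferInstance : Group.FG G)
  let X : Finset K := T.biUnion fun g => (Finset.univ : Finset (Fin N × Fin N)).biUnion fun ik =>
    {(ρ g : Matrix (Fin N) (Fin N) K) ik.1 ik.2, (ρ g⁻¹ : Matrix (Fin N) (Fin N) K) ik.1 ik.2}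
  have hX1 : ∀ g ∈ T, ∀ i k, (ρ g : Matrix (Fin N) (Fin N) K) i k ∈ (Algebra.adjoin ℤ (X : Set K)).toSubring := by
    intro g hg i k
    refine Algebra.subset_adjoin (Finset.mem_coe.2 (Finset.mem_biUnion.2 ⟨g, hg, Finset.mem_biUnion.2
      ⟨(i, k), Finset.mem_univ _, ?_⟩⟩))
    exact Finset.mem_insert_self _ _
  have hX2 : ∀ g ∈ T, ∀ i k, (ρ g⁻¹ : Matrix (Fin N) (Fin N) K) i k ∈ (Algebra.adjoin ℤ (X : Set K)).toSubring := by
    intro g hg i k
    refine Algebra.subset_adjoin (Finset.mem_coe.2 (Finset.mem_biUnion.2 ⟨g, hg, Finset.mem_biUnion.2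
      ⟨(i, k), Finset.mem_univ _, ?_⟩⟩))
    exact Finset.mem_insert_of_mem (Finset.mem_singleton_self _)
  have hall := fun g => (e2_entries N ρ T hT (Algebra.adjoin ℤ (X : Set K)).toSubring hX1 hX2 g).1
  obtain ⟨ρ', hρ'⟩ := e2_descend N ρ (Algebra.adjoin ℤ (X : Set K)).toSubring hall
  -- an entry
  have hne : ∃ i k, (ρ g₀ : Matrix (Fin N) (Fin N) K) i k - (1 : Matrix (Fin N) (Fin N) K) i k ≠ 0 := by
    by_contra hcon
    push Not at hcon
    apply h
    apply Units.ext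
    ext i k
    exact sub_eq_zero.1 (hcon i k)
  obtain ⟨i, k, hik⟩ := hne
  let c : Algebra.adjoin ℤ (X : Set K) :=
    (ρ' g₀ : Matrix (Fin N) (Fin N) (Algebra.adjoin ℤ (X : Set K))) i k - (1 : Matrix (Fin N) (Fin N) _) i k
  have hc : (c : K) = (ρ g₀ : Matrix (Fin N) (Fin N) K) i k - (1 : Matrix (Fin N) (Fin N) K) i k := by
    change (((ρ' g₀ : Matrix (Fin N) (Fin N) (Algebra.adjoin ℤ (X : Set K))) i k : K) -
      (((1 : Matrix (Fin N) (Fin N) (Algebra.adjoin ℤ (X : Set K))) i k : Algebra.adjoin ℤ (X : Set K)) : K)) = _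
    rw [hρ', Matrix.one_apply, Matrix.one_apply]
    split_ifs <;> rfl
  obtain ⟨π, hπ⟩ := spec_QB X (c : K) (by rw [hc]; exact hik) c.2
  have hπ' : π c ≠ 0 := hπ
  let Y : Finset (AlgebraicClosure ℚ) := Finset.image (fun x : {x // x ∈ X} => π ⟨(x : K), Algebra.subset_adjoin x.2⟩) (Finset.attach X)
  have hY : ∀ r : Algebra.adjoin ℤ (X : Set K), π r ∈ Algebra.adjoin ℤ (Y : Set (AlgebraicClosure ℚ)) := by
    rintro ⟨r, hr⟩
    induction hr using Algebra.adjoin_induction with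
    | mem x hx =>
      exact Algebra.subset_adjoin (Finset.mem_coe.2 (Finset.mem_image.2 ⟨⟨x, hx⟩, Finset.mem_attach _ _, rfl⟩))
    | algebraMap n =>
      have h1 : π ⟨algebraMap ℤ K n, Subalgebra.algebraMap_mem _ n⟩ = algebraMap ℤ _ n := by
        have h2 : (⟨algebraMap ℤ K n, Subalgebra.algebraMap_mem _ n⟩ : Algebra.adjoin ℤ (X : Set K)) = (n : ℤ) := by
          apply Subtype.ext
          simp
        rw [h2, map_intCast]
        simp
      rw [h1]
      exact Subalgebra.algebraMap_mem _ n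
    | add x y hx hy h1 h2 =>
      have h3 : π ⟨x + y, Subalgebra.add_mem _ hx hy⟩ = π ⟨x, hx⟩ + π ⟨y, hy⟩ := by
        rw [← map_add]
        rfl
      rw [h3]
      exact Subalgebra.add_mem _ h1 h2
    | mul x y hx hy h1 h2 =>
      have h3 : π ⟨x * y, Subalgebra.mul_mem _ hx hy⟩ = π ⟨x, hx⟩ * π ⟨y, hy⟩ := by
        rw [← map_mul]
        rfl
      rw [h3]
      exact Subalgebra.mul_mem _ h1 h2
  obtain ⟨e, P₀, hfin⟩ := spec_finite Y (π c) hπ' (hY c)
  refine ⟨e, P₀, fun p hp hpP => ?_⟩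
  obtain ⟨j, hj1, hje, π', hπ1⟩ := hfin p hpP
  let ψ : Algebra.adjoin ℤ (X : Set K) →+* GaloisField p j :=
    π'.comp (π.codRestrict (Algebra.adjoin ℤ (Y : Set (AlgebraicClosure ℚ))).toSubring hY)
  refine ⟨j, hj1, hje, (Matrix.GeneralLinearGroup.map (n := Fin N) ψ).comp ρ', fun h1 => ?_⟩
  have h2 : ψ c = 0 := by
    have h3 : (((Matrix.GeneralLinearGroup.map (n := Fin N) ψ) (ρ' g₀) : Matrix.GeneralLinearGroup (Fin N) (GaloisField p j)) :
        Matrix (Fin N) (Fin N) (GaloisField p j)) i k = (1 : Matrix (Fin N) (Fin N) (GaloisField p j)) i k := by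
      have h4 : (Matrix.GeneralLinearGroup.map (n := Fin N) ψ) (ρ' g₀) = 1 := h1
      rw [h4, Units.val_one]
    have h5 : (((Matrix.GeneralLinearGroup.map (n := Fin N) ψ) (ρ' g₀) : Matrix.GeneralLinearGroup (Fin N) (GaloisField p j)) :
        Matrix (Fin N) (Fin N) (GaloisField p j)) i k =
        ψ ((ρ' g₀ : Matrix (Fin N) (Fin N) (Algebra.adjoin ℤ (X : Set K))) i k) := rfl
    have h6 : ψ c = ψ ((ρ' g₀ : Matrix (Fin N) (Fin N) (Algebra.adjoin ℤ (X : Set K))) i k) -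
        ψ ((1 : Matrix (Fin N) (Fin N) (Algebra.adjoin ℤ (X : Set K))) i k) := map_sub ψ _ _
    rw [h6, ← h5, h3, Matrix.one_apply, Matrix.one_apply]
    split_ifs
    · rw [map_one, sub_self]
    · rw [map_zero, sub_self]
  exact hπ1 h2

end ALG
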