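import Pool.Agent.ALG.D1b
import Pool.Agent.ALG.D2
import Pool.Agent.ALG.E2

/-!
# [ALG-D2b] nonsolvable p-parts of the reductions of a linear group
-/

set_option autoImplicit false

namespace ALG

open AG

theorem d2b_perfect {Λ : Type} [Group Λ] [Finite Λ] (p : ℕ) (Γ : Subgroup Λ)
    (h : ¬ Group.IsSolvable (pE p Γ)) :
    ∃ D : Subgroup Λ, D ≠ ⊥ ∧ ⁅D, D⁆ = D ∧
      D ≤ Subgroup.closure {x | x ∈ Γ ∧ ∃ a : ℕ, x ^ p ^ a = 1} := by
  obtain ⟨D, hD, hD'⟩ := exists_perfect h
  let f : pE p Γ →* Λ := Γ.subtype.comp (pE p Γ).subtype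
  have hf : Function.Injective f := Subtype.val_injective.comp Subtype.val_injective
  refine ⟨D.map f, ?_, ?_, ?_⟩
  · intro h0
    rw [Subgroup.map_eq_bot_iff_of_injective _ hf] at h0
    exact hD h0
  · rw [← Subgroup.map_commutator, hD']
  · rintro _ ⟨⟨x, hx⟩, -, rfl⟩
    show (x : Λ) ∈ _
    unfold pE at hx
    induction hx using Subgroup.closure_induction with
    | mem y hy =>
      obtain ⟨a, ha⟩ := hy
      apply Subgroup.subset_closure
      exact ⟨y.2, a, by
        have h1 := congrArg Subtype.val ha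
        simpa using h1⟩
    | one => exact one_mem _
    | mul y z _ _ hy hz => exact mul_mem hy hz
    | inv y _ hy => exact inv_mem hy

/-- PROOF. `J` from `kill N`, `g₀` from `exists_not_killed`, `e, P₀` from `spec_rep`; for `p > max P₀ (N^2)` take `φ` with `φ g₀ ≠ 1`, `Γ = φ.range` (finite), acting on `V = Fin N → GaloisField p j`
(`Matrix.toLin'`). If `pE p Γ` is solvable, `kill` says that `dser (lowCore J Γ) N` acts trivially, but it contains the image of `g₀` (`map_dser_lowCore`), contradiction. So `exists_perfect` gives a nontrivial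
perfect subgroup of `pE p Γ`; `D` is its image in `GL`. -/
theorem levels {G : Type*} [Group G] [Group.FG G] {K : Type*} [Field K] [CharZero K] (N : ℕ)
    (ρ : G →* Matrix.GeneralLinearGroup (Fin N) K) (h : ¬ VirtSolvable ρ.range) :
    ∃ e P₀ : ℕ, ∀ (p : ℕ) [Fact p.Prime], P₀ < p → ∃ j, 1 ≤ j ∧ j ≤ e ∧
      ∃ (φ : G →* Matrix.GeneralLinearGroup (Fin N) (GaloisField p j))
        (D : Subgroup (Matrix.GeneralLinearGroup (Fin N) (GaloisField p j))),
        D ≠ ⊥ ∧ ⁅D, D⁆ = D ∧
          D ≤ Subgroup.closure {x | x ∈ φ.range ∧ ∃ a : ℕ, x ^ p ^ a = 1} := by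
  obtain ⟨J, hJ⟩ := kill N
  obtain ⟨g₀, hg₀, hne⟩ := exists_not_killed ρ h J N
  obtain ⟨e, P₀, hsp⟩ := spec_rep N ρ g₀ hne
  refine ⟨e, max P₀ (N ^ 2), fun p hp hP => ?_⟩
  obtain ⟨j, hj1, hje, φ, hφ⟩ := hsp p (lt_of_le_of_lt (le_max_left _ _) hP)
  refine ⟨j, hj1, hje, φ, ?_⟩
  have : Finite (GaloisField p j) := inferInstance
  apply d2b_perfect
  intro hsol
  let ρ' : φ.range →* Module.End (GaloisField p j) (Fin N → GaloisField p j) :=
    ((Matrix.toLinAlgEquiv' : Matrix (Fin N) (Fin N) (GaloisField p j) ≃ₐ[GaloisField p j]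
      Module.End (GaloisField p j) (Fin N → GaloisField p j)) :
      Matrix (Fin N) (Fin N) (GaloisField p j) →*
        Module.End (GaloisField p j) (Fin N → GaloisField p j)).comp
      ((Units.coeHom _).comp φ.range.subtype)
  have h1 := hJ p hp.out (GaloisField p j) (Fin N → GaloisField p j) φ.range ρ'
    (by rw [Module.finrank_fin_fun]) (lt_of_le_of_lt (le_max_right _ _) hP) hsol
    (φ.rangeRestrict g₀) (map_dser_lowCore φ.rangeRestrict φ.rangeRestrict_surjective J N hg₀)
  apply hφ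
  apply Units.ext
  have h2 : Matrix.toLinAlgEquiv' ((φ g₀ : Matrix (Fin N) (Fin N) (GaloisField p j))) =
      (1 : Module.End (GaloisField p j) (Fin N → GaloisField p j)) := h1
  rw [← map_one (Matrix.toLinAlgEquiv' : Matrix (Fin N) (Fin N) (GaloisField p j) ≃ₐ[GaloisField p j]
      Module.End (GaloisField p j) (Fin N → GaloisField p j))] at h2
  exact (Matrix.toLinAlgEquiv').injective h2

end ALG
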