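import Pool.Agent.ALG.Defs

/-!
# [ALG-D3] isolating one prime
-/

set_option autoImplicit false

namespace ALG

open AG

/-- PROOF. `Matrix.card_GL_field`: the order is `∏_{i<N} (Q^N - Q^i)`, `Q = q^j`, and `Q^N - Q^i = Q^i (Q^(N-i) - 1)`, `Q^(N-i) = q^(j(N-i))`, `1 ≤ j (N-i) ≤ e N`. -/
theorem not_dvd_card_GL {p q : ℕ} (hp : p.Prime) [Fact q.Prime] (hpq : p ≠ q) (N e j : ℕ)
    (hj : 1 ≤ j) (hje : j ≤ e) (h : ∀ a, 1 ≤ a → a ≤ e * N → ¬ p ∣ q ^ a - 1) :
    ¬ p ∣ Nat.card (Matrix.GeneralLinearGroup (Fin N) (GaloisField q j)) := by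
  have hq : q.Prime := Fact.out
  have hfin := Fintype.ofFinite (GaloisField q j)
  have hcard : Fintype.card (GaloisField q j) = q ^ j := by
    rw [← Nat.card_eq_fintype_card]
    exact GaloisField.card q j (by omega)
  rw [Matrix.card_GL_field, hcard]
  intro hdvd
  obtain ⟨i, _, hi⟩ := hp.prime.exists_mem_finset_dvd hdvd
  have hiN : (i : ℕ) < N := i.2
  have h1 : (q ^ j) ^ N - (q ^ j) ^ (i : ℕ) = (q ^ j) ^ (i : ℕ) * (q ^ (j * (N - i)) - 1) := by
    rw [Nat.mul_sub, mul_one]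
    congr 1
    rw [← pow_mul, ← pow_mul, ← pow_add]
    congr 1
    rw [← Nat.mul_add]
    congr 1
    omega
  rw [h1] at hi
  rcases (hp.dvd_mul).mp hi with h2 | h2
  · exact hpq ((Nat.prime_dvd_prime_iff_eq hp hq).mp
      (hp.dvd_of_dvd_pow (hp.dvd_of_dvd_pow h2)))
  · refine h (j * (N - i)) ?_ ?_ h2
    · exact Nat.mul_pos (by omega) (by omega)
    · exact Nat.mul_le_mul hje (by omega)

/-- PROOF. At most the number of all matrices, `(q^j)^(N^2)`. -/
theorem card_GL_le {q P : ℕ} [Fact q.Prime] (hq : q ≤ P) (N e j : ℕ) (hj : 1 ≤ j)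
    (hje : j ≤ e) :
    Nat.card (Matrix.GeneralLinearGroup (Fin N) (GaloisField q j)) ≤ P ^ (e * N ^ 2) := by
  have hqp : q.Prime := Fact.out
  have hP : 0 < P := lt_of_lt_of_le hqp.pos hq
  have hfin : Finite (Matrix (Fin N) (Fin N) (GaloisField q j)) :=
    inferInstanceAs (Finite (Fin N → Fin N → GaloisField q j))
  have h1 : Nat.card (Matrix.GeneralLinearGroup (Fin N) (GaloisField q j)) ≤
      Nat.card (Matrix (Fin N) (Fin N) (GaloisField q j)) :=
    Nat.card_le_card_of_injective Units.val Units.val_injective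
  have h2 : Nat.card (Matrix (Fin N) (Fin N) (GaloisField q j)) =
      Nat.card (Fin N → Fin N → GaloisField q j) := rfl
  rw [h2] at h1
  refine h1.trans ?_
  rw [Nat.card_fun, Nat.card_fun, GaloisField.card q j (by omega), Nat.card_eq_fintype_card,
    Fintype.card_fin, ← pow_mul, ← pow_mul, ← sq]
  exact (Nat.pow_le_pow_left hq _).trans
    (Nat.pow_le_pow_right hP (Nat.mul_le_mul_right _ hje))

/-- PROOF. `φ (ker ψ)` is a normal subgroup of `φ.range`, and its index divides the order of `ψ.range` (`φ.range / φ(ker ψ)` is a quotient of `G / ker ψ`), so it is prime to `p`. So it contains all elements of `φ.range` of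
`p`-power order, and the subgroup generated by them. -/
theorem pelts_le {G Λ Λ' : Type*} [Group G] [Group Λ] [Group Λ'] [Finite Λ'] (p : ℕ)
    (hp : p.Prime) (φ : G →* Λ) (ψ : G →* Λ') (h : ¬ p ∣ Nat.card Λ') (t : Λ)
    (ht : t ∈ Subgroup.closure {x | x ∈ φ.range ∧ ∃ a : ℕ, x ^ p ^ a = 1}) :
    ∃ g, ψ g = 1 ∧ φ g = t := by
  induction ht using Subgroup.closure_induction with
  | mem x hx =>
    obtain ⟨⟨g, rfl⟩, a, ha⟩ := hx
    have h1 : orderOf (ψ g) ∣ Nat.card Λ' := orderOf_dvd_natCard _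
    have h2 : Nat.Coprime (orderOf (ψ g)) (p ^ a) := by
      apply Nat.Coprime.pow_right
      rw [Nat.coprime_comm, hp.coprime_iff_not_dvd]
      exact fun h3 => h (h3.trans h1)
    obtain ⟨u, v, huv⟩ := Nat.isCoprime_iff_coprime.mpr h2
    refine ⟨g ^ (u * (orderOf (ψ g) : ℤ)), ?_, ?_⟩
    · rw [map_zpow, mul_comm, zpow_mul, zpow_natCast, pow_orderOf_eq_one, one_zpow]
    · have h3 : u * (orderOf (ψ g) : ℤ) = 1 - ((p ^ a : ℕ) : ℤ) * v := by
        rw [mul_comm _ v]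
        linarith
      rw [map_zpow, h3, zpow_sub, zpow_one, zpow_mul, zpow_natCast, ha, one_zpow, inv_one, mul_one]
  | one => exact ⟨1, map_one _, map_one _⟩
  | mul x y _ _ hx hy =>
    obtain ⟨g, hg, hg'⟩ := hx
    obtain ⟨k, hk, hk'⟩ := hy
    exact ⟨g * k, by rw [map_mul, hg, hk, one_mul], by rw [map_mul, hg', hk']⟩
  | inv x _ hx =>
    obtain ⟨g, hg, hg'⟩ := hx
    exact ⟨g⁻¹, by rw [map_inv, hg, inv_one], by rw [map_inv, hg']⟩

end ALG
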