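import Pool.Agent.ALG.B4
import Pool.Agent.ALG.D3

/-!
# [ALG-D3b] isolating one prime
-/

set_option autoImplicit false

namespace ALG

open AG

/-- the admissible pairs -/
def D3bX (I : Finset ℕ) (e p : ℕ) : Type :=
  {x : ℕ × ℕ // x.1.Prime ∧ x.1 ∈ I ∧ p ≠ x.1 ∧ 1 ≤ x.2 ∧ x.2 ≤ e}

instance d3b_fact {I : Finset ℕ} {e p : ℕ} (x : D3bX I e p) : Fact x.1.1.Prime := ⟨x.2.1⟩

/-- the general linear group of a pair -/
abbrev D3bL (N : ℕ) {I : Finset ℕ} {e p : ℕ} (x : D3bX I e p) : Type :=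
  Matrix.GeneralLinearGroup (Fin N) (GaloisField x.1.1 x.1.2)

theorem d3b_cardX (I : Finset ℕ) (e p P : ℕ) (hI : ∀ q ∈ I, q.Prime ∧ q ≤ P) :
    Finite (D3bX I e p) ∧ Nat.card (D3bX I e p) ≤ P * e := by
  let f : D3bX I e p → Fin P × Fin e := fun x =>
    (⟨x.1.1 - 1, by
      have h1 := (hI _ x.2.2.1).2
      have h2 := x.2.1.pos
      omega⟩, ⟨x.1.2 - 1, by
      have h1 := x.2.2.2.2.1
      have h2 := x.2.2.2.2.2
      omega⟩)
  have hf : Function.Injective f := by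
    intro x y hxy
    have h1 := congrArg (fun z : Fin P × Fin e => (z.1 : ℕ)) hxy
    have h2 := congrArg (fun z : Fin P × Fin e => (z.2 : ℕ)) hxy
    have h3 : x.1.1 - 1 = y.1.1 - 1 := h1
    have h4 : x.1.2 - 1 = y.1.2 - 1 := h2
    have h5 := x.2.1.pos
    have h6 := y.2.1.pos
    have h7 := x.2.2.2.2.1
    have h8 := y.2.2.2.2.1
    apply Subtype.ext
    apply Prod.ext <;> omega
  refine ⟨Finite.of_injective f hf, ?_⟩
  have h1 := Nat.card_le_card_of_injective f hf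
  simpa [Nat.card_prod] using h1

theorem d3b_cardHom {G L : Type*} [Group G] [Group L] [Finite L] (S : Finset G)
    (hS : Subgroup.closure (S : Set G) = ⊤) :
    Finite (G →* L) ∧ Nat.card (G →* L) ≤ Nat.card L ^ S.card := by
  let f : (G →* L) → (↥S → L) := fun f s => f s.1
  have hf : Function.Injective f := by
    intro g g' h
    apply MonoidHom.eq_of_eqOn_dense hS
    intro s hs
    exact congrFun h ⟨s, hs⟩
  refine ⟨Finite.of_injective f hf, ?_⟩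
  have h1 := Nat.card_le_card_of_injective f hf
  rw [Nat.card_fun] at h1
  have h2 : Nat.card ↥S = S.card := by simp
  rwa [h2] at h1

/-- PROOF. `k = S.card`, `E = e N^2`. `ι` = the type of the triples `(q, j, ψ)`, `q ∈ I`, `q ≠ p`, `1 ≤ j ≤ e`, `ψ : G →* GL_N (GaloisField q j)` (put the `Fact` into the structure); it is finite with at most
`P * e * (P^E)^k ≤ M = (e+1) P^(E k + 1)` elements (a homomorphism is determined by its values on `S`; `card_GL_le`; `I ⊆ [1, P]`). Choose `t ≠ 1` in `D` and apply `isolate` with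
`b = P^E` (hypothesis `h` by `pelts_le` and `not_dvd_card_GL`): `g` of length at most `4 M² b³ ≤ 4 (e+1)^2 P^(2Ek + 2 + 3E)`. -/
theorem isolate_prime {G : Type*} [Group G] (S : Finset G)
    (hS : Subgroup.closure (S : Set G) = ⊤) (N e P p : ℕ) [Fact p.Prime] (I : Finset ℕ)
    (hI : ∀ q ∈ I, q.Prime ∧ q ≤ P) (hp : p ∈ I)
    (hIp : ∀ q ∈ I, p ≠ q → ∀ a, 1 ≤ a → a ≤ e * N → ¬ p ∣ q ^ a - 1)
    (j : ℕ) (hj : 1 ≤ j) (hje : j ≤ e)
    (φ : G →* Matrix.GeneralLinearGroup (Fin N) (GaloisField p j))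
    (D : Subgroup (Matrix.GeneralLinearGroup (Fin N) (GaloisField p j))) (hD1 : D ≠ ⊥)
    (hD : ⁅D, D⁆ = D)
    (hDle : D ≤ Subgroup.closure {x | x ∈ φ.range ∧ ∃ a : ℕ, x ^ p ^ a = 1}) :
    ∃ g ∈ ball S (4 * (e + 1) ^ 2 * P ^ (2 * (e * N ^ 2) * S.card + 3 * (e * N ^ 2) + 2)),
      φ g ≠ 1 ∧ ∀ q ∈ I, p ≠ q → ∀ (_ : Fact q.Prime) (i : ℕ), 1 ≤ i → i ≤ e →
        ∀ ψ : G →* Matrix.GeneralLinearGroup (Fin N) (GaloisField q i), ψ g = 1 := by
  have hpp : p.Prime := Fact.out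
  have hP : 0 < P := lt_of_lt_of_le hpp.pos (hI p hp).2
  obtain ⟨hXfin, hX⟩ := d3b_cardX I e p P hI
  have hH : ∀ x : D3bX I e p, Finite (G →* D3bL N x) ∧
      Nat.card (G →* D3bL N x) ≤ (P ^ (e * N ^ 2)) ^ S.card := by
    intro x
    obtain ⟨h1, h2⟩ := d3b_cardHom (L := D3bL N x) S hS
    refine ⟨h1, h2.trans (Nat.pow_le_pow_left ?_ _)⟩
    exact card_GL_le (hI _ x.2.2.1).2 N e x.1.2 x.2.2.2.2.1 x.2.2.2.2.2
  have hHf : ∀ x : D3bX I e p, Finite (G →* D3bL N x) := fun x => (hH x).1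
  have hcard : Nat.card (Σ x : D3bX I e p, G →* D3bL N x) ≤
      (e + 1) * P ^ (e * N ^ 2 * S.card + 1) := by
    have := Fintype.ofFinite (D3bX I e p)
    rw [Nat.card_sigma]
    have h1 : ∑ x : D3bX I e p, Nat.card (G →* D3bL N x) ≤
        ∑ _x : D3bX I e p, (P ^ (e * N ^ 2)) ^ S.card :=
      Finset.sum_le_sum fun x _ => (hH x).2
    rw [Finset.sum_const, Finset.card_univ, smul_eq_mul, ← Nat.card_eq_fintype_card,
      ← pow_mul] at h1
    refine h1.trans ((Nat.mul_le_mul_right _ hX).trans ?_)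
    have h2 : P * e * P ^ (e * N ^ 2 * S.card) = e * P ^ (e * N ^ 2 * S.card + 1) := by ring
    rw [h2]
    exact Nat.mul_le_mul_right _ (Nat.le_succ e)
  obtain ⟨t, htD, ht1⟩ : ∃ t ∈ D, t ≠ 1 := by
    rcases Subgroup.bot_or_exists_ne_one D with h | h
    · exact absurd h hD1
    · exact h
  have hφ : D ≤ φ.range := by
    refine hDle.trans ?_
    rw [Subgroup.closure_le]
    exact fun x hx => hx.1
  obtain ⟨g, hg, hψ, hφg⟩ := isolate S hS φ D hD hφ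
    (fun y : (Σ x : D3bX I e p, G →* D3bL N x) => D3bL N y.1) (fun y => y.2)
    (by
      intro y t ht
      exact pelts_le p hpp φ y.2 (not_dvd_card_GL hpp y.1.2.2.2.1 N e y.1.1.2
        y.1.2.2.2.2.1 y.1.2.2.2.2.2 (hIp _ y.1.2.2.1 y.1.2.2.2.1)) t (hDle ht))
    (P ^ (e * N ^ 2)) ((e + 1) * P ^ (e * N ^ 2 * S.card + 1))
    (card_GL_le (hI p hp).2 N e j hj hje)
    (fun y => card_GL_le (hI _ y.1.2.2.1).2 N e y.1.1.2 y.1.2.2.2.2.1 y.1.2.2.2.2.2)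
    hcard (Nat.mul_pos (Nat.succ_pos e) (pow_pos hP _)) t htD
  refine ⟨g, ?_, by rw [hφg]; exact ht1, ?_⟩
  · have h1 : 4 * ((e + 1) * P ^ (e * N ^ 2 * S.card + 1)) ^ 2 * (P ^ (e * N ^ 2)) ^ 3 =
        4 * (e + 1) ^ 2 * P ^ (2 * (e * N ^ 2) * S.card + 3 * (e * N ^ 2) + 2) := by ring
    rwa [h1] at hg
  · intro q hq hpq hfq i hi1 hie ψ
    exact hψ ⟨⟨(q, i), hfq.out, hq, hpq, hi1, hie⟩, ψ⟩

end ALG
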