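import Mathlib

/-!
# [ALG-F2] few large primes divide small numbers
-/

set_option autoImplicit false

namespace ALG

theorem f2_one (a P q : ℕ) (ha : 1 ≤ a) (hq : q ≤ P) (hq2 : 2 ≤ q) (Y : Finset ℕ)
    (hY : ∀ p ∈ Y, (p.Prime ∧ P < p ^ 2) ∧ p ∣ q ^ a - 1) : Y.card ≤ 2 * a := by
  have h1 : 2 ≤ q ^ a := by
    calc 2 ≤ q := hq2
      _ = q ^ 1 := (pow_one q).symm
      _ ≤ q ^ a := Nat.pow_le_pow_right (by omega) ha
  have h2 : ∏ p ∈ Y, p ∣ q ^ a - 1 :=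
    Finset.prod_primes_dvd _ (fun p hp => (hY p hp).1.1.prime) (fun p hp => (hY p hp).2)
  have h3 : ∏ p ∈ Y, p ≤ q ^ a - 1 := Nat.le_of_dvd (by omega) h2
  have h4 : q ^ a ≤ P ^ a := Nat.pow_le_pow_left hq a
  have h5 : ∏ p ∈ Y, p < P ^ a := by omega
  have h6 : (P + 1) ^ Y.card ≤ ∏ p ∈ Y, p ^ 2 := by
    rw [← Finset.prod_const]
    exact Finset.prod_le_prod' fun p hp => (hY p hp).1.2
  rw [Finset.prod_pow] at h6
  by_contra hcon
  push Not at hcon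
  have h7 : P ^ (2 * a) ≤ (P + 1) ^ Y.card :=
    (Nat.pow_le_pow_left (by omega) _).trans (Nat.pow_le_pow_right (by omega) hcon.le)
  have h8 : (∏ p ∈ Y, p) ^ 2 < (P ^ a) ^ 2 := Nat.pow_lt_pow_left h5 (by norm_num)
  rw [← pow_mul, mul_comm a 2] at h8
  omega

theorem f2_sum (A : ℕ) : ∑ a ∈ Finset.Icc 1 A, 2 * a = A * (A + 1) := by
  induction A with
  | zero => simp
  | succ A ih =>
    rw [Finset.sum_Icc_succ_top (by omega), ih]
    ring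

/-- PROOF. For `1 ≤ a ≤ A` let `Y` be the set of the `p ∈ X` dividing `q^a - 1` (positive, as `2 ≤ q`). The product of `Y` divides `q^a - 1 < P^a` (different primes), and its square is at least
`(P+1)^(Y.card)`, so `(P+1)^Y.card ≤ (∏ p)^2 < P^(2a)`, `Y.card < 2 a` (`P ≥ q ≥ 2`). Sum over `a`: at most `∑_{a=1}^A 2a = A (A+1)`. -/
theorem out_degree (A P q : ℕ) (hq : q ≤ P) (hq2 : 2 ≤ q) (X : Finset ℕ)
    (hX : ∀ p ∈ X, p.Prime ∧ P < p ^ 2) [DecidablePred fun p => ∃ a, 1 ≤ a ∧ a ≤ A ∧ p ∣ q ^ a - 1] :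
    (X.filter fun p => ∃ a, 1 ≤ a ∧ a ≤ A ∧ p ∣ q ^ a - 1).card ≤ A * (A + 1) := by
  have hsub : (X.filter fun p => ∃ a, 1 ≤ a ∧ a ≤ A ∧ p ∣ q ^ a - 1) ⊆
      (Finset.Icc 1 A).biUnion fun a => X.filter fun p => p ∣ q ^ a - 1 := by
    intro p hp
    rw [Finset.mem_filter] at hp
    obtain ⟨hp, a, ha1, ha2, ha3⟩ := hp
    rw [Finset.mem_biUnion]
    exact ⟨a, Finset.mem_Icc.2 ⟨ha1, ha2⟩, Finset.mem_filter.2 ⟨hp, ha3⟩⟩
  calc _ ≤ _ := Finset.card_le_card hsub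
    _ ≤ ∑ a ∈ Finset.Icc 1 A, (X.filter fun p => p ∣ q ^ a - 1).card := Finset.card_biUnion_le
    _ ≤ ∑ a ∈ Finset.Icc 1 A, 2 * a := by
      refine Finset.sum_le_sum fun a ha => ?_
      refine f2_one a P q (Finset.mem_Icc.1 ha).1 hq hq2 _ fun p hp => ?_
      rw [Finset.mem_filter] at hp
      exact ⟨hX p hp.1, hp.2⟩
    _ = A * (A + 1) := f2_sum A

end ALG
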