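import Mathlib

/-!
# [ALG-F3] many primes
-/

set_option autoImplicit false

namespace ALG

theorem f3_cube (k : ℕ) (hk : 10 ≤ k) : k ^ 3 ≤ 2 ^ k := by
  induction k, hk using Nat.le_induction with
  | base => norm_num
  | succ n hn ih =>
    rw [pow_succ 2 n]
    have h1 : 10 * (n * n) ≤ n * (n * n) := Nat.mul_le_mul_right _ hn
    have h2 : 10 * n ≤ n * n := Nat.mul_le_mul_right _ hn
    nlinarith

theorem f3_pi (k : ℕ) (hk : 1 ≤ k) :
    (4 : ℝ) ^ k / (2 * k) - 2 ≤ (Nat.primeCounting (4 ^ k) : ℝ) := by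
  have h := Chebyshev.pi_ge (4 ^ k)
  refine le_trans ?_ h
  have hk0 : (0 : ℝ) < k := by exact_mod_cast hk
  have hk1 : (1 : ℝ) ≤ k := by exact_mod_cast hk
  have hl : 0 < Real.log 2 := Real.log_pos (by norm_num)
  have h4 : Real.log 4 = 2 * Real.log 2 := by
    rw [show (4 : ℝ) = 2 ^ 2 by norm_num, Real.log_pow]
    norm_num
  have h1 : Real.log ((4 ^ k : ℕ) : ℝ) = 2 * k * Real.log 2 := by
    push_cast
    rw [Real.log_pow, h4]
    ring
  have hpos : (1 : ℝ) ≤ 4 ^ k := one_le_pow₀ (by norm_num)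
  have h2 : Real.log (((4 ^ k : ℕ) : ℝ) + 1) ≤ (2 * k + 1) * Real.log 2 := by
    push_cast
    calc Real.log ((4 : ℝ) ^ k + 1) ≤ Real.log (2 * 4 ^ k) :=
          Real.log_le_log (by positivity) (by linarith)
      _ = (2 * k + 1) * Real.log 2 := by
          rw [Real.log_mul (by norm_num) (by positivity), Real.log_pow, h4]
          ring
  rw [h1, le_div_iff₀ (by positivity)]
  push_cast at h2 ⊢
  have h3 : ((4 : ℝ) ^ k / (2 * k) - 2) * (2 * k * Real.log 2) =
      4 ^ k * Real.log 2 - 4 * k * Real.log 2 := by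
    field_simp
    ring
  rw [h3]
  have h5 : (2 * (k : ℝ) + 1) * Real.log 2 ≤ 4 * k * Real.log 2 :=
    mul_le_mul_of_nonneg_right (by linarith) hl.le
  linarith

/-- PROOF. `Chebyshev.pi_ge`: the number of primes at most `P` is at least `(P log 2 - log (P+1)) / log P`. At most `√P + P₀` of them violate `P < p ^ 2` or `P₀ < p`. So the cardinality is at least
`P log 2 / log P - 2 - √P - P₀`, which is larger than `K (log P / log 2 + 1)` for large `P`. -/
theorem many_primes (K P₀ : ℕ) : ∃ P : ℕ, K * (Nat.log 2 P + 1) ≤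
    ((Finset.range (P + 1)).filter fun p => p.Prime ∧ P < p ^ 2 ∧ P₀ < p).card := by
  obtain ⟨k, hk10, hkc⟩ : ∃ k : ℕ, 10 ≤ k ∧ 6 * (K + P₀ + 5) ≤ k :=
    ⟨6 * (K + P₀ + 5) + 10, by omega, by omega⟩
  refine ⟨4 ^ k, ?_⟩
  have hlog : Nat.log 2 (4 ^ k) = 2 * k := by
    rw [show (4 : ℕ) = 2 ^ 2 by norm_num, ← pow_mul, Nat.log_pow (by norm_num)]
  rw [hlog]
  -- the inequality for `k`
  have hkey : 2 * k * (K * (2 * k + 1) + P₀ + 5) ≤ 2 ^ k := by
    refine le_trans ?_ (f3_cube k hk10)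
    have h1 : K * (2 * k + 1) + P₀ + 5 ≤ 3 * k * (K + P₀ + 5) := by
      have e1 : K * (2 * k + 1) ≤ K * (3 * k) := Nat.mul_le_mul_left _ (by omega)
      have e2 : P₀ * 1 ≤ P₀ * (3 * k) := Nat.mul_le_mul_left _ (by omega)
      have e3 : 5 * 1 ≤ 5 * (3 * k) := Nat.mul_le_mul_left _ (by omega)
      calc K * (2 * k + 1) + P₀ + 5 ≤ K * (3 * k) + P₀ * (3 * k) + 5 * (3 * k) := by omega
        _ = 3 * k * (K + P₀ + 5) := by ring
    have h2 : 6 * (K + P₀ + 5) ≤ k := hkc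
    calc 2 * k * (K * (2 * k + 1) + P₀ + 5) ≤ 2 * k * (3 * k * (K + P₀ + 5)) :=
          Nat.mul_le_mul_left _ h1
      _ = k * k * (6 * (K + P₀ + 5)) := by ring
      _ ≤ k * k * k := Nat.mul_le_mul_left _ h2
      _ = k ^ 3 := by ring
  have hpi : K * (2 * k + 1) + P₀ + 2 + 2 ^ k ≤ Nat.primeCounting (4 ^ k) := by
    have h1 := f3_pi k (by omega)
    have hk0 : (0 : ℝ) < k := by
      have : 0 < k := by omega
      exact_mod_cast this
    have h2 : ((K * (2 * k + 1) + P₀ + 4 + 2 ^ k : ℕ) : ℝ) ≤ (4 : ℝ) ^ k / (2 * k) := by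
      rw [le_div_iff₀ (by positivity)]
      have h3 : (K * (2 * k + 1) + P₀ + 4 + 2 ^ k) * (2 * k) ≤ 4 ^ k := by
        have h4 : (4 : ℕ) ^ k = 2 ^ k * 2 ^ k := by
          rw [← mul_pow]; norm_num
        have h5 : 1 ≤ 2 ^ k := Nat.one_le_two_pow
        have h6 : K * (2 * k + 1) + P₀ + 4 + 2 ^ k ≤ 2 ^ k * (K * (2 * k + 1) + P₀ + 5) := by
          have e1 : 1 * (K * (2 * k + 1) + P₀ + 4) ≤ 2 ^ k * (K * (2 * k + 1) + P₀ + 4) :=
            Nat.mul_le_mul_right _ h5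
          have e2 : 2 ^ k * (K * (2 * k + 1) + P₀ + 5) = 2 ^ k * (K * (2 * k + 1) + P₀ + 4) + 2 ^ k := by
            ring
          omega
        calc (K * (2 * k + 1) + P₀ + 4 + 2 ^ k) * (2 * k)
            ≤ 2 ^ k * (K * (2 * k + 1) + P₀ + 5) * (2 * k) := Nat.mul_le_mul_right _ h6
          _ = 2 ^ k * (2 * k * (K * (2 * k + 1) + P₀ + 5)) := by ring
          _ ≤ 2 ^ k * 2 ^ k := Nat.mul_le_mul_left _ hkey
          _ = 4 ^ k := h4.symm
      exact_mod_cast h3
    have h7 : ((K * (2 * k + 1) + P₀ + 2 + 2 ^ k : ℕ) : ℝ) ≤ (Nat.primeCounting (4 ^ k) : ℝ) := by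
      push_cast at h2 ⊢
      linarith
    exact_mod_cast h7
  have hcount : Nat.primeCounting (4 ^ k) =
      ((Finset.range (4 ^ k + 1)).filter fun p => p.Prime).card := by
    rw [Nat.primeCounting, Nat.primeCounting', Nat.count_eq_card_filter_range]
  have hsub : ((Finset.range (4 ^ k + 1)).filter fun p => p.Prime) ⊆
      (((Finset.range (4 ^ k + 1)).filter fun p => p.Prime ∧ 4 ^ k < p ^ 2 ∧ P₀ < p) ∪
        Finset.range (2 ^ k + 1)) ∪ Finset.range (P₀ + 1) := by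
    intro p hp
    rw [Finset.mem_filter] at hp
    rw [Finset.mem_union, Finset.mem_union, Finset.mem_filter, Finset.mem_range, Finset.mem_range]
    by_cases h1 : P₀ < p
    · by_cases h2 : 4 ^ k < p ^ 2
      · exact Or.inl (Or.inl ⟨Finset.mem_range.1 hp.1, hp.2, h2, h1⟩)
      · refine Or.inl (Or.inr ?_)
        have h4 : (4 : ℕ) ^ k = 2 ^ k * 2 ^ k := by
          rw [← mul_pow]; norm_num
        rw [h4] at h2
        by_contra h5
        have h6 : 2 ^ k + 1 ≤ p := by omega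
        have h7 := Nat.mul_le_mul h6 h6
        rw [← sq p] at h7
        have h8 : (2 ^ k + 1) * (2 ^ k + 1) = 2 ^ k * 2 ^ k + 2 * 2 ^ k + 1 := by ring
        rw [h8] at h7
        omega
    · exact Or.inr (Finset.mem_range.2 (by omega))
  have hcard := Finset.card_le_card hsub
  have h8 := Finset.card_union_le (((Finset.range (4 ^ k + 1)).filter
    fun p => p.Prime ∧ 4 ^ k < p ^ 2 ∧ P₀ < p) ∪ Finset.range (2 ^ k + 1)) (Finset.range (P₀ + 1))
  have h9 := Finset.card_union_le ((Finset.range (4 ^ k + 1)).filter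
    fun p => p.Prime ∧ 4 ^ k < p ^ 2 ∧ P₀ < p) (Finset.range (2 ^ k + 1))
  rw [Finset.card_range] at h8 h9
  rw [← hcount] at hcard
  omega

end ALG
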