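import Pool.Agent.ALG.F1
import Pool.Agent.ALG.F2
import Pool.Agent.ALG.F3

/-!
# [ALG-F4] the primes
-/

set_option autoImplicit false

namespace ALG

/-- PROOF. `Δ = A (A+1)`, `K = (2Δ+1)(C+1)`, `P` from `many_primes K P₀`, `X` the set of primes there, `r v w ↔ ∃ a, 1 ≤ a ∧ a ≤ A ∧ w ∣ v ^ a - 1` (`out_degree` with `q = v`), `I` from `indep_set`:
`(2Δ+1) * I.card ≥ X.card ≥ K (log₂ P + 1)`, so `I.card ≥ (C+1) (log₂ P + 1) > C * log₂ P + C`, and `P < 2 ^ (log₂ P + 1)`, so `P ^ C < 2 ^ I.card` (also when `C = 0`: `I.card ≥ 1`). `X` is not empty, so `P ≥ 2`. -/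
theorem primes (A C P₀ : ℕ) : ∃ (P : ℕ) (I : Finset ℕ), 2 ≤ P ∧ (∀ p ∈ I, p.Prime ∧ P₀ < p ∧ p ≤ P) ∧
    (∀ p ∈ I, ∀ q ∈ I, p ≠ q → ∀ a, 1 ≤ a → a ≤ A → ¬ p ∣ q ^ a - 1) ∧ P ^ C < 2 ^ I.card := by
  classical
  obtain ⟨P, hP⟩ := many_primes ((2 * (A * (A + 1)) + 1) * (C + 1)) P₀
  have hXp : ∀ p ∈ (Finset.range (P + 1)).filter fun p => p.Prime ∧ P < p ^ 2 ∧ P₀ < p,
      p ≤ P ∧ p.Prime ∧ P < p ^ 2 ∧ P₀ < p := by
    intro p hp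
    rw [Finset.mem_filter, Finset.mem_range] at hp
    exact ⟨by omega, hp.2⟩
  generalize (Finset.range (P + 1)).filter (fun p => p.Prime ∧ P < p ^ 2 ∧ P₀ < p) = X at hP hXp
  obtain ⟨I, hIX, hI, hcard⟩ := indep_set X
    (fun v w => ∃ a, 1 ≤ a ∧ a ≤ A ∧ w ∣ v ^ a - 1) (A * (A + 1)) (by
      intro v hv
      exact out_degree A P v (hXp v hv).1 (hXp v hv).2.1.two_le X
        (fun p hp => ⟨(hXp p hp).2.1, (hXp p hp).2.2.1⟩))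
  have h1 : (2 * (A * (A + 1)) + 1) * ((C + 1) * (Nat.log 2 P + 1)) ≤
      (2 * (A * (A + 1)) + 1) * I.card := by
    rw [← mul_assoc]
    exact hP.trans hcard
  have h2 : (C + 1) * (Nat.log 2 P + 1) ≤ I.card := Nat.le_of_mul_le_mul_left h1 (by omega)
  have h3 : C * (Nat.log 2 P + 1) < I.card := by nlinarith
  have hX0 : X.Nonempty := by
    rw [← Finset.card_pos]
    refine lt_of_lt_of_le ?_ hP
    positivity
  obtain ⟨p₀, hp₀⟩ := hX0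
  refine ⟨P, I, ?_, ?_, ?_, ?_⟩
  · exact (hXp p₀ hp₀).2.1.two_le.trans (hXp p₀ hp₀).1
  · intro p hp
    have h4 := hXp p (hIX hp)
    exact ⟨h4.2.1, h4.2.2.2, h4.1⟩
  · intro p hp q hq hpq a ha1 ha2 hdvd
    exact hI q hq p hp (Ne.symm hpq) ⟨a, ha1, ha2, hdvd⟩
  · have h5 : P < 2 ^ (Nat.log 2 P + 1) := Nat.lt_pow_succ_log_self (by norm_num) P
    calc P ^ C ≤ (2 ^ (Nat.log 2 P + 1)) ^ C := Nat.pow_le_pow_left h5.le C
      _ = 2 ^ (C * (Nat.log 2 P + 1)) := by rw [← pow_mul, mul_comm]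
      _ < 2 ^ I.card := Nat.pow_lt_pow_right (by norm_num) h3

end ALG
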