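import Pool.Agent.ALG.A2
import Pool.Agent.ALG.D2b
import Pool.Agent.ALG.D3b
import Pool.Agent.ALG.F4

/-!
# [ALG-D4] linear groups in characteristic zero
-/

set_option autoImplicit false

namespace ALG

open AG

theorem d4_prod_ball {G : Type*} [Group G] (S : Finset G) (B : ℕ) (l : List G)
    (h : ∀ x ∈ l, x ∈ ball S B) : l.prod ∈ ball S (l.length * B) := by
  induction l with
  | nil => simpa using one_mem_ball S 0
  | cons a l ih =>
    rw [List.prod_cons, List.length_cons, Nat.succ_mul, Nat.add_comm]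
    exact mul_mem_ball (h a List.mem_cons_self) (ih fun x hx => h x (List.mem_cons_of_mem _ hx))

theorem d4_single {ι M : Type*} [DecidableEq ι] [Monoid M] (a : ι → M) (j : ι)
    (ha : ∀ i, i ≠ j → a i = 1) (l : List ι) (hl : l.Nodup) :
    (l.map a).prod = if j ∈ l then a j else 1 := by
  induction l with
  | nil => simp
  | cons b l ih =>
    rw [List.nodup_cons] at hl
    rw [List.map_cons, List.prod_cons, ih hl.2]
    by_cases hb : b = j
    · subst hb
      simp [hl.1]
    · rw [ha b hb, one_mul]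
      have h1 : (j ∈ b :: l) ↔ j ∈ l := by
        rw [List.mem_cons]
        constructor
        · rintro (h | h)
          · exact absurd h.symm hb
          · exact h
        · exact Or.inr
      simp only [h1]

theorem d4_arith (C₀ d m F' P c : ℕ) (hP : 2 ≤ P) (hc : c ≤ P) :
    C₀ * (c * (m * P ^ F') + 1) ^ d ≤ P ^ (C₀ + (m + 1) * d + (F' + 1) * d) := by
  have h1 : c * (m * P ^ F') + 1 ≤ P ^ (m + 1) * P ^ (F' + 1) := by
    have h2 : c * (m * P ^ F') ≤ m * P ^ (F' + 1) := by
      calc c * (m * P ^ F') ≤ P * (m * P ^ F') := Nat.mul_le_mul_right _ hc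
        _ = m * P ^ (F' + 1) := by ring
    have h3 : 1 ≤ P ^ (F' + 1) := Nat.one_le_pow _ _ (by omega)
    have h4 : m + 1 ≤ P ^ (m + 1) := (Nat.lt_pow_self (by omega)).le
    calc c * (m * P ^ F') + 1 ≤ m * P ^ (F' + 1) + P ^ (F' + 1) := by omega
      _ = (m + 1) * P ^ (F' + 1) := by ring
      _ ≤ P ^ (m + 1) * P ^ (F' + 1) := Nat.mul_le_mul_right _ h4
  have h5 : C₀ ≤ P ^ C₀ := (Nat.lt_pow_self (by omega)).le
  calc C₀ * (c * (m * P ^ F') + 1) ^ d ≤ P ^ C₀ * (P ^ (m + 1) * P ^ (F' + 1)) ^ d :=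
        Nat.mul_le_mul h5 (Nat.pow_le_pow_left h1 d)
    _ = P ^ (C₀ + (m + 1) * d + (F' + 1) * d) := by
        rw [mul_pow, ← pow_mul, ← pow_mul, ← pow_add, ← pow_add]
        congr 1
        ring

/-- the elements killed by all representations in characteristic `q` -/
def d4_K {G : Type*} [Group G] (N e q : ℕ) (x : G) : Prop :=
  ∀ (_ : Fact q.Prime) (i : ℕ), 1 ≤ i → i ≤ e →
    ∀ ψ : G →* Matrix.GeneralLinearGroup (Fin N) (GaloisField q i), ψ x = 1

theorem d4_K_aut {G : Type*} [Group G] (N e q : ℕ) (φ : MulAut G) {x : G}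
    (h : d4_K N e q x) : d4_K N e q (φ x) := by
  intro hq i h1 h2 ψ
  exact h hq i h1 h2 (ψ.comp φ.toMonoidHom)

/-- PROOF. Suppose `autGrowth S n ≤ C₀ (n+1)^d`. `e, P₀` from `levels`, `F = 2 (e N²) S.card + 3 (e N²) + 3`, `C = C₀ + (4 (e+1)^2 + 1) d + F d`, and `P, I` from `primes (e N) C P₀`, `P ≥ 2`. For `p ∈ I` let `h p` be the element of `isolate_prime`. For a subset `J ⊆ I` let `g_J` be the product of the `h p`,
`p ∈ J`, in increasing order; its length is at most `P * 4 (e+1)^2 P^(F-1)`. For `p ∈ I` let `K p` be the set of the `g` such that `ψ g = 1` for all `i` with `1 ≤ i ≤ e` and all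
`ψ : G →* GL_N (GaloisField p i)`; a normal subgroup, stable under all automorphisms of `G` (`ψ ↦ ψ ∘ α`). `h q ∈ K p` for `q ≠ p` and `h p ∉ K p`. So `g_J ∈ K p ↔ p ∉ J`, and `J` is determined by the `Aut G`-orbit of `g_J`.
`le_autGrowth` with `ι` = the subsets of `I`: `2 ^ I.card ≤ autGrowth S (4 (e+1)^2 P^F) ≤ C₀ (4 (e+1)^2 P^F + 1)^d ≤ C₀ ((4 (e+1)^2 + 1) P^F)^d ≤ P^C` (as `x ≤ 2^x ≤ P^x`), contradiction. -/
theorem not_polyBdd_of_linear {G : Type*} [Group G] (S : Finset G)
    (hS : Subgroup.closure (S : Set G) = ⊤) {K : Type*} [Field K] [CharZero K] (N : ℕ)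
    (ρ : G →* Matrix.GeneralLinearGroup (Fin N) K) (h : ¬ VirtSolvable ρ.range) :
    ¬ PolyBdd (autGrowth S) := by
  classical
  have hfg : Group.FG G := ⟨⟨S, hS⟩⟩
  rintro ⟨C₀, d, hbd⟩
  obtain ⟨e, P₀, hlev⟩ := levels N ρ h
  obtain ⟨P, I, hP, hI, hpair, hlt⟩ := primes (e * N)
    (C₀ + (4 * (e + 1) ^ 2 + 1) * d + (2 * (e * N ^ 2) * S.card + 3 * (e * N ^ 2) + 2 + 1) * d) P₀
  obtain ⟨B, hB⟩ : ∃ B : ℕ, B = 4 * (e + 1) ^ 2 *
      P ^ (2 * (e * N ^ 2) * S.card + 3 * (e * N ^ 2) + 2) := ⟨_, rfl⟩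
  have hex : ∀ p : I, ∃ g ∈ ball S B,
      ¬ d4_K N e (p : ℕ) g ∧ ∀ q ∈ I, (p : ℕ) ≠ q → d4_K N e q g := by
    rintro ⟨p, hp⟩
    have hpp : Fact p.Prime := ⟨(hI p hp).1⟩
    obtain ⟨j, hj, hje, φ, D, hD1, hD, hDle⟩ := hlev p (hI p hp).2.1
    obtain ⟨g, hg, h1, h2⟩ := isolate_prime S hS N e P p I (fun q hq => ⟨(hI q hq).1, (hI q hq).2.2⟩)
      hp (fun q hq hpq a ha hae => hpair p hp q hq hpq a ha hae) j hj hje φ D hD1 hD hDle
    refine ⟨g, by rw [hB]; exact hg, fun hK => h1 (hK hpp j hj hje φ), fun q hq hpq => ?_⟩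
    intro hqq i hi hie ψ
    exact h2 q hq hpq hqq i hi hie ψ
  choose g hgball hgK hgK' using hex
  let E : (I → Bool) → G := fun c =>
    ((Finset.univ : Finset I).toList.map fun p => if c p then g p else 1).prod
  have hE : ∀ c (q : I) {i : ℕ} (hq : Fact (q : ℕ).Prime), 1 ≤ i → i ≤ e →
      ∀ ψ : G →* Matrix.GeneralLinearGroup (Fin N) (GaloisField (q : ℕ) i),
        ψ (E c) = ψ (if c q then g q else 1) := by
    intro c q i hq hi hie ψ
    show ψ (((Finset.univ : Finset I).toList.map fun p => if c p then g p else 1).prod) = _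
    rw [map_list_prod, List.map_map]
    rw [d4_single (ψ ∘ fun p : I => if c p then g p else 1) q ?_ _ (Finset.nodup_toList _)]
    · rw [if_pos (Finset.mem_toList.2 (Finset.mem_univ q))]
      rfl
    · intro p hpq
      show ψ (if c p then g p else 1) = 1
      split_ifs
      · exact hgK' p q q.2 (fun hh => hpq (Subtype.ext hh)) hq i hi hie ψ
      · exact map_one ψ
  have hEK : ∀ c (q : I), d4_K N e (q : ℕ) (E c) ↔ c q = false := by
    intro c q
    constructor
    · intro hK
      by_contra hcq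
      rw [Bool.not_eq_false] at hcq
      refine hgK q ?_
      intro hq i hi hie ψ
      have h1 := hE c q hq hi hie ψ
      rw [hcq, if_pos rfl] at h1
      rw [← h1]
      exact hK hq i hi hie ψ
    · intro hcq hq i hi hie ψ
      have h1 := hE c q hq hi hie ψ
      rw [hcq] at h1
      rw [h1]
      simp
  have hcardI : I.card ≤ P := by
    have h1 : I ⊆ Finset.Icc 1 P := by
      intro p hp
      rw [Finset.mem_Icc]
      exact ⟨(hI p hp).1.one_le, (hI p hp).2.2⟩
    have h2 := Finset.card_le_card h1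
    rw [Nat.card_Icc] at h2
    omega
  have hball : ∀ c, E c ∈ ball S (I.card * B) := by
    intro c
    have h1 := d4_prod_ball S B ((Finset.univ : Finset I).toList.map fun p => if c p then g p else 1) (by
        intro x hx
        rw [List.mem_map] at hx
        obtain ⟨p, -, rfl⟩ := hx
        split_ifs
        · exact hgball p
        · exact one_mem_ball _ _)
    rw [List.length_map, Finset.length_toList, Finset.card_univ, Fintype.card_coe] at h1
    exact h1
  have hback : ∀ (x y : G) (φ : MulAut G), φ x = y → φ⁻¹ y = x := by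
    rintro x y φ rfl
    exact φ.symm_apply_apply x
  have hinv : ∀ c c' : I → Bool, (∃ φ : MulAut G, φ (E c) = E c') → c = c' := by
    rintro c c' ⟨φ, hφ⟩
    have hφ' := hback _ _ φ hφ
    funext q
    have h1 : c q = false ↔ c' q = false := by
      rw [← hEK c q, ← hEK c' q]
      constructor
      · intro hh
        rw [← hφ]
        exact d4_K_aut N e q φ hh
      · intro hh
        rw [← hφ']
        exact d4_K_aut N e q φ⁻¹ hh
    cases hc : c q
    · exact (h1.1 hc).symm
    · cases hc' : c' q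
      · rw [h1.2 hc'] at hc
        exact hc.symm
      · rfl
  have hle := le_autGrowth S (I.card * B) E hball hinv
  have hcd : Nat.card (I → Bool) = 2 ^ I.card := by
    rw [Nat.card_eq_fintype_card, Fintype.card_fun, Fintype.card_bool, Fintype.card_coe]
  rw [hcd] at hle
  have hfin := d4_arith C₀ d (4 * (e + 1) ^ 2)
    (2 * (e * N ^ 2) * S.card + 3 * (e * N ^ 2) + 2) P I.card hP hcardI
  rw [← hB] at hfin
  have h4 := hbd (I.card * B)
  have h6 := lt_of_lt_of_le hlt hle
  have h7 := le_trans h4 hfin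
  exact Nat.lt_irrefl _ (lt_of_lt_of_le h6 h7)

end ALG
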