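import Pool.Agent.AG.B2
import Pool.Agent.AG.G1

/-!
# [ALG] groups whose automorphic growth is not polynomial (MP_893f58_al): definitions
-/

set_option autoImplicit false

namespace ALG

open AG

/-- bounded by a polynomial -/
def PolyBdd (f : ℕ → ℕ) : Prop := ∃ C d : ℕ, ∀ n, f n ≤ C * (n + 1) ^ d

/-! ## the classes of groups -/

/-- the number of orbits of `Aut T` on `T` -/
noncomputable def autClasses (T : Type*) [Group T] : ℕ := (Set.range (autOrbit (G := T))).ncard

/-- For every `C` there are `Q ≥ 2` and at most `Q` pairwise non-isomorphic nonabelian finite simple quotients `T i` of `H` of order at most `Q`, such that the product of the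
numbers of `Aut (T i)`-orbits on `T i` is larger than `Q ^ C`. -/
def ManySimple (H : Type*) [Group H] : Prop :=
  ∀ C : ℕ, ∃ (Q s : ℕ) (T : Fin s → Type) (_ : ∀ i, Group (T i)), s ≤ Q ∧ 2 ≤ Q ∧
    (∀ i, IsSimpleGroup (T i) ∧ (∃ x y : T i, x * y ≠ y * x) ∧ Finite (T i) ∧
      Nat.card (T i) ≤ Q ∧ ∃ f : H →* T i, Function.Surjective f) ∧
    (∀ i j, i ≠ j → IsEmpty (T i ≃* T j)) ∧ Q ^ C < ∏ i, autClasses (T i)

/-- the augmentation ideal of the group algebra of `H` over the field with `p` elements (it is spanned by the `h - 1`) -/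
noncomputable def aug (p : ℕ) (H : Type*) [Group H] :
    Submodule (ZMod p) (MonoidAlgebra (ZMod p) H) :=
  Submodule.span (ZMod p) (Set.range fun h : H => MonoidAlgebra.of (ZMod p) H h - 1)

/-- The dimensions of the quotients of the group algebra of `H` over the field with `p` elements by the powers of the augmentation ideal grow exponentially (along a sequence). -/
def ExpAlg (p : ℕ) (H : Type*) [Group H] : Prop :=
  ∃ a : ℝ, 1 < a ∧ ∀ N : ℕ, ∃ n ≥ N,
    a ^ n ≤ (Module.finrank (ZMod p) (MonoidAlgebra (ZMod p) H ⧸ (aug p H) ^ n) : ℝ)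

/-! ## auxiliary notions -/

/-- the derived series of a subgroup -/
def dser {G : Type*} [Group G] (K : Subgroup G) : ℕ → Subgroup G
  | 0 => K
  | i + 1 => ⁅dser K i, dser K i⁆

/-- the intersection of the subgroups of index at most `J` -/
def lowCore (J : ℕ) (G : Type*) [Group G] : Subgroup G :=
  ⨅ (H : Subgroup G) (_ : H.index ≠ 0 ∧ H.index ≤ J), H

/-- the subgroup generated by the elements of `p`-power order -/
def pE (p : ℕ) (U : Type*) [Group U] : Subgroup U :=
  Subgroup.closure {u | ∃ a : ℕ, u ^ p ^ a = 1}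

/-- no invariant subspaces except `0` and the whole space -/
def Irr {U k V : Type*} [Group U] [Field k] [AddCommGroup V] [Module k V]
    (ρ : U →* Module.End k V) : Prop :=
  ∀ W : Submodule k V, (∀ u, ∀ w ∈ W, ρ u w ∈ W) → W = ⊥ ∨ W = ⊤

/-- the iterated commutators (complete binary trees of depth `k`) -/
def CC (D : Type*) [Group D] : ℕ → Set D
  | 0 => Set.univ
  | k + 1 => {z | ∃ x ∈ CC D k, ∃ y ∈ CC D k, z = x * y * x⁻¹ * y⁻¹}

/-- the lower `p`-central series -/
def PS (H : Type*) [Group H] (p : ℕ) : ℕ → Subgroup H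
  | 0 => ⊤
  | i + 1 => Subgroup.closure
      ({y | ∃ x ∈ PS H p i, y = x ^ p} ∪ {y | ∃ x ∈ PS H p i, ∃ h : H, y = x * h * x⁻¹ * h⁻¹})

/-- the exponent vectors of weight less than `n` (`c i` variables of weight `i + 1`, exponents less than `p`) -/
def Mono (p : ℕ) (c : ℕ → ℕ) (n : ℕ) : Type :=
  {a : (Σ i : Fin n, Fin (c i)) → Fin p // ∑ x, (x.1.val + 1) * (a x).val < n}

end ALG
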