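import Pool.Agent.ALG.Defs

/-!
# [ALG-E0] specialization to the field of algebraic numbers
-/

set_option autoImplicit false

namespace ALG

/-- PROOF. `B = Algebra.adjoin ℚ (X ∪ {f⁻¹}) ≤ L`, a finitely generated `ℚ`-algebra, nonzero; `m` a maximal ideal. `B ⧸ m` is a field, finitely generated as a `ℚ`-algebra, so it is finite over `ℚ`
(`finite_of_finite_type_of_isJacobsonRing`), so algebraic, and it embeds into `AlgebraicClosure ℚ` (`IsAlgClosed.lift`). `f` is a unit of `B`, so its image is not `0`. Restrict to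
`Algebra.adjoin ℤ X`. -/
theorem spec_QB {L : Type*} [Field L] [CharZero L] (X : Finset L) (f : L) (hf : f ≠ 0)
    (hfX : f ∈ Algebra.adjoin ℤ (X : Set L)) :
    ∃ π : Algebra.adjoin ℤ (X : Set L) →+* AlgebraicClosure ℚ, π ⟨f, hfX⟩ ≠ 0 := by
  classical
  let B : Subalgebra ℚ L := Algebra.adjoin ℚ ((insert f⁻¹ X : Finset L) : Set L)
  have hfin : Algebra.FiniteType ℚ B :=
    (Subalgebra.fg_iff_finiteType _).1 (Subalgebra.fg_adjoin_finset (insert f⁻¹ X))
  have hXB : ∀ x ∈ Algebra.adjoin ℤ (X : Set L), x ∈ B := by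
    have h1 : Algebra.adjoin ℤ (X : Set L) ≤ B.restrictScalars ℤ := by
      refine Algebra.adjoin_le fun x hx => ?_
      exact Algebra.subset_adjoin (by
        rw [Finset.coe_insert]
        exact Set.mem_insert_of_mem _ hx)
    exact fun x hx => h1 hx
  have hfi : f⁻¹ ∈ B := Algebra.subset_adjoin (by
    rw [Finset.coe_insert]
    exact Set.mem_insert _ _)
  obtain ⟨m, hm⟩ := Ideal.exists_maximal B
  let _ : Field (B ⧸ m) := Ideal.Quotient.field m
  have h2 : Module.Finite ℚ (B ⧸ m) := finite_of_finite_type_of_isJacobsonRing ℚ (B ⧸ m)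
  have h3 : Algebra.IsAlgebraic ℚ (B ⧸ m) := Algebra.IsAlgebraic.of_finite ℚ (B ⧸ m)
  let ι : (B ⧸ m) →ₐ[ℚ] AlgebraicClosure ℚ := IsAlgClosed.lift
  let j : Algebra.adjoin ℤ (X : Set L) →+* B :=
    (algebraMap (Algebra.adjoin ℤ (X : Set L)) L).codRestrict B.toSubring fun x => hXB _ x.2
  refine ⟨(ι.toRingHom.comp (Ideal.Quotient.mk m)).comp j, ?_⟩
  have h4 : j ⟨f, hfX⟩ * (⟨f⁻¹, hfi⟩ : B) = 1 := by
    apply Subtype.ext
    change f * f⁻¹ = 1
    exact mul_inv_cancel₀ hf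
  intro h5
  have h6 := congrArg (ι.toRingHom.comp (Ideal.Quotient.mk m)) h4
  rw [map_mul, map_one] at h6
  have h7 : (ι.toRingHom.comp (Ideal.Quotient.mk m)) (j ⟨f, hfX⟩) = 0 := h5
  rw [h7, zero_mul] at h6
  exact zero_ne_one h6

end ALG
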