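import Mathlib

/-!
# [ALG-F1] independent sets in directed graphs of bounded out-degree
-/

set_option autoImplicit false

namespace ALG

/-- PROOF. Strong induction on `X.card`. If `X` is empty take `I = ∅`. The number of pairs `(v, w) ∈ X × X` with `r v w` is at most `Δ * X.card`, so some `w ∈ X` has at most `Δ` elements `v ∈ X` with `r v w`. Remove from
`X` the element `w`, the (at most `Δ`) `v` with `r v w` and the (at most `Δ`) `v` with `r w v`; apply the induction hypothesis to the rest and add `w`. -/
theorem indep_set {V : Type*} [DecidableEq V] (X : Finset V) (r : V → V → Prop)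
    [DecidableRel r] (Δ : ℕ) (h : ∀ v ∈ X, (X.filter fun w => r v w).card ≤ Δ) :
    ∃ I ⊆ X, (∀ v ∈ I, ∀ w ∈ I, v ≠ w → ¬ r v w) ∧ X.card ≤ (2 * Δ + 1) * I.card := by
  induction X using Finset.strongInduction with
  | H X ih =>
    rcases Finset.eq_empty_or_nonempty X with hX | hX
    · refine ⟨∅, Finset.empty_subset _, by simp, by simp [hX]⟩
    · have hsum : ∑ w ∈ X, (X.filter fun v => r v w).card ≤ Δ * X.card := by
        calc ∑ w ∈ X, (X.filter fun v => r v w).card
            = ∑ v ∈ X, (X.filter fun w => r v w).card := by
              simp_rw [Finset.card_filter]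
              exact Finset.sum_comm
          _ ≤ ∑ v ∈ X, Δ := Finset.sum_le_sum h
          _ = Δ * X.card := by rw [Finset.sum_const, smul_eq_mul, mul_comm]
      obtain ⟨w, hw, hwΔ⟩ : ∃ w ∈ X, (X.filter fun v => r v w).card ≤ Δ := by
        by_contra hcon
        push Not at hcon
        have h1 : ∑ w ∈ X, Δ < ∑ w ∈ X, (X.filter fun v => r v w).card :=
          Finset.sum_lt_sum_of_nonempty hX hcon
        rw [Finset.sum_const, smul_eq_mul, mul_comm] at h1
        omega
      have hYX : (X.filter fun v => v ≠ w ∧ ¬ r v w ∧ ¬ r w v) ⊂ X := by
        refine ⟨Finset.filter_subset _ _, fun hsub => ?_⟩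
        have h1 := hsub hw
        rw [Finset.mem_filter] at h1
        exact h1.2.1 rfl
      obtain ⟨I, hI, hI2, hI3⟩ := ih _ hYX (by
        intro v hv
        refine (Finset.card_le_card ?_).trans (h v (hYX.1 hv))
        exact Finset.filter_subset_filter _ hYX.1)
      have hwI : w ∉ I := by
        intro hcon
        have h1 := hI hcon
        rw [Finset.mem_filter] at h1
        exact h1.2.1 rfl
      refine ⟨insert w I, ?_, ?_, ?_⟩
      · exact Finset.insert_subset hw (hI.trans hYX.1)
      · intro v hv u hu hvu
        rw [Finset.mem_insert] at hv hu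
        rcases hv with rfl | hv
        · rcases hu with rfl | hu
          · exact absurd rfl hvu
          · have h1 := hI hu
            rw [Finset.mem_filter] at h1
            exact h1.2.2.2
        · rcases hu with rfl | hu
          · have h1 := hI hv
            rw [Finset.mem_filter] at h1
            exact h1.2.2.1
          · exact hI2 v hv u hu hvu
      · have hcov : X ⊆ (X.filter fun v => v ≠ w ∧ ¬ r v w ∧ ¬ r w v) ∪
            ({w} ∪ ((X.filter fun v => r v w) ∪ (X.filter fun v => r w v))) := by
          intro v hv
          simp only [Finset.mem_union, Finset.mem_filter, Finset.mem_singleton]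
          by_cases h1 : v = w
          · exact Or.inr (Or.inl h1)
          · by_cases h2 : r v w
            · exact Or.inr (Or.inr (Or.inl ⟨hv, h2⟩))
            · by_cases h3 : r w v
              · exact Or.inr (Or.inr (Or.inr ⟨hv, h3⟩))
              · exact Or.inl ⟨hv, h1, h2, h3⟩
        have h1 := Finset.card_le_card hcov
        have h2 := Finset.card_union_le (X.filter fun v => v ≠ w ∧ ¬ r v w ∧ ¬ r w v)
            ({w} ∪ ((X.filter fun v => r v w) ∪ (X.filter fun v => r w v)))
        have h3 := Finset.card_union_le {w} ((X.filter fun v => r v w) ∪ (X.filter fun v => r w v))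
        have h4 := Finset.card_union_le (X.filter fun v => r v w) (X.filter fun v => r w v)
        have h5 := h w hw
        rw [Finset.card_singleton] at h3
        rw [Finset.card_insert_of_notMem hwI]
        have h6 : (2 * Δ + 1) * (I.card + 1) = (2 * Δ + 1) * I.card + (2 * Δ + 1) := by ring
        omega

end ALG
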