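import Pool.Agent.ALG.Defs

/-!
# [ALG-G1] representations with finitely many conjugates under the automorphism group
-/

set_option autoImplicit false

namespace ALG

open AG

/-- PROOF. `MulAut G` acts on the finite set of the functions `χ ∘ φ` (`χ = trace ∘ ρ`) by `(χ ∘ φ) ↦ (χ ∘ φ) ∘ ψ`; the stabilizer of `χ` has finite index. -/
theorem char_fi {G : Type*} [Group G] {X : Type*} (χ : G → X)
    (hfin : (Set.range fun (φ : MulAut G) (g : G) => χ (φ g)).Finite) :
    ∃ 𝔸 : Subgroup (MulAut G), 𝔸.FiniteIndex ∧ ∀ φ ∈ 𝔸, ∀ g, χ (φ g) = χ g := by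
  let F : MulAut G → (G → X) := fun φ g => χ (φ g)
  have hF1 : ∀ (α : MulAut G) (φ ψ : MulAut G), F φ = F ψ → F (φ * α) = F (ψ * α) := by
    intro α φ ψ h
    funext g
    exact congrFun h (α g)
  let 𝔸 : Subgroup (MulAut G) :=
    { carrier := {φ | F φ = F 1}
      one_mem' := rfl
      mul_mem' := by
        intro a b ha hb
        have h1 : F (a * b) = F (1 * b) := hF1 b a 1 ha
        rw [one_mul] at h1
        exact h1.trans hb
      inv_mem' := by
        intro a ha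
        have h1 : F (a * a⁻¹) = F (1 * a⁻¹) := hF1 a⁻¹ a 1 ha
        rw [one_mul, mul_inv_cancel] at h1
        exact h1.symm }
  refine ⟨𝔸, ?_, ?_⟩
  · have hfin' : Finite (Set.range F) := hfin
    have hinj : ∀ φ ψ : MulAut G, F φ = F ψ → ((φ⁻¹ : MulAut G) : MulAut G ⧸ 𝔸) = ((ψ⁻¹ : MulAut G) : MulAut G ⧸ 𝔸) := by
      intro φ ψ h
      rw [QuotientGroup.eq, inv_inv]
      show F (φ * ψ⁻¹) = F 1
      rw [hF1 ψ⁻¹ φ ψ h, mul_inv_cancel]
    have hfq : Finite (MulAut G ⧸ 𝔸) := by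
      refine Finite.of_surjective (fun y : Set.range F => (((y.2.choose : MulAut G)⁻¹ : MulAut G) : MulAut G ⧸ 𝔸)) ?_
      intro q
      obtain ⟨φ, rfl⟩ := QuotientGroup.mk_surjective q
      refine ⟨⟨F φ⁻¹, φ⁻¹, rfl⟩, ?_⟩
      have h1 := (⟨φ⁻¹, rfl⟩ : ∃ ψ, F ψ = F φ⁻¹).choose_spec
      have h2 := hinj _ _ h1
      rw [inv_inv] at h2
      exact h2
    exact Subgroup.finiteIndex_of_finite_quotient
  · intro φ hφ g
    exact congrFun hφ g

end ALG
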