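import Pool.Agent.ALG.A2
import Pool.Agent.ALG.G1

/-!
# [ALG-G2] representations with finitely many conjugates
-/

set_option autoImplicit false

namespace ALG

open AG

theorem g2_values {G : Type*} [Group G] {X : Type*} (S : Finset G) (χ : G → X)
    (𝔸 : Subgroup (MulAut G)) [𝔸.FiniteIndex] (h : ∀ φ ∈ 𝔸, ∀ g, χ (φ g) = χ g) (n : ℕ) :
    (χ '' ball S n).ncard ≤ 𝔸.index * autGrowth S n := by
  have h1 := le_autGrowth_fi S 𝔸 n (ι := (χ '' ball S n : Set X)) (fun i => i.2.choose)
    (fun i => i.2.choose_spec.1) (by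
      rintro i j ⟨φ, hφ, hij⟩
      apply Subtype.ext
      rw [← i.2.choose_spec.2, ← j.2.choose_spec.2, ← hij]
      exact (h φ hφ _).symm)
  rw [Nat.card_coe_set_eq] at h1
  exact h1

theorem g2_span {G : Type*} [Group G] {K : Type*} [Field K] (N : ℕ)
    (ρ : G →* Matrix.GeneralLinearGroup (Fin N) K)
    (hspan : Submodule.span K (Set.range fun g => (ρ g : Matrix (Fin N) (Fin N) K)) = ⊤) :
    ∃ I : Finset G, Submodule.span K ((fun g => (ρ g : Matrix (Fin N) (Fin N) K)) '' (I : Set G)) = ⊤ := by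
  classical
  have h1 : (Submodule.span K (Set.range fun g => (ρ g : Matrix (Fin N) (Fin N) K))).FG := by
    rw [hspan]
    exact Module.Finite.fg_top
  rw [Submodule.fg_span_iff_fg_span_finset_subset] at h1
  obtain ⟨s, hs, hs2⟩ := h1
  rw [← Set.image_univ] at hs
  obtain ⟨t, _, ht⟩ := Finset.subset_set_image_iff.1 hs
  refine ⟨t, ?_⟩
  rw [← hspan, hs2, ← ht, Finset.coe_image]

theorem g2_inj {G : Type*} [Group G] {K : Type*} [Field K] (N : ℕ)
    (ρ : G →* Matrix.GeneralLinearGroup (Fin N) K) (I : Finset G)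
    (hI : Submodule.span K ((fun g => (ρ g : Matrix (Fin N) (Fin N) K)) '' (I : Set G)) = ⊤)
    (x y : Matrix (Fin N) (Fin N) K)
    (h : ∀ i ∈ I, Matrix.trace (x * (ρ i : Matrix (Fin N) (Fin N) K)) =
      Matrix.trace (y * (ρ i : Matrix (Fin N) (Fin N) K))) : x = y := by
  rw [Matrix.ext_iff_trace_mul_right]
  intro z
  have hz : z ∈ Submodule.span K ((fun g => (ρ g : Matrix (Fin N) (Fin N) K)) '' (I : Set G)) := by
    rw [hI]
    exact Submodule.mem_top
  induction hz using Submodule.span_induction with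
  | mem z hz =>
    obtain ⟨i, hi, rfl⟩ := hz
    exact h i hi
  | zero => simp
  | add a b _ _ ha hb => rw [mul_add, mul_add, Matrix.trace_add, Matrix.trace_add, ha, hb]
  | smul c a _ ha => rw [mul_smul_comm, mul_smul_comm, Matrix.trace_smul, Matrix.trace_smul, ha]

theorem g2_image {G : Type*} [Group G] (S : Finset G) {K : Type*} [Field K] (N : ℕ)
    (ρ : G →* Matrix.GeneralLinearGroup (Fin N) K) (I : Finset G)
    (hI : Submodule.span K ((fun g => (ρ g : Matrix (Fin N) (Fin N) K)) '' (I : Set G)) = ⊤)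
    (b : ℕ) (hb : ∀ i ∈ I, i ∈ ball S b) (n : ℕ) :
    (ρ '' ball S n).ncard ≤
      ((fun g => Matrix.trace (ρ g : Matrix (Fin N) (Fin N) K)) '' ball S (n + b)).ncard ^
        I.card := by
  have hfin : Finite ((fun g => Matrix.trace (ρ g : Matrix (Fin N) (Fin N) K)) '' ball S (n + b) :
    Set K) := ((ball_finite S (n + b)).image _)
  let F : (ρ '' ball S n : Set (Matrix.GeneralLinearGroup (Fin N) K)) →
      (I → ((fun g => Matrix.trace (ρ g : Matrix (Fin N) (Fin N) K)) '' ball S (n + b) : Set K)) :=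
    fun x i => ⟨Matrix.trace ((x.1 : Matrix (Fin N) (Fin N) K) *
      (ρ i.1 : Matrix (Fin N) (Fin N) K)), by
        obtain ⟨x, g, hg, rfl⟩ := x
        refine ⟨g * i.1, mul_mem_ball hg (hb _ i.2), ?_⟩
        show Matrix.trace (ρ (g * i.1) : Matrix (Fin N) (Fin N) K) = _
        rw [map_mul]
        rfl⟩
  have hF : Function.Injective F := by
    intro x y hxy
    apply Subtype.ext
    apply Units.ext
    apply g2_inj N ρ I hI
    intro i hi
    have h1 := congrFun hxy ⟨i, hi⟩
    exact congrArg Subtype.val h1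
  have h1 := Nat.card_le_card_of_injective F hF
  rw [Nat.card_fun, Nat.card_coe_set_eq, Nat.card_coe_set_eq] at h1
  simpa using h1

/-- PROOF. `𝔸` from `char_fi`. The number of values of `χ` on `ball S n` is at most `𝔸.index * autGrowth S n` (`le_autGrowth_fi` with one `g` for each value), so bounded by a polynomial in `n` if
`PolyBdd (autGrowth S)`. Choose `g_1, ..., g_r` (`r ≤ N²`) such that the `ρ g_i` span the matrices, all in `ball S b`. A matrix `x` is determined by the numbers `trace (x * ρ g_i)`, so `ρ g` is determined by the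
`χ (g * g_i)`, and `#(ρ '' ball S n) ≤ (number of values of χ on ball S (n+b))^r` is bounded by a polynomial. `T` is contained in the image of a ball (`AG.exists_ball_subset`-like), so
`ball T n` is contained in the image of `ball S (k n)`: `PolyG T`. -/
theorem not_polyBdd_of_rigid {G : Type*} [Group G] (S : Finset G)
    (hS : Subgroup.closure (S : Set G) = ⊤) {K : Type*} [Field K] (N : ℕ)
    (ρ : G →* Matrix.GeneralLinearGroup (Fin N) K)
    (hspan : Submodule.span K (Set.range fun g => (ρ g : Matrix (Fin N) (Fin N) K)) = ⊤)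
    (hfin : (Set.range fun (φ : MulAut G) (g : G) =>
      Matrix.trace (ρ (φ g) : Matrix (Fin N) (Fin N) K)).Finite)
    (T : Finset ρ.range) (hT : ¬ PolyG T) : ¬ PolyBdd (autGrowth S) := by
  classical
  rintro ⟨C, d, hpoly⟩
  apply hT
  obtain ⟨𝔸, h𝔸, hinv⟩ := char_fi
    (fun g => Matrix.trace (ρ g : Matrix (Fin N) (Fin N) K)) hfin
  have hval := g2_values S (fun g => Matrix.trace (ρ g : Matrix (Fin N) (Fin N) K)) 𝔸 hinv
  obtain ⟨I, hI⟩ := g2_span N ρ hspan
  obtain ⟨b, hb⟩ := exists_ball_subset S I (fun t _ => by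
    rw [hS]
    exact Subgroup.mem_top t)
  have himg := g2_image S N ρ I hI b hb
  obtain ⟨k, hk⟩ := exists_ball_subset S (T.image (fun t => t.2.choose)) (fun t _ => by
    rw [hS]
    exact Subgroup.mem_top t)
  have hk' : ∀ s ∈ T, ∃ g ∈ ball S k, ρ.rangeRestrict g = s := by
    intro s hs
    refine ⟨s.2.choose, hk _ (Finset.mem_image_of_mem _ hs), ?_⟩
    apply Subtype.ext
    exact s.2.choose_spec
  refine ⟨(𝔸.index * C) ^ I.card * ((k + b + 1) ^ d) ^ I.card, d * I.card, fun n => ?_⟩
  have h1 : (ball T n).ncard ≤ (ρ '' ball S (k * n)).ncard := by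
    have hsub : ball T n ⊆ ρ.rangeRestrict '' ball S (k * n) := by
      intro q hq
      obtain ⟨g, hg, hgq⟩ := ball_lift ρ.rangeRestrict hk' n hq
      exact ⟨g, hg, hgq⟩
    have h2 : (ρ '' ball S (k * n)).ncard = (ρ.rangeRestrict '' ball S (k * n)).ncard := by
      rw [← Set.ncard_image_of_injective _ (Subtype.val_injective (p := fun x => x ∈ ρ.range)),
        Set.image_image]
      rfl
    rw [h2]
    exact Set.ncard_le_ncard hsub ((ball_finite S (k * n)).image _)
  have h3 : ((fun g => Matrix.trace (ρ g : Matrix (Fin N) (Fin N) K)) '' ball S (k * n + b)).ncard ≤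
      𝔸.index * C * ((k + b + 1) ^ d * (n + 1) ^ d) := by
    refine (hval _).trans ?_
    rw [mul_assoc, ← mul_pow]
    refine Nat.mul_le_mul_left _ ((hpoly _).trans (Nat.mul_le_mul_left _ ?_))
    exact Nat.pow_le_pow_left (by nlinarith) d
  calc (ball T n).ncard ≤ _ := h1
    _ ≤ _ := himg (k * n)
    _ ≤ (𝔸.index * C * ((k + b + 1) ^ d * (n + 1) ^ d)) ^ I.card := Nat.pow_le_pow_left h3 _
    _ = (𝔸.index * C) ^ I.card * ((k + b + 1) ^ d) ^ I.card * (n + 1) ^ (d * I.card) := by
      rw [pow_mul, mul_pow, mul_pow ((k + b + 1) ^ d), mul_assoc]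

end ALG
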