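import Pool.Agent.ALG.Defs

/-!
# [ALG-I1] common eigenvectors
-/

set_option autoImplicit false

namespace ALG

theorem i1_aux {k V : Type*} [Field k] [IsAlgClosed k] [AddCommGroup V]
    [Module k V] [FiniteDimensional k V] (A : Set (Module.End k V))
    (hA : ∀ a ∈ A, ∀ b ∈ A, a * b = b * a) (n : ℕ) :
    ∀ W : Submodule k V, Module.finrank k W = n → W ≠ ⊥ → (∀ a ∈ A, ∀ w ∈ W, a w ∈ W) →
      ∃ v ∈ W, v ≠ 0 ∧ ∀ a ∈ A, ∃ μ : k, a v = μ • v := by
  induction n using Nat.strong_induction_on with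
  | _ n ih =>
    intro W hW hne hinv
    by_cases h : ∀ a ∈ A, ∃ μ : k, ∀ w ∈ W, a w = μ • w
    · obtain ⟨v, hv, hv0⟩ := Submodule.exists_mem_ne_zero_of_ne_bot hne
      refine ⟨v, hv, hv0, ?_⟩
      intro a ha
      obtain ⟨μ, hμ⟩ := h a ha
      exact ⟨μ, hμ v hv⟩
    · push Not at h
      obtain ⟨a, ha, hna⟩ := h
      have hnt : Nontrivial W := (Submodule.nontrivial_iff_ne_bot).2 hne
      obtain ⟨μ, hμ⟩ := Module.End.exists_eigenvalue (LinearMap.restrict a (hinv a ha))
      obtain ⟨w0, hw0⟩ := hμ.exists_hasEigenvector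
      have hw1 : a (w0 : V) = μ • (w0 : V) := by
        have h1 := hw0.apply_eq_smul
        have h2 := congrArg (Subtype.val) h1
        exact h2
      have hw2 : (w0 : V) ≠ 0 := by
        intro h0
        exact hw0.2 (Subtype.ext h0)
      have hmem : ∀ w : V, w ∈ W ⊓ LinearMap.ker (a - μ • (1 : Module.End k V)) ↔
          w ∈ W ∧ a w = μ • w := by
        intro w
        rw [Submodule.mem_inf, LinearMap.mem_ker]
        refine and_congr_right fun _ => ?_
        rw [LinearMap.sub_apply, LinearMap.smul_apply, Module.End.one_apply, sub_eq_zero]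
      have hlt : W ⊓ LinearMap.ker (a - μ • (1 : Module.End k V)) < W := by
        refine lt_of_le_of_ne inf_le_left ?_
        intro heq
        obtain ⟨w, hw, hne'⟩ := hna μ
        rw [← heq] at hw
        exact hne' ((hmem w).1 hw).2
      have hfr := Submodule.finrank_lt_finrank_of_lt hlt
      obtain ⟨v, hv, hv0, hv1⟩ := ih _ (by omega) (W ⊓ LinearMap.ker (a - μ • (1 : Module.End k V))) rfl (by
        intro hbot
        have h3 : (w0 : V) ∈ W ⊓ LinearMap.ker (a - μ • (1 : Module.End k V)) :=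
          (hmem _).2 ⟨w0.2, hw1⟩
        rw [hbot, Submodule.mem_bot] at h3
        exact hw2 h3) (by
        intro b hb w hw
        obtain ⟨h4, h5⟩ := (hmem w).1 hw
        refine (hmem _).2 ⟨hinv b hb w h4, ?_⟩
        have h6 := congrArg (fun T : Module.End k V => T w) (hA a ha b hb)
        simp only [Module.End.mul_apply] at h6
        rw [h6, h5, map_smul])
      exact ⟨v, hlt.le hv, hv0, hv1⟩

/-- PROOF. Choose a subspace `W ≠ 0` with `a W ⊆ W` for all `a ∈ A`, of minimal dimension. Each `a ∈ A` has an eigenvalue `μ` on `W` (`Module.End.exists_eigenvalue` for the restriction to `W`);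
the eigenspace `{w ∈ W | a w = μ w}` is invariant under `A` (commuting), not zero, so it is `W`. So every `a ∈ A` is a scalar on `W`, and every `v ≠ 0` in `W` will do. -/
theorem common_eigenvector {k V : Type*} [Field k] [IsAlgClosed k] [AddCommGroup V]
    [Module k V] [FiniteDimensional k V] [Nontrivial V] (A : Set (Module.End k V))
    (hA : ∀ a ∈ A, ∀ b ∈ A, a * b = b * a) :
    ∃ v : V, v ≠ 0 ∧ ∀ a ∈ A, ∃ μ : k, a v = μ • v := by
  obtain ⟨v, -, hv0, hv1⟩ := i1_aux A hA _ ⊤ rfl top_ne_bot (fun a _ w _ => Submodule.mem_top)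
  exact ⟨v, hv0, hv1⟩

/-- PROOF. The orbits of the group generated by `σ` on `X` have a cardinality dividing `p ^ a` and at most `Nat.card X < p`, so they have one element. (`σ ^ p ^ a = 1`: the cycle lengths divide
`p ^ a`.) -/
theorem perm_trivial {X : Type*} [Finite X] (p : ℕ) (hp : p.Prime) (hX : Nat.card X < p)
    (σ : Equiv.Perm X) (a : ℕ) (h : σ ^ p ^ a = 1) : σ = 1 := by
  have h1 : orderOf σ ∣ p ^ a := orderOf_dvd_of_pow_eq_one h
  have h2 : orderOf σ ∣ (Nat.card X).factorial := by
    rw [← Nat.card_perm]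
    exact orderOf_dvd_natCard σ
  have h3 : Nat.Coprime (p ^ a) (Nat.card X).factorial := by
    apply Nat.Coprime.pow_left
    rw [Nat.Prime.coprime_iff_not_dvd hp, Nat.Prime.dvd_factorial hp]
    omega
  exact orderOf_eq_one_iff.1 (Nat.eq_one_of_dvd_coprimes h3 h1 h2)

end ALG
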