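import Pool.Agent.ALG.I1

/-!
# [ALG-I2] abelian normal subgroups act by scalars
-/

set_option autoImplicit false

namespace ALG

/-- conjugation on characters -/
def i2_conj {k U : Type*} [Group U] (A : Subgroup U) [hn : A.Normal] (u : U) (χ : A → k) :
    A → k :=
  fun a => χ ⟨u⁻¹ * a * u, by simpa using hn.conj_mem a a.2 u⁻¹⟩

theorem i2_conj_one {k U : Type*} [Group U] (A : Subgroup U) [A.Normal] (χ : A → k) :
    i2_conj A 1 χ = χ := by
  funext a
  unfold i2_conj
  congr 1
  apply Subtype.ext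
  simp

theorem i2_conj_mul {k U : Type*} [Group U] (A : Subgroup U) [A.Normal] (u w : U)
    (χ : A → k) : i2_conj A (u * w) χ = i2_conj A u (i2_conj A w χ) := by
  funext a
  unfold i2_conj
  congr 1
  apply Subtype.ext
  simp [mul_assoc]

/-- the simultaneous eigenspaces -/
def i2_E {k V U : Type*} [Field k] [AddCommGroup V] [Module k V] [Group U]
    (ρ : U →* Module.End k V) (A : Subgroup U) (χ : A → k) : Submodule k V where
  carrier := {v | ∀ a : A, ρ a v = χ a • v}
  zero_mem' := fun a => by simp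
  add_mem' := fun {v w} hv hw a => by rw [map_add, hv a, hw a, smul_add]
  smul_mem' := fun c v hv a => by rw [map_smul, hv a, smul_comm]

theorem i2_mem {k V U : Type*} [Field k] [AddCommGroup V] [Module k V] [Group U]
    (ρ : U →* Module.End k V) (A : Subgroup U) (χ : A → k) (v : V) :
    v ∈ i2_E ρ A χ ↔ ∀ a : A, ρ a v = χ a • v := Iff.rfl

theorem i2_map {k V U : Type*} [Field k] [AddCommGroup V] [Module k V] [Group U]
    (ρ : U →* Module.End k V) (A : Subgroup U) [A.Normal] (χ : A → k) (u : U) (v : V)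
    (hv : v ∈ i2_E ρ A χ) : ρ u v ∈ i2_E ρ A (i2_conj A u χ) := by
  rw [i2_mem] at *
  intro a
  have h1 : (a : U) * u = u * (u⁻¹ * a * u) := by group
  have h2 : ρ a (ρ u v) = ρ u (ρ (u⁻¹ * a * u) v) := by
    rw [← Module.End.mul_apply, ← Module.End.mul_apply, ← map_mul, ← map_mul, h1]
  rw [h2]
  have h3 := hv ⟨u⁻¹ * a * u, by simpa using (inferInstance : A.Normal).conj_mem a a.2 u⁻¹⟩
  have h4 : ρ (u⁻¹ * a * u) v = i2_conj A u χ a • v := h3
  rw [h4, map_smul]

theorem i2_ne {k V U : Type*} [Field k] [AddCommGroup V] [Module k V] [Group U]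
    (ρ : U →* Module.End k V) (A : Subgroup U) [A.Normal] (χ : A → k) (u : U)
    (h : i2_E ρ A χ ≠ ⊥) : i2_E ρ A (i2_conj A u χ) ≠ ⊥ := by
  rw [Submodule.ne_bot_iff] at *
  obtain ⟨v, hv, hv0⟩ := h
  refine ⟨ρ u v, i2_map ρ A χ u v hv, fun h0 => hv0 ?_⟩
  have h1 : ρ u⁻¹ (ρ u v) = v := by
    rw [← Module.End.mul_apply, ← map_mul, inv_mul_cancel, map_one, Module.End.one_apply]
  rw [← h1, h0, map_zero]

theorem i2_indep {k V U : Type*} [Field k] [AddCommGroup V] [Module k V] [Group U]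
    (ρ : U →* Module.End k V) (A : Subgroup U)
    (hA : ∀ a ∈ A, ∀ b ∈ A, ρ a * ρ b = ρ b * ρ a) : iSupIndep (i2_E ρ A) := by
  have h1 := Module.End.independent_iInf_maxGenEigenspace_of_forall_mapsTo
    (fun a : A => ρ a) (fun i j φ =>
      Module.End.mapsTo_maxGenEigenspace_of_comm (hA j j.2 i i.2) φ)
  refine h1.mono fun χ => ?_
  intro v hv
  rw [Submodule.mem_iInf]
  intro a
  apply Module.End.eigenspace_le_maxGenEigenspace
  rw [Module.End.mem_eigenspace_iff]
  exact hv a

/-- the action on the characters which occur -/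
@[reducible] def i2_act {k V U : Type*} [Field k] [AddCommGroup V] [Module k V] [Group U]
    (ρ : U →* Module.End k V) (A : Subgroup U) [A.Normal] :
    MulAction U {χ : A → k // i2_E ρ A χ ≠ ⊥} where
  smul u χ := ⟨i2_conj A u χ.1, i2_ne ρ A χ.1 u χ.2⟩
  one_smul χ := Subtype.ext (i2_conj_one A χ.1)
  mul_smul u w χ := Subtype.ext (i2_conj_mul A u w χ.1)

/-- PROOF. If `V = 0` everything is trivial (`μ = 0`). For `χ : A → k` let `V χ = {v | ∀ a ∈ A, ρ a v = χ a v}`, and `X = {χ | V χ ≠ 0}`. The `V χ`, `χ ∈ X`, are independent (eigenspaces; e.g.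
`Module.End.eigenspaces_iSupIndep` for pairs and induction, or the standard argument with a shortest relation), so `X` is finite with at most `finrank k V < p` elements.
`X` is not empty (`common_eigenvector` for the set of the `ρ a`, `a ∈ A`). `ρ u` maps `V χ` onto `V χ'`, `χ' a = χ (u⁻¹ a u)` (`A` is normal), so `U` acts on `X`. An element `u` with `u ^ p ^ a = 1`
acts trivially on `X` (`perm_trivial`), so it maps `V χ` to itself for every `χ ∈ X`. These `u` generate `U` (`hgen`), so `V χ` is invariant under `U`, and `V χ = ⊤` by `hirr`. -/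
theorem normal_abelian_scalar {p : ℕ} (hp : p.Prime) {k V U : Type*} [Field k]
    [IsAlgClosed k] [AddCommGroup V] [Module k V] [FiniteDimensional k V] [Group U]
    (ρ : U →* Module.End k V) (hirr : Irr ρ) (hgen : pE p U = ⊤)
    (hdim : Module.finrank k V < p) (A : Subgroup U) [A.Normal]
    (hA : ∀ a ∈ A, ∀ b ∈ A, ρ a * ρ b = ρ b * ρ a) :
    ∀ a ∈ A, ∃ μ : k, ρ a = μ • (1 : Module.End k V) := by
  classical
  intro a ha
  rcases subsingleton_or_nontrivial V with hV | hV
  · refine ⟨0, ?_⟩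
    ext v
    exact Subsingleton.elim _ _
  have hind := i2_indep ρ A hA
  have hfin : Fintype {χ : A → k // i2_E ρ A χ ≠ ⊥} :=
    hind.fintypeNeBotOfFiniteDimensional
  have hcard := hind.subtype_ne_bot_le_finrank
  obtain ⟨v, hv0, hv⟩ := common_eigenvector (Set.range fun a : A => ρ a) (by
    rintro _ ⟨x, rfl⟩ _ ⟨y, rfl⟩
    exact hA x x.2 y y.2)
  choose! f hf using hv
  let χ : A → k := fun a => f (ρ a)
  have hχ : i2_E ρ A χ ≠ ⊥ := by
    rw [Submodule.ne_bot_iff]
    exact ⟨v, fun a => hf (ρ a) ⟨a, rfl⟩, hv0⟩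
  let hact : MulAction U {χ : A → k // i2_E ρ A χ ≠ ⊥} := i2_act ρ A
  let x : {χ : A → k // i2_E ρ A χ ≠ ⊥} := ⟨χ, hχ⟩
  have hstab : MulAction.stabilizer U x = ⊤ := by
    rw [eq_top_iff, ← hgen]
    unfold pE
    rw [Subgroup.closure_le]
    rintro u ⟨n, hn⟩
    have h1 : MulAction.toPermHom U {χ : A → k // i2_E ρ A χ ≠ ⊥} u = 1 := by
      apply perm_trivial p hp _ _ n
      · rw [← map_pow, hn, map_one]
      · rw [Nat.card_eq_fintype_card]
        exact lt_of_le_of_lt hcard hdim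
    rw [SetLike.mem_coe, MulAction.mem_stabilizer_iff]
    have h2 := Equiv.Perm.ext_iff.mp h1 x
    exact h2
  have hinv : ∀ u, ∀ w ∈ i2_E ρ A χ, ρ u w ∈ i2_E ρ A χ := by
    intro u w hw
    have h1 : u ∈ MulAction.stabilizer U x := by rw [hstab]; trivial
    rw [MulAction.mem_stabilizer_iff] at h1
    have h2 : i2_conj A u χ = χ := congrArg Subtype.val h1
    have h3 := i2_map ρ A χ u w hw
    rwa [h2] at h3
  rcases hirr _ hinv with h | h
  · exact absurd h hχ
  · refine ⟨χ ⟨a, ha⟩, ?_⟩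
    ext w
    have h1 : w ∈ i2_E ρ A χ := by rw [h]; trivial
    exact h1 ⟨a, ha⟩

end ALG
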