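import Pool.Agent.ALG.I1

/-!
# [ALG-I3] normal subgroups which are abelian modulo scalars
-/

set_option autoImplicit false

namespace ALG

theorem i3_inv {k V U : Type*} [Field k] [AddCommGroup V] [Module k V] [Group U]
    (ρ : U →* Module.End k V) (u : U) : ρ u * ρ u⁻¹ = 1 := by
  rw [← map_mul, mul_inv_cancel, map_one]

theorem i3_inv' {k V U : Type*} [Field k] [AddCommGroup V] [Module k V] [Group U]
    (ρ : U →* Module.End k V) (u : U) : ρ u⁻¹ * ρ u = 1 := by
  rw [← map_mul, inv_mul_cancel, map_one]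

theorem i3_ne {k V U : Type*} [Field k] [AddCommGroup V] [Module k V] [Group U] [Nontrivial V]
    (ρ : U →* Module.End k V) (u : U) : ρ u ≠ 0 := by
  intro h
  have h1 := i3_inv ρ u
  rw [h, zero_mul] at h1
  exact zero_ne_one h1

theorem i3_cancel {k V : Type*} [Field k] [AddCommGroup V] [Module k V]
    {x : Module.End k V} (hx : x ≠ 0) {c c' : k} (h : c • x = c' • x) : c = c' :=
  smul_left_injective k hx h

theorem i3_char {k V U : Type*} [Field k] [AddCommGroup V] [Module k V] [Group U] [Nontrivial V]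
    (ρ : U →* Module.End k V) (B : Subgroup U)
    (hB : ∀ b ∈ B, ∀ c ∈ B, ∃ μ : k, ρ b * ρ c = μ • (ρ c * ρ b)) (b : B) :
    ∃ χ : B →* k, ∀ d : B, ρ d * ρ b = χ d • (ρ b * ρ d) := by
  choose μ hμ using fun d : B => hB d d.2 b b.2
  refine ⟨⟨⟨μ, ?_⟩, ?_⟩, hμ⟩
  · have h1 := hμ 1
    rw [OneMemClass.coe_one, map_one, one_mul, mul_one] at h1
    exact (i3_cancel (i3_ne ρ (b : U)) (by rw [one_smul]; exact h1)).symm
  · intro d d'
    have h1 := hμ (d * d')
    have h2 : ρ ((d * d' : B) : U) = ρ d * ρ d' := by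
      rw [Subgroup.coe_mul, map_mul]
    have h3 : ρ (b : U) * ρ ((d * d' : B) : U) ≠ 0 := by
      rw [← map_mul]
      exact i3_ne ρ _
    apply i3_cancel h3
    rw [← h1, h2, mul_assoc, hμ d', mul_smul_comm, ← mul_assoc, hμ d, smul_mul_assoc, smul_smul,
      mul_comm (μ d') (μ d), mul_assoc]

theorem i3_indep {k V U : Type*} [Field k] [AddCommGroup V] [Module k V] [Group U] [Nontrivial V]
    (ρ : U →* Module.End k V) (B : Subgroup U) {X : Type*} (rep : X → B) (χ : X → (B →* k))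
    (hχ : ∀ (x : X) (d : B), ρ d * ρ (rep x) = χ x d • (ρ (rep x) * ρ d))
    (hinj : Function.Injective χ) : LinearIndependent k (fun x => ρ (rep x : U)) := by
  rw [linearIndependent_iff']
  intro s g hg x hx
  by_contra hgx
  apply i3_ne ρ (rep x : U)
  refine LinearMap.ext fun v => ?_
  rw [LinearMap.zero_apply, ← Module.forall_dual_apply_eq_zero_iff k]
  intro f
  have hli := (linearIndependent_monoidHom B k).comp χ hinj
  rw [linearIndependent_iff'] at hli
  have h1 := hli s (fun y => g y * f (ρ (rep y : U) v)) ?_ x hx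
  · exact (mul_eq_zero.1 h1).resolve_left hgx
  · funext d
    have h2 : ρ (d : U) * (∑ y ∈ s, g y • ρ (rep y : U)) * ρ (d : U)⁻¹ = 0 := by
      rw [hg, mul_zero, zero_mul]
    have h3 : ρ (d : U) * (∑ y ∈ s, g y • ρ (rep y : U)) * ρ (d : U)⁻¹ =
        ∑ y ∈ s, (g y * χ y d) • ρ (rep y : U) := by
      rw [Finset.mul_sum, Finset.sum_mul]
      refine Finset.sum_congr rfl fun y _ => ?_
      rw [mul_smul_comm, smul_mul_assoc, hχ, smul_mul_assoc, mul_assoc, i3_inv, mul_one, smul_smul]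
    rw [h3] at h2
    have h4 := congrArg (fun T : Module.End k V => f (T v)) h2
    simp only [LinearMap.sum_apply, LinearMap.smul_apply, map_sum, map_smul, smul_eq_mul,
      LinearMap.zero_apply, map_zero] at h4
    rw [Finset.sum_apply, Pi.zero_apply, ← h4]
    refine Finset.sum_congr rfl fun y _ => ?_
    simp only [Pi.smul_apply, Function.comp_apply, smul_eq_mul]
    ring

theorem i3_key {k V U : Type*} [Field k] [AddCommGroup V] [Module k V] [Group U] [Nontrivial V]
    (ρ : U →* Module.End k V) (B : Subgroup U)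
    (hZ : ∀ b ∈ B, (∀ c ∈ B, ρ b * ρ c = ρ c * ρ b) → ∃ μ : k, ρ b = μ • (1 : Module.End k V))
    (b c : B) (χ : B →* k) (h1 : ∀ d : B, ρ d * ρ b = χ d • (ρ b * ρ d))
    (h2 : ∀ d : B, ρ d * ρ c = χ d • (ρ c * ρ d)) : ∃ μ : k, μ ≠ 0 ∧ ρ (b : U) = μ • ρ (c : U) := by
  have h3 : ∀ d : B, ρ (c : U)⁻¹ * ρ d = χ d • (ρ d * ρ (c : U)⁻¹) := by
    intro d
    have h4 : ρ (c : U)⁻¹ * (ρ d * ρ c) * ρ (c : U)⁻¹ = ρ (c : U)⁻¹ * (χ d • (ρ c * ρ d)) * ρ (c : U)⁻¹ := by
      rw [h2 d]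
    rw [mul_smul_comm, smul_mul_assoc, ← mul_assoc (ρ (c : U)⁻¹) (ρ (c : U)) (ρ d), i3_inv', one_mul,
      mul_assoc, mul_assoc, i3_inv, mul_one] at h4
    exact h4
  obtain ⟨μ, hμ⟩ := hZ ((b : U) * (c : U)⁻¹) (B.mul_mem b.2 (B.inv_mem c.2)) (by
    intro d hd
    have h5 := h1 ⟨d, hd⟩
    have h6 := h3 ⟨d, hd⟩
    simp only at h5 h6
    rw [map_mul, mul_assoc, h6, mul_smul_comm, ← mul_assoc, ← smul_mul_assoc, ← h5, mul_assoc])
  refine ⟨μ, ?_, ?_⟩
  · rintro rfl
    rw [zero_smul] at hμ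
    exact i3_ne ρ _ hμ
  · have h7 : ρ (b : U) = ρ ((b : U) * (c : U)⁻¹) * ρ (c : U) := by
      rw [← map_mul, inv_mul_cancel_right]
    rw [h7, hμ, smul_mul_assoc, one_mul]

/-- equivalence modulo scalars -/
def i3_setoid {k V U : Type*} [Field k] [AddCommGroup V] [Module k V] [Group U]
    (ρ : U →* Module.End k V) (B : Subgroup U) : Setoid B where
  r b c := ∃ μ : k, μ ≠ 0 ∧ ρ (b : U) = μ • ρ (c : U)
  iseqv := by
    refine ⟨fun b => ⟨1, one_ne_zero, by rw [one_smul]⟩, ?_, ?_⟩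
    · rintro b c ⟨μ, hμ, h⟩
      exact ⟨μ⁻¹, inv_ne_zero hμ, by rw [h, smul_smul, inv_mul_cancel₀ hμ, one_smul]⟩
    · rintro b c d ⟨μ, hμ, h⟩ ⟨ν, hν, h'⟩
      exact ⟨μ * ν, mul_ne_zero hμ hν, by rw [h, h', smul_smul]⟩

theorem i3_conj {k V U : Type*} [Field k] [AddCommGroup V] [Module k V] [Group U]
    (ρ : U →* Module.End k V) (B : Subgroup U) [B.Normal] (w : U) (b c : B)
    (h : ∃ μ : k, μ ≠ 0 ∧ ρ (b : U) = μ • ρ (c : U)) :
    ∃ μ : k, μ ≠ 0 ∧ ρ ((MulAut.conjNormal w b : B) : U) = μ • ρ ((MulAut.conjNormal w c : B) : U) := by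
  obtain ⟨μ, hμ, h⟩ := h
  refine ⟨μ, hμ, ?_⟩
  rw [MulAut.conjNormal_apply, MulAut.conjNormal_apply, map_mul, map_mul, h, map_mul, map_mul,
    mul_smul_comm, smul_mul_assoc]

/-- the permutation of the classes -/
def i3_perm {k V U : Type*} [Field k] [AddCommGroup V] [Module k V] [Group U]
    (ρ : U →* Module.End k V) (B : Subgroup U) [B.Normal] (w : U) :
    Equiv.Perm (Quotient (i3_setoid ρ B)) :=
  Quotient.congr (MulAut.conjNormal w : MulAut B).toEquiv (by
    intro b c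
    refine ⟨fun h => i3_conj ρ B w b c h, fun h => ?_⟩
    have h1 := i3_conj ρ B w⁻¹ _ _ h
    have h2 : ∀ x : B, MulAut.conjNormal w⁻¹ ((MulAut.conjNormal w : MulAut B).toEquiv x) = x := by
      intro x
      change (MulAut.conjNormal w⁻¹ : MulAut B) ((MulAut.conjNormal w : MulAut B) x) = x
      rw [← MulAut.mul_apply, ← map_mul, inv_mul_cancel, map_one, MulAut.one_apply]
    rw [h2, h2] at h1
    exact h1)

theorem i3_perm_mk {k V U : Type*} [Field k] [AddCommGroup V] [Module k V] [Group U]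
    (ρ : U →* Module.End k V) (B : Subgroup U) [B.Normal] (w : U) (b : B) :
    i3_perm ρ B w (Quotient.mk (i3_setoid ρ B) b) =
      Quotient.mk (i3_setoid ρ B) (MulAut.conjNormal w b) := rfl

theorem i3_perm_pow {k V U : Type*} [Field k] [AddCommGroup V] [Module k V] [Group U]
    (ρ : U →* Module.End k V) (B : Subgroup U) [B.Normal] (w : U) (m : ℕ) (b : B) :
    (i3_perm ρ B w ^ m) (Quotient.mk (i3_setoid ρ B) b) =
      Quotient.mk (i3_setoid ρ B) (MulAut.conjNormal (w ^ m) b) := by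
  induction m generalizing b with
  | zero => rw [pow_zero, pow_zero, map_one, MulAut.one_apply, Equiv.Perm.one_apply]
  | succ m ih =>
    rw [pow_succ, Equiv.Perm.mul_apply, i3_perm_mk, ih, pow_succ, map_mul, MulAut.mul_apply]

/-- PROOF. Let `b, c ∈ B` be equivalent if `ρ b = μ • ρ c` for some `μ ≠ 0`. For `b ∈ B` let `χ_b : B → k` with `ρ d * ρ b * ρ d⁻¹ = χ_b d • ρ b` (from `hB`; unique as `ρ b` is invertible and
`V ≠ 0`). If `χ_b = χ_c` then `ρ (b c⁻¹)` commutes with all `ρ d`, `d ∈ B`, so `b, c` are equivalent by `hZ`. So representatives of different classes are eigenvectors, with different systems of eigenvalues, for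
the commuting endomorphisms `x ↦ ρ d x ρ d⁻¹` of `Module.End k V`, hence linearly independent: there are at most `(finrank k V)^2 < p` classes. An element `u` with `u ^ p ^ a = 1` permutes the
classes by `b ↦ u b u⁻¹`, trivially by `perm_trivial`. So `ρ u * ρ b * ρ u⁻¹ = μ • ρ b`, hence (apply it `p^a` times) `μ ^ p ^ a = 1`, and `μ = 1` in characteristic `p`
(`(μ - 1)^(p^a) = 0`). -/
theorem pelt_commute {p : ℕ} (hp : p.Prime) {k V U : Type*} [Field k] [CharP k p]
    [AddCommGroup V] [Module k V] [FiniteDimensional k V] [Group U]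
    (ρ : U →* Module.End k V) (B : Subgroup U) [B.Normal]
    (hB : ∀ b ∈ B, ∀ c ∈ B, ∃ μ : k, ρ b * ρ c = μ • (ρ c * ρ b))
    (hZ : ∀ b ∈ B, (∀ c ∈ B, ρ b * ρ c = ρ c * ρ b) →
      ∃ μ : k, ρ b = μ • (1 : Module.End k V))
    (hdim : Module.finrank k V ^ 2 < p) (u : U) (hu : ∃ a : ℕ, u ^ p ^ a = 1) :
    ∀ b ∈ B, ρ u * ρ b = ρ b * ρ u := by
  intro b hb
  rcases subsingleton_or_nontrivial V with hV | hV
  · exact LinearMap.ext fun v => Subsingleton.elim _ _
  obtain ⟨a, ha⟩ := hu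
  -- the classes
  choose χ hχ using fun x : Quotient (i3_setoid ρ B) => i3_char ρ B hB (Quotient.out x)
  have hinj : Function.Injective χ := by
    intro x y hxy
    have h1 := i3_key ρ B hZ (Quotient.out x) (Quotient.out y) (χ x) (hχ x) (by rw [hxy]; exact hχ y)
    exact Quotient.out_equiv_out.1 h1
  have hli := i3_indep ρ B (fun x : Quotient (i3_setoid ρ B) => Quotient.out x) χ hχ hinj
  have hfin : Finite (Quotient (i3_setoid ρ B)) := hli.finite
  have hcard : Nat.card (Quotient (i3_setoid ρ B)) < p := by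
    have := Fintype.ofFinite (Quotient (i3_setoid ρ B))
    have h2 := hli.fintype_card_le_finrank
    rw [Module.finrank_linearMap, ← sq] at h2
    rw [Nat.card_eq_fintype_card]
    omega
  have hσ : i3_perm ρ B u ^ p ^ a = 1 := by
    refine Equiv.ext fun x => ?_
    induction x using Quotient.inductionOn with
    | h c =>
      rw [i3_perm_pow, ha, map_one, MulAut.one_apply, Equiv.Perm.one_apply]
  have h1 := perm_trivial p hp hcard (i3_perm ρ B u) a hσ
  have h2 := i3_perm_mk ρ B u ⟨b, hb⟩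
  rw [h1, Equiv.Perm.one_apply] at h2
  obtain ⟨μ, hμ0, hμ⟩ := Quotient.exact h2.symm
  rw [MulAut.conjNormal_apply] at hμ
  have hμ' : ρ u * ρ b = μ • (ρ b * ρ u) := by
    have h3 : ρ (u * b * u⁻¹) * ρ u = ρ u * ρ b := by
      rw [← map_mul, inv_mul_cancel_right, map_mul]
    rw [← h3, ← smul_mul_assoc]
    exact congrArg (fun T => T * ρ u) hμ
  have hpow : ∀ m : ℕ, ρ (u ^ m) * ρ b = μ ^ m • (ρ b * ρ (u ^ m)) := by
    intro m
    induction m with
    | zero => rw [pow_zero, pow_zero, map_one, one_mul, mul_one, one_smul]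
    | succ m ih =>
      rw [pow_succ, map_mul, mul_assoc, hμ', mul_smul_comm, ← mul_assoc, ih, smul_mul_assoc,
        smul_smul, mul_assoc, pow_succ, mul_comm μ]
  have h4 := hpow (p ^ a)
  rw [ha, map_one, one_mul, mul_one] at h4
  have h5 : μ ^ p ^ a = 1 := by
    symm
    apply i3_cancel (i3_ne ρ b)
    rw [one_smul]
    exact h4
  have : Fact p.Prime := ⟨hp⟩
  have h6 : (μ - 1) ^ p ^ a = 0 := by
    rw [sub_pow_char_pow, h5, one_pow, sub_self]
  have h7 : μ = 1 := sub_eq_zero.1 (pow_eq_zero_iff (pow_ne_zero a hp.ne_zero) |>.1 h6)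
  rw [hμ', h7, one_smul]

end ALG
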