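import Pool.Agent.ALG.I2
import Pool.Agent.ALG.I3

/-!
# [ALG-I4] solvable groups generated by `p`-elements (Ito)
-/

set_option autoImplicit false

namespace ALG

theorem i4_scalar_one {p : ℕ} (hp : p.Prime) {k V U : Type*} [Field k] [CharP k p]
    [AddCommGroup V] [Module k V] [Nontrivial V] [Group U]
    (ρ : U →* Module.End k V) (u : U) (hu : ∃ a : ℕ, u ^ p ^ a = 1) (μ : k)
    (h : ρ u = μ • (1 : Module.End k V)) : ρ u = 1 := by
  obtain ⟨a, ha⟩ := hu
  have : Fact p.Prime := ⟨hp⟩
  have : ExpChar k p := ExpChar.prime hp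
  have h1 : (μ ^ p ^ a) • (1 : Module.End k V) = 1 := by
    have h2 := congrArg ρ ha
    rw [map_pow, map_one, h, smul_pow, one_pow] at h2
    exact h2
  obtain ⟨v, hv⟩ := exists_ne (0 : V)
  have h2 : (μ ^ p ^ a) • v = v := by
    have h3 := LinearMap.congr_fun h1 v
    simpa using h3
  have h3 : μ ^ p ^ a = 1 := by
    have h4 : (μ ^ p ^ a - 1) • v = 0 := by rw [sub_smul, h2, one_smul, sub_self]
    rcases smul_eq_zero.mp h4 with h5 | h5
    · exact sub_eq_zero.mp h5
    · exact absurd h5 hv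
  have h4 : (μ - 1) ^ p ^ a = 0 := by
    rw [sub_pow_char_pow, h3, one_pow, sub_self]
  have h5 : μ = 1 := sub_eq_zero.mp (pow_eq_zero_iff (pow_ne_zero _ hp.ne_zero) |>.mp h4)
  rw [h, h5, one_smul]

/-- the elements of `B` commuting with `B` under `ρ` -/
def i4_Z {k V U : Type*} [Field k] [AddCommGroup V] [Module k V] [Group U]
    (ρ : U →* Module.End k V) (B : Subgroup U) : Subgroup U where
  carrier := {b | b ∈ B ∧ ∀ c ∈ B, ρ b * ρ c = ρ c * ρ b}
  one_mem' := ⟨one_mem _, fun c _ => by rw [map_one, one_mul, mul_one]⟩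
  mul_mem' := by
    rintro x y ⟨hx, hx'⟩ ⟨hy, hy'⟩
    refine ⟨mul_mem hx hy, fun c hc => ?_⟩
    rw [map_mul, mul_assoc, hy' c hc, ← mul_assoc, hx' c hc, mul_assoc]
  inv_mem' := by
    rintro x ⟨hx, hx'⟩
    refine ⟨inv_mem hx, fun c hc => ?_⟩
    have h1 := hx' c hc
    have h2 : ρ x⁻¹ * (ρ x * ρ c) * ρ x⁻¹ = ρ x⁻¹ * (ρ c * ρ x) * ρ x⁻¹ := by rw [h1]
    have h3 : ρ x⁻¹ * ρ x = 1 := by rw [← map_mul, inv_mul_cancel, map_one]
    have h4 : ρ x * ρ x⁻¹ = 1 := by rw [← map_mul, mul_inv_cancel, map_one]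
    rw [← mul_assoc (ρ x⁻¹), h3, one_mul, mul_assoc (ρ x⁻¹), mul_assoc (ρ c), h4, mul_one] at h2
    exact h2.symm

theorem i4_Z_normal {k V U : Type*} [Field k] [AddCommGroup V] [Module k V] [Group U]
    (ρ : U →* Module.End k V) (B : Subgroup U) [hB : B.Normal] : (i4_Z ρ B).Normal := by
  constructor
  rintro b ⟨hb, hb'⟩ g
  refine ⟨hB.conj_mem b hb g, fun c hc => ?_⟩
  have hc' : g⁻¹ * c * g ∈ B := by simpa using hB.conj_mem c hc g⁻¹
  have h1 := hb' _ hc'
  rw [← map_mul, ← map_mul] at h1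
  have h2 : ρ g * ρ (b * (g⁻¹ * c * g)) * ρ g⁻¹ = ρ g * ρ ((g⁻¹ * c * g) * b) * ρ g⁻¹ := by
    rw [h1]
  rw [← map_mul, ← map_mul, ← map_mul, ← map_mul] at h2
  rw [← map_mul, ← map_mul]
  have h3 : g * (b * (g⁻¹ * c * g)) * g⁻¹ = g * b * g⁻¹ * c := by group
  have h4 : g * (g⁻¹ * c * g * b) * g⁻¹ = c * (g * b * g⁻¹) := by group
  rw [h3, h4] at h2
  exact h2

theorem i4_step {p : ℕ} (hp : p.Prime) {k V U : Type*} [Field k] [CharP k p]
    [IsAlgClosed k] [AddCommGroup V] [Module k V] [FiniteDimensional k V] [Group U]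
    (ρ : U →* Module.End k V) (hirr : Irr ρ) (hgen : pE p U = ⊤)
    (hdim : Module.finrank k V ^ 2 < p) (B : Subgroup U) [hBn : B.Normal]
    (hc : ∀ b ∈ B, ∀ c ∈ B, ∃ μ : k, ρ (b * c * b⁻¹ * c⁻¹) = μ • (1 : Module.End k V)) :
    ∀ b ∈ B, ∃ μ : k, ρ b = μ • (1 : Module.End k V) := by
  have hlt : Module.finrank k V < p :=
    lt_of_le_of_lt (Nat.le_self_pow two_ne_zero _) hdim
  have hB : ∀ b ∈ B, ∀ c ∈ B, ∃ μ : k, ρ b * ρ c = μ • (ρ c * ρ b) := by
    intro b hb c hc'
    obtain ⟨μ, hμ⟩ := hc b hb c hc'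
    refine ⟨μ, ?_⟩
    have h1 : b * c = (b * c * b⁻¹ * c⁻¹) * (c * b) := by group
    rw [← map_mul, h1, map_mul, hμ, smul_mul_assoc, one_mul, map_mul]
  have hZn := i4_Z_normal ρ B
  have hZ : ∀ b ∈ B, (∀ c ∈ B, ρ b * ρ c = ρ c * ρ b) →
      ∃ μ : k, ρ b = μ • (1 : Module.End k V) := by
    intro b hb hb'
    exact normal_abelian_scalar hp ρ hirr hgen hlt (i4_Z ρ B)
      (fun x hx y hy => hx.2 y hy.1) b ⟨hb, hb'⟩
  have hall : ∀ u : U, ∀ b ∈ B, ρ u * ρ b = ρ b * ρ u := by
    intro u
    have hu : u ∈ pE p U := by rw [hgen]; trivial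
    unfold pE at hu
    induction hu using Subgroup.closure_induction with
    | mem x hx => exact pelt_commute hp ρ B hB hZ hdim x hx
    | one => intro b _; rw [map_one, one_mul, mul_one]
    | mul x y _ _ hx hy =>
      intro b hb
      rw [map_mul, mul_assoc, hy b hb, ← mul_assoc, hx b hb, mul_assoc]
    | inv x _ hx =>
      intro b hb
      have h1 := hx b hb
      have h2 : ρ x⁻¹ * (ρ x * ρ b) * ρ x⁻¹ = ρ x⁻¹ * (ρ b * ρ x) * ρ x⁻¹ := by rw [h1]
      have h3 : ρ x⁻¹ * ρ x = 1 := by rw [← map_mul, inv_mul_cancel, map_one]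
      have h4 : ρ x * ρ x⁻¹ = 1 := by rw [← map_mul, mul_inv_cancel, map_one]
      rw [← mul_assoc (ρ x⁻¹), h3, one_mul, mul_assoc (ρ x⁻¹), mul_assoc (ρ b), h4,
        mul_one] at h2
      exact h2.symm
  exact normal_abelian_scalar hp ρ hirr hgen hlt B (fun a _ b hb => hall a b hb)

/-- PROOF. `finrank ≤ finrank ^ 2 < p`. Claim: all `ρ u` are scalars. Otherwise let `i` be maximal such that the `ρ u`, `u ∈ derivedSeries U i` are not all scalars (the derived series reaches `1`), `B = derivedSeries U i`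
(normal). `[B, B]` acts by scalars, so `hB` of `pelt_commute` holds (`ρ b ρ c = ρ [b,c] ρ c ρ b`). `hZ`: for the set `Z` of the `b ∈ B` commuting (under `ρ`) with `ρ B`: it is a normal
subgroup of `U`, commutative under `ρ`, so it acts by scalars by `normal_abelian_scalar`. So all elements of `p`-power order commute with `ρ B`, and by `hgen` all of `U` does, in particular `B` itself: `B` is commutative under
`ρ`, so it acts by scalars (`normal_abelian_scalar`), contradiction. So `ρ u = μ • 1` for all `u`, and `μ ^ p ^ a = 1` (if `V ≠ 0`) gives `μ = 1` for the generators. -/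
theorem irr_trivial {p : ℕ} (hp : p.Prime) {k V U : Type*} [Field k] [CharP k p]
    [IsAlgClosed k] [AddCommGroup V] [Module k V] [FiniteDimensional k V] [Group U]
    (hs : Group.IsSolvable U) (ρ : U →* Module.End k V) (hirr : Irr ρ) (hgen : pE p U = ⊤)
    (hdim : Module.finrank k V ^ 2 < p) (u : U) : ρ u = 1 := by
  rcases subsingleton_or_nontrivial V with hV | hV
  · ext v
    exact Subsingleton.elim _ _
  obtain ⟨n, hn⟩ := hs.solvable
  have key : ∀ j ≤ n, ∀ b ∈ derivedSeries U (n - j), ∃ μ : k,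
      ρ b = μ • (1 : Module.End k V) := by
    intro j
    induction j with
    | zero =>
      intro _ b hb
      rw [Nat.sub_zero, hn, Subgroup.mem_bot] at hb
      exact ⟨1, by rw [hb, map_one, one_smul]⟩
    | succ j ih =>
      intro hj
      have h1 := ih (by omega)
      have h2 : n - j = (n - (j + 1)) + 1 := by omega
      apply i4_step hp ρ hirr hgen hdim
      intro b hb c hc
      apply h1
      rw [h2, derivedSeries_succ]
      exact Subgroup.commutator_mem_commutator hb hc
  have hu : u ∈ pE p U := by rw [hgen]; trivial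
  have h1 : pE p U ≤ ρ.ker := by
    unfold pE
    rw [Subgroup.closure_le]
    intro x hx
    obtain ⟨μ, hμ⟩ := key n le_rfl x (by rw [Nat.sub_self]; trivial)
    exact i4_scalar_one hp ρ x hx μ hμ
  exact h1 hu

/-- restriction to an invariant subspace -/
def i4_sub {k V U : Type*} [Field k] [AddCommGroup V] [Module k V] [Group U]
    (ρ : U →* Module.End k V) (W : Submodule k V) (hW : ∀ u, ∀ w ∈ W, ρ u w ∈ W) :
    U →* Module.End k W where
  toFun u := (ρ u).restrict (hW u)
  map_one' := by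
    ext w
    simp
  map_mul' x y := by
    ext w
    simp

/-- the quotient by an invariant subspace -/
def i4_quot {k V U : Type*} [Field k] [AddCommGroup V] [Module k V] [Group U]
    (ρ : U →* Module.End k V) (W : Submodule k V) (hW : ∀ u, ∀ w ∈ W, ρ u w ∈ W) :
    U →* Module.End k (V ⧸ W) where
  toFun u := W.mapQ W (ρ u) (hW u)
  map_one' := by
    ext w
    simp
  map_mul' x y := by
    ext w
    simp

theorem i4_sub_pow {k V U : Type*} [Field k] [AddCommGroup V] [Module k V] [Group U]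
    (ρ : U →* Module.End k V) (W : Submodule k V) (hW : ∀ u, ∀ w ∈ W, ρ u w ∈ W) (u : U)
    (a : ℕ) (w : W) : (((i4_sub ρ W hW u - 1) ^ a) w : V) = ((ρ u - 1) ^ a) (w : V) := by
  induction a generalizing w with
  | zero => simp
  | succ a ih =>
    rw [pow_succ, pow_succ, Module.End.mul_apply, Module.End.mul_apply, ih]
    rfl

theorem i4_quot_pow {k V U : Type*} [Field k] [AddCommGroup V] [Module k V] [Group U]
    (ρ : U →* Module.End k V) (W : Submodule k V) (hW : ∀ u, ∀ w ∈ W, ρ u w ∈ W) (u : U)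
    (a : ℕ) (v : V) : ((i4_quot ρ W hW u - 1) ^ a) (W.mkQ v) = W.mkQ (((ρ u - 1) ^ a) v) := by
  induction a generalizing v with
  | zero => simp
  | succ a ih =>
    rw [pow_succ, pow_succ, Module.End.mul_apply, Module.End.mul_apply, ← ih]
    rfl

theorem i4_aux {p : ℕ} (hp : p.Prime) {k U : Type*} [Field k] [CharP k p]
    [IsAlgClosed k] [Group U] (hs : Group.IsSolvable U) (hgen : pE p U = ⊤) (n : ℕ) :
    ∀ {V : Type*} [AddCommGroup V] [Module k V] [FiniteDimensional k V]
      (ρ : U →* Module.End k V) (_ : Module.finrank k V = n) (_ : n ^ 2 < p) (u : U),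
      (ρ u - 1) ^ n = 0 := by
  induction n using Nat.strong_induction_on with
  | _ n ih =>
    intro V _ _ _ ρ hn hdim u
    by_cases hirr : Irr ρ
    · have h1 := irr_trivial hp hs ρ hirr hgen (by rw [hn]; exact hdim) u
      rw [h1, sub_self]
      rcases Nat.eq_zero_or_pos n with h0 | h0
      · have : Subsingleton V := Module.finrank_zero_iff.mp (hn.trans h0)
        ext v
        exact Subsingleton.elim _ _
      · exact zero_pow h0.ne'
    · unfold Irr at hirr
      push Not at hirr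
      obtain ⟨W, hW, hbot, htop⟩ := hirr
      have h1 := Submodule.finrank_quotient_add_finrank W
      have h2 : Module.finrank k W < Module.finrank k V :=
        Submodule.finrank_lt htop
      have h3 : 0 < Module.finrank k W := by
        rw [Module.finrank_pos_iff_exists_ne_zero]
        obtain ⟨w, hw, hw0⟩ := (Submodule.ne_bot_iff W).mp hbot
        exact ⟨⟨w, hw⟩, fun h => hw0 (congrArg Subtype.val h)⟩
      have h4 := ih (Module.finrank k W) (by omega) (i4_sub ρ W hW) rfl
        (lt_of_le_of_lt (Nat.pow_le_pow_left (by omega) 2) hdim) u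
      have h5 := ih (Module.finrank k (V ⧸ W)) (by omega) (i4_quot ρ W hW) rfl
        (lt_of_le_of_lt (Nat.pow_le_pow_left (by omega) 2) hdim) u
      have h6 : n = Module.finrank k W + Module.finrank k (V ⧸ W) := by omega
      rw [h6, pow_add]
      ext v
      rw [Module.End.mul_apply, LinearMap.zero_apply]
      have h7 : ((ρ u - 1) ^ Module.finrank k (V ⧸ W)) v ∈ W := by
        have h8 := i4_quot_pow ρ W hW u (Module.finrank k (V ⧸ W)) v
        rw [h5, LinearMap.zero_apply] at h8
        exact (Submodule.Quotient.mk_eq_zero W).mp h8.symm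
      have h9 := i4_sub_pow ρ W hW u (Module.finrank k W) ⟨_, h7⟩
      rw [h4] at h9
      exact h9.symm

/-- PROOF. Strong induction on `finrank k V`, for all `V`. If `Irr ρ`: `irr_trivial`. (If `V = 0` both sides are equal because `Module.End k V` is trivial.) Otherwise there is an invariant
subspace `W`, not `0` and not `⊤`; restrict `ρ` to `W` (`LinearMap.restrict`) and to the quotient `V ⧸ W` (`Submodule.mapQ`); these are homomorphisms, and
`(ρ u - 1)^(finrank W)` kills `W`, `(ρ u - 1)^(finrank (V ⧸ W))` maps `V` into `W`; `finrank W + finrank (V ⧸ W) = finrank V`. -/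
theorem unipotent_of_solvable {p : ℕ} (hp : p.Prime) {k V U : Type*} [Field k] [CharP k p]
    [IsAlgClosed k] [AddCommGroup V] [Module k V] [FiniteDimensional k V] [Group U]
    (hs : Group.IsSolvable U) (ρ : U →* Module.End k V) (hgen : pE p U = ⊤)
    (hdim : Module.finrank k V ^ 2 < p) (u : U) :
    (ρ u - 1) ^ Module.finrank k V = 0 :=
  i4_aux hp hs hgen _ ρ rfl hdim u

end ALG
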