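import Pool.Agent.ALG.I4

/-!
# [ALG-I5] the same over a finite field
-/

set_option autoImplicit false

namespace ALG

theorem i5_pE_top (p : ℕ) (Γ : Type*) [Group Γ] : pE p (pE p Γ) = ⊤ := by
  have h := Subgroup.closure_closure_coe_preimage (k := {u : Γ | ∃ a : ℕ, u ^ p ^ a = 1})
  have h2 : ((↑) : Subgroup.closure {u : Γ | ∃ a : ℕ, u ^ p ^ a = 1} → Γ) ⁻¹'
      {u : Γ | ∃ a : ℕ, u ^ p ^ a = 1} =
      {u : Subgroup.closure {u : Γ | ∃ a : ℕ, u ^ p ^ a = 1} | ∃ a : ℕ, u ^ p ^ a = 1} := by
    ext u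
    constructor
    · rintro ⟨a, ha⟩
      exact ⟨a, Subtype.ext ha⟩
    · rintro ⟨a, ha⟩
      exact ⟨a, congrArg Subtype.val ha⟩
  rw [h2] at h
  exact h

/-- PROOF. Let `K = AlgebraicClosure F`, `V' = K ⊗[F] V`, `ρ' = ` base change (`LinearMap.baseChange`; or with matrices: `LinearMap.toMatrix` for a basis of `V`, and `Matrix.map` to `K`), restricted to
the subgroup `U = pE p Γ`, which is generated by its elements of `p`-power order. `unipotent_of_solvable` for `U, V'`: `(ρ' u - 1)^n = 0`, so `(ρ u - 1)^n = 0` (base change is injective). -/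
theorem unipotent_finite {p : ℕ} (hp : p.Prime) {F V Γ : Type*} [Field F] [CharP F p]
    [AddCommGroup V] [Module F V] [FiniteDimensional F V] [Group Γ]
    (ρ : Γ →* Module.End F V) (hdim : Module.finrank F V ^ 2 < p)
    (hs : Group.IsSolvable (pE p Γ)) (u : Γ) (hu : u ∈ pE p Γ) :
    (ρ u - 1) ^ Module.finrank F V = 0 := by
  let K := AlgebraicClosure F
  let β : Module.End F V →ₐ[F] Module.End K (TensorProduct F K V) :=
    Module.End.baseChangeHom F K V
  have hβ : Function.Injective β := LinearMap.baseChangeHom_injective F V K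
  let ρ' : pE p Γ →* Module.End K (TensorProduct F K V) :=
    (β : Module.End F V →* Module.End K (TensorProduct F K V)).comp
      (ρ.comp (pE p Γ).subtype)
  have h1 := unipotent_of_solvable hp hs ρ' (i5_pE_top p Γ)
    (by rw [Module.finrank_baseChange]; exact hdim) ⟨u, hu⟩
  rw [Module.finrank_baseChange] at h1
  apply hβ
  rw [map_zero, map_pow, map_sub, map_one]
  exact h1

end ALG
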