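import Pool.Agent.ALG.I5

/-!
# [ALG-I6] irreducible representations over a finite field
-/

set_option autoImplicit false

namespace ALG

theorem i6_pE_conj (p : ℕ) {Γ : Type*} [Group Γ] {u : Γ} (hu : u ∈ pE p Γ) (g : Γ) :
    g * u * g⁻¹ ∈ pE p Γ := by
  unfold pE at *
  induction hu using Subgroup.closure_induction with
  | mem x hx =>
    obtain ⟨a, ha⟩ := hx
    apply Subgroup.subset_closure
    refine ⟨a, ?_⟩
    rw [conj_pow, ha]
    group
  | one => simp
  | mul x y _ _ hx hy =>
    have h := mul_mem hx hy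
    have h2 : g * x * g⁻¹ * (g * y * g⁻¹) = g * (x * y) * g⁻¹ := by group
    rwa [h2] at h
  | inv x _ hx =>
    have h := inv_mem hx
    have h2 : (g * x * g⁻¹)⁻¹ = g * x⁻¹ * g⁻¹ := by group
    rwa [h2] at h

/-- the vectors fixed by the subgroup generated by the elements of `p`-power order -/
def i6_fix {F V Γ : Type*} [Field F] [AddCommGroup V] [Module F V] [Group Γ]
    (ρ : Γ →* Module.End F V) (p : ℕ) : Submodule F V where
  carrier := {v | ∀ u ∈ pE p Γ, ρ u v = v}
  zero_mem' := fun u _ => map_zero _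
  add_mem' := fun {v w} hv hw u hu => by rw [map_add, hv u hu, hw u hu]
  smul_mem' := fun c v hv u hu => by rw [map_smul, hv u hu]

/-- PROOF. If `V = 0` it is trivial. Let `P = ρ '' pE p Γ`, a subgroup of the (finite) group of units of `Module.End F V`; every element `x` has `p`-power order: `(x - 1)^n = 0`, so
`x ^ p ^ a - 1 = (x - 1)^(p^a) = 0` for `p^a ≥ n`. So `P` is a finite `p`-group acting on the finite set `V`, `p ∣ Nat.card V`, fixing `0`, so it fixes some `v ≠ 0`
(`IsPGroup.exists_fixed_point_of_prime_dvd_card_of_fixed_point`). The subspace of the fixed vectors of `P` is invariant under `Γ`, because `pE p Γ` is normal, so it is `⊤` by `hirr`. -/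
theorem irr_finite {p : ℕ} (hp : p.Prime) {F V Γ : Type*} [Field F] [Finite F] [CharP F p]
    [AddCommGroup V] [Module F V] [FiniteDimensional F V] [Group Γ] [Finite Γ]
    (ρ : Γ →* Module.End F V) (hirr : Irr ρ) (hdim : Module.finrank F V ^ 2 < p)
    (hs : Group.IsSolvable (pE p Γ)) (u : Γ) (hu : u ∈ pE p Γ) : ρ u = 1 := by
  rcases subsingleton_or_nontrivial V with hV | hV
  · ext v
    exact Subsingleton.elim _ _
  have hfp : Fact p.Prime := ⟨hp⟩
  have hch : CharP (Module.End F V) p :=
    charP_of_injective_algebraMap (algebraMap F (Module.End F V)).injective p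
  have hexp : ExpChar (Module.End F V) p := ExpChar.prime hp
  have hfin : Finite V := Module.finite_of_finite F
  let P : Subgroup (Module.End F V)ˣ := (ρ.toHomUnits.comp (pE p Γ).subtype).range
  have hP : IsPGroup p P := by
    rintro ⟨_, ⟨x, hx⟩, rfl⟩
    refine ⟨Module.finrank F V, ?_⟩
    apply Subtype.ext
    apply Units.ext
    have h1 := unipotent_finite hp ρ hdim hs x hx
    have h2 : (ρ x - 1) ^ p ^ Module.finrank F V = 0 :=
      pow_eq_zero_of_le (Nat.lt_pow_self hp.one_lt).le h1
    rw [sub_pow_char_pow_of_commute p (Module.finrank F V) (Commute.one_right (ρ x)), one_pow,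
      sub_eq_zero] at h2
    exact h2
  have hdvd : p ∣ Nat.card V := by
    rw [Module.natCard_eq_pow_finrank (K := F)]
    have h1 : p ∣ Nat.card F := by
      have := Fintype.ofFinite F
      rw [Nat.card_eq_fintype_card, ← CharP.cast_eq_zero_iff F p]
      exact Nat.cast_card_eq_zero F
    exact dvd_pow h1 (Module.finrank_pos (R := F) (M := V)).ne'
  obtain ⟨b, hb, hb0⟩ := hP.exists_fixed_point_of_prime_dvd_card_of_fixed_point V hdvd
    (a := 0) (by
      rintro ⟨_, ⟨x, hx⟩, rfl⟩
      exact map_zero (ρ x))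
  have hW : ∀ g : Γ, ∀ w ∈ i6_fix ρ p, ρ g w ∈ i6_fix ρ p := by
    intro g w hw x hx
    have h1 : g⁻¹ * x * g ∈ pE p Γ := by simpa using i6_pE_conj p hx g⁻¹
    have h2 : x * g = g * (g⁻¹ * x * g) := by group
    rw [← Module.End.mul_apply, ← map_mul, h2, map_mul, Module.End.mul_apply, hw _ h1]
  rcases hirr _ hW with h | h
  · exfalso
    have h1 : b ∈ i6_fix ρ p := fun x hx => hb ⟨_, ⟨x, hx⟩, rfl⟩
    rw [h, Submodule.mem_bot] at h1
    exact hb0 h1.symm
  · ext v
    have h1 : v ∈ i6_fix ρ p := by rw [h]; trivial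
    exact h1 u hu

end ALG
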