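import Pool.Agent.ALG.Defs

/-!
# [ALG-J1] commutators of unitary matrices
-/

set_option autoImplicit false

open scoped Matrix.Norms.L2Operator

namespace ALG

/-- PROOF. `u v u⁻¹ v⁻¹ - 1 = ((u - 1)(v - 1) - (v - 1)(u - 1)) u⁻¹ v⁻¹`, and multiplication by a unitary matrix preserves the norm (`CStarRing.norm_mul_coe_unitary`). -/
theorem comm_norm {N : ℕ} (u v : Matrix.unitaryGroup (Fin N) ℂ) :
    ‖((u * v * u⁻¹ * v⁻¹ : Matrix.unitaryGroup (Fin N) ℂ) : Matrix (Fin N) (Fin N) ℂ) - 1‖ ≤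
      2 * ‖(u : Matrix (Fin N) (Fin N) ℂ) - 1‖ * ‖(v : Matrix (Fin N) (Fin N) ℂ) - 1‖ := by
  obtain ⟨w, hw⟩ : ∃ w : Matrix.unitaryGroup (Fin N) ℂ, w = u⁻¹ * v⁻¹ := ⟨_, rfl⟩
  have h0 : u * v * u⁻¹ * v⁻¹ = u * v * w := by rw [hw, mul_assoc (u * v)]
  have h1 : v * u * w = 1 := by
    rw [hw, mul_assoc, ← mul_assoc u, mul_inv_cancel, one_mul, mul_inv_cancel]
  have h1' : (v : Matrix (Fin N) (Fin N) ℂ) * u * w = 1 := by
    have h := congrArg (Subtype.val) h1
    simpa using h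
  have h2 : ((u * v * u⁻¹ * v⁻¹ : Matrix.unitaryGroup (Fin N) ℂ) : Matrix (Fin N) (Fin N) ℂ) - 1 =
      (((u : Matrix (Fin N) (Fin N) ℂ) - 1) * ((v : Matrix (Fin N) (Fin N) ℂ) - 1) -
        ((v : Matrix (Fin N) (Fin N) ℂ) - 1) * ((u : Matrix (Fin N) (Fin N) ℂ) - 1)) * w := by
    rw [h0]
    have h3 : ((u * v * w : Matrix.unitaryGroup (Fin N) ℂ) : Matrix (Fin N) (Fin N) ℂ) =
        (u : Matrix (Fin N) (Fin N) ℂ) * v * w := rfl
    rw [h3]
    have h4 : (((u : Matrix (Fin N) (Fin N) ℂ) - 1) * ((v : Matrix (Fin N) (Fin N) ℂ) - 1) -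
        ((v : Matrix (Fin N) (Fin N) ℂ) - 1) * ((u : Matrix (Fin N) (Fin N) ℂ) - 1)) =
        (u : Matrix (Fin N) (Fin N) ℂ) * v - v * u := by
      noncomm_ring
    rw [h4, sub_mul, h1']
  rw [h2, CStarRing.norm_mul_coe_unitary]
  refine (norm_sub_le _ _).trans ?_
  have h5 := norm_mul_le ((u : Matrix (Fin N) (Fin N) ℂ) - 1) ((v : Matrix (Fin N) (Fin N) ℂ) - 1)
  have h6 := norm_mul_le ((v : Matrix (Fin N) (Fin N) ℂ) - 1) ((u : Matrix (Fin N) (Fin N) ℂ) - 1)
  rw [mul_comm ‖(v : Matrix (Fin N) (Fin N) ℂ) - 1‖] at h6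
  linarith

/-- PROOF. The unitary matrices are contained in the closed unit ball (`CStarRing.norm_coe_unitary` or similar) of a finite dimensional normed space, which is compact, so it is covered by finitely many
balls of radius `ε / 2` (`IsCompact.finite_cover_balls`), each contains at most one element of `X`. -/
theorem packing (N : ℕ) (ε : ℝ) (hε : 0 < ε) : ∃ C : ℕ,
    ∀ X : Finset (Matrix (Fin N) (Fin N) ℂ), (∀ A ∈ X, A ∈ Matrix.unitaryGroup (Fin N) ℂ) →
      (∀ A ∈ X, ∀ B ∈ X, A ≠ B → ε ≤ ‖A - B‖) → X.card ≤ C := by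
  classical
  have : ProperSpace (Matrix (Fin N) (Fin N) ℂ) := FiniteDimensional.proper ℂ _
  have hcomp : IsCompact (Metric.closedBall (0 : Matrix (Fin N) (Fin N) ℂ) 1) :=
    isCompact_closedBall _ _
  obtain ⟨t, -, htf, hcov⟩ := hcomp.finite_cover_balls (half_pos hε)
  have hone : ‖(1 : Matrix (Fin N) (Fin N) ℂ)‖ ≤ 1 := by
    have h1 := CStarRing.norm_star_mul_self (x := (1 : Matrix (Fin N) (Fin N) ℂ))
    rw [star_one, one_mul] at h1
    by_contra hcon
    push Not at hcon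
    nlinarith
  have hball : ∀ A : Matrix (Fin N) (Fin N) ℂ, A ∈ Matrix.unitaryGroup (Fin N) ℂ → ‖A‖ ≤ 1 := by
    intro A hA
    have h1 := CStarRing.norm_star_mul_self (x := A)
    rw [(Matrix.mem_unitaryGroup_iff').1 hA] at h1
    by_contra hcon
    push Not at hcon
    nlinarith
  refine ⟨htf.toFinset.card, fun X hX hsep => ?_⟩
  have hc : ∀ A : Matrix (Fin N) (Fin N) ℂ, A ∈ X → ∃ c ∈ t, dist A c < ε / 2 := by
    intro A hA
    have h1 : A ∈ Metric.closedBall (0 : Matrix (Fin N) (Fin N) ℂ) 1 := by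
      rw [mem_closedBall_zero_iff]
      exact hball A (hX A hA)
    have h2 := hcov h1
    rw [Set.mem_iUnion₂] at h2
    obtain ⟨c, hc, h3⟩ := h2
    exact ⟨c, hc, h3⟩
  refine Finset.card_le_card_of_injOn (fun A => if h : A ∈ X then (hc A h).choose else 0) ?_ ?_
  · intro A hA
    have hA' : A ∈ X := hA
    rw [SetLike.mem_coe, Set.Finite.mem_toFinset]
    simp only [dif_pos hA']
    exact (hc A hA').choose_spec.1
  · intro A hA B hB hAB
    have hA' : A ∈ X := hA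
    have hB' : B ∈ X := hB
    simp only [dif_pos hA', dif_pos hB'] at hAB
    by_contra hne
    have h1 := hsep A hA' B hB' hne
    have h2 := (hc A hA').choose_spec.2
    have h3 := (hc B hB').choose_spec.2
    rw [← hAB] at h3
    have h4 := dist_triangle_right A B ((hc A hA').choose)
    rw [dist_eq_norm A B] at h4
    linarith

end ALG
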