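import Pool.Agent.ALG.J1

/-!
# [ALG-J2] the subgroup generated by the elements near the identity
-/

set_option autoImplicit false

open scoped Matrix.Norms.L2Operator

namespace ALG

/-- PROOF. `C` from `packing`. Let `B` be the closure. If `g, g'` are in different left cosets of `B` then `‖ρ g - ρ g'‖ = ‖ρ (g⁻¹ g') - 1‖ ≥ ε` (unitary), in particular `ρ g ≠ ρ g'`. So the images of representatives
of the cosets form a set `X` as in `packing` with `B.index` elements. -/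
theorem near_index (N : ℕ) (ε : ℝ) (hε : 0 < ε) : ∃ C : ℕ, ∀ (Λ : Type) [Group Λ] [Finite Λ]
    (ρ : Λ →* Matrix.unitaryGroup (Fin N) ℂ),
    (Subgroup.closure {g : Λ | ‖(ρ g : Matrix (Fin N) (Fin N) ℂ) - 1‖ < ε}).index ≤ C := by
  classical
  obtain ⟨C, hC⟩ := packing N ε hε
  refine ⟨C, fun Λ _ _ ρ => ?_⟩
  let B := Subgroup.closure {g : Λ | ‖(ρ g : Matrix (Fin N) (Fin N) ℂ) - 1‖ < ε}
  have hfin := Fintype.ofFinite (Λ ⧸ B)
  let f : Λ ⧸ B → Matrix (Fin N) (Fin N) ℂ := fun q => (ρ q.out : Matrix (Fin N) (Fin N) ℂ)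
  have hsep : ∀ q q' : Λ ⧸ B, q ≠ q' → ε ≤ ‖f q - f q'‖ := by
    intro q q' hq
    by_contra hlt
    push Not at hlt
    apply hq
    have h1 : q.out⁻¹ * q'.out ∈ B := by
      apply Subgroup.subset_closure
      show ‖(ρ (q.out⁻¹ * q'.out) : Matrix (Fin N) (Fin N) ℂ) - 1‖ < ε
      have h2 : (ρ (q.out⁻¹ * q'.out) : Matrix (Fin N) (Fin N) ℂ) - 1 =
          ((ρ q.out)⁻¹ : Matrix.unitaryGroup (Fin N) ℂ) * (f q' - f q) := by
        rw [mul_sub]
        congr 1
        · rw [map_mul, map_inv]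
          rfl
        · show (1 : Matrix (Fin N) (Fin N) ℂ) =
            (((ρ q.out)⁻¹ * ρ q.out : Matrix.unitaryGroup (Fin N) ℂ) :
              Matrix (Fin N) (Fin N) ℂ)
          rw [inv_mul_cancel]
          rfl
      rw [h2, CStarRing.norm_coe_unitary_mul, ← norm_neg, neg_sub]
      exact hlt
    have h3 := QuotientGroup.eq.mpr h1
    have h4 : ((q.out : Λ) : Λ ⧸ B) = q := Quotient.out_eq q
    have h5 : ((q'.out : Λ) : Λ ⧸ B) = q' := Quotient.out_eq q'
    rw [← h4, ← h5]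
    exact h3
  have hinj : Function.Injective f := by
    intro q q' h
    by_contra hne
    have h1 := hsep q q' hne
    rw [h, sub_self, norm_zero] at h1
    linarith
  have h1 := hC (Finset.univ.image f) (by
    intro A hA
    obtain ⟨q, _, rfl⟩ := Finset.mem_image.mp hA
    exact (ρ q.out).2) (by
    intro A hA A' hA' hne
    obtain ⟨q, _, rfl⟩ := Finset.mem_image.mp hA
    obtain ⟨q', _, rfl⟩ := Finset.mem_image.mp hA'
    exact hsep q q' fun h => hne (by rw [h]))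
  rw [Finset.card_image_of_injective _ hinj, Finset.card_univ, ← Nat.card_eq_fintype_card] at h1
  exact h1

/-- PROOF. The `N`-th roots of unity are finitely many. (`N = 0` excluded.) -/
theorem root_gap (N : ℕ) (hN : 0 < N) : ∃ δ : ℝ, 0 < δ ∧ ∀ z : ℂ, z ^ N = 1 → ‖z - 1‖ < δ →
    z = 1 := by
  have hfin : {z : ℂ | z ^ N = 1 ∧ z ≠ 1}.Finite := by
    classical
    apply (Polynomial.nthRoots N (1 : ℂ)).toFinset.finite_toSet.subset
    rintro z ⟨hz, _⟩
    rw [Finset.mem_coe, Multiset.mem_toFinset, Polynomial.mem_nthRoots hN]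
    exact hz
  have h1 : (1 : ℂ) ∈ {z : ℂ | z ^ N = 1 ∧ z ≠ 1}ᶜ := fun h => h.2 rfl
  obtain ⟨δ, hδ, hball⟩ := Metric.isOpen_iff.mp hfin.isClosed.isOpen_compl 1 h1
  refine ⟨δ, hδ, fun z hz hlt => ?_⟩
  by_contra hne
  have h2 : z ∈ Metric.ball (1 : ℂ) δ := by
    rw [Metric.mem_ball, dist_eq_norm]
    exact hlt
  exact hball h2 ⟨hz, hne⟩

end ALG
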