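import Pool.Agent.ALG.J2

/-!
# [ALG-J2b] the elements near the identity commute with a nonscalar element
-/

set_option autoImplicit false

open scoped Matrix.Norms.L2Operator

namespace ALG

theorem j2b_det {N : ℕ} (u v : Matrix.unitaryGroup (Fin N) ℂ) :
    ((u * v * u⁻¹ * v⁻¹ : Matrix.unitaryGroup (Fin N) ℂ) : Matrix (Fin N) (Fin N) ℂ).det = 1 := by
  have hinv : ∀ w : Matrix.unitaryGroup (Fin N) ℂ,
      (w : Matrix (Fin N) (Fin N) ℂ).det * ((w⁻¹ : Matrix.unitaryGroup (Fin N) ℂ) :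
        Matrix (Fin N) (Fin N) ℂ).det = 1 := by
    intro w
    rw [← Matrix.det_mul, ← Submonoid.coe_mul, mul_inv_cancel, Submonoid.coe_one, Matrix.det_one]
  rw [Submonoid.coe_mul, Submonoid.coe_mul, Submonoid.coe_mul, Matrix.det_mul, Matrix.det_mul,
    Matrix.det_mul]
  calc _ = ((u : Matrix (Fin N) (Fin N) ℂ).det * ((u⁻¹ : Matrix.unitaryGroup (Fin N) ℂ) :
        Matrix (Fin N) (Fin N) ℂ).det) * ((v : Matrix (Fin N) (Fin N) ℂ).det *
        ((v⁻¹ : Matrix.unitaryGroup (Fin N) ℂ) : Matrix (Fin N) (Fin N) ℂ).det) := by ring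
    _ = 1 := by rw [hinv, hinv, one_mul]

/-- PROOF. `N = 0`: trivial. `δ` from `root_gap`, `ε = min (1/4) (δ/2)`, `C` from `near_index`, `B` the closure of the `g` with `‖ρ g - 1‖ < ε`. If all these `g` have `ρ g` scalar, the elements of
`B` commute under `ρ`. Otherwise choose `g : Λ` with `ρ g` not scalar and `‖ρ g - 1‖` minimal; it is `< ε`. For `h` with `‖ρ h - 1‖ < ε`: the commutator `c` of `g, h` has
`‖ρ c - 1‖ ≤ 2 ε ‖ρ g - 1‖ < ‖ρ g - 1‖` (`comm_norm`; `ρ g ≠ 1`), so `ρ c = μ • 1` is scalar; `det (ρ c) = μ ^ N = 1` and `‖μ - 1‖ = ‖ρ c - 1‖ ≤ 2 ε² < δ`, so `μ = 1`: `g` and `h` commute under `ρ`. So `g` commutes with `B`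
under `ρ`. -/
theorem jordan_step (N : ℕ) : ∃ C : ℕ, ∀ (Λ : Type) [Group Λ] [Finite Λ]
    (ρ : Λ →* Matrix.unitaryGroup (Fin N) ℂ), ∃ B : Subgroup Λ, B.index ≤ C ∧
      ((∀ x ∈ B, ∀ y ∈ B, ρ x * ρ y = ρ y * ρ x) ∨
        ∃ g : Λ, (∀ μ : ℂ, (ρ g : Matrix (Fin N) (Fin N) ℂ) ≠ μ • 1) ∧
          ∀ x ∈ B, ρ x * ρ g = ρ g * ρ x) := by
  classical
  rcases Nat.eq_zero_or_pos N with hN | hN
  · subst hN
    refine ⟨1, fun Λ _ _ ρ => ⟨⊤, ?_, Or.inl fun x _ y _ => ?_⟩⟩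
    · rw [Subgroup.index_top]
    · exact Subtype.ext (Subsingleton.elim _ _)
  · obtain ⟨δ, hδ, hroot⟩ := root_gap N hN
    have hε : 0 < min (1 / 4 : ℝ) (δ / 2) := lt_min (by norm_num) (by linarith)
    set ε : ℝ := min (1 / 4 : ℝ) (δ / 2) with hεd
    have hε4 : ε ≤ 1 / 4 := min_le_left _ _
    have hεδ : ε ≤ δ / 2 := min_le_right _ _
    obtain ⟨C, hC⟩ := near_index N ε hε
    refine ⟨C, fun Λ _ _ ρ => ⟨_, hC Λ ρ, ?_⟩⟩
    have : Nonempty (Fin N) := ⟨⟨0, hN⟩⟩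
    have hnt : Nontrivial (Matrix (Fin N) (Fin N) ℂ) := inferInstance
    have hone : ‖(1 : Matrix (Fin N) (Fin N) ℂ)‖ = 1 := CStarRing.norm_one
    by_cases hall : ∀ g : Λ, ‖(ρ g : Matrix (Fin N) (Fin N) ℂ) - 1‖ < ε →
        ∃ μ : ℂ, (ρ g : Matrix (Fin N) (Fin N) ℂ) = μ • 1
    · left
      have hle : Subgroup.closure {g : Λ | ‖(ρ g : Matrix (Fin N) (Fin N) ℂ) - 1‖ < ε} ≤
          (Subgroup.center (Matrix.unitaryGroup (Fin N) ℂ)).comap ρ := by
        rw [Subgroup.closure_le]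
        intro g hg
        obtain ⟨μ, hμ⟩ := hall g hg
        rw [SetLike.mem_coe, Subgroup.mem_comap, Subgroup.mem_center_iff]
        intro w
        apply Subtype.ext
        rw [Submonoid.coe_mul, Submonoid.coe_mul, hμ, Matrix.mul_smul, Matrix.smul_mul, mul_one,
          one_mul]
      intro x hx y _
      have h1 := hle hx
      rw [Subgroup.mem_comap, Subgroup.mem_center_iff] at h1
      exact (h1 (ρ y)).symm
    · right
      push Not at hall
      obtain ⟨g0, hg0, hns0⟩ := hall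
      obtain ⟨g, hg, hmin⟩ := Set.exists_min_image
        {g : Λ | ∀ μ : ℂ, (ρ g : Matrix (Fin N) (Fin N) ℂ) ≠ μ • 1}
        (fun g => ‖(ρ g : Matrix (Fin N) (Fin N) ℂ) - 1‖) (Set.toFinite _) ⟨g0, hns0⟩
      have hgε : ‖(ρ g : Matrix (Fin N) (Fin N) ℂ) - 1‖ < ε := (hmin g0 hns0).trans_lt hg0
      have hg1 : 0 < ‖(ρ g : Matrix (Fin N) (Fin N) ℂ) - 1‖ := by
        rw [norm_pos_iff, sub_ne_zero]
        have := hg 1
        rwa [one_smul] at this
      refine ⟨g, hg, ?_⟩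
      have hle : Subgroup.closure {g : Λ | ‖(ρ g : Matrix (Fin N) (Fin N) ℂ) - 1‖ < ε} ≤
          (Subgroup.centralizer {ρ g}).comap ρ := by
        rw [Subgroup.closure_le]
        intro h hh
        rw [Set.mem_setOf_eq] at hh
        rw [SetLike.mem_coe, Subgroup.mem_comap, Subgroup.mem_centralizer_iff]
        intro w hw
        rw [Set.mem_singleton_iff] at hw
        subst hw
        -- the commutator
        have hc : ρ (g * h * g⁻¹ * h⁻¹) = ρ g * ρ h * (ρ g)⁻¹ * (ρ h)⁻¹ := by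
          rw [map_mul, map_mul, map_mul, map_inv, map_inv]
        have hn := comm_norm (ρ g) (ρ h)
        rw [← hc] at hn
        have hh0 : 0 ≤ ‖(ρ h : Matrix (Fin N) (Fin N) ℂ) - 1‖ := norm_nonneg _
        have hlt : ‖(ρ (g * h * g⁻¹ * h⁻¹) : Matrix (Fin N) (Fin N) ℂ) - 1‖ <
            ‖(ρ g : Matrix (Fin N) (Fin N) ℂ) - 1‖ := by
          refine hn.trans_lt ?_
          nlinarith
        have hlt2 : ‖(ρ (g * h * g⁻¹ * h⁻¹) : Matrix (Fin N) (Fin N) ℂ) - 1‖ < δ := by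
          refine hlt.trans (hgε.trans_le ?_)
          linarith
        have hsc : ∃ μ : ℂ, (ρ (g * h * g⁻¹ * h⁻¹) : Matrix (Fin N) (Fin N) ℂ) = μ • 1 := by
          by_contra hcon
          push Not at hcon
          exact absurd (hmin _ hcon) (not_le.2 hlt)
        obtain ⟨μ, hμ⟩ := hsc
        have hdet := j2b_det (ρ g) (ρ h)
        rw [← hc, hμ, Matrix.det_smul, Matrix.det_one, mul_one, Fintype.card_fin] at hdet
        have hnorm : ‖μ - 1‖ < δ := by
          have e : (ρ (g * h * g⁻¹ * h⁻¹) : Matrix (Fin N) (Fin N) ℂ) - 1 =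
              (μ - 1) • (1 : Matrix (Fin N) (Fin N) ℂ) := by
            rw [hμ, sub_smul, one_smul]
          rw [e, norm_smul, hone, mul_one] at hlt2
          exact hlt2
        have hμ1 := hroot μ hdet hnorm
        have hρc : ρ (g * h * g⁻¹ * h⁻¹) = 1 := by
          apply Subtype.ext
          rw [hμ, hμ1, one_smul]
          rfl
        rw [hc] at hρc
        have h3 : ρ g * ρ h * (ρ g)⁻¹ = ρ h := mul_inv_eq_one.1 hρc
        exact mul_inv_eq_iff_eq_mul.1 h3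
      intro x hx
      have h1 := hle hx
      rw [Subgroup.mem_comap, Subgroup.mem_centralizer_iff] at h1
      exact (h1 (ρ g) rfl).symm

end ALG
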