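import Pool.Agent.ALG.Defs

/-!
# [ALG-J3] finite groups of matrices are unitary; finite order operators are semisimple
-/

set_option autoImplicit false

namespace ALG

open Matrix in
open scoped MatrixOrder ComplexOrder in
theorem j3_matrix {n : ℕ} {Λ : Type} [Group Λ] [Fintype Λ]
    (R : Λ →* Matrix (Fin n) (Fin n) ℂ) :
    ∃ P : (Matrix (Fin n) (Fin n) ℂ)ˣ, ∀ h : Λ,
      (R h)ᴴ * ((P : Matrix (Fin n) (Fin n) ℂ)ᴴ * (P : Matrix (Fin n) (Fin n) ℂ)) * R h =
        (P : Matrix (Fin n) (Fin n) ℂ)ᴴ * (P : Matrix (Fin n) (Fin n) ℂ) := by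
  classical
  let M : Matrix (Fin n) (Fin n) ℂ := ∑ g, (R g)ᴴ * R g
  have hM1 : M = 1 + ∑ g ∈ Finset.univ.erase (1 : Λ), (R g)ᴴ * R g := by
    show ∑ g, (R g)ᴴ * R g = _
    rw [← Finset.add_sum_erase Finset.univ (fun g => (R g)ᴴ * R g) (Finset.mem_univ (1 : Λ)),
      map_one, Matrix.conjTranspose_one, one_mul]
  have hpsd : (∑ g ∈ Finset.univ.erase (1 : Λ), (R g)ᴴ * R g).PosSemidef :=
    Matrix.posSemidef_sum _ fun g _ => Matrix.posSemidef_conjTranspose_mul_self _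
  have hpd : M.PosDef := by
    rw [hM1]
    exact Matrix.PosDef.one.add_posSemidef hpsd
  have hinv : ∀ h : Λ, (R h)ᴴ * M * R h = M := by
    intro h
    show (R h)ᴴ * (∑ g, (R g)ᴴ * R g) * R h = ∑ g, (R g)ᴴ * R g
    rw [Finset.mul_sum, Finset.sum_mul]
    refine Fintype.sum_equiv (Equiv.mulRight h) _ _ fun g => ?_
    show (R h)ᴴ * ((R g)ᴴ * R g) * R h = (R (g * h))ᴴ * R (g * h)
    rw [map_mul, Matrix.conjTranspose_mul]
    simp only [mul_assoc]
  obtain ⟨B, hB⟩ := CStarAlgebra.nonneg_iff_eq_star_mul_self.mp hpd.posSemidef.nonneg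
  have hB' : M = Bᴴ * B := hB
  have hu : IsUnit B := by
    have h1 : IsUnit (Bᴴ * B) := hB' ▸ hpd.isUnit
    rw [Matrix.isUnit_iff_isUnit_det] at h1 ⊢
    rw [Matrix.det_mul] at h1
    exact isUnit_of_mul_isUnit_right h1
  obtain ⟨P, rfl⟩ := hu
  refine ⟨P, fun h => ?_⟩
  rw [← hB']
  exact hinv h

/-- PROOF. Take a basis, so `ρ g` is given by matrices `R g : Matrix (Fin n) (Fin n) ℂ`, `R (g h) = R g * R h`, `R 1 = 1`. `M = ∑_g (R g)ᴴ * R g` is positive definite (the term `g = 1` is `1`, the others are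
positive semidefinite) and `(R h)ᴴ * M * R h = M`. Write `M = Pᴴ * P` with `P` invertible (`Matrix.PosSemidef` square root / `Matrix.posSemidef_iff_eq_conjTranspose_mul_self`). Then `P * R h * P⁻¹` is unitary. `e` is the coordinate
map followed by `P`. -/
theorem unitarize {V Λ : Type} [AddCommGroup V] [Module ℂ V] [FiniteDimensional ℂ V]
    [Group Λ] [Finite Λ] (ρ : Λ →* Module.End ℂ V) :
    ∃ (e : V ≃ₗ[ℂ] (Fin (Module.finrank ℂ V) → ℂ))
      (ρ' : Λ →* Matrix.unitaryGroup (Fin (Module.finrank ℂ V)) ℂ), ∀ g v,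
        e (ρ g v) = (ρ' g : Matrix (Fin (Module.finrank ℂ V)) (Fin (Module.finrank ℂ V)) ℂ).mulVec
          (e v) := by
  classical
  have hfin := Fintype.ofFinite Λ
  let b := Module.finBasis ℂ V
  let R : Λ →* Matrix (Fin (Module.finrank ℂ V)) (Fin (Module.finrank ℂ V)) ℂ :=
    ((LinearMap.toMatrixAlgEquiv b : Module.End ℂ V ≃ₐ[ℂ]
      Matrix (Fin (Module.finrank ℂ V)) (Fin (Module.finrank ℂ V)) ℂ) :
      Module.End ℂ V →* Matrix (Fin (Module.finrank ℂ V)) (Fin (Module.finrank ℂ V)) ℂ).comp ρ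
  obtain ⟨P, hP⟩ := j3_matrix R
  let Pm : Matrix (Fin (Module.finrank ℂ V)) (Fin (Module.finrank ℂ V)) ℂ := P
  let Qm : Matrix (Fin (Module.finrank ℂ V)) (Fin (Module.finrank ℂ V)) ℂ := P⁻¹.val
  have h1 : Pm * Qm = 1 := P.mul_inv
  have h2 : Qm * Pm = 1 := P.inv_mul
  let ρ' : Λ →* Matrix.unitaryGroup (Fin (Module.finrank ℂ V)) ℂ :=
    { toFun := fun g => ⟨Pm * R g * Qm, by
        rw [Matrix.mem_unitaryGroup_iff']
        show (Pm * R g * Qm).conjTranspose * (Pm * R g * Qm) = 1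
        rw [Matrix.conjTranspose_mul, Matrix.conjTranspose_mul]
        have h3 : Qm.conjTranspose * ((R g).conjTranspose * Pm.conjTranspose) * (Pm * R g * Qm) =
            Qm.conjTranspose * ((R g).conjTranspose * (Pm.conjTranspose * Pm) * R g) * Qm := by
          simp only [mul_assoc]
        have h4 : (R g).conjTranspose * (Pm.conjTranspose * Pm) * R g =
            Pm.conjTranspose * Pm := hP g
        rw [h3, h4, ← mul_assoc, mul_assoc, h1, mul_one, ← Matrix.conjTranspose_mul, h1,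
          Matrix.conjTranspose_one]⟩
      map_one' := by
        apply Subtype.ext
        show Pm * R 1 * Qm = 1
        rw [map_one, mul_one, h1]
      map_mul' := by
        intro x y
        apply Subtype.ext
        show Pm * R (x * y) * Qm = Pm * R x * Qm * (Pm * R y * Qm)
        have h5 : Pm * R x * Qm * (Pm * R y * Qm) = Pm * R x * (Qm * Pm) * R y * Qm := by
          simp only [mul_assoc]
        rw [h5, h2, mul_one, map_mul]
        simp only [mul_assoc] }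
  let e₂ : (Fin (Module.finrank ℂ V) → ℂ) ≃ₗ[ℂ] (Fin (Module.finrank ℂ V) → ℂ) :=
    LinearEquiv.ofLinearMap (Matrix.mulVecLin Pm) (Matrix.mulVecLin Qm)
      (by rw [← Matrix.mulVecLin_mul, h1, Matrix.mulVecLin_one])
      (by rw [← Matrix.mulVecLin_mul, h2, Matrix.mulVecLin_one])
  let e : V ≃ₗ[ℂ] (Fin (Module.finrank ℂ V) → ℂ) := b.equivFun ≪≫ₗ e₂
  refine ⟨e, ρ', fun g v => ?_⟩
  have h6 : ∀ w, e w = Pm.mulVec (b.repr w) := fun w => rfl
  have h7 : (ρ' g : Matrix (Fin (Module.finrank ℂ V)) (Fin (Module.finrank ℂ V)) ℂ) =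
    Pm * R g * Qm := rfl
  rw [h6, h6, h7, Matrix.mulVec_mulVec, mul_assoc, mul_assoc, h2, mul_one, ← Matrix.mulVec_mulVec]
  congr 1
  exact (LinearMap.toMatrix_mulVec_repr b b (ρ g) v).symm

end ALG
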