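import Pool.Agent.ALG.Defs

/-!
# [ALG-J3b] operators of finite order are semisimple
-/

set_option autoImplicit false

namespace ALG

theorem j3b_pow {V : Type*} [AddCommGroup V] [Module ℂ V] (g : Module.End ℂ V) (μ : ℂ) (v w : V)
    (hv : g v = μ • v + w) (hw : g w = μ • w) (k : ℕ) :
    (g ^ (k + 1)) v = μ ^ (k + 1) • v + (((k : ℂ) + 1) * μ ^ k) • w := by
  induction k with
  | zero => simp [hv]
  | succ k ih =>
    rw [pow_succ' g (k + 1), Module.End.mul_apply, ih, map_add, map_smul, map_smul, hv, hw,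
      smul_add, smul_smul, smul_smul, add_assoc, ← add_smul]
    push_cast
    congr 2
    ring

theorem j3b_eig {V : Type*} [AddCommGroup V] [Module ℂ V] (g : Module.End ℂ V) (μ : ℂ) (w : V)
    (hw : g w = μ • w) (k : ℕ) : (g ^ k) w = μ ^ k • w := by
  induction k with
  | zero => simp
  | succ k ih => rw [pow_succ', Module.End.mul_apply, ih, map_smul, hw, smul_smul, pow_succ]

/-- PROOF. `X ^ m - 1` is separable over `ℂ`, so `(X - μ)` divides it at most once: if `(g - μ)^2 v = 0` then `(g - μ) v = 0` (if `μ^m ≠ 1` then `g - μ` is injective; if `μ ^ m = 1` write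
`X^m - 1 = (X - μ) q`, `q(μ) = m μ^(m-1) ≠ 0`; for `w = (g - μ) v` with `g w = μ w`: `0 = q(g) (g - μ) v = q(g) w = q(μ) w`). So kernel and range of `g - μ` intersect in `0`, and the dimensions add up
(rank-nullity). -/
theorem isCompl_of_pow_eq_one {V : Type*} [AddCommGroup V] [Module ℂ V]
    [FiniteDimensional ℂ V] (g : Module.End ℂ V) (m : ℕ) (hm : 0 < m) (hg : g ^ m = 1) (μ : ℂ) :
    IsCompl (LinearMap.ker (g - μ • (1 : Module.End ℂ V)))
      (LinearMap.range (g - μ • (1 : Module.End ℂ V))) := by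
  rw [Submodule.isCompl_iff_disjoint _ _ (by
    rw [add_comm, LinearMap.finrank_range_add_finrank_ker])]
  rw [Submodule.disjoint_def]
  rintro w hw ⟨v, hv⟩
  rw [LinearMap.mem_ker] at hw
  have hw' : g w = μ • w := by
    have h1 : g w - μ • w = 0 := hw
    exact sub_eq_zero.1 h1
  have hv' : g v = μ • v + w := by
    have h1 : g v - μ • v = w := hv
    rw [← h1]
    abel
  obtain ⟨k, rfl⟩ : ∃ k, m = k + 1 := ⟨m - 1, by omega⟩
  by_contra hne
  have h1 := j3b_eig g μ w hw' (k + 1)
  rw [hg, Module.End.one_apply] at h1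
  have h2 : μ ^ (k + 1) = 1 := by
    have h3 : (μ ^ (k + 1) - 1) • w = 0 := by rw [sub_smul, ← h1, one_smul, sub_self]
    rcases smul_eq_zero.1 h3 with h4 | h4
    · exact sub_eq_zero.1 h4
    · exact absurd h4 hne
  have h3 := j3b_pow g μ v w hv' hw' k
  rw [hg, Module.End.one_apply, h2, one_smul] at h3
  have h4 : (((k : ℂ) + 1) * μ ^ k) • w = 0 := by
    have h5 : v + (((k : ℂ) + 1) * μ ^ k) • w = v + 0 := by rw [← h3, add_zero]
    exact add_left_cancel h5
  rcases smul_eq_zero.1 h4 with h5 | h5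
  · rcases mul_eq_zero.1 h5 with h6 | h6
    · exact Nat.cast_add_one_ne_zero k h6
    · have h7 : μ = 0 := by
        by_contra hμ
        exact pow_ne_zero k hμ h6
      rw [h7, zero_pow (by omega)] at h2
      exact zero_ne_one h2
  · exact hne h5

end ALG
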