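import Pool.Agent.ALG.J2b
import Pool.Agent.ALG.J3
import Pool.Agent.ALG.J3b

/-!
# [ALG-J4] Jordan's theorem for finite complex linear groups
-/

set_option autoImplicit false

namespace ALG

theorem j4_comm {V Λ : Type} [AddCommGroup V] [Module ℂ V] [FiniteDimensional ℂ V]
    [Group Λ] (ρ : Λ →* Module.End ℂ V)
    (e : V ≃ₗ[ℂ] (Fin (Module.finrank ℂ V) → ℂ))
    (ρ' : Λ →* Matrix.unitaryGroup (Fin (Module.finrank ℂ V)) ℂ)
    (he : ∀ g v, e (ρ g v) =
      (ρ' g : Matrix (Fin (Module.finrank ℂ V)) (Fin (Module.finrank ℂ V)) ℂ).mulVec (e v))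
    (x y : Λ) (h : ρ' x * ρ' y = ρ' y * ρ' x) : ρ x * ρ y = ρ y * ρ x := by
  ext v
  apply e.injective
  rw [Module.End.mul_apply, Module.End.mul_apply, he, he, he, he, Matrix.mulVec_mulVec,
    Matrix.mulVec_mulVec]
  have h1 := congrArg (fun u : Matrix.unitaryGroup (Fin (Module.finrank ℂ V)) ℂ =>
    (u : Matrix (Fin (Module.finrank ℂ V)) (Fin (Module.finrank ℂ V)) ℂ)) h
  have h2 : (ρ' x : Matrix (Fin (Module.finrank ℂ V)) (Fin (Module.finrank ℂ V)) ℂ) *
      (ρ' y : Matrix (Fin (Module.finrank ℂ V)) (Fin (Module.finrank ℂ V)) ℂ) =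
      (ρ' y : Matrix (Fin (Module.finrank ℂ V)) (Fin (Module.finrank ℂ V)) ℂ) *
      (ρ' x : Matrix (Fin (Module.finrank ℂ V)) (Fin (Module.finrank ℂ V)) ℂ) := h1
  rw [h2]

theorem j4_scalar {V Λ : Type} [AddCommGroup V] [Module ℂ V] [FiniteDimensional ℂ V]
    [Group Λ] (ρ : Λ →* Module.End ℂ V)
    (e : V ≃ₗ[ℂ] (Fin (Module.finrank ℂ V) → ℂ))
    (ρ' : Λ →* Matrix.unitaryGroup (Fin (Module.finrank ℂ V)) ℂ)
    (he : ∀ g v, e (ρ g v) =
      (ρ' g : Matrix (Fin (Module.finrank ℂ V)) (Fin (Module.finrank ℂ V)) ℂ).mulVec (e v))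
    (g : Λ) (hg : ∀ μ : ℂ,
      (ρ' g : Matrix (Fin (Module.finrank ℂ V)) (Fin (Module.finrank ℂ V)) ℂ) ≠ μ • 1) (μ : ℂ) :
    ρ g - μ • (1 : Module.End ℂ V) ≠ 0 := by
  intro h
  have h1 : ρ g = μ • (1 : Module.End ℂ V) := sub_eq_zero.1 h
  apply hg μ
  apply Matrix.toLin'.injective
  ext i j
  simp only [LinearMap.comp_apply]
  generalize (LinearMap.single ℂ (fun _ : Fin (Module.finrank ℂ V) => ℂ) i) (1 : ℂ) = u
  obtain ⟨v, rfl⟩ := e.surjective u
  rw [Matrix.toLin'_apply, ← he, h1, LinearMap.smul_apply, Module.End.one_apply, map_smul, map_smul,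
    Matrix.toLin'_one]
  rfl

/-- PROOF. `unitarize` and `jordan_step` (`n = finrank`). If the second alternative holds, `g₁ = ρ g` is an operator of finite order on `V`, not a scalar, commuting with `ρ B`. It has an eigenvalue `μ` (`V ≠ 0` as it is not scalar); `V₁ = ker (g₁ - μ)`
is neither `0` nor `V`, and `V₂ = range (g₁ - μ)` is a complement (`isCompl_of_pow_eq_one`). Both are invariant under `ρ B`. -/
theorem jordan_split (n : ℕ) : ∃ C : ℕ, ∀ (V Λ : Type) [AddCommGroup V] [Module ℂ V]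
    [FiniteDimensional ℂ V] [Group Λ] [Finite Λ] (ρ : Λ →* Module.End ℂ V),
    Module.finrank ℂ V = n → ∃ B : Subgroup Λ, B.index ≤ C ∧
      ((∀ x ∈ B, ∀ y ∈ B, ρ x * ρ y = ρ y * ρ x) ∨
        ∃ V₁ V₂ : Submodule ℂ V, IsCompl V₁ V₂ ∧ V₁ ≠ ⊥ ∧ V₂ ≠ ⊥ ∧
          ∀ x ∈ B, (∀ v ∈ V₁, ρ x v ∈ V₁) ∧ (∀ v ∈ V₂, ρ x v ∈ V₂)) := by
  obtain ⟨C, hC⟩ := jordan_step n
  refine ⟨C, ?_⟩
  intro V Λ _ _ _ _ _ ρ hn
  subst hn
  obtain ⟨e, ρ', he⟩ := unitarize ρ
  obtain ⟨B, hB, hB2⟩ := hC Λ ρ'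
  refine ⟨B, hB, ?_⟩
  rcases hB2 with h1 | ⟨g, hg, hcomm⟩
  · left
    intro x hx y hy
    exact j4_comm ρ e ρ' he x y (h1 x hx y hy)
  · right
    have hns := j4_scalar ρ e ρ' he g hg
    have hnt : Nontrivial V := by
      by_contra hcon
      rw [not_nontrivial_iff_subsingleton] at hcon
      apply hns 0
      ext v
      exact Subsingleton.elim _ _
    obtain ⟨μ, hμ⟩ := Module.End.exists_eigenvalue (ρ g)
    have hcard : 0 < Nat.card Λ := Nat.card_pos
    have hpow : (ρ g) ^ Nat.card Λ = 1 := by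
      rw [← map_pow, pow_card_eq_one', map_one]
    refine ⟨_, _, isCompl_of_pow_eq_one (ρ g) (Nat.card Λ) hcard hpow μ, ?_, ?_, ?_⟩
    · obtain ⟨v, hv⟩ := hμ.exists_hasEigenvector
      intro hcon
      have h2 : v ∈ LinearMap.ker (ρ g - μ • (1 : Module.End ℂ V)) := by
        rw [LinearMap.mem_ker, LinearMap.sub_apply, hv.apply_eq_smul, LinearMap.smul_apply,
          Module.End.one_apply, sub_self]
      rw [hcon, Submodule.mem_bot] at h2
      exact hv.2 h2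
    · intro hcon
      exact hns μ (LinearMap.range_eq_bot.1 hcon)
    · intro x hx
      have h2 : ρ x * ρ g = ρ g * ρ x := j4_comm ρ e ρ' he x g (hcomm x hx)
      have h3 : ∀ v, (ρ g - μ • (1 : Module.End ℂ V)) (ρ x v) =
          ρ x ((ρ g - μ • (1 : Module.End ℂ V)) v) := by
        intro v
        have h4 : ρ g (ρ x v) = ρ x (ρ g v) := by
          have h5 := congrArg (fun f : Module.End ℂ V => f v) h2
          exact h5.symm
        rw [LinearMap.sub_apply, LinearMap.sub_apply, map_sub, h4, LinearMap.smul_apply,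
          LinearMap.smul_apply, Module.End.one_apply, Module.End.one_apply, map_smul]
      constructor
      · intro v hv
        rw [LinearMap.mem_ker] at hv ⊢
        rw [h3, hv, map_zero]
      · rintro v ⟨u, rfl⟩
        exact ⟨ρ x u, h3 u⟩

end ALG
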