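import Pool.Agent.ALG.J4

/-!
# [ALG-J4b] the theorem of Jordan for finite complex linear groups
-/

set_option autoImplicit false

namespace ALG

/-- restriction of a representation to a subgroup and a subspace -/
def j4b_res {V Λ : Type} [AddCommGroup V] [Module ℂ V] [Group Λ] (ρ : Λ →* Module.End ℂ V)
    (B : Subgroup Λ) (W : Submodule ℂ V) (hW : ∀ x ∈ B, ∀ w ∈ W, ρ x w ∈ W) :
    B →* Module.End ℂ W where
  toFun g := (ρ g.1).restrict (hW g.1 g.2)
  map_one' := by
    ext w
    simp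
  map_mul' g h := by
    ext w
    simp [LinearMap.restrict_apply]

/-- PROOF. Induction on `N`. `N = 0`: trivial. `J (N+1)` = maximum of `J N` and `C * (J N)^2`, `C` from `jordan_split (N+1)`. If `finrank = N + 1` take `B` of `jordan_split`; in the second case apply
the induction hypothesis to the group `B` acting on `V₁` and on `V₂` (dimensions at most `N`), intersect the two subgroups of `B` (index at most `(J N)^2` in `B`, at most `C (J N)^2` in `Λ`);
the operators commute on `V₁` and on `V₂`, so on `V`. -/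
theorem jordan_complex (N : ℕ) : ∃ J : ℕ, ∀ (V Λ : Type) [AddCommGroup V] [Module ℂ V]
    [FiniteDimensional ℂ V] [Group Λ] [Finite Λ] (ρ : Λ →* Module.End ℂ V),
    Module.finrank ℂ V ≤ N → ∃ B : Subgroup Λ, B.index ≤ J ∧
      ∀ x ∈ B, ∀ y ∈ B, ρ x * ρ y = ρ y * ρ x := by
  induction N with
  | zero =>
    refine ⟨1, ?_⟩
    intro V Λ _ _ _ _ _ ρ hn
    refine ⟨⊤, by rw [Subgroup.index_top], ?_⟩
    intro x _ y _
    have : Subsingleton V := Module.finrank_zero_iff.1 (Nat.le_zero.1 hn)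
    ext v
    exact Subsingleton.elim _ _
  | succ N ih =>
    obtain ⟨J, hJ⟩ := ih
    obtain ⟨C, hC⟩ := jordan_split (N + 1)
    refine ⟨J + C + J * J * C, ?_⟩
    intro V Λ _ _ _ _ _ ρ hn
    rcases Nat.lt_or_ge (Module.finrank ℂ V) (N + 1) with h1 | h1
    · obtain ⟨B, hB, hB2⟩ := hJ V Λ ρ (by omega)
      exact ⟨B, by omega, hB2⟩
    · obtain ⟨B, hB, hB2⟩ := hC V Λ ρ (le_antisymm hn h1)
      rcases hB2 with hB2 | ⟨V₁, V₂, hc, hV₁, hV₂, hinv⟩
      · exact ⟨B, by omega, hB2⟩
      · have h2 := Submodule.finrank_add_eq_of_isCompl hc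
        have h3 : 0 < Module.finrank ℂ V₁ := by
          rw [Module.finrank_pos_iff, Submodule.nontrivial_iff_ne_bot]
          exact hV₁
        have h4 : 0 < Module.finrank ℂ V₂ := by
          rw [Module.finrank_pos_iff, Submodule.nontrivial_iff_ne_bot]
          exact hV₂
        have hi1 : ∀ x ∈ B, ∀ w ∈ V₁, ρ x w ∈ V₁ := fun x hx => (hinv x hx).1
        have hi2 : ∀ x ∈ B, ∀ w ∈ V₂, ρ x w ∈ V₂ := fun x hx => (hinv x hx).2
        obtain ⟨B₁, hB₁, hc₁⟩ := hJ V₁ B (j4b_res ρ B V₁ hi1) (by omega)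
        obtain ⟨B₂, hB₂, hc₂⟩ := hJ V₂ B (j4b_res ρ B V₂ hi2) (by omega)
        refine ⟨(B₁ ⊓ B₂).map B.subtype, ?_, ?_⟩
        · rw [Subgroup.index_map_subtype]
          have h5 : (B₁ ⊓ B₂).index ≤ J * J :=
            Subgroup.index_inf_le.trans (Nat.mul_le_mul hB₁ hB₂)
          have h6 := Nat.mul_le_mul h5 hB
          omega
        · rintro _ ⟨x, hx, rfl⟩ _ ⟨y, hy, rfl⟩
          have e1 : ∀ w ∈ V₁, ρ x.1 (ρ y.1 w) = ρ y.1 (ρ x.1 w) := by
            intro w hw
            have h7 := congrArg (fun f : Module.End ℂ V₁ => ((f ⟨w, hw⟩ : V₁) : V))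
              (hc₁ x hx.1 y hy.1)
            exact h7
          have e2 : ∀ w ∈ V₂, ρ x.1 (ρ y.1 w) = ρ y.1 (ρ x.1 w) := by
            intro w hw
            have h7 := congrArg (fun f : Module.End ℂ V₂ => ((f ⟨w, hw⟩ : V₂) : V))
              (hc₂ x hx.2 y hy.2)
            exact h7
          ext v
          have h8 : v ∈ V₁ ⊔ V₂ := by
            rw [hc.sup_eq_top]
            exact Submodule.mem_top
          obtain ⟨a, ha, b, hb, rfl⟩ := Submodule.mem_sup.1 h8
          show ρ x.1 (ρ y.1 (a + b)) = ρ y.1 (ρ x.1 (a + b))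
          rw [map_add, map_add, map_add, map_add, e1 a ha, e2 b hb]

end ALG
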