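import Pool.Agent.ALG.J4b
import Pool.Agent.ALG.E0

/-!
# [ALG-J5] Jordan's theorem in characteristic zero
-/

set_option autoImplicit false

namespace ALG

theorem j5_emb : Nonempty (AlgebraicClosure ℚ →+* ℂ) := by
  let : Algebra ℚ (AlgebraicClosure ℚ) := AlgebraicClosure.instAlgebra ℚ
  exact ⟨(IsAlgClosed.lift (R := ℚ) (S := AlgebraicClosure ℚ) (M := ℂ)).toRingHom⟩

theorem j5_spec {L ι : Type} [Field L] [CharZero L] [Finite ι] (X : Finset L)
    (F : ι → Algebra.adjoin ℤ (X : Set L)) :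
    ∃ τ : Algebra.adjoin ℤ (X : Set L) →+* ℂ, ∀ i, τ (F i) = 0 → F i = 0 := by
  classical
  have := Fintype.ofFinite ι
  let f : Algebra.adjoin ℤ (X : Set L) := ∏ i, if F i = 0 then 1 else F i
  have hf : (f : L) ≠ 0 := by
    intro h
    have h1 : f = 0 := Subtype.ext h
    rw [Finset.prod_eq_zero_iff] at h1
    obtain ⟨i, _, hi⟩ := h1
    by_cases h2 : F i = 0
    · rw [if_pos h2] at hi
      exact one_ne_zero hi
    · rw [if_neg h2] at hi
      exact h2 hi
  obtain ⟨π, hπ⟩ := spec_QB X (f : L) hf f.2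
  obtain ⟨σ⟩ := j5_emb
  refine ⟨σ.comp π, ?_⟩
  intro i hi
  by_contra hne
  apply hπ
  have h1 : π (F i) = 0 := by
    have h2 : σ (π (F i)) = 0 := hi
    exact (map_eq_zero_iff σ σ.injective).1 h2
  have h2 : π f = 0 := by
    show π (∏ i, if F i = 0 then 1 else F i) = 0
    rw [map_prod, Finset.prod_eq_zero_iff]
    refine ⟨i, Finset.mem_univ _, ?_⟩
    rw [if_neg hne]
    exact h1
  exact h2

/-- PROOF. `J` of `jordan_complex N`. Let `X` be the (finite) set of all entries of all `ρ g`, and `f` the product of all nonzero entries of all matrices `ρ x * ρ y - ρ y * ρ x` (a finite product of nonzero elements, in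
`Algebra.adjoin ℤ X`). `spec_QB` gives `π : Algebra.adjoin ℤ X →+* AlgebraicClosure ℚ` with `π f ≠ 0`; compose with an embedding of `AlgebraicClosure ℚ` into `ℂ` (`IsAlgClosed.lift`). Apply `π` to the entries of `ρ`: a homomorphism
`Λ →* Module.End ℂ (Fin N → ℂ)` (`Matrix.toLin'` of the matrices), `jordan_complex` gives `B`. For `x, y ∈ B` all entries of `ρ x ρ y - ρ y ρ x` are mapped to `0` by `π`, so they are `0` (a nonzero one divides `f`). -/
theorem jordan_charZero (N : ℕ) : ∃ J : ℕ, ∀ (L Λ : Type) [Field L] [CharZero L] [Group Λ]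
    [Finite Λ] (ρ : Λ →* Matrix.GeneralLinearGroup (Fin N) L), ∃ B : Subgroup Λ, B.index ≤ J ∧
      ∀ x ∈ B, ∀ y ∈ B, ρ x * ρ y = ρ y * ρ x := by
  classical
  obtain ⟨J, hJ⟩ := jordan_complex N
  refine ⟨J, ?_⟩
  intro L Λ _ _ _ _ ρ
  have := Fintype.ofFinite Λ
  let X : Finset L := Finset.univ.image fun t : Λ × Fin N × Fin N =>
    (ρ t.1 : Matrix (Fin N) (Fin N) L) t.2.1 t.2.2
  have hX : ∀ g i j, (ρ g : Matrix (Fin N) (Fin N) L) i j ∈ Algebra.adjoin ℤ (X : Set L) := by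
    intro g i j
    apply Algebra.subset_adjoin
    rw [Finset.mem_coe]
    exact Finset.mem_image.2 ⟨(g, i, j), Finset.mem_univ _, rfl⟩
  let ρR : Λ →* Matrix (Fin N) (Fin N) (Algebra.adjoin ℤ (X : Set L)) :=
    { toFun := fun g => Matrix.of fun i j => ⟨(ρ g : Matrix (Fin N) (Fin N) L) i j, hX g i j⟩
      map_one' := by
        ext i j
        show (ρ 1 : Matrix (Fin N) (Fin N) L) i j = _
        rw [map_one, Units.val_one, Matrix.one_apply, Matrix.one_apply]
        split <;> rfl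
      map_mul' := by
        intro x y
        ext i j
        show (ρ (x * y) : Matrix (Fin N) (Fin N) L) i j = _
        rw [map_mul, Units.val_mul, Matrix.mul_apply, Matrix.mul_apply]
        push_cast
        rfl }
  have hρR : ∀ g i j, ((ρR g i j : Algebra.adjoin ℤ (X : Set L)) : L) =
      (ρ g : Matrix (Fin N) (Fin N) L) i j := fun g i j => rfl
  obtain ⟨τ, hτ⟩ := j5_spec X (fun t : Λ × Λ × Fin N × Fin N =>
    (ρR t.1 * ρR t.2.1 - ρR t.2.1 * ρR t.1) t.2.2.1 t.2.2.2)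
  let σ : Λ →* Module.End ℂ (Fin N → ℂ) :=
    ((Matrix.toLinAlgEquiv' (R := ℂ) (n := Fin N)).toAlgHom.toRingHom.toMonoidHom).comp
      ((τ.mapMatrix : Matrix (Fin N) (Fin N) (Algebra.adjoin ℤ (X : Set L)) →+*
        Matrix (Fin N) (Fin N) ℂ).toMonoidHom.comp ρR)
  obtain ⟨B, hB, hcomm⟩ := hJ (Fin N → ℂ) Λ σ (by rw [Module.finrank_fin_fun])
  refine ⟨B, hB, ?_⟩
  intro x hx y hy
  have h1 := hcomm x hx y hy
  have h2 : τ.mapMatrix (ρR x) * τ.mapMatrix (ρR y) = τ.mapMatrix (ρR y) * τ.mapMatrix (ρR x) := by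
    apply (Matrix.toLinAlgEquiv' (R := ℂ) (n := Fin N)).injective
    rw [map_mul, map_mul]
    exact h1
  have h3 : τ.mapMatrix (ρR x * ρR y - ρR y * ρR x) = 0 := by
    rw [map_sub, map_mul, map_mul, h2, sub_self]
  apply Units.ext
  ext i j
  have h4 := hτ (x, y, i, j) (by
    have h5 := congrFun (congrFun h3 i) j
    exact h5)
  have h5 : (((ρR x * ρR y - ρR y * ρR x) i j : Algebra.adjoin ℤ (X : Set L)) : L) = 0 := by
    rw [h4]
    rfl
  rw [Matrix.sub_apply, Matrix.mul_apply, Matrix.mul_apply] at h5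
  push_cast at h5
  rw [Units.val_mul, Units.val_mul, Matrix.mul_apply, Matrix.mul_apply]
  exact sub_eq_zero.1 h5

end ALG
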