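import Pool.Agent.ALG.Defs

/-!
# [ALG-J6] lifting homomorphisms: one step
-/

set_option autoImplicit false

namespace ALG

/-- all entries in an ideal -/
def j6_EI {O : Type*} [CommRing O] {N : ℕ} (I : Ideal O) (A : Matrix (Fin N) (Fin N) O) : Prop :=
  ∀ i j, A i j ∈ I

theorem j6_mul_right {O : Type*} [CommRing O] {N : ℕ} {I : Ideal O}
    {A : Matrix (Fin N) (Fin N) O} (hA : j6_EI I A) (B : Matrix (Fin N) (Fin N) O) :
    j6_EI I (A * B) := by
  intro i j
  rw [Matrix.mul_apply]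
  exact I.sum_mem fun k _ => I.mul_mem_right _ (hA i k)

theorem j6_mul_left {O : Type*} [CommRing O] {N : ℕ} {I : Ideal O}
    {A : Matrix (Fin N) (Fin N) O} (hA : j6_EI I A) (B : Matrix (Fin N) (Fin N) O) :
    j6_EI I (B * A) := by
  intro i j
  rw [Matrix.mul_apply]
  exact I.sum_mem fun k _ => I.mul_mem_left _ (hA k j)

theorem j6_mul {O : Type*} [CommRing O] {N : ℕ} {I J : Ideal O}
    {A B : Matrix (Fin N) (Fin N) O} (hA : j6_EI I A) (hB : j6_EI J B) :
    j6_EI (I * J) (A * B) := by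
  intro i j
  rw [Matrix.mul_apply]
  exact (I * J).sum_mem fun k _ => Ideal.mul_mem_mul (hA i k) (hB k j)

theorem j6_sum {O : Type*} [CommRing O] {N : ℕ} {I : Ideal O} {ι : Type*} (t : Finset ι)
    (A : ι → Matrix (Fin N) (Fin N) O) (hA : ∀ x ∈ t, j6_EI I (A x)) :
    j6_EI I (∑ x ∈ t, A x) := by
  intro i j
  rw [Matrix.sum_apply]
  exact I.sum_mem fun x hx => hA x hx i j

theorem j6_smul {O : Type*} [CommRing O] {N : ℕ} {I : Ideal O}
    {A : Matrix (Fin N) (Fin N) O} (hA : j6_EI I A) (c : O) : j6_EI I (c • A) := by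
  intro i j
  rw [Matrix.smul_apply, smul_eq_mul]
  exact I.mul_mem_left _ (hA i j)

theorem j6_sub {O : Type*} [CommRing O] {N : ℕ} {I : Ideal O}
    {A B : Matrix (Fin N) (Fin N) O} (hA : j6_EI I A) (hB : j6_EI I B) : j6_EI I (A - B) := by
  intro i j
  rw [Matrix.sub_apply]
  exact I.sub_mem (hA i j) (hB i j)

/-- PROOF. Let `n = card Λ`, `a g x = s (g x) * (s x)⁻¹` (matrices; congruent to `s g` modulo `I` entrywise) and `s' g = n⁻¹ ∑_x a g x`. Since `a (g h) y = a g (h y) * a h y`: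
`s' (g h) - s' g * s' h = n⁻¹ ∑_y (a g (h y) - s' g) * a h y = n⁻¹ ∑_y (a g (h y) - s' g) * (a h y - s h)`, because `∑_y (a g (h y) - s' g) = 0`. Both factors have their entries in `I`. -/
theorem lift_step {O : Type*} [CommRing O] {N : ℕ} {Λ : Type*} [Group Λ] [Fintype Λ]
    (hn : IsUnit (Fintype.card Λ : O)) (I : Ideal O)
    (s : Λ → Matrix.GeneralLinearGroup (Fin N) O)
    (h : ∀ x y : Λ, ∀ i j, (((s (x * y) : Matrix (Fin N) (Fin N) O)) -
      (s x : Matrix (Fin N) (Fin N) O) * (s y : Matrix (Fin N) (Fin N) O)) i j ∈ I) :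
    ∃ s' : Λ → Matrix (Fin N) (Fin N) O,
      (∀ x i j, (s' x - (s x : Matrix (Fin N) (Fin N) O)) i j ∈ I) ∧
      ∀ x y i j, (s' (x * y) - s' x * s' y) i j ∈ I * I := by
  obtain ⟨c, hc⟩ := hn.exists_left_inv
  let m : Λ → Matrix (Fin N) (Fin N) O := fun g => (s g : Matrix (Fin N) (Fin N) O)
  let mi : Λ → Matrix (Fin N) (Fin N) O := fun g => ((s g)⁻¹ : Matrix.GeneralLinearGroup (Fin N) O)
  have hmi : ∀ g, m g * mi g = 1 := fun g => (s g).mul_inv
  have him : ∀ g, mi g * m g = 1 := fun g => (s g).inv_mul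
  let a : Λ → Λ → Matrix (Fin N) (Fin N) O := fun g x => m (g * x) * mi x
  have ha : ∀ g x, j6_EI I (a g x - m g) := by
    intro g x
    have h1 : a g x - m g = (m (g * x) - m g * m x) * mi x := by
      rw [sub_mul, mul_assoc (m g), hmi, mul_one]
    rw [h1]
    exact j6_mul_right (h g x) _
  have hmul : ∀ g k y, a (g * k) y = a g (k * y) * a k y := by
    intro g k y
    show m (g * k * y) * mi y = m (g * (k * y)) * mi (k * y) * (m (k * y) * mi y)
    rw [mul_assoc (m (g * (k * y))), ← mul_assoc (mi (k * y)), him, one_mul, mul_assoc g k y]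
  let s' : Λ → Matrix (Fin N) (Fin N) O := fun g => c • ∑ x, a g x
  have hs' : ∀ g, j6_EI I (s' g - m g) := by
    intro g
    have h1 : s' g - m g = c • ∑ x : Λ, (a g x - m g) := by
      rw [Finset.sum_sub_distrib, Finset.sum_const, Finset.card_univ, smul_sub,
        ← Nat.cast_smul_eq_nsmul O, smul_smul, hc, one_smul]
    rw [h1]
    exact j6_smul (j6_sum _ _ fun x _ => ha g x) c
  refine ⟨s', hs', ?_⟩
  intro g k
  have hz : ∀ g k, ∑ y : Λ, (a g (k * y) - s' g) = 0 := by
    intro g k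
    rw [Finset.sum_sub_distrib, Finset.sum_const, Finset.card_univ,
      ← Nat.cast_smul_eq_nsmul O, smul_smul, mul_comm, hc, one_smul, sub_eq_zero]
    exact Fintype.sum_equiv (Equiv.mulLeft k) _ _ fun y => rfl
  have h1 : s' (g * k) - s' g * s' k =
      c • ∑ y : Λ, (a g (k * y) - s' g) * (a k y - m k) := by
    have h2 : ∑ y : Λ, (a g (k * y) - s' g) * (a k y - m k) =
        ∑ y : Λ, (a g (k * y) - s' g) * a k y - (∑ y : Λ, (a g (k * y) - s' g)) * m k := by
      rw [Finset.sum_mul, ← Finset.sum_sub_distrib]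
      apply Finset.sum_congr rfl
      intro y _
      rw [mul_sub]
    rw [h2, hz, zero_mul, sub_zero]
    have h3 : ∑ y : Λ, (a g (k * y) - s' g) * a k y =
        ∑ y : Λ, a (g * k) y - s' g * ∑ y : Λ, a k y := by
      rw [Finset.mul_sum, ← Finset.sum_sub_distrib]
      apply Finset.sum_congr rfl
      intro y _
      rw [sub_mul, hmul]
    rw [h3, smul_sub]
    show c • ∑ x, a (g * k) x - s' g * (c • ∑ x, a k x) = _
    rw [Matrix.mul_smul]
  rw [h1]
  apply j6_smul
  apply j6_sum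
  intro y _
  apply j6_mul
  · have h4 : a g (k * y) - s' g = (a g (k * y) - m g) - (s' g - m g) := by abel
    rw [h4]
    exact j6_sub (ha g _) (hs' g)
  · exact ha k y

end ALG
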