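import Pool.Agent.ALG.J6

/-!
# [ALG-J7] lifting homomorphisms to complete rings
-/

set_option autoImplicit false

namespace ALG

theorem j7_mono {O : Type*} [CommRing O] {N : ℕ} {I J : Ideal O} (h : I ≤ J)
    {A : Matrix (Fin N) (Fin N) O} (hA : j6_EI I A) : j6_EI J A := fun i j => h (hA i j)

theorem j7_add {O : Type*} [CommRing O] {N : ℕ} {I : Ideal O}
    {A B : Matrix (Fin N) (Fin N) O} (hA : j6_EI I A) (hB : j6_EI I B) : j6_EI I (A + B) := by
  intro i j
  rw [Matrix.add_apply]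
  exact I.add_mem (hA i j) (hB i j)

theorem j7_map_eq {O : Type*} [CommRing O] {N : ℕ} (I : Ideal O)
    (A B : Matrix (Fin N) (Fin N) O) :
    A.map (Ideal.Quotient.mk I) = B.map (Ideal.Quotient.mk I) ↔ j6_EI I (A - B) := by
  constructor
  · intro h i j
    have h1 := congrFun (congrFun h i) j
    rw [Matrix.map_apply, Matrix.map_apply, Ideal.Quotient.eq] at h1
    exact h1
  · intro h
    ext i j
    rw [Matrix.map_apply, Matrix.map_apply, Ideal.Quotient.eq]
    exact h i j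

theorem j7_unit {O : Type*} [CommRing O] (I : Ideal O) [IsAdicComplete I O] (x : O)
    (hx : IsUnit (Ideal.Quotient.mk I x)) : IsUnit x := by
  obtain ⟨y, hy⟩ := hx.exists_right_inv
  obtain ⟨y, rfl⟩ := Ideal.Quotient.mk_surjective y
  have h1 : x * y - 1 ∈ I := by
    rw [← Ideal.Quotient.eq, map_mul, hy, map_one]
  have h2 := Ideal.mem_jacobson_bot.mp (IsAdicComplete.le_jacobson_bot I h1) 1
  rw [mul_one, sub_add_cancel] at h2
  exact isUnit_of_mul_isUnit_left h2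

theorem j7_gl {O : Type*} [CommRing O] (I : Ideal O) [IsAdicComplete I O] {N : ℕ}
    (A : Matrix (Fin N) (Fin N) O) (B : Matrix.GeneralLinearGroup (Fin N) (O ⧸ I))
    (h : A.map (Ideal.Quotient.mk I) = (B : Matrix (Fin N) (Fin N) (O ⧸ I))) :
    ∃ u : Matrix.GeneralLinearGroup (Fin N) O, (u : Matrix (Fin N) (Fin N) O) = A := by
  have h1 : IsUnit A.det := by
    apply j7_unit I
    rw [RingHom.map_det]
    have h2 : (Ideal.Quotient.mk I).mapMatrix A = (B : Matrix (Fin N) (Fin N) (O ⧸ I)) := h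
    rw [h2]
    exact (Matrix.isUnit_iff_isUnit_det _).mp B.isUnit
  obtain ⟨u, hu⟩ := (Matrix.isUnit_iff_isUnit_det A).mpr h1
  exact ⟨u, hu⟩

/-- an approximate lift -/
def j7_Q {O : Type*} [CommRing O] (I : Ideal O) {N : ℕ} {Λ : Type*} [Group Λ]
    (ρ : Λ →* Matrix.GeneralLinearGroup (Fin N) (O ⧸ I)) (m : ℕ)
    (s : Λ → Matrix (Fin N) (Fin N) O) : Prop :=
  (∀ x, (s x).map (Ideal.Quotient.mk I) = (ρ x : Matrix (Fin N) (Fin N) (O ⧸ I))) ∧
    ∀ x y, j6_EI (I ^ (m + 1)) (s (x * y) - s x * s y)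

theorem j7_step {O : Type*} [CommRing O] (I : Ideal O) [IsAdicComplete I O] {N : ℕ}
    {Λ : Type*} [Group Λ] [Fintype Λ] (hn : IsUnit (Fintype.card Λ : O))
    (ρ : Λ →* Matrix.GeneralLinearGroup (Fin N) (O ⧸ I)) (m : ℕ)
    (s : Λ → Matrix (Fin N) (Fin N) O) (hs : j7_Q I ρ m s) :
    ∃ s', j7_Q I ρ (m + 1) s' ∧ ∀ x, j6_EI (I ^ (m + 1)) (s' x - s x) := by
  choose u hu using fun x => j7_gl I (s x) (ρ x) (hs.1 x)
  obtain ⟨s', h1, h2⟩ := lift_step hn (I ^ (m + 1)) u (by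
    intro x y
    rw [hu, hu, hu]
    exact hs.2 x y)
  refine ⟨s', ⟨?_, ?_⟩, ?_⟩
  · intro x
    rw [← hs.1 x, j7_map_eq]
    have h3 := h1 x
    rw [hu] at h3
    exact j7_mono (Ideal.pow_le_self (Nat.succ_ne_zero m)) h3
  · intro x y
    refine j7_mono ?_ (h2 x y)
    rw [← pow_add]
    exact Ideal.pow_le_pow_right (by omega)
  · intro x
    have h3 := h1 x
    rw [hu] at h3
    exact h3

theorem j7_base {O : Type*} [CommRing O] (I : Ideal O) {N : ℕ}
    {Λ : Type*} [Group Λ] (ρ : Λ →* Matrix.GeneralLinearGroup (Fin N) (O ⧸ I)) :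
    ∃ s, j7_Q I ρ 0 s := by
  choose f hf using fun z : O ⧸ I => Ideal.Quotient.mk_surjective z
  have h1 : ∀ x, ((ρ x : Matrix (Fin N) (Fin N) (O ⧸ I)).map f).map (Ideal.Quotient.mk I) =
      (ρ x : Matrix (Fin N) (Fin N) (O ⧸ I)) := by
    intro x
    ext i j
    rw [Matrix.map_apply, Matrix.map_apply, hf]
  refine ⟨fun x => (ρ x : Matrix (Fin N) (Fin N) (O ⧸ I)).map f, h1, ?_⟩
  intro x y
  rw [zero_add, pow_one, ← j7_map_eq, h1, Matrix.map_mul, h1, h1, map_mul]
  rfl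

/-- the sequence of approximate lifts -/
noncomputable def j7_seq {O : Type*} [CommRing O] (I : Ideal O) [IsAdicComplete I O] {N : ℕ}
    {Λ : Type*} [Group Λ] [Fintype Λ] (hn : IsUnit (Fintype.card Λ : O))
    (ρ : Λ →* Matrix.GeneralLinearGroup (Fin N) (O ⧸ I)) :
    (m : ℕ) → {s : Λ → Matrix (Fin N) (Fin N) O // j7_Q I ρ m s}
  | 0 => ⟨(j7_base I ρ).choose, (j7_base I ρ).choose_spec⟩
  | m + 1 => ⟨(j7_step I hn ρ m (j7_seq I hn ρ m).1 (j7_seq I hn ρ m).2).choose,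
      (j7_step I hn ρ m (j7_seq I hn ρ m).1 (j7_seq I hn ρ m).2).choose_spec.1⟩

theorem j7_seq_succ {O : Type*} [CommRing O] (I : Ideal O) [IsAdicComplete I O] {N : ℕ}
    {Λ : Type*} [Group Λ] [Fintype Λ] (hn : IsUnit (Fintype.card Λ : O))
    (ρ : Λ →* Matrix.GeneralLinearGroup (Fin N) (O ⧸ I)) (m : ℕ) (x : Λ) :
    j6_EI (I ^ (m + 1)) ((j7_seq I hn ρ (m + 1)).1 x - (j7_seq I hn ρ m).1 x) :=
  (j7_step I hn ρ m (j7_seq I hn ρ m).1 (j7_seq I hn ρ m).2).choose_spec.2 x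

theorem j7_seq_le {O : Type*} [CommRing O] (I : Ideal O) [IsAdicComplete I O] {N : ℕ}
    {Λ : Type*} [Group Λ] [Fintype Λ] (hn : IsUnit (Fintype.card Λ : O))
    (ρ : Λ →* Matrix.GeneralLinearGroup (Fin N) (O ⧸ I)) (m k : ℕ) (x : Λ) :
    j6_EI (I ^ m) ((j7_seq I hn ρ (m + k)).1 x - (j7_seq I hn ρ m).1 x) := by
  induction k with
  | zero =>
    intro i j
    rw [Nat.add_zero, sub_self]
    exact Ideal.zero_mem _
  | succ k ih =>
    have h1 := j7_seq_succ I hn ρ (m + k) x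
    have h2 : (j7_seq I hn ρ (m + (k + 1))).1 x - (j7_seq I hn ρ m).1 x =
        ((j7_seq I hn ρ (m + k + 1)).1 x - (j7_seq I hn ρ (m + k)).1 x) +
        ((j7_seq I hn ρ (m + k)).1 x - (j7_seq I hn ρ m).1 x) := by
      rw [← add_assoc]
      abel
    rw [h2]
    exact j7_add (j7_mono (Ideal.pow_le_pow_right (by omega)) h1) ih

theorem j7_smod {O : Type*} [CommRing O] (I : Ideal O) (n : ℕ) (a b : O) :
    a ≡ b [SMOD (I ^ n • ⊤ : Submodule O O)] ↔ a - b ∈ I ^ n := by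
  rw [SModEq.sub_mem]
  simp

theorem j7_limit {O : Type*} [CommRing O] (I : Ideal O) [IsAdicComplete I O] {N : ℕ}
    {Λ : Type*} [Group Λ] [Fintype Λ] (hn : IsUnit (Fintype.card Λ : O))
    (ρ : Λ →* Matrix.GeneralLinearGroup (Fin N) (O ⧸ I)) :
    ∃ L : Λ → Matrix (Fin N) (Fin N) O, ∀ n x,
      j6_EI (I ^ n) ((j7_seq I hn ρ n).1 x - L x) := by
  have h1 : ∀ x i j, ∃ l : O, ∀ n, (j7_seq I hn ρ n).1 x i j - l ∈ I ^ n := by
    intro x i j
    obtain ⟨l, hl⟩ := IsPrecomplete.prec' (I := I) (M := O)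
      (fun n => (j7_seq I hn ρ n).1 x i j) (by
        intro m n hmn
        rw [j7_smod]
        obtain ⟨k, rfl⟩ := Nat.exists_eq_add_of_le hmn
        have h2 := j7_seq_le I hn ρ m k x i j
        rw [Matrix.sub_apply] at h2
        rw [← neg_sub]
        exact (I ^ m).neg_mem h2)
    exact ⟨l, fun n => (j7_smod I n _ _).mp (hl n)⟩
  choose l hl using h1
  exact ⟨fun x => Matrix.of (l x), fun n x i j => hl x i j n⟩

/-- PROOF. `I` is contained in the Jacobson radical (`IsAdicComplete.le_jacobson_bot`), so a matrix over `O` whose determinant is a unit modulo `I` is invertible. Choose any lifts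
`s 0 g` of the `ρ g`; `s 0 (g h) = s 0 g * s 0 h` modulo `I`. By `lift_step` for the ideal `I ^ (m+1)` (`I^(m+1) * I^(m+1) ≤ I^(m+2)`) construct `s m` with `s (m+1) = s m` modulo `I^(m+1)` and
`s m (g h) = s m g * s m h` modulo `I^(m+1)`. The entries converge (`IsPrecomplete`), the limit `s` is congruent to `s m` modulo `I^(m+1)` for all `m`, so it is multiplicative
(`IsHausdorff`), its values are invertible, and it lifts `ρ`. -/
theorem lift_hom {O : Type*} [CommRing O] (I : Ideal O) [IsAdicComplete I O] {N : ℕ}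
    {Λ : Type*} [Group Λ] [Fintype Λ] (hn : IsUnit (Fintype.card Λ : O))
    (ρ : Λ →* Matrix.GeneralLinearGroup (Fin N) (O ⧸ I)) :
    ∃ ρ' : Λ →* Matrix.GeneralLinearGroup (Fin N) O, ∀ x,
      Matrix.GeneralLinearGroup.map (Ideal.Quotient.mk I) (ρ' x) = ρ x := by
  obtain ⟨L, hL⟩ := j7_limit I hn ρ
  have hmap : ∀ x, (L x).map (Ideal.Quotient.mk I) =
      (ρ x : Matrix (Fin N) (Fin N) (O ⧸ I)) := by
    intro x
    rw [← (j7_seq I hn ρ 1).2.1 x]
    symm
    rw [j7_map_eq]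
    have h1 := hL 1 x
    rwa [pow_one] at h1
  have hmul : ∀ x y, L (x * y) = L x * L y := by
    intro x y
    have h1 : ∀ n, j6_EI (I ^ n) (L (x * y) - L x * L y) := by
      intro n
      let f := (j7_seq I hn ρ n).1
      have h2 : L (x * y) - L x * L y = ((f (x * y) - f x * f y) - (f (x * y) - L (x * y))) +
          ((f x - L x) * f y + L x * (f y - L y)) := by
        rw [sub_mul, mul_sub]
        abel
      rw [h2]
      apply j7_add
      · exact j6_sub (j7_mono (Ideal.pow_le_pow_right (Nat.le_succ n))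
          ((j7_seq I hn ρ n).2.2 x y)) (hL n _)
      · exact j7_add (j6_mul_right (hL n x) _) (j6_mul_left (hL n y) _)
    ext i j
    rw [← sub_eq_zero]
    apply IsHausdorff.haus' (I := I) (M := O)
    intro n
    rw [j7_smod, sub_zero]
    exact h1 n i j
  choose u hu using fun x => j7_gl I (L x) (ρ x) (hmap x)
  refine ⟨MonoidHom.mk' u ?_, ?_⟩
  · intro x y
    apply Units.ext
    rw [hu, Units.val_mul, hu, hu, hmul]
  · intro x
    apply Units.ext
    rw [← hmap x, ← hu x]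
    rfl

end ALG
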