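import Pool.Agent.ALG.Defs

/-!
# [ALG-P1] the lower `p`-central series
-/

set_option autoImplicit false

namespace ALG

variable {H : Type*} [Group H]

/-- PROOF. Induction on `i`; the generating set is stable under automorphisms (and the inverse of an automorphism is one). -/
theorem PS_aut_mem (p : ℕ) (i : ℕ) (φ : MulAut H) {x : H} (hx : x ∈ PS H p i) :
    φ x ∈ PS H p i := by
  induction i generalizing x with
  | zero => exact Subgroup.mem_top _
  | succ i ih =>
    have h1 : (PS H p (i + 1)) ≤ (PS H p (i + 1)).comap φ.toMonoidHom := by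
      conv_lhs => rw [PS]
      rw [Subgroup.closure_le]
      rintro y (⟨x, hx, rfl⟩ | ⟨x, hx, h, rfl⟩)
      · refine Subgroup.subset_closure (Or.inl ⟨φ x, ih hx, ?_⟩)
        exact map_pow φ x p
      · refine Subgroup.subset_closure (Or.inr ⟨φ x, ih hx, φ h, ?_⟩)
        simp
    exact h1 hx

/-- PROOF. `PS_aut_mem` for the inner automorphisms (`MulAut.conj`). -/
theorem PS_normal (p : ℕ) (i : ℕ) : (PS H p i).Normal := by
  refine ⟨fun x hx g => ?_⟩
  exact PS_aut_mem p i (MulAut.conj g) hx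

/-- PROOF. The generators `x ^ p` and `x h x⁻¹ h⁻¹`, `x ∈ PS i`, are in the normal subgroup `PS i`. -/
theorem PS_anti (p : ℕ) (i : ℕ) : PS H p (i + 1) ≤ PS H p i := by
  show Subgroup.closure _ ≤ _
  rw [Subgroup.closure_le]
  rintro y (⟨x, hx, rfl⟩ | ⟨x, hx, h, rfl⟩)
  · exact (PS H p i).pow_mem hx p
  · have e : x * h * x⁻¹ * h⁻¹ = x * (h * x⁻¹ * h⁻¹) := by group
    rw [e]
    exact (PS H p i).mul_mem hx ((PS_normal p i).conj_mem _ ((PS H p i).inv_mem hx) h)

theorem PS_pow_mem (p : ℕ) {i : ℕ} {x : H} (hx : x ∈ PS H p i) : x ^ p ∈ PS H p (i + 1) := by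
  exact Subgroup.subset_closure (Or.inl ⟨x, hx, rfl⟩)

theorem PS_comm_mem (p : ℕ) {i : ℕ} {x : H} (hx : x ∈ PS H p i) (h : H) :
    x * h * x⁻¹ * h⁻¹ ∈ PS H p (i + 1) := by
  exact Subgroup.subset_closure (Or.inr ⟨x, hx, h, rfl⟩)

/-- If `[x, z]` is central and `h⁻¹ [h, x] h` commutes with `z`, then `x` commutes with `[z, h]`. -/
theorem p1_hw {Q : Type*} [Group Q] {x z h : Q} (h1 : ∀ k, x * z * x⁻¹ * z⁻¹ * k = k * (x * z * x⁻¹ * z⁻¹))
    (h3 : h⁻¹ * (h * x * h⁻¹ * x⁻¹) * h * z = z * (h⁻¹ * (h * x * h⁻¹ * x⁻¹) * h)) :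
    z * h * z⁻¹ * h⁻¹ * x = x * (z * h * z⁻¹ * h⁻¹) := by
  obtain ⟨w, hw⟩ : ∃ w, w = h * x * h⁻¹ * x⁻¹ := ⟨_, rfl⟩
  obtain ⟨c, hc⟩ : ∃ c, c = x * z * x⁻¹ * z⁻¹ := ⟨_, rfl⟩
  rw [← hw] at h3
  rw [← hc] at h1
  have e1 : x * (z * h * z⁻¹ * h⁻¹) * x⁻¹ = c * (z * (x * h * x⁻¹) * z⁻¹) * c⁻¹ * (x * h * x⁻¹)⁻¹ := by
    rw [hc]; group
  have e2 : x * h * x⁻¹ = w⁻¹ * h := by rw [hw]; group
  rw [h1, mul_inv_cancel_right, e2] at e1
  have c3 : Commute w (h * z⁻¹ * h⁻¹) := by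
    have c4 : Commute (h⁻¹ * w * h) z⁻¹ := (show Commute (h⁻¹ * w * h) z from h3).inv_right
    have c5 : w * (h * z⁻¹ * h⁻¹) = h * ((h⁻¹ * w * h) * z⁻¹) * h⁻¹ := by group
    show w * (h * z⁻¹ * h⁻¹) = (h * z⁻¹ * h⁻¹) * w
    rw [c5, c4.eq]
    group
  have e3 : z * (w⁻¹ * h) * z⁻¹ * (w⁻¹ * h)⁻¹ = z * h * z⁻¹ * h⁻¹ := by
    have e4 : z * (w⁻¹ * h) * z⁻¹ * (w⁻¹ * h)⁻¹ = (z * w⁻¹) * (h * z⁻¹ * h⁻¹ * w) := by group
    rw [e4, ← c3.eq]
    group
  rw [e3] at e1
  exact (mul_inv_eq_iff_eq_mul.mp e1).symm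

/-- PROOF. Induction on `j` for all `i`. `j = 0`: `PS_comm_mem`. Step: let `N = PS (i+j+2)`, a normal subgroup. The set of the `y` such that `[x, y] ∈ N` for all `x ∈ PS i`
is a subgroup; we check the generators of `PS (j+1)`. (1) `y = z^p`, `z ∈ PS j`: `c = [x, z] ∈ PS (i+j+1)` (induction), modulo `N` it is central (`PS_comm_mem`) and `c^p = 1`
(`PS_pow_mem`); `x z x⁻¹ = c z`, so `x z^p x⁻¹ = (c z)^p = c^p z^p = z^p` modulo `N`. (2) `y = [z, h]`: three subgroup lemma modulo `N` (`Subgroup.commutator_commutator_eq_bot_of_rotate`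
in `H ⧸ N`, or the Hall-Witt identity): `[[h, x], z] ∈ [PS (i+1), PS j] ≤ PS (i+1+j+1)` by induction (for `i+1`), `[[x, z], h] ∈ [PS (i+j+1), ⊤] ≤ PS (i+j+2)`. -/
theorem PS_comm_comm_mem (p : ℕ) (i j : ℕ) {x y : H} (hx : x ∈ PS H p i) (hy : y ∈ PS H p j) :
    x * y * x⁻¹ * y⁻¹ ∈ PS H p (i + j + 1) := by
  induction j generalizing i x y with
  | zero => exact PS_comm_mem p hx y
  | succ j ih =>
    have hN := PS_normal (H := H) p (i + (j + 1) + 1)
    obtain ⟨N, hNd⟩ : ∃ N, N = PS H p (i + (j + 1) + 1) := ⟨_, rfl⟩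
    rw [← hNd] at hN ⊢
    -- the elements commuting with `x` modulo `N`
    have key : PS H p (j + 1) ≤ ((Subgroup.centralizer {(QuotientGroup.mk' N) x}).comap (QuotientGroup.mk' N)) := by
      show Subgroup.closure _ ≤ _
      rw [Subgroup.closure_le]
      have hq : ∀ z, (QuotientGroup.mk' N) z = 1 ↔ z ∈ N := by
        intro z
        rw [← MonoidHom.mem_ker, QuotientGroup.ker_mk']
      rintro y (⟨z, hz, rfl⟩ | ⟨z, hz, h, rfl⟩)
      · -- `y = z ^ p`
        rw [SetLike.mem_coe, Subgroup.mem_comap, Subgroup.mem_centralizer_singleton_iff]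
        have hc1 : x * z * x⁻¹ * z⁻¹ ∈ PS H p (i + j + 1) := ih i hx hz
        obtain ⟨c, hc⟩ : ∃ c, c = x * z * x⁻¹ * z⁻¹ := ⟨_, rfl⟩
        rw [← hc] at hc1
        have hcp : (QuotientGroup.mk' N) c ^ p = 1 := by
          rw [← map_pow, hq, hNd]
          exact PS_pow_mem p hc1
        have hcc : ∀ k, (QuotientGroup.mk' N) c * (QuotientGroup.mk' N) k = (QuotientGroup.mk' N) k * (QuotientGroup.mk' N) c := by
          intro k
          have h1 : (QuotientGroup.mk' N) (c * k * c⁻¹ * k⁻¹) = 1 := by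
            rw [hq, hNd]; exact PS_comm_mem p hc1 k
          simp only [map_mul, map_inv] at h1
          exact mul_inv_eq_iff_eq_mul.mp (mul_inv_eq_one.mp h1)
        have h2 : (QuotientGroup.mk' N) x * (QuotientGroup.mk' N) z * ((QuotientGroup.mk' N) x)⁻¹ =
            (QuotientGroup.mk' N) c * (QuotientGroup.mk' N) z := by
          rw [hc]; simp only [map_mul, map_inv]; group
        have h3 : (QuotientGroup.mk' N) x * (QuotientGroup.mk' N) z ^ p * ((QuotientGroup.mk' N) x)⁻¹ =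
            (QuotientGroup.mk' N) z ^ p := by
          rw [← conj_pow, h2, (show Commute ((QuotientGroup.mk' N) c) ((QuotientGroup.mk' N) z) from hcc z).mul_pow,
            hcp, one_mul]
        rw [map_pow]
        exact (mul_inv_eq_iff_eq_mul.mp h3).symm
      · -- `y = [z, h]`
        rw [SetLike.mem_coe, Subgroup.mem_comap, Subgroup.mem_centralizer_singleton_iff]
        -- Hall-Witt
        have hxz : x * z * x⁻¹ * z⁻¹ ∈ PS H p (i + j + 1) := ih i hx hz
        have hhx : h * x * h⁻¹ * x⁻¹ ∈ PS H p (i + 1) := by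
          have h1 := (PS H p (i + 1)).inv_mem (PS_comm_mem p hx h)
          have e : h * x * h⁻¹ * x⁻¹ = (x * h * x⁻¹ * h⁻¹)⁻¹ := by group
          rw [e]; exact h1
        have h1 : ∀ k, (QuotientGroup.mk' N) (x * z * x⁻¹ * z⁻¹) * (QuotientGroup.mk' N) k =
            (QuotientGroup.mk' N) k * (QuotientGroup.mk' N) (x * z * x⁻¹ * z⁻¹) := by
          intro k
          have h1 : (QuotientGroup.mk' N) ((x * z * x⁻¹ * z⁻¹) * k * (x * z * x⁻¹ * z⁻¹)⁻¹ * k⁻¹) = 1 := by
            rw [hq, hNd]; exact PS_comm_mem p hxz k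
          rw [map_mul, map_mul, map_mul, map_inv _ k, map_inv _ (x * z * x⁻¹ * z⁻¹)] at h1
          exact mul_inv_eq_iff_eq_mul.mp (mul_inv_eq_one.mp h1)
        have h2 : ∀ w ∈ PS H p (i + 1), (QuotientGroup.mk' N) w * (QuotientGroup.mk' N) z =
            (QuotientGroup.mk' N) z * (QuotientGroup.mk' N) w := by
          intro w hw
          have h1 : (QuotientGroup.mk' N) (w * z * w⁻¹ * z⁻¹) = 1 := by
            rw [hq, hNd]
            have h3 := ih (i + 1) hw hz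
            have e : i + 1 + j + 1 = i + (j + 1) + 1 := by omega
            rw [e] at h3
            exact h3
          rw [map_mul, map_mul, map_mul, map_inv _ z, map_inv _ w] at h1
          exact mul_inv_eq_iff_eq_mul.mp (mul_inv_eq_one.mp h1)
        have h4 := h2 (h⁻¹ * (h * x * h⁻¹ * x⁻¹) * h) (by
          have h5 := (PS_normal (H := H) p (i + 1)).conj_mem _ hhx h⁻¹
          rw [inv_inv] at h5
          exact h5)
        have h1' : ∀ k : H ⧸ N, (QuotientGroup.mk' N) (x * z * x⁻¹ * z⁻¹) * k =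
            k * (QuotientGroup.mk' N) (x * z * x⁻¹ * z⁻¹) := by
          intro k
          obtain ⟨k, rfl⟩ := QuotientGroup.mk'_surjective N k
          exact h1 k
        simp only [map_mul, map_inv] at h1' h4 ⊢
        exact p1_hw h1' h4
    have hy2 := key hy
    rw [Subgroup.mem_comap, Subgroup.mem_centralizer_singleton_iff] at hy2
    have hq : (QuotientGroup.mk' N) (x * y * x⁻¹ * y⁻¹) = 1 := by
      simp only [map_mul, map_inv]
      rw [← hy2]
      group
    rw [← MonoidHom.mem_ker, QuotientGroup.ker_mk'] at hq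
    exact hq

end ALG
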