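import Pool.Agent.ALG.P1

/-!
# [ALG-P2] the factors of the lower `p`-central series of a finitely generated group
-/

set_option autoImplicit false

namespace ALG

variable {H : Type*} [Group H]

/-- the factor `P/Q` has exponent `p` and is commutative -/
theorem p2_quot (p : ℕ) (i : ℕ) [hn : ((PS H p (i + 1)).subgroupOf (PS H p i)).Normal]
    (a b : ↥(PS H p i) ⧸ (PS H p (i + 1)).subgroupOf (PS H p i)) : a * b = b * a ∧ a ^ p = 1 := by
  induction a using QuotientGroup.induction_on with | H a => ?_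
  induction b using QuotientGroup.induction_on with | H b => ?_
  constructor
  · have h1 : (QuotientGroup.mk' ((PS H p (i + 1)).subgroupOf (PS H p i))) (a * b * a⁻¹ * b⁻¹) = 1 := by
      rw [← MonoidHom.mem_ker, QuotientGroup.ker_mk', Subgroup.mem_subgroupOf]
      exact PS_comm_mem p a.2 b
    simp only [map_mul, map_inv] at h1
    exact mul_inv_eq_iff_eq_mul.mp (mul_inv_eq_one.mp h1)
  · have h1 : (QuotientGroup.mk' ((PS H p (i + 1)).subgroupOf (PS H p i))) (a ^ p) = 1 := by
      rw [← MonoidHom.mem_ker, QuotientGroup.ker_mk', Subgroup.mem_subgroupOf]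
      exact PS_pow_mem p a.2
    rw [map_pow] at h1
    exact h1

theorem p2_normal (p : ℕ) (i : ℕ) : ((PS H p (i + 1)).subgroupOf (PS H p i)).Normal := by
  have := PS_normal (H := H) p (i + 1)
  infer_instance

theorem p2_fin (p : ℕ) (hp : p.Prime) (i : ℕ) (h : Group.FG ↥(PS H p i)) :
    Finite (↥(PS H p i) ⧸ (PS H p (i + 1)).subgroupOf (PS H p i)) := by
  have hn := p2_normal (H := H) p i
  let _ : CommGroup (↥(PS H p i) ⧸ (PS H p (i + 1)).subgroupOf (PS H p i)) :=
    { (inferInstance : Group (↥(PS H p i) ⧸ (PS H p (i + 1)).subgroupOf (PS H p i))) with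
      mul_comm := fun a b => (p2_quot p i a b).1 }
  have hfg : Group.FG (↥(PS H p i) ⧸ (PS H p (i + 1)).subgroupOf (PS H p i)) := QuotientGroup.fg _
  refine CommGroup.finite_of_fg_isMulTorsion _ ?_
  intro a
  rw [isOfFinOrder_iff_pow_eq_one]
  exact ⟨p, hp.pos, (p2_quot p i a a).2⟩

/-- PROOF. Induction on `i`: `PS i` has finite index, so it is finitely generated (`Subgroup.fg_of_index_ne_zero`); `PS i / PS (i+1)` is finitely generated, abelian
(`PS_comm_mem`), of exponent `p > 0` (`PS_pow_mem`), so it is finite. -/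
theorem PS_finiteIndex [Group.FG H] (p : ℕ) (hp : p.Prime) (i : ℕ) : (PS H p i).FiniteIndex := by
  induction i with
  | zero =>
    have e : PS H p 0 = ⊤ := rfl
    rw [e]
    infer_instance
  | succ i ih =>
    have h1 : Group.FG ↥(PS H p i) := Subgroup.fg_of_index_ne_zero (H := PS H p i)
    have h2 := p2_fin p hp i h1
    have h3 : (PS H p (i + 1)).relIndex (PS H p i) ≠ 0 := by
      have h4 := Subgroup.finiteIndex_of_finite_quotient (H := (PS H p (i + 1)).subgroupOf (PS H p i))
      exact h4.index_ne_zero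
    refine ⟨?_⟩
    rw [← Subgroup.relIndex_mul_index (PS_anti p i)]
    exact mul_ne_zero h3 ih.index_ne_zero

/-- PROOF. `PS i / PS (i+1)` is a finite group of exponent `p` (`IsPGroup.iff_card`). -/
theorem PS_relIndex [Group.FG H] (p : ℕ) (hp : p.Prime) (i : ℕ) :
    ∃ c : ℕ, (PS H p (i + 1)).relIndex (PS H p i) = p ^ c := by
  have := Fact.mk hp
  have hfi := PS_finiteIndex (H := H) p hp i
  have h1 : Group.FG ↥(PS H p i) := Subgroup.fg_of_index_ne_zero (H := PS H p i)
  have h2 := p2_fin p hp i h1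
  have hn := p2_normal (H := H) p i
  have h3 : IsPGroup p (↥(PS H p i) ⧸ (PS H p (i + 1)).subgroupOf (PS H p i)) := by
    intro a
    exact ⟨1, by rw [pow_one]; exact (p2_quot p i a a).2⟩
  obtain ⟨c, hc⟩ := IsPGroup.iff_card.mp h3
  exact ⟨c, hc⟩

end ALG
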