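import Pool.Agent.ALG.P1

/-!
# [ALG-P3] automorphisms and the lower `p`-central series
-/

set_option autoImplicit false

namespace ALG

variable {H : Type*} [Group H]

/-- PROOF. Induction on `i`. `i = 0`: hypothesis. Step: the set of the `x ∈ PS (i+1)` with `φ x * x⁻¹ ∈ PS (i+2)` is a subgroup (`PS (i+2)` is normal); check the generators, with
`y ∈ PS i`, `φ y = z y`, `z ∈ PS (i+1)` (induction), `φ h = k h`, `k ∈ PS 1`, modulo the normal subgroup `N = PS (i+2)`. (1) `x = y^p`: `z` is central modulo `N` and `z^p ∈ N`, so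
`(z y)^p = y^p` modulo `N`. (2) `x = [y, h]`: `[z y, k h] = [y, k h]` (as `z` is central modulo `N`) `= [y, k] k [y, h] k⁻¹`, and `[y, k] ∈ PS (i+1+1)` by `PS_comm_comm_mem`
(`PS i` and `PS 1`), and `[y, h] ∈ PS (i+1)` is central modulo `N`. -/
theorem PS_aut (p : ℕ) (φ : MulAut H) (h : ∀ x : H, φ x * x⁻¹ ∈ PS H p 1) (i : ℕ) {x : H}
    (hx : x ∈ PS H p i) : φ x * x⁻¹ ∈ PS H p (i + 1) := by
  induction i generalizing x with
  | zero => exact h x
  | succ i ih =>
    have hN := PS_normal (H := H) p (i + 2)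
    obtain ⟨π, hπ⟩ : ∃ π : H →* H ⧸ PS H p (i + 2), π = QuotientGroup.mk' (PS H p (i + 2)) := ⟨_, rfl⟩
    have hker : ∀ x, π x = 1 ↔ x ∈ PS H p (i + 2) := by
      intro x
      rw [hπ, ← MonoidHom.mem_ker, QuotientGroup.ker_mk']
    have hsurj : Function.Surjective π := by rw [hπ]; exact QuotientGroup.mk'_surjective _
    have hcen : ∀ z ∈ PS H p (i + 1), ∀ k, π z * k = k * π z := by
      intro z hz k
      obtain ⟨k, rfl⟩ := hsurj k
      have h1 : π (z * k * z⁻¹ * k⁻¹) = 1 := (hker _).mpr (PS_comm_mem p hz k)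
      simp only [map_mul, map_inv] at h1
      exact mul_inv_eq_iff_eq_mul.mp (mul_inv_eq_one.mp h1)
    have hpw : ∀ z ∈ PS H p (i + 1), π z ^ p = 1 := by
      intro z hz
      rw [← map_pow]
      exact (hker _).mpr (PS_pow_mem p hz)
    have key : PS H p (i + 1) ≤ (π.comp φ.toMonoidHom).eqLocus π := by
      show Subgroup.closure _ ≤ _
      rw [Subgroup.closure_le]
      rintro y (⟨x, hx, rfl⟩ | ⟨x, hx, k, rfl⟩)
      · show π (φ (x ^ p)) = π (x ^ p)
        have h1 := ih hx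
        have e : φ x = (φ x * x⁻¹) * x := by group
        rw [map_pow φ, e, map_pow, map_mul,
          (show Commute (π (φ x * x⁻¹)) (π x) from hcen _ h1 _).mul_pow, hpw _ h1, one_mul, map_pow]
      · show π (φ (x * k * x⁻¹ * k⁻¹)) = π (x * k * x⁻¹ * k⁻¹)
        have h1 := ih hx
        obtain ⟨z, hz⟩ : ∃ z, z = φ x * x⁻¹ := ⟨_, rfl⟩
        rw [← hz] at h1
        obtain ⟨l, hl⟩ : ∃ l, l = φ k * k⁻¹ := ⟨_, rfl⟩
        have hl1 : l ∈ PS H p 1 := by rw [hl]; exact h k
        have ex : φ x = z * x := by rw [hz]; group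
        have ek : φ k = l * k := by rw [hl]; group
        have h2 : π (x * l * x⁻¹ * l⁻¹) = 1 := by
          rw [hker]
          exact PS_comm_comm_mem p i 1 hx hl1
        have h3 := hcen _ (PS_comm_mem p hx k)
        have h4 := hcen _ h1
        have e1 : φ (x * k * x⁻¹ * k⁻¹) = z * (x * (l * k) * x⁻¹) * z⁻¹ * (l * k)⁻¹ := by
          simp only [map_mul, map_inv, ex, ek]
          group
        have e2 : π (φ (x * k * x⁻¹ * k⁻¹)) = π (x * (l * k) * x⁻¹ * (l * k)⁻¹) := by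
          rw [e1, map_mul, map_mul, map_mul, map_inv π z, h4, mul_inv_cancel_right, ← map_mul]
        have e3 : x * (l * k) * x⁻¹ * (l * k)⁻¹ = (x * l * x⁻¹ * l⁻¹) * (l * (x * k * x⁻¹ * k⁻¹) * l⁻¹) := by group
        rw [e2, e3, map_mul, h2, one_mul, map_mul, map_mul, ← h3, map_inv, mul_inv_cancel_right]
    have h5 : π (φ x) = π x := key hx
    rw [← hker, map_mul, map_inv, h5, mul_inv_cancel]

/-- PROOF. `MulAut H` acts on the finite set `H ⧸ PS H p 1` (`PS_aut_mem`); take the kernel of the action (a homomorphism to a finite group has a kernel of finite index), and apply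
`PS_aut`. -/
theorem PS_fi (p : ℕ) (hfin : (PS H p 1).FiniteIndex) :
    ∃ 𝔸 : Subgroup (MulAut H), 𝔸.FiniteIndex ∧ ∀ φ ∈ 𝔸, ∀ i : ℕ, ∀ x ∈ PS H p i,
      φ x * x⁻¹ ∈ PS H p (i + 1) := by
  have hN := PS_normal (H := H) p 1
  obtain ⟨N, hNd⟩ : ∃ N, N = PS H p 1 := ⟨_, rfl⟩
  have hNφ : ∀ φ : MulAut H, ∀ x ∈ N, φ x ∈ N := by
    intro φ x hx
    rw [hNd] at hx ⊢
    exact PS_aut_mem p 1 φ hx
  have hNφ' : ∀ φ : MulAut H, N.map φ.toMonoidHom = N := by
    intro φ
    apply le_antisymm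
    · rintro _ ⟨x, hx, rfl⟩
      exact hNφ φ x hx
    · intro x hx
      refine ⟨φ⁻¹ x, hNφ φ⁻¹ x hx, ?_⟩
      exact MulAut.apply_inv_self H φ x
  have hNn : N.Normal := by rw [hNd]; exact hN
  have hfN : Finite (H ⧸ N) := by
    rw [hNd]
    exact Subgroup.finite_quotient_of_finiteIndex
  let f : MulAut H →* MulAut (H ⧸ N) :=
    { toFun := fun φ => QuotientGroup.congr N N φ (hNφ' φ)
      map_one' := by
        ext x
        induction x using QuotientGroup.induction_on with | H x => ?_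
        rfl
      map_mul' := fun φ ψ => by
        ext x
        induction x using QuotientGroup.induction_on with | H x => ?_
        rfl }
  have hfin : Finite (MulAut (H ⧸ N)) := by
    refine Finite.of_injective (fun φ : MulAut (H ⧸ N) => (φ : (H ⧸ N) → (H ⧸ N))) ?_
    intro φ ψ h
    exact MulEquiv.ext fun x => congrFun h x
  refine ⟨f.ker, inferInstance, fun φ hφ i x hx => ?_⟩
  refine PS_aut p φ (fun y => ?_) i hx
  have h1 : f φ = 1 := hφ
  have h2 : (f φ) (QuotientGroup.mk y) = (QuotientGroup.mk y : H ⧸ N) := by rw [h1]; rfl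
  have h3 : (QuotientGroup.mk (φ y) : H ⧸ N) = QuotientGroup.mk y := h2
  rw [← hNd]
  have h4 := QuotientGroup.eq.mp h3
  have h5 := hNn.conj_mem _ (N.inv_mem h4) (φ y)
  have e : φ y * ((φ y)⁻¹ * y)⁻¹ * (φ y)⁻¹ = φ y * y⁻¹ := by group
  rw [e] at h5
  exact h5

end ALG
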