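import Pool.Agent.ALG.P1

/-!
# [ALG-P4] short representatives of the factors of the lower `p`-central series
-/

set_option autoImplicit false

namespace ALG

open AG

variable {H : Type*} [Group H]

/-- elementary abelian groups generated by a set -/
theorem p4_elem {B : Type*} [CommGroup B] [Finite B] (p : ℕ) (hp : p.Prime) (hpow : ∀ b : B, b ^ p = 1)
    (c : ℕ) (hc : Nat.card B = p ^ c) (S : Set B) (hS : Subgroup.closure S = ⊤) (b : B) :
    ∃ l : List B, l.length ≤ c * p ∧ (∀ y ∈ l, y ∈ S) ∧ l.prod = b := by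
  have := Fact.mk hp
  obtain ⟨instM⟩ : Nonempty (Module (ZMod p) (Additive B)) := ⟨AddCommGroup.zmodModule (fun x => by
    have h := hpow (Additive.toMul x)
    have h2 : Additive.ofMul ((Additive.toMul x) ^ p) = 0 := by rw [h]; rfl
    exact h2)⟩
  have hfinV : Finite (Additive B) := ‹Finite B›
  have hsp : (⊤ : Submodule (ZMod p) (Additive B)) ≤ Submodule.span (ZMod p) (Additive.ofMul '' S) := by
    intro v _
    have hv : Additive.toMul v ∈ Subgroup.closure S := by rw [hS]; exact Subgroup.mem_top _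
    have key : ∀ w ∈ Subgroup.closure S, Additive.ofMul w ∈ Submodule.span (ZMod p) (Additive.ofMul '' S) := by
      intro w hw
      induction hw using Subgroup.closure_induction with
      | mem x hx => exact Submodule.subset_span ⟨x, hx, rfl⟩
      | one => exact Submodule.zero_mem _
      | mul x y _ _ hx hy => exact Submodule.add_mem _ hx hy
      | inv x _ hx => exact Submodule.neg_mem _ hx
    exact key _ hv
  obtain ⟨ι, hι⟩ : ∃ ι : Set (Additive B), ι = (linearIndepOn_empty (ZMod p) id).extend (Set.empty_subset (Additive.ofMul '' S)) := ⟨_, rfl⟩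
  have hbas : ∃ bs : Module.Basis ι (ZMod p) (Additive B), ∀ i, Additive.toMul (bs i) ∈ S := by
    subst hι
    refine ⟨Module.Basis.ofSpan hsp, fun i => ?_⟩
    have h1 := Module.Basis.ofSpan_subset hsp ⟨i, rfl⟩
    obtain ⟨x, hx, hxe⟩ := h1
    rw [← hxe]
    exact hx
  obtain ⟨bs, hbs⟩ := hbas
  have hfι : Finite ι := Finite.of_injective bs bs.injective
  have := Fintype.ofFinite ι
  have hcard : Fintype.card ι = c := by
    have h1 : Nat.card (Additive B) = Nat.card (ZMod p) ^ Module.finrank (ZMod p) (Additive B) :=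
      Module.natCard_eq_pow_finrank
    rw [Nat.card_zmod, Module.finrank_eq_card_basis bs] at h1
    have h2 : Nat.card (Additive B) = Nat.card B := rfl
    rw [h2, hc] at h1
    exact (Nat.pow_right_injective hp.two_le h1).symm
  refine ⟨(Finset.univ : Finset ι).toList.flatMap fun i =>
    List.replicate (bs.repr (Additive.ofMul b) i).val (Additive.toMul (bs i)), ?_, ?_, ?_⟩
  · rw [List.length_flatMap]
    simp only [List.length_replicate]
    rw [Finset.sum_map_toList, ← hcard]
    calc ∑ i : ι, (bs.repr (Additive.ofMul b) i).val ≤ ∑ i : ι, p :=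
          Finset.sum_le_sum fun i _ => (ZMod.val_lt _).le
      _ = Fintype.card ι * p := by rw [Finset.sum_const, Finset.card_univ, smul_eq_mul]
  · intro y hy
    obtain ⟨i, _, hi⟩ := List.mem_flatMap.mp hy
    rw [List.eq_of_mem_replicate hi]
    exact hbs i
  · have h1 : ∀ L : List ι, (L.flatMap fun i =>
        List.replicate (bs.repr (Additive.ofMul b) i).val (Additive.toMul (bs i))).prod =
        Additive.toMul ((L.map fun i => bs.repr (Additive.ofMul b) i • bs i).sum) := by
      intro L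
      induction L with
      | nil => rfl
      | cons a L ih =>
        rw [List.flatMap_cons, List.prod_append, ih, List.map_cons, List.sum_cons, List.prod_replicate]
        have h2 : bs.repr (Additive.ofMul b) a • bs a = (bs.repr (Additive.ofMul b) a).val • bs a := by
          conv_lhs => rw [← ZMod.natCast_zmod_val (bs.repr (Additive.ofMul b) a)]
          rw [Nat.cast_smul_eq_nsmul]
        rw [h2]
        rfl
    rw [h1, Finset.sum_map_toList, bs.sum_repr]
    rfl

/-- PROOF. `P/Q` is a vector space over the field with `p` elements (dimension `c`), spanned by the image of `X`; choose a basis in the image of `X`. Every `x ∈ P` is modulo `Q` a product of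
powers `y_j ^ e_j`, `e_j < p`, of the `c` elements `y_j` of this basis. (Or directly: choose `y_1, y_2, ...` in `X` with `y_(j+1)` not in `closure {y_1, ..., y_j} ⊔ Q`, each of them
multiplies the index by `p`, so there are at most `c`.) -/
theorem short_of_elementary (p : ℕ) (hp : p.Prime) (P Q : Subgroup H) (hQ : Q.Normal)
    (hQP : Q ≤ P) (hab : ∀ x ∈ P, ∀ y ∈ P, x * y * x⁻¹ * y⁻¹ ∈ Q) (hpow : ∀ x ∈ P, x ^ p ∈ Q)
    (c : ℕ) (hc : Q.relIndex P = p ^ c) (X : Set H) (hX : X ⊆ P)
    (hgen : P ≤ Subgroup.closure X ⊔ Q) (x : H) (hx : x ∈ P) :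
    ∃ l : List H, l.length ≤ c * p ∧ (∀ y ∈ l, y ∈ X) ∧ l.prod * x⁻¹ ∈ Q := by
  have hn : (Q.subgroupOf P).Normal := inferInstance
  let G : CommGroup (↥P ⧸ Q.subgroupOf P) :=
    { (inferInstance : Group (↥P ⧸ Q.subgroupOf P)) with
      mul_comm := fun a b => by
        induction a using QuotientGroup.induction_on with | H a => ?_
        induction b using QuotientGroup.induction_on with | H b => ?_
        have h1 : (QuotientGroup.mk' (Q.subgroupOf P)) (a * b * a⁻¹ * b⁻¹) = 1 := by
          rw [← MonoidHom.mem_ker, QuotientGroup.ker_mk', Subgroup.mem_subgroupOf]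
          exact hab a a.2 b b.2
        simp only [map_mul, map_inv] at h1
        exact mul_inv_eq_iff_eq_mul.mp (mul_inv_eq_one.mp h1) }
  have hcard : Nat.card (↥P ⧸ Q.subgroupOf P) = p ^ c := hc
  have hfin : Finite (↥P ⧸ Q.subgroupOf P) := by
    apply Nat.finite_of_card_ne_zero
    rw [hcard]
    exact pow_ne_zero _ hp.ne_zero
  obtain ⟨π, hπ⟩ : ∃ π : ↥P →* ↥P ⧸ Q.subgroupOf P, π = QuotientGroup.mk' (Q.subgroupOf P) := ⟨_, rfl⟩
  have hker : ∀ y : ↥P, π y = 1 ↔ (y : H) ∈ Q := by
    intro y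
    rw [hπ, ← MonoidHom.mem_ker, QuotientGroup.ker_mk', Subgroup.mem_subgroupOf]
  have hsurj : Function.Surjective π := by rw [hπ]; exact QuotientGroup.mk'_surjective _
  obtain ⟨S, hS⟩ : ∃ S : Set (↥P ⧸ Q.subgroupOf P), S = {b | ∃ y : ↥P, (y : H) ∈ X ∧ π y = b} := ⟨_, rfl⟩
  have hcl : Subgroup.closure S = ⊤ := by
    rw [eq_top_iff]
    intro b _
    obtain ⟨y, rfl⟩ := hsurj b
    have hy : (y : H) ∈ Subgroup.closure (X ∪ (Q : Set H)) := by
      rw [Subgroup.closure_union, Subgroup.closure_eq]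
      exact hgen y.2
    have key : ∀ z ∈ Subgroup.closure (X ∪ (Q : Set H)), ∃ h : z ∈ P, π ⟨z, h⟩ ∈ Subgroup.closure S := by
      intro z hz
      induction hz using Subgroup.closure_induction with
      | mem z hz =>
        rcases hz with hz | hz
        · exact ⟨hX hz, Subgroup.subset_closure (by rw [hS]; exact ⟨⟨z, hX hz⟩, hz, rfl⟩)⟩
        · refine ⟨hQP hz, ?_⟩
          rw [(hker ⟨z, hQP hz⟩).mpr hz]
          exact Subgroup.one_mem _
      | one => exact ⟨P.one_mem, by
          have e : (⟨1, P.one_mem⟩ : ↥P) = 1 := rfl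
          rw [e, map_one]; exact Subgroup.one_mem _⟩
      | mul a b _ _ ha hb =>
        obtain ⟨ha1, ha2⟩ := ha
        obtain ⟨hb1, hb2⟩ := hb
        refine ⟨P.mul_mem ha1 hb1, ?_⟩
        have e : (⟨a * b, P.mul_mem ha1 hb1⟩ : ↥P) = ⟨a, ha1⟩ * ⟨b, hb1⟩ := rfl
        rw [e, map_mul]
        exact Subgroup.mul_mem _ ha2 hb2
      | inv a _ ha =>
        obtain ⟨ha1, ha2⟩ := ha
        refine ⟨P.inv_mem ha1, ?_⟩
        have e : (⟨a⁻¹, P.inv_mem ha1⟩ : ↥P) = ⟨a, ha1⟩⁻¹ := rfl
        rw [e, map_inv]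
        exact Subgroup.inv_mem _ ha2
    obtain ⟨h, h2⟩ := key _ hy
    exact h2
  have hpw : ∀ b : ↥P ⧸ Q.subgroupOf P, b ^ p = 1 := by
    intro b
    obtain ⟨y, rfl⟩ := hsurj b
    rw [← map_pow, hker]
    exact hpow y y.2
  obtain ⟨l, hl1, hl2, hl3⟩ := p4_elem p hp hpw c hcard S hcl (π ⟨x, hx⟩)
  -- lift the list
  have hlift : ∀ l : List (↥P ⧸ Q.subgroupOf P), (∀ b ∈ l, b ∈ S) → ∃ l' : List ↥P,
      l'.length = l.length ∧ (∀ y ∈ l', (y : H) ∈ X) ∧ π l'.prod = l.prod := by
    intro l
    induction l with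
    | nil => intro _; exact ⟨[], rfl, by simp, by simp⟩
    | cons a l ih =>
      intro h
      obtain ⟨l', h1, h2, h3⟩ := ih fun b hb => h b (List.mem_cons_of_mem a hb)
      have ha := h a List.mem_cons_self
      rw [hS] at ha
      obtain ⟨y, hy, hya⟩ := ha
      refine ⟨y :: l', by rw [List.length_cons, List.length_cons, h1], ?_, ?_⟩
      · intro z hz
        rcases List.mem_cons.mp hz with rfl | hz
        · exact hy
        · exact h2 z hz
      · rw [List.prod_cons, List.prod_cons, map_mul, h3, hya]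
  obtain ⟨l', h1, h2, h3⟩ := hlift l hl2
  refine ⟨l'.map Subtype.val, ?_, ?_, ?_⟩
  · rw [List.length_map, h1]; exact hl1
  · intro y hy
    obtain ⟨z, hz, rfl⟩ := List.mem_map.mp hy
    exact h2 z hz
  · have h4 : π (l'.prod * (⟨x, hx⟩ : ↥P)⁻¹) = 1 := by
      rw [map_mul, map_inv, h3, hl3, mul_inv_cancel]
    rw [hker] at h4
    have h5 : ((l'.prod * (⟨x, hx⟩ : ↥P)⁻¹ : ↥P) : H) = (l'.map Subtype.val).prod * x⁻¹ := by
      rw [Subgroup.coe_mul, Subgroup.coe_inv]
      congr 1
      exact map_list_prod P.subtype l'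
    rw [← h5]
    exact h4

end ALG
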