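import Pool.Agent.ALG.P4

/-!
# [ALG-P4b] short representatives of the factors of the lower `p`-central series
-/

set_option autoImplicit false

namespace ALG

open AG

variable {H : Type*} [Group H]

theorem p4b_pow {Q : Type*} [Group Q] (x y c : Q) (hc : y * x = c * (x * y)) (hcen : ∀ k, c * k = k * c) (n : ℕ) :
    y ^ n * x = c ^ n * (x * y ^ n) := by
  induction n with
  | zero => simp
  | succ n ih =>
    have hcn : ∀ k, c ^ n * k = k * c ^ n := fun k => (show Commute c k from hcen k).pow_left n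
    rw [pow_succ', mul_assoc, ih, ← mul_assoc y, ← hcn y, mul_assoc, ← mul_assoc y, hc, pow_succ c]
    simp only [mul_assoc]

theorem p4b_pow_mul {Q : Type*} [Group Q] (x y c : Q) (hc : y * x = c * (x * y)) (hcen : ∀ k, c * k = k * c) (n : ℕ) :
    ∃ k : ℕ, (x * y) ^ n = x ^ n * y ^ n * c ^ k := by
  induction n with
  | zero => exact ⟨0, by simp⟩
  | succ n ih =>
    obtain ⟨k, hk⟩ := ih
    refine ⟨n + k, ?_⟩
    have hck : ∀ j a, c ^ j * a = a * c ^ j := fun j a => (show Commute c a from hcen a).pow_left j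
    calc (x * y) ^ (n + 1) = x ^ n * y ^ n * c ^ k * (x * y) := by rw [pow_succ, hk]
      _ = x ^ n * (y ^ n * x) * y * c ^ k := by
        rw [mul_assoc (x ^ n * y ^ n), hck k (x * y)]
        simp only [mul_assoc]
      _ = x ^ n * (c ^ n * (x * y ^ n)) * y * c ^ k := by rw [p4b_pow x y c hc hcen n]
      _ = x ^ (n + 1) * y ^ (n + 1) * c ^ (n + k) := by
        rw [hck n (x * y ^ n), pow_succ x, pow_succ y, pow_add c]
        simp only [mul_assoc]
        rw [← mul_assoc (c ^ n) y, hck n y]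
        simp only [mul_assoc]

theorem p4b_abs {Q : Type*} [Group Q] (p : ℕ) (X T Z : Set Q) (M : Subgroup Q)
    (hT : Subgroup.closure T = ⊤) (hZc : ∀ z ∈ Z, ∀ h, z * h = h * z) (hZp : ∀ z ∈ Z, z ^ p = 1)
    (hcen : ∀ x ∈ Subgroup.closure (X ∪ Z), ∀ h k,
      (x * h * x⁻¹ * h⁻¹) * k = k * (x * h * x⁻¹ * h⁻¹))
    (hM1 : ∀ x ∈ X, x ^ p ∈ M) (hM2 : ∀ x ∈ X, ∀ t ∈ T, x * t * x⁻¹ * t⁻¹ ∈ M) :
    ∀ x ∈ Subgroup.closure (X ∪ Z), x ^ p ∈ M ∧ ∀ h, x * h * x⁻¹ * h⁻¹ ∈ M := by
  have h1 : ∀ x ∈ X, ∀ h, x * h * x⁻¹ * h⁻¹ ∈ M := by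
    intro x hx h
    have hh : h ∈ Subgroup.closure T := by rw [hT]; exact Subgroup.mem_top h
    have hxc : x ∈ Subgroup.closure (X ∪ Z) := Subgroup.subset_closure (Or.inl hx)
    have hmul : ∀ a b : Q, x * (a * b) * x⁻¹ * (a * b)⁻¹ = (x * a * x⁻¹ * a⁻¹) * (x * b * x⁻¹ * b⁻¹) := by
      intro a b
      have e : x * (a * b) * x⁻¹ * (a * b)⁻¹ = (x * a * x⁻¹ * a⁻¹) * (a * (x * b * x⁻¹ * b⁻¹) * a⁻¹) := by group
      rw [e, ← hcen x hxc b a]
      group
    induction hh using Subgroup.closure_induction with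
    | mem t ht => exact hM2 x hx t ht
    | one => simp
    | mul a b _ _ ha hb => rw [hmul a b]; exact M.mul_mem ha hb
    | inv a _ ha =>
      have e := hmul a a⁻¹
      rw [mul_inv_cancel] at e
      have e2 : x * a⁻¹ * x⁻¹ * a⁻¹⁻¹ = (x * a * x⁻¹ * a⁻¹)⁻¹ := by
        rw [eq_inv_iff_mul_eq_one, ← hcen x hxc a, ← e]
        group
      rw [e2]
      exact M.inv_mem ha
  have h2 : ∀ x ∈ Subgroup.closure (X ∪ Z), ∀ h, x * h * x⁻¹ * h⁻¹ ∈ M := by
    intro x hx
    have hmul : ∀ a ∈ Subgroup.closure (X ∪ Z), ∀ b ∈ Subgroup.closure (X ∪ Z), ∀ h : Q,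
        (a * b) * h * (a * b)⁻¹ * h⁻¹ = (b * h * b⁻¹ * h⁻¹) * (a * h * a⁻¹ * h⁻¹) := by
      intro a _ b hb h
      have e : (a * b) * h * (a * b)⁻¹ * h⁻¹ = a * (b * h * b⁻¹ * h⁻¹) * a⁻¹ * (a * h * a⁻¹ * h⁻¹) := by group
      rw [e, ← hcen b hb h a]
      group
    induction hx using Subgroup.closure_induction with
    | mem x hx =>
      rcases hx with hx | hx
      · exact h1 x hx
      · intro h
        rw [hZc x hx h]
        have : h * x * x⁻¹ * h⁻¹ = 1 := by group
        rw [this]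
        exact M.one_mem
    | one => intro h; simp
    | mul a b ha hb iha ihb => intro h; rw [hmul a ha b hb h]; exact M.mul_mem (ihb h) (iha h)
    | inv a ha iha =>
      intro h
      have e := hmul a ha a⁻¹ ((Subgroup.closure (X ∪ Z)).inv_mem ha) h
      rw [mul_inv_cancel] at e
      have e2 : a⁻¹ * h * a⁻¹⁻¹ * h⁻¹ = (a * h * a⁻¹ * h⁻¹)⁻¹ := by
        rw [eq_inv_iff_mul_eq_one, ← e]
        group
      rw [e2]
      exact M.inv_mem (iha h)
  intro x hx
  refine ⟨?_, h2 x hx⟩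
  induction hx using Subgroup.closure_induction with
  | mem x hx =>
    rcases hx with hx | hx
    · exact hM1 x hx
    · rw [hZp x hx]; exact M.one_mem
  | one => rw [one_pow]; exact M.one_mem
  | mul a b ha hb iha ihb =>
    obtain ⟨k, hk⟩ := p4b_pow_mul a b (b * a * b⁻¹ * a⁻¹) (by group) (hcen b hb a) p
    rw [hk]
    exact M.mul_mem (M.mul_mem iha ihb) (M.pow_mem (h2 b hb a) k)
  | inv a ha iha => rw [inv_pow]; exact M.inv_mem iha

/-- PROOF. `A = p + 4`, `X 0 = T`, `X (i+1) = {x^p, x t x⁻¹ t⁻¹ | x ∈ X i, t ∈ T}` (lengths at most `p A^(i+1)` and `2 A^(i+1) + 2 ≤ A^(i+2)`). Induction on `i`. Let `N = PS (i+2)`.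
`PS i = closure (X i) PS (i+1)` (induction); modulo `N` the commutator `[x, h]` (`x ∈ PS i`, `h : H`) is central and multiplicative in both variables, and trivial for
`x ∈ PS (i+1)`, so it is in the subgroup generated by the `[x, t]`, `x ∈ X i`, `t ∈ T` (`h` is a word in `T`). For `x, y ∈ PS i`: `(x y)^p = x^p y^p [y,x]^(p(p-1)/2)` modulo `N`, because
`[y, x]` is central modulo `N`; so by induction on the word in `X i` the `p`-th powers of the elements of `closure (X i)` are modulo `N` in the subgroup generated by the `x^p`, `x ∈ X i`, and the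
commutators above; and `(x z)^p = x^p z^p = x^p` modulo `N` for `z ∈ PS (i+1)`. -/
theorem PS_span (p : ℕ) (T : Finset H) (hT : Subgroup.closure (T : Set H) = ⊤) :
    ∃ A : ℕ, ∀ i : ℕ, ∃ X : Set H, X ⊆ PS H p i ∧ (∀ x ∈ X, x ∈ ball T (A ^ (i + 1))) ∧
      PS H p i ≤ Subgroup.closure X ⊔ PS H p (i + 1) := by
  refine ⟨p + 4, fun i => ?_⟩
  induction i with
  | zero =>
    refine ⟨(T : Set H), fun x _ => Subgroup.mem_top x, fun x hx => ?_, ?_⟩
    · refine ball_mono T ?_ (mem_ball_one hx)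
      rw [zero_add, pow_one]
      omega
    · rw [hT]
      exact le_sup_of_le_left le_top
  | succ i ih =>
    obtain ⟨X, hXP, hXb, hXg⟩ := ih
    have hA : 1 ≤ (p + 4) ^ (i + 1) := Nat.one_le_pow _ _ (by omega)
    refine ⟨{y | ∃ x ∈ X, y = x ^ p} ∪ {y | ∃ x ∈ X, ∃ t ∈ T, y = x * t * x⁻¹ * t⁻¹}, ?_, ?_, ?_⟩
    · rintro y (⟨x, hx, rfl⟩ | ⟨x, hx, t, _, rfl⟩)
      · exact PS_pow_mem p (hXP hx)
      · exact PS_comm_mem p (hXP hx) t
    · rintro y (⟨x, hx, rfl⟩ | ⟨x, hx, t, ht, rfl⟩)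
      · refine ball_mono T ?_ (pow_mem_ball (hXb x hx) p)
        rw [pow_succ (p + 4) (i + 1)]
        nlinarith
      · have h1 := mul_mem_ball (mul_mem_ball (mul_mem_ball (hXb x hx) (mem_ball_one ht))
          (inv_mem_ball (hXb x hx))) (inv_mem_ball (mem_ball_one ht))
        refine ball_mono T ?_ h1
        rw [pow_succ (p + 4) (i + 1)]
        nlinarith
    · have hN := PS_normal (H := H) p (i + 2)
      obtain ⟨π, hπ⟩ : ∃ π : H →* H ⧸ PS H p (i + 2), π = QuotientGroup.mk' (PS H p (i + 2)) := ⟨_, rfl⟩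
      have hker : ∀ x, π x = 1 ↔ x ∈ PS H p (i + 2) := by
        intro x
        rw [hπ, ← MonoidHom.mem_ker, QuotientGroup.ker_mk']
      have hsurj : Function.Surjective π := by rw [hπ]; exact QuotientGroup.mk'_surjective _
      obtain ⟨Y, hY⟩ : ∃ Y, Y = {y | ∃ x ∈ X, y = x ^ p} ∪ {y | ∃ x ∈ X, ∃ t ∈ T, y = x * t * x⁻¹ * t⁻¹} := ⟨_, rfl⟩
      rw [← hY]
      -- the closure
      have hcl : Subgroup.closure (π '' X ∪ π '' (PS H p (i + 1) : Set H)) =
          (Subgroup.closure (X ∪ (PS H p (i + 1) : Set H))).map π := by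
        rw [← Set.image_union, MonoidHom.map_closure]
      have hle : Subgroup.closure (X ∪ (PS H p (i + 1) : Set H)) ≤ PS H p i := by
        rw [Subgroup.closure_le]
        rintro x (hx | hx)
        · exact hXP hx
        · exact PS_anti p i hx
      have hge : PS H p i ≤ Subgroup.closure (X ∪ (PS H p (i + 1) : Set H)) := by
        rw [Subgroup.closure_union, Subgroup.closure_eq]
        exact hXg
      have hpre : ∀ x, π x ∈ (Subgroup.closure Y).map π → x ∈ Subgroup.closure Y ⊔ PS H p (i + 2) := by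
        rintro x ⟨y, hy, hyx⟩
        have h1 : y⁻¹ * x ∈ PS H p (i + 2) := by
          rw [← hker, map_mul, map_inv, hyx, inv_mul_cancel]
        have h2 : x = y * (y⁻¹ * x) := by group
        rw [h2]
        exact Subgroup.mul_mem_sup hy h1
      have key := p4b_abs p (π '' X) (π '' (T : Set H)) (π '' (PS H p (i + 1) : Set H)) ((Subgroup.closure Y).map π)
        (by rw [← MonoidHom.map_closure, hT, Subgroup.map_top_of_surjective π hsurj])
        (by
          rintro _ ⟨z, hz, rfl⟩ h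
          obtain ⟨h, rfl⟩ := hsurj h
          have h1 : π (z * h * z⁻¹ * h⁻¹) = 1 := (hker _).mpr (PS_comm_mem p hz h)
          rw [map_mul, map_mul, map_mul, map_inv, map_inv] at h1
          have h2 := mul_inv_eq_one.mp h1
          exact mul_inv_eq_iff_eq_mul.mp h2)
        (by
          rintro _ ⟨z, hz, rfl⟩
          rw [← map_pow]
          exact (hker _).mpr (PS_pow_mem p hz))
        (by
          intro x hx h k
          rw [hcl] at hx
          obtain ⟨x, hx, rfl⟩ := hx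
          obtain ⟨h, rfl⟩ := hsurj h
          obtain ⟨k, rfl⟩ := hsurj k
          have h0 : x * h * x⁻¹ * h⁻¹ ∈ PS H p (i + 1) := PS_comm_mem p (hle hx) h
          have h1 : π ((x * h * x⁻¹ * h⁻¹) * k * (x * h * x⁻¹ * h⁻¹)⁻¹ * k⁻¹) = 1 :=
            (hker _).mpr (PS_comm_mem p h0 k)
          rw [map_mul, map_mul, map_mul, map_inv π k, map_inv π (x * h * x⁻¹ * h⁻¹)] at h1
          have h2 := mul_inv_eq_iff_eq_mul.mp (mul_inv_eq_one.mp h1)
          simp only [map_mul, map_inv] at h2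
          exact h2)
        (by
          rintro _ ⟨x, hx, rfl⟩
          rw [← map_pow]
          refine Subgroup.mem_map_of_mem π (Subgroup.subset_closure ?_)
          rw [hY]
          exact Or.inl ⟨x, hx, rfl⟩)
        (by
          rintro _ ⟨x, hx, rfl⟩ _ ⟨t, ht, rfl⟩
          have e : π x * π t * (π x)⁻¹ * (π t)⁻¹ = π (x * t * x⁻¹ * t⁻¹) := by simp only [map_mul, map_inv]
          rw [e]
          refine Subgroup.mem_map_of_mem π (Subgroup.subset_closure ?_)
          rw [hY]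
          exact Or.inr ⟨x, hx, t, ht, rfl⟩)
      show Subgroup.closure ({y | ∃ x ∈ PS H p i, y = x ^ p} ∪
        {y | ∃ x ∈ PS H p i, ∃ h : H, y = x * h * x⁻¹ * h⁻¹}) ≤ _
      rw [Subgroup.closure_le]
      rintro y (⟨x, hx, rfl⟩ | ⟨x, hx, h, rfl⟩)
      · have h1 : π x ∈ Subgroup.closure (π '' X ∪ π '' (PS H p (i + 1) : Set H)) := by
          rw [hcl]; exact Subgroup.mem_map_of_mem π (hge hx)
        refine hpre _ ?_
        rw [map_pow]
        exact (key _ h1).1
      · have h1 : π x ∈ Subgroup.closure (π '' X ∪ π '' (PS H p (i + 1) : Set H)) := by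
          rw [hcl]; exact Subgroup.mem_map_of_mem π (hge hx)
        refine hpre _ ?_
        have h2 := (key _ h1).2 (π h)
        simp only [map_mul, map_inv]
        exact h2

/-- PROOF. `PS_span` and `short_of_elementary` with `P = PS i`, `Q = PS (i+1)`: a product of at most `c p` elements of length at most `A^(i+1)`; `c p A^(i+1) ≤ ((p+1) A)^(i+1) (c+1)`. -/
theorem PS_short (p : ℕ) (hp : p.Prime) (T : Finset H)
    (hT : Subgroup.closure (T : Set H) = ⊤) : ∃ A : ℕ, ∀ i c : ℕ,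
      (PS H p (i + 1)).relIndex (PS H p i) = p ^ c → ∀ x ∈ PS H p i,
        ∃ y ∈ ball T (A ^ (i + 1) * (c + 1)), y ∈ PS H p i ∧ y * x⁻¹ ∈ PS H p (i + 1) := by
  obtain ⟨A, hA⟩ := PS_span p T hT
  refine ⟨(p + 1) * A, fun i c hc x hx => ?_⟩
  obtain ⟨X, hXP, hXb, hXg⟩ := hA i
  obtain ⟨l, hl, hlX, hlx⟩ := short_of_elementary p hp (PS H p i) (PS H p (i + 1)) (PS_normal p (i + 1))
    (PS_anti p i) (fun x hx y _ => PS_comm_mem p hx y) (fun x hx => PS_pow_mem p hx) c hc X hXP hXg x hx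
  have hb : ∀ l : List H, (∀ y ∈ l, y ∈ X) → l.prod ∈ ball T (l.length * A ^ (i + 1)) := by
    intro l
    induction l with
    | nil => intro _; exact one_mem_ball T _
    | cons a l ih =>
      intro h
      rw [List.prod_cons, List.length_cons]
      have h1 := mul_mem_ball (hXb a (h a List.mem_cons_self)) (ih fun y hy => h y (List.mem_cons_of_mem a hy))
      refine ball_mono T ?_ h1
      rw [add_mul, one_mul, add_comm]
  refine ⟨l.prod, ?_, ?_, hlx⟩
  · refine ball_mono T ?_ (hb l hlX)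
    calc l.length * A ^ (i + 1) ≤ (c * p) * A ^ (i + 1) := Nat.mul_le_mul_right _ hl
      _ ≤ ((c + 1) * (p + 1) ^ (i + 1)) * A ^ (i + 1) := by
        refine Nat.mul_le_mul_right _ (Nat.mul_le_mul (Nat.le_succ c) ?_)
        calc p ≤ p + 1 := Nat.le_succ p
          _ = (p + 1) ^ 1 := (pow_one _).symm
          _ ≤ (p + 1) ^ (i + 1) := Nat.pow_le_pow_right (Nat.succ_pos p) (by omega)
      _ = ((p + 1) * A) ^ (i + 1) * (c + 1) := by rw [mul_pow]; ring
  · exact Subgroup.list_prod_mem _ fun y hy => hXP (hlX y hy)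

end ALG
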