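import Pool.Agent.ALG.A2
import Pool.Agent.ALG.P2
import Pool.Agent.ALG.P3
import Pool.Agent.ALG.P4b

/-!
# [ALG-P5] polynomial automorphic growth bounds the ranks of the lower `p`-central series
-/

set_option autoImplicit false

namespace ALG

open AG

variable {H : Type*} [Group H]

theorem p5_exp (D : ℕ) : ∃ E : ℕ, ∀ c : ℕ, (c + 2) ^ D ≤ E * 2 ^ c := by
  have h1 := tendsto_pow_const_mul_const_pow_of_abs_lt_one D (r := (1 / 2 : ℝ)) (by rw [abs_of_pos] <;> norm_num)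
  obtain ⟨M, hM⟩ := h1.bddAbove_range
  refine ⟨⌈4 * M⌉₊, fun c => ?_⟩
  have h2 : ((c + 2 : ℕ) : ℝ) ^ D * (1 / 2 : ℝ) ^ (c + 2) ≤ M := hM ⟨c + 2, rfl⟩
  have h3 : (((c + 2) ^ D : ℕ) : ℝ) ≤ ((⌈4 * M⌉₊ * 2 ^ c : ℕ) : ℝ) := by
    push_cast at h2 ⊢
    have h4 : ((c : ℝ) + 2) ^ D ≤ M * 2 ^ (c + 2) := by
      rw [one_div, inv_pow] at h2
      exact (mul_inv_le_iff₀ (by positivity)).mp h2
    calc ((c : ℝ) + 2) ^ D ≤ M * 2 ^ (c + 2) := h4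
      _ = (4 * M) * 2 ^ c := by rw [pow_add]; ring
      _ ≤ (⌈4 * M⌉₊ : ℝ) * 2 ^ c := mul_le_mul_of_nonneg_right (Nat.le_ceil _) (by positivity)
  exact_mod_cast h3

/-- PROOF. Pure arithmetic: `(c+1)^d ≤ E 2^(c/2)`, so `2^(c/2) ≤ m E (2 A)^(d (i+1))`. -/
theorem p5_arith (m A d : ℕ) : ∃ K : ℕ, ∀ i c : ℕ,
    2 ^ c ≤ m * (A ^ (i + 1) * (c + 1) + 1) ^ d → c ≤ K * (i + 1) := by
  obtain ⟨E, hE⟩ := p5_exp (2 * d)
  refine ⟨m ^ 2 * (A + 1) ^ (2 * d) * E, fun i c h => ?_⟩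
  obtain ⟨B, hB⟩ : ∃ B, B = (A + 1) ^ (i + 1) := ⟨_, rfl⟩
  have h1 : A ^ (i + 1) * (c + 1) + 1 ≤ B * (c + 2) := by
    have h2 : A ^ (i + 1) ≤ B := by rw [hB]; exact Nat.pow_le_pow_left (Nat.le_succ A) _
    have h3 : 1 ≤ B := by rw [hB]; exact Nat.one_le_pow _ _ (Nat.succ_pos A)
    nlinarith
  have h4 : 2 ^ c ≤ m * (B * (c + 2)) ^ d := le_trans h (Nat.mul_le_mul_left _ (Nat.pow_le_pow_left h1 d))
  have h5 : 2 ^ c * 2 ^ c ≤ (m ^ 2 * B ^ (2 * d) * E) * 2 ^ c := by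
    calc 2 ^ c * 2 ^ c ≤ (m * (B * (c + 2)) ^ d) * (m * (B * (c + 2)) ^ d) := Nat.mul_le_mul h4 h4
      _ = m ^ 2 * B ^ (2 * d) * (c + 2) ^ (2 * d) := by
        rw [mul_pow, two_mul d, pow_add, pow_add]; ring
      _ ≤ m ^ 2 * B ^ (2 * d) * (E * 2 ^ c) := Nat.mul_le_mul_left _ (hE c)
      _ = (m ^ 2 * B ^ (2 * d) * E) * 2 ^ c := by ring
  have h6 : 2 ^ c ≤ m ^ 2 * B ^ (2 * d) * E := Nat.le_of_mul_le_mul_right h5 (by positivity)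
  obtain ⟨K, hK⟩ : ∃ K, K = m ^ 2 * (A + 1) ^ (2 * d) * E := ⟨_, rfl⟩
  rw [← hK]
  have h7 : m ^ 2 * B ^ (2 * d) * E ≤ K ^ (i + 1) := by
    have e : B ^ (2 * d) = ((A + 1) ^ (2 * d)) ^ (i + 1) := by
      rw [hB, ← pow_mul, ← pow_mul, mul_comm]
    have h8 : ∀ x : ℕ, x ≤ x ^ (i + 1) := fun x => Nat.le_self_pow (by omega) x
    calc m ^ 2 * B ^ (2 * d) * E ≤ (m ^ 2) ^ (i + 1) * ((A + 1) ^ (2 * d)) ^ (i + 1) * E ^ (i + 1) := by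
          rw [e]
          exact Nat.mul_le_mul (Nat.mul_le_mul_right _ (h8 _)) (h8 _)
      _ = K ^ (i + 1) := by rw [hK, mul_pow, mul_pow]
  have h9 : 2 ^ c ≤ 2 ^ (K * (i + 1)) := by
    calc 2 ^ c ≤ K ^ (i + 1) := le_trans h6 h7
      _ ≤ (2 ^ K) ^ (i + 1) := Nat.pow_le_pow_left (Nat.lt_two_pow_self).le _
      _ = 2 ^ (K * (i + 1)) := by rw [← pow_mul]
  exact (Nat.pow_le_pow_iff_right (by norm_num)).mp h9

/-- PROOF. `𝔸` of `PS_fi`, `A` of `PS_short`. For `i, c` choose for every class of `PS i` modulo `PS (i+1)` (there are `p^c` of them) a representative `g ∈ PS i` of length at most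
`A^(i+1) (c+1)`. If `φ g = g'`, `φ ∈ 𝔸`, then `g' g⁻¹ ∈ PS (i+1)`, so the classes are equal. `le_autGrowth_fi`: `p^c ≤ 𝔸.index * autGrowth T (A^(i+1) (c+1))`, and `2 ≤ p`;
`p5_arith` with `m = 𝔸.index * C`. -/
theorem PS_growth (p : ℕ) (hp : p.Prime) (T : Finset H)
    (hT : Subgroup.closure (T : Set H) = ⊤) (h : PolyBdd (autGrowth T)) : ∃ K : ℕ, ∀ i c : ℕ,
      (PS H p (i + 1)).relIndex (PS H p i) = p ^ c → c ≤ K * (i + 1) := by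
  have hfg : Group.FG H := ⟨⟨T, hT⟩⟩
  obtain ⟨𝔸, hfi, hA⟩ := PS_fi (H := H) p (PS_finiteIndex p hp 1)
  obtain ⟨A, hsh⟩ := PS_short p hp T hT
  obtain ⟨C, d, hC⟩ := h
  obtain ⟨K, hK⟩ := p5_arith (𝔸.index * C) A d
  refine ⟨K, fun i c hc => hK i c ?_⟩
  have hrep : ∀ q : ↥(PS H p i) ⧸ (PS H p (i + 1)).subgroupOf (PS H p i),
      ∃ y ∈ ball T (A ^ (i + 1) * (c + 1)), y ∈ PS H p i ∧ y * ((q.out : ↥(PS H p i)) : H)⁻¹ ∈ PS H p (i + 1) :=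
    fun q => hsh i c hc _ q.out.2
  choose g hg1 hg2 hg3 using hrep
  have key := le_autGrowth_fi T 𝔸 (A ^ (i + 1) * (c + 1)) g hg1 (by
    intro q q' hq
    obtain ⟨φ, hφ, he⟩ := hq
    have hN := PS_normal (H := H) p (i + 1)
    have h1 := hA φ hφ i (g q) (hg2 q)
    rw [he] at h1
    have h2 := hg3 q
    have h3 := hg3 q'
    have h4 : ((q'.out : ↥(PS H p i)) : H) * ((q.out : ↥(PS H p i)) : H)⁻¹ ∈ PS H p (i + 1) := by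
      have e : ((q'.out : ↥(PS H p i)) : H) * ((q.out : ↥(PS H p i)) : H)⁻¹ =
          (g q' * ((q'.out : ↥(PS H p i)) : H)⁻¹)⁻¹ * ((g q' * (g q)⁻¹) * (g q * ((q.out : ↥(PS H p i)) : H)⁻¹)) := by group
      rw [e]
      exact Subgroup.mul_mem _ (Subgroup.inv_mem _ h3) (Subgroup.mul_mem _ h1 h2)
    have h5 := hN.conj_mem _ h4 ((q.out : ↥(PS H p i)) : H)⁻¹
    have e2 : ((q.out : ↥(PS H p i)) : H)⁻¹ * (((q'.out : ↥(PS H p i)) : H) * ((q.out : ↥(PS H p i)) : H)⁻¹) *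
        ((q.out : ↥(PS H p i)) : H)⁻¹⁻¹ = ((q.out : ↥(PS H p i)) : H)⁻¹ * ((q'.out : ↥(PS H p i)) : H) := by group
    rw [e2] at h5
    have h6 : (QuotientGroup.mk q.out : ↥(PS H p i) ⧸ (PS H p (i + 1)).subgroupOf (PS H p i)) = QuotientGroup.mk q'.out := by
      rw [QuotientGroup.eq, Subgroup.mem_subgroupOf]
      exact h5
    rwa [QuotientGroup.out_eq', QuotientGroup.out_eq'] at h6)
  have h1 : Nat.card (↥(PS H p i) ⧸ (PS H p (i + 1)).subgroupOf (PS H p i)) = p ^ c := hc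
  rw [h1] at key
  calc 2 ^ c ≤ p ^ c := Nat.pow_le_pow_left hp.two_le c
    _ ≤ 𝔸.index * autGrowth T (A ^ (i + 1) * (c + 1)) := key
    _ ≤ 𝔸.index * (C * (A ^ (i + 1) * (c + 1) + 1) ^ d) := Nat.mul_le_mul_left _ (hC _)
    _ = 𝔸.index * C * (A ^ (i + 1) * (c + 1) + 1) ^ d := by rw [mul_assoc]

end ALG
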