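import Pool.Agent.ALG.P1

/-!
# [ALG-P6] the lower `p`-central series and the powers of the augmentation ideal
-/

set_option autoImplicit false

namespace ALG

variable {H : Type*} [Group H]

theorem p6_left (p : ℕ) (h : H) {a : MonoidAlgebra (ZMod p) H} (ha : a ∈ aug p H) :
    MonoidAlgebra.of (ZMod p) H h * a ∈ aug p H := by
  unfold aug at ha ⊢
  induction ha using Submodule.span_induction with
  | mem x hx =>
    obtain ⟨y, rfl⟩ := hx
    have e : MonoidAlgebra.of (ZMod p) H h * (MonoidAlgebra.of (ZMod p) H y - 1) =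
        (MonoidAlgebra.of (ZMod p) H (h * y) - 1) - (MonoidAlgebra.of (ZMod p) H h - 1) := by
      rw [map_mul, mul_sub, mul_one]; abel
    show MonoidAlgebra.of (ZMod p) H h * (MonoidAlgebra.of (ZMod p) H y - 1) ∈ _
    rw [e]
    exact Submodule.sub_mem _ (Submodule.subset_span ⟨_, rfl⟩) (Submodule.subset_span ⟨_, rfl⟩)
  | zero => rw [mul_zero]; exact Submodule.zero_mem _
  | add x y _ _ hx hy => rw [mul_add]; exact Submodule.add_mem _ hx hy
  | smul r x _ hx => rw [mul_smul_comm]; exact Submodule.smul_mem _ _ hx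

theorem p6_right (p : ℕ) (h : H) {a : MonoidAlgebra (ZMod p) H} (ha : a ∈ aug p H) :
    a * MonoidAlgebra.of (ZMod p) H h ∈ aug p H := by
  unfold aug at ha ⊢
  induction ha using Submodule.span_induction with
  | mem x hx =>
    obtain ⟨y, rfl⟩ := hx
    have e : (MonoidAlgebra.of (ZMod p) H y - 1) * MonoidAlgebra.of (ZMod p) H h =
        (MonoidAlgebra.of (ZMod p) H (y * h) - 1) - (MonoidAlgebra.of (ZMod p) H h - 1) := by
      rw [map_mul, sub_mul, one_mul]; abel
    show (MonoidAlgebra.of (ZMod p) H y - 1) * MonoidAlgebra.of (ZMod p) H h ∈ _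
    rw [e]
    exact Submodule.sub_mem _ (Submodule.subset_span ⟨_, rfl⟩) (Submodule.subset_span ⟨_, rfl⟩)
  | zero => rw [zero_mul]; exact Submodule.zero_mem _
  | add x y _ _ hx hy => rw [add_mul]; exact Submodule.add_mem _ hx hy
  | smul r x _ hx => rw [smul_mul_assoc]; exact Submodule.smul_mem _ _ hx

theorem p6_sub_one (p : ℕ) (h : H) : MonoidAlgebra.of (ZMod p) H h - 1 ∈ aug p H :=
  Submodule.subset_span ⟨h, rfl⟩

/-- PROOF. `h (x - 1) = (h x - 1) - (h - 1)` is in `aug`, so `h * aug ≤ aug`, and `aug^(n+1) = aug * aug^n`. -/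
theorem of_mul_mem (p : ℕ) (n : ℕ) (h : H) {a : MonoidAlgebra (ZMod p) H}
    (ha : a ∈ (aug p H) ^ (n + 1)) : MonoidAlgebra.of (ZMod p) H h * a ∈ (aug p H) ^ (n + 1) := by
  rw [pow_succ'] at ha ⊢
  induction ha using Submodule.mul_induction_on' with
  | mem_mul_mem x hx y hy =>
    rw [← mul_assoc]
    exact Submodule.mul_mem_mul (p6_left p h hx) hy
  | add x _ y _ hx hy => rw [mul_add]; exact Submodule.add_mem _ hx hy

/-- PROOF. As `of_mul_mem`, on the right. -/
theorem mul_of_mem (p : ℕ) (n : ℕ) (h : H) {a : MonoidAlgebra (ZMod p) H}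
    (ha : a ∈ (aug p H) ^ (n + 1)) : a * MonoidAlgebra.of (ZMod p) H h ∈ (aug p H) ^ (n + 1) := by
  rw [pow_succ] at ha ⊢
  induction ha using Submodule.mul_induction_on' with
  | mem_mul_mem x hx y hy =>
    rw [mul_assoc]
    exact Submodule.mul_mem_mul hx (p6_right p h hy)
  | add x _ y _ hx hy => rw [add_mul]; exact Submodule.add_mem _ hx hy

/-- PROOF. `of_mul_mem`, `aug^(n+2) ≤ aug^(n+1)` because `aug * aug ≤ aug` (`(x-1)(y-1) = (xy - 1) - (x - 1) - (y - 1)`). -/
theorem aug_pow_anti (p : ℕ) {m n : ℕ} (h : m ≤ n) :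
    (aug p H) ^ (n + 1) ≤ (aug p H) ^ (m + 1) := by
  induction n, h using Nat.le_induction with
  | base => exact le_rfl
  | succ n _ ih =>
    refine le_trans ?_ ih
    rw [pow_succ' (aug p H) (n + 1), Submodule.mul_le]
    intro a ha b hb
    unfold aug at ha
    induction ha using Submodule.span_induction with
    | mem x hx =>
      obtain ⟨y, rfl⟩ := hx
      show (MonoidAlgebra.of (ZMod p) H y - 1) * b ∈ _
      rw [sub_mul, one_mul]
      exact Submodule.sub_mem _ (of_mul_mem p n y hb) hb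
    | zero => rw [zero_mul]; exact Submodule.zero_mem _
    | add x y _ _ hx hy => rw [add_mul]; exact Submodule.add_mem _ hx hy
    | smul r x _ hx => rw [smul_mul_assoc]; exact Submodule.smul_mem _ _ hx

/-- PROOF. Induction on `i`. `{g | g - 1 ∈ aug^(i+2)}` is a subgroup (`g k - 1 = g (k - 1) + (g - 1)`, `g⁻¹ - 1 = - g⁻¹ (g - 1)`). Generators of `PS (i+1)`, `x ∈ PS i`:
`x^p - 1 = (x - 1)^p` (characteristic `p`, `x` and `1` commute; `sub_pow_char` or `Commute.add_pow`) is in `aug^((i+1) p) ≤ aug^(i+2)` as `p ≥ 2`;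
`x h x⁻¹ h⁻¹ - 1 = ((x - 1)(h - 1) - (h - 1)(x - 1)) x⁻¹ h⁻¹` is in `aug^(i+2)`. -/
theorem PS_sub_one_mem (p : ℕ) (hp : p.Prime) (i : ℕ) {x : H} (hx : x ∈ PS H p i) :
    MonoidAlgebra.of (ZMod p) H x - 1 ∈ (aug p H) ^ (i + 1) := by
  have := Fact.mk hp
  have hch : CharP (MonoidAlgebra (ZMod p) H) p :=
    charP_of_injective_algebraMap (algebraMap (ZMod p) (MonoidAlgebra (ZMod p) H)).injective p
  induction i generalizing x with
  | zero => rw [zero_add, pow_one]; exact p6_sub_one p x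
  | succ i ih =>
    have hx2 : x ∈ Subgroup.closure
      ({y | ∃ x ∈ PS H p i, y = x ^ p} ∪ {y | ∃ x ∈ PS H p i, ∃ h : H, y = x * h * x⁻¹ * h⁻¹}) := hx
    clear hx
    induction hx2 using Subgroup.closure_induction with
    | mem y hy =>
      rcases hy with ⟨x, hx, rfl⟩ | ⟨x, hx, h, rfl⟩
      · have h1 := Submodule.pow_mem_pow _ (ih hx) p
        rw [sub_pow_char_of_commute (p := p) (Commute.one_right _), one_pow, ← map_pow, ← pow_mul] at h1
        have h2 : ∃ k, (i + 1) * p = k + 1 ∧ i + 1 ≤ k := by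
          have h3 : (i + 1) * 2 ≤ (i + 1) * p := Nat.mul_le_mul_left _ hp.two_le
          exact ⟨(i + 1) * p - 1, by omega, by omega⟩
        obtain ⟨k, hk, hk2⟩ := h2
        rw [hk] at h1
        exact aug_pow_anti p hk2 h1
      · have e : MonoidAlgebra.of (ZMod p) H (x * h * x⁻¹ * h⁻¹) - 1 =
            ((MonoidAlgebra.of (ZMod p) H x - 1) * (MonoidAlgebra.of (ZMod p) H h - 1) -
              (MonoidAlgebra.of (ZMod p) H h - 1) * (MonoidAlgebra.of (ZMod p) H x - 1)) *
              MonoidAlgebra.of (ZMod p) H (x⁻¹ * h⁻¹) := by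
          have e1 : (MonoidAlgebra.of (ZMod p) H x - 1) * (MonoidAlgebra.of (ZMod p) H h - 1) -
              (MonoidAlgebra.of (ZMod p) H h - 1) * (MonoidAlgebra.of (ZMod p) H x - 1) =
              MonoidAlgebra.of (ZMod p) H (x * h) - MonoidAlgebra.of (ZMod p) H (h * x) := by
            rw [map_mul, map_mul]; noncomm_ring
          rw [e1, sub_mul, ← map_mul, ← map_mul]
          have e2 : h * x * (x⁻¹ * h⁻¹) = 1 := by group
          have e3 : x * h * (x⁻¹ * h⁻¹) = x * h * x⁻¹ * h⁻¹ := by group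
          rw [e2, e3, map_one]
        rw [e]
        refine mul_of_mem p (i + 1) _ (Submodule.sub_mem _ ?_ ?_)
        · rw [pow_succ]
          exact Submodule.mul_mem_mul (ih hx) (p6_sub_one p h)
        · rw [pow_succ']
          exact Submodule.mul_mem_mul (p6_sub_one p h) (ih hx)
    | one => rw [map_one, sub_self]; exact Submodule.zero_mem _
    | mul a b _ _ ha hb =>
      have e : MonoidAlgebra.of (ZMod p) H (a * b) - 1 =
          MonoidAlgebra.of (ZMod p) H a * (MonoidAlgebra.of (ZMod p) H b - 1) + (MonoidAlgebra.of (ZMod p) H a - 1) := by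
        rw [map_mul, mul_sub, mul_one]; abel
      rw [e]
      exact Submodule.add_mem _ (of_mul_mem p (i + 1) a hb) ha
    | inv a _ ha =>
      have e : MonoidAlgebra.of (ZMod p) H a⁻¹ - 1 =
          -(MonoidAlgebra.of (ZMod p) H a⁻¹ * (MonoidAlgebra.of (ZMod p) H a - 1)) := by
        rw [mul_sub, mul_one, ← map_mul, inv_mul_cancel, map_one]; abel
      rw [e]
      exact Submodule.neg_mem _ (of_mul_mem p (i + 1) _ ha)

end ALG
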