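import Pool.Agent.ALG.P2

/-!
# [ALG-P7] the dimensions of the quotients of the group algebra
-/

set_option autoImplicit false

namespace ALG

variable {H : Type*} [Group H]

/-- elementary abelian groups -/
theorem p7_elem {B : Type*} [CommGroup B] [Finite B] (p : ℕ) (hp : p.Prime) (hpow : ∀ b : B, b ^ p = 1)
    (c : ℕ) (hc : Nat.card B = p ^ c) :
    ∃ y : Fin c → B, ∀ b : B, ∃ e : Fin c → Fin p, b = (List.ofFn fun j => y j ^ (e j).val).prod := by
  have := Fact.mk hp
  obtain ⟨instM⟩ : Nonempty (Module (ZMod p) (Additive B)) := ⟨AddCommGroup.zmodModule (fun x => by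
    have h := hpow (Additive.toMul x)
    have h2 : Additive.ofMul ((Additive.toMul x) ^ p) = 0 := by rw [h]; rfl
    exact h2)⟩
  have hfinV : Finite (Additive B) := ‹Finite B›
  have hfr : Module.finrank (ZMod p) (Additive B) = c := by
    have h1 : Nat.card (Additive B) = Nat.card (ZMod p) ^ Module.finrank (ZMod p) (Additive B) :=
      Module.natCard_eq_pow_finrank
    rw [Nat.card_zmod] at h1
    have h2 : Nat.card (Additive B) = Nat.card B := rfl
    rw [h2, hc] at h1
    exact (Nat.pow_right_injective hp.two_le h1).symm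
  obtain ⟨bs⟩ : Nonempty (Module.Basis (Fin c) (ZMod p) (Additive B)) :=
    ⟨Module.finBasisOfFinrankEq (ZMod p) (Additive B) hfr⟩
  refine ⟨fun j => Additive.toMul (bs j), fun b => ?_⟩
  refine ⟨fun j => ⟨(bs.repr (Additive.ofMul b) j).val, ZMod.val_lt _⟩, ?_⟩
  rw [List.prod_ofFn]
  have h1 : Additive.ofMul b = ∑ j, (bs.repr (Additive.ofMul b) j).val • bs j := by
    conv_lhs => rw [← bs.sum_repr (Additive.ofMul b)]
    refine Finset.sum_congr rfl fun j _ => ?_
    conv_lhs => rw [← ZMod.natCast_zmod_val (bs.repr (Additive.ofMul b) j)]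
    rw [Nat.cast_smul_eq_nsmul]
  exact h1

/-- PROOF. `P/Q` is a vector space of dimension `c` over the field with `p` elements; lift a basis. -/
theorem exists_basis_elementary (p : ℕ) (hp : p.Prime) (P Q : Subgroup H) (hQ : Q.Normal)
    (hQP : Q ≤ P) (hab : ∀ x ∈ P, ∀ y ∈ P, x * y * x⁻¹ * y⁻¹ ∈ Q) (hpow : ∀ x ∈ P, x ^ p ∈ Q)
    (c : ℕ) (hc : Q.relIndex P = p ^ c) : ∃ y : Fin c → H, (∀ j, y j ∈ P) ∧
      ∀ x ∈ P, ∃ e : Fin c → Fin p, ∃ z ∈ Q,
        x = (List.ofFn fun j => y j ^ (e j).val).prod * z := by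
  have hn : (Q.subgroupOf P).Normal := inferInstance
  let G : CommGroup (↥P ⧸ Q.subgroupOf P) :=
    { (inferInstance : Group (↥P ⧸ Q.subgroupOf P)) with
      mul_comm := fun a b => by
        induction a using QuotientGroup.induction_on with | H a => ?_
        induction b using QuotientGroup.induction_on with | H b => ?_
        have h1 : (QuotientGroup.mk' (Q.subgroupOf P)) (a * b * a⁻¹ * b⁻¹) = 1 := by
          rw [← MonoidHom.mem_ker, QuotientGroup.ker_mk', Subgroup.mem_subgroupOf]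
          exact hab a a.2 b b.2
        simp only [map_mul, map_inv] at h1
        exact mul_inv_eq_iff_eq_mul.mp (mul_inv_eq_one.mp h1) }
  have hcard : Nat.card (↥P ⧸ Q.subgroupOf P) = p ^ c := hc
  have hfin : Finite (↥P ⧸ Q.subgroupOf P) := by
    apply Nat.finite_of_card_ne_zero
    rw [hcard]
    exact pow_ne_zero _ hp.ne_zero
  obtain ⟨π, hπ⟩ : ∃ π : ↥P →* ↥P ⧸ Q.subgroupOf P, π = QuotientGroup.mk' (Q.subgroupOf P) := ⟨_, rfl⟩
  have hker : ∀ y : ↥P, π y = 1 ↔ (y : H) ∈ Q := by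
    intro y
    rw [hπ, ← MonoidHom.mem_ker, QuotientGroup.ker_mk', Subgroup.mem_subgroupOf]
  have hsurj : Function.Surjective π := by rw [hπ]; exact QuotientGroup.mk'_surjective _
  have hpw : ∀ b : ↥P ⧸ Q.subgroupOf P, b ^ p = 1 := by
    intro b
    obtain ⟨y, rfl⟩ := hsurj b
    rw [← map_pow, hker]
    exact hpow y y.2
  obtain ⟨y, hy⟩ := p7_elem p hp hpw c hcard
  choose y' hy' using fun j => hsurj (y j)
  refine ⟨fun j => (y' j : H), fun j => (y' j).2, fun x hx => ?_⟩
  obtain ⟨e, he⟩ := hy (π ⟨x, hx⟩)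
  have h1 : π ((List.ofFn fun j => y' j ^ (e j).val).prod⁻¹ * ⟨x, hx⟩) = 1 := by
    rw [map_mul, map_inv, map_list_prod, List.map_ofFn, he]
    have e1 : (π ∘ fun j => y' j ^ (e j).val) = fun j => y j ^ (e j).val := by
      funext j
      rw [Function.comp_apply, map_pow, hy']
    rw [e1, inv_mul_cancel]
  rw [hker] at h1
  refine ⟨e, _, h1, ?_⟩
  have h2 : (((List.ofFn fun j => y' j ^ (e j).val).prod : ↥P) : H) =
      (List.ofFn fun j => (y' j : H) ^ (e j).val).prod := by
    have h3 := map_list_prod P.subtype (List.ofFn fun j => y' j ^ (e j).val)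
    rw [List.map_ofFn] at h3
    exact h3
  rw [Subgroup.coe_mul, Subgroup.coe_inv, h2, mul_inv_cancel_left]

end ALG
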