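import Pool.Agent.ALG.P6
import Pool.Agent.ALG.P7

/-!
# [ALG-P7b] the dimensions of the quotients of the group algebra
-/

set_option autoImplicit false

namespace ALG

variable {H : Type*} [Group H]

theorem p7b_prod_span {k R : Type*} [CommSemiring k] [Semiring R] [Algebra k R] (m : ℕ) :
    ∀ (ι : Fin m → Type) (f : ∀ j, ι j → R) (x : Fin m → R),
      (∀ j, x j ∈ Submodule.span k (Set.range (f j))) →
      (List.ofFn x).prod ∈ Submodule.span k
        (Set.range fun a : (∀ j, ι j) => (List.ofFn fun j => f j (a j)).prod) := by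
  induction m with
  | zero =>
    intro ι f x _
    exact Submodule.subset_span ⟨fun j => Fin.elim0 j, by simp⟩
  | succ m ih =>
    intro ι f x hx
    rw [List.ofFn_succ, List.prod_cons]
    have h1 := ih (fun j => ι j.succ) (fun j => f j.succ) (fun j => x j.succ) (fun j => hx j.succ)
    have h2 := Submodule.mul_mem_mul (hx 0) h1
    rw [Submodule.span_mul_span] at h2
    refine Submodule.span_mono ?_ h2
    rintro _ ⟨_, ⟨a0, rfl⟩, _, ⟨a', rfl⟩, rfl⟩
    refine ⟨Fin.cons a0 a', ?_⟩
    simp [List.ofFn_succ]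

theorem p7b_prod_mem {k R : Type*} [CommSemiring k] [Semiring R] [Algebra k R] (I : Submodule k R) (m : ℕ) :
    ∀ (w : Fin m → ℕ) (x : Fin m → R), (∀ j, x j ∈ I ^ w j) → (List.ofFn x).prod ∈ I ^ (∑ j, w j) := by
  induction m with
  | zero =>
    intro w x _
    simp only [List.ofFn_zero, List.prod_nil, Finset.univ_eq_empty, Finset.sum_empty, pow_zero]
    exact Submodule.one_le.mp le_rfl
  | succ m ih =>
    intro w x hx
    rw [List.ofFn_succ, List.prod_cons, Fin.sum_univ_succ, pow_add]
    exact Submodule.mul_mem_mul (hx 0) (ih _ _ fun j => hx j.succ)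

theorem p7b_binom {k R : Type*} [CommSemiring k] [Ring R] [Algebra k R] (b : R) (p e : ℕ) (he : e < p) :
    (b + 1) ^ e ∈ Submodule.span k (Set.range fun a : Fin p => b ^ a.val) := by
  rw [(Commute.one_right b).add_pow]
  refine Submodule.sum_mem _ fun i hi => ?_
  rw [one_pow, mul_one, ← nsmul_eq_mul']
  refine Submodule.smul_of_tower_mem _ _ (Submodule.subset_span ?_)
  exact ⟨⟨i, by have := Finset.mem_range.mp hi; omega⟩, rfl⟩

/-- `aug ^ (n+1)` is a left ideal -/
theorem p7b_left (p : ℕ) (n : ℕ) (u : MonoidAlgebra (ZMod p) H) {a : MonoidAlgebra (ZMod p) H}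
    (ha : a ∈ (aug p H) ^ (n + 1)) : u * a ∈ (aug p H) ^ (n + 1) := by
  induction u using MonoidAlgebra.induction_on with
  | of h => exact of_mul_mem p n h ha
  | add x y hx hy => rw [add_mul]; exact Submodule.add_mem _ hx hy
  | smul r x hx => rw [smul_mul_assoc]; exact Submodule.smul_mem _ _ hx

/-- PROOF. Let `1 ≤ n`, `y i : Fin (c i) → H` from `exists_basis_elementary` for `PS i`, `PS (i+1)`, `i < n`. Every `h : H` is `(∏_{i<n} ∏_j (y i j)^(e i j)) z` with `z ∈ PS n`, in the
lexicographic order (induction on `n`), and `z - 1 ∈ aug^(n+1) ≤ aug^n`, so `h = ∏ ∏ (1 + (y i j - 1))^(e i j)` modulo `aug^n` (`of_mul_mem`). Expand the powers by the binomial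
theorem: the group algebra is spanned modulo `aug^n` by the ordered products `∏ ∏ (y i j - 1)^(a i j)`, `a i j < p`. Such a product is in `aug^(∑ (i+1) a i j)` (`PS_sub_one_mem`), so it is `0` modulo `aug^n`
unless `∑ (i+1) a i j < n`. So the quotient is spanned by a family indexed by `Mono p c n` (a finite type), `finrank_range_le_card` or `finrank_le_of_span_eq_top`-like lemma. -/
theorem finrank_le (p : ℕ) (hp : p.Prime) (c : ℕ → ℕ)
    (hc : ∀ i, (PS H p (i + 1)).relIndex (PS H p i) = p ^ c i) (n : ℕ) (hn : 1 ≤ n) :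
    Module.finrank (ZMod p) (MonoidAlgebra (ZMod p) H ⧸ (aug p H) ^ n) ≤
      Nat.card (Mono p c n) := by
  have := Fact.mk hp
  obtain ⟨m, rfl⟩ : ∃ m, n = m + 1 := ⟨n - 1, by omega⟩
  -- the bases
  have hy0 : ∀ i, ∃ y : Fin (c i) → H, (∀ j, y j ∈ PS H p i) ∧
      ∀ x ∈ PS H p i, ∃ e : Fin (c i) → Fin p, ∃ z ∈ PS H p (i + 1),
        x = (List.ofFn fun j => y j ^ (e j).val).prod * z := fun i =>
    exists_basis_elementary p hp (PS H p i) (PS H p (i + 1)) (PS_normal p (i + 1)) (PS_anti p i)
      (fun x hx y _ => PS_comm_mem p hx y) (fun x hx => PS_pow_mem p hx) (c i) (hc i)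
  choose y hy hy' using hy0
  have key : ∀ i, ∀ x : PS H p i, ∃ e : Fin (c i) → Fin p, ∃ z : PS H p (i + 1),
      (x : H) = (List.ofFn fun j => y i j ^ (e j).val).prod * z := by
    intro i x
    obtain ⟨e, z, hz, he⟩ := hy' i x x.2
    exact ⟨e, ⟨z, hz⟩, he⟩
  choose E Z hE using key
  -- the elements `y - 1`
  obtain ⟨b, hb⟩ : ∃ b : ∀ i, Fin (c i) → MonoidAlgebra (ZMod p) H,
      b = fun i j => MonoidAlgebra.of (ZMod p) H (y i j) - 1 := ⟨_, rfl⟩
  have hbI : ∀ i j, b i j ∈ (aug p H) ^ (i + 1) := by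
    intro i j
    rw [hb]
    exact PS_sub_one_mem p hp i (hy i j)
  -- the family
  obtain ⟨v, hv⟩ : ∃ v : ((Σ i : Fin (m + 1), Fin (c i)) → Fin p) → MonoidAlgebra (ZMod p) H,
      v = fun a => (List.ofFn fun i : Fin (m + 1) =>
        (List.ofFn fun j : Fin (c i) => b i j ^ (a ⟨i, j⟩).val).prod).prod := ⟨_, rfl⟩
  have hvw : ∀ a, v a ∈ (aug p H) ^ (∑ x : (Σ i : Fin (m + 1), Fin (c i)), (x.1.val + 1) * (a x).val) := by
    intro a
    rw [hv, Fintype.sum_sigma]
    refine p7b_prod_mem _ _ _ _ fun i => ?_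
    refine p7b_prod_mem _ _ _ _ fun j => ?_
    rw [pow_mul]
    exact Submodule.pow_mem_pow _ (hbI i j) _
  have hall : ∀ h : H, MonoidAlgebra.of (ZMod p) H h ∈
      Submodule.span (ZMod p) (Set.range v) ⊔ (aug p H) ^ (m + 1) := by
    intro h
    obtain ⟨zz, hzz⟩ : ∃ zz : ∀ k, PS H p k, (zz 0 : H) = h ∧ ∀ k, zz (k + 1) = Z k (zz k) :=
      ⟨fun k => Nat.rec (motive := fun k => PS H p k) ⟨h, Subgroup.mem_top h⟩ (fun k z => Z k z) k, rfl, fun k => rfl⟩
    obtain ⟨hz0, hz1⟩ := hzz
    have hprod : ∀ k, h = (List.ofFn fun i : Fin k =>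
        (List.ofFn fun j : Fin (c i) => y i j ^ (E i (zz i) j).val).prod).prod * (zz k : H) := by
      intro k
      induction k with
      | zero => simp [hz0]
      | succ k ih =>
        rw [List.ofFn_succ', List.prod_concat, mul_assoc]
        have h1 := hE k (zz k)
        rw [← hz1 k] at h1
        calc h = _ := ih
          _ = _ := by
            congr 1
    have hof : MonoidAlgebra.of (ZMod p) H h =
        (List.ofFn fun i : Fin (m + 1) => (List.ofFn fun j : Fin (c i) =>
          (b i j + 1) ^ (E i (zz i) j).val).prod).prod * MonoidAlgebra.of (ZMod p) H (zz (m + 1)) := by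
      have h1 := congrArg (MonoidAlgebra.of (ZMod p) H) (hprod (m + 1))
      rw [map_mul, map_list_prod, List.map_ofFn] at h1
      rw [h1]
      congr 3
      funext i
      rw [Function.comp_apply, map_list_prod, List.map_ofFn]
      congr 2
      funext j
      rw [Function.comp_apply, map_pow, hb]
      simp
    obtain ⟨u, hu⟩ : ∃ u, u = (List.ofFn fun i : Fin (m + 1) => (List.ofFn fun j : Fin (c i) =>
          (b i j + 1) ^ (E i (zz i) j).val).prod).prod := ⟨_, rfl⟩
    rw [← hu] at hof
    have hu1 : u ∈ Submodule.span (ZMod p) (Set.range v) := by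
      rw [hu]
      have h2 := p7b_prod_span (k := ZMod p) (m + 1) (fun i : Fin (m + 1) => (Fin (c i) → Fin p))
        (fun i a => (List.ofFn fun j : Fin (c i) => b i j ^ (a j).val).prod)
        (fun i => (List.ofFn fun j : Fin (c i) => (b i j + 1) ^ (E i (zz i) j).val).prod) (by
          intro i
          exact p7b_prod_span (k := ZMod p) (c i) (fun _ => Fin p) (fun j a => b i j ^ a.val)
            (fun j => (b i j + 1) ^ (E i (zz i) j).val) (fun j => p7b_binom _ p _ (E i (zz i) j).2))
      refine Submodule.span_mono ?_ h2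
      rintro _ ⟨a, rfl⟩
      refine ⟨fun x => a x.1 x.2, ?_⟩
      rw [hv]
    have hz : MonoidAlgebra.of (ZMod p) H (zz (m + 1)) - 1 ∈ (aug p H) ^ (m + 1) :=
      aug_pow_anti p (Nat.le_succ m) (PS_sub_one_mem p hp (m + 1) (zz (m + 1)).2)
    have e : MonoidAlgebra.of (ZMod p) H h = u + u * (MonoidAlgebra.of (ZMod p) H (zz (m + 1)) - 1) := by
      rw [hof, mul_sub, mul_one]; abel
    rw [e]
    exact Submodule.add_mem_sup hu1 (p7b_left p m u hz)
  -- cut by the weight
  obtain ⟨v', hv'⟩ : ∃ v' : Mono p c (m + 1) → MonoidAlgebra (ZMod p) H ⧸ (aug p H) ^ (m + 1),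
      v' = fun a => Submodule.Quotient.mk (v a.1) := ⟨_, rfl⟩
  have htop : Submodule.span (ZMod p) (Set.range v') = ⊤ := by
    rw [eq_top_iff]
    have hsp : ∀ x ∈ Submodule.span (ZMod p) (Set.range v),
        (Submodule.Quotient.mk x : MonoidAlgebra (ZMod p) H ⧸ (aug p H) ^ (m + 1)) ∈
          Submodule.span (ZMod p) (Set.range v') := by
      intro x hx
      induction hx using Submodule.span_induction with
      | mem x hx =>
        obtain ⟨a, rfl⟩ := hx
        by_cases hw : ∑ x : (Σ i : Fin (m + 1), Fin (c i)), (x.1.val + 1) * (a x).val < m + 1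
        · exact Submodule.subset_span ⟨⟨a, hw⟩, by rw [hv']⟩
        · have h0 : v a ∈ (aug p H) ^ (m + 1) := by
            have h1 := hvw a
            obtain ⟨W, hW⟩ : ∃ W, W = ∑ x : (Σ i : Fin (m + 1), Fin (c i)), (x.1.val + 1) * (a x).val := ⟨_, rfl⟩
            rw [← hW] at h1 hw
            obtain ⟨W', rfl⟩ : ∃ W', W = W' + 1 := ⟨W - 1, by omega⟩
            exact aug_pow_anti p (by omega) h1
          rw [(Submodule.Quotient.mk_eq_zero _).mpr h0]
          exact Submodule.zero_mem _
      | zero => rw [Submodule.Quotient.mk_zero]; exact Submodule.zero_mem _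
      | add x y _ _ hx hy => rw [Submodule.Quotient.mk_add]; exact Submodule.add_mem _ hx hy
      | smul r x _ hx => rw [Submodule.Quotient.mk_smul]; exact Submodule.smul_mem _ _ hx
    intro q hq
    clear hq
    obtain ⟨x, rfl⟩ := Submodule.Quotient.mk_surjective _ q
    have hx : x ∈ Submodule.span (ZMod p) (Set.range v) ⊔ (aug p H) ^ (m + 1) := by
      induction x using MonoidAlgebra.induction_on with
      | of h => exact hall h
      | add x y hx hy => exact Submodule.add_mem _ hx hy
      | smul r x hx => exact Submodule.smul_mem _ _ hx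
    obtain ⟨s, hs, t, ht, rfl⟩ := Submodule.mem_sup.mp hx
    rw [Submodule.Quotient.mk_add, (Submodule.Quotient.mk_eq_zero _).mpr ht, add_zero]
    exact hsp s hs
  have hfin : Finite (Mono p c (m + 1)) := by
    unfold Mono
    infer_instance
  have := Fintype.ofFinite (Mono p c (m + 1))
  rw [Nat.card_eq_fintype_card]
  exact finrank_le_of_span_eq_top htop

end ALG
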