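import Pool.Agent.ALG.Defs

/-!
# [ALG-P8] counting exponent vectors
-/

set_option autoImplicit false

namespace ALG

theorem p8_geom (p : ℕ) (y : ℝ) (hy : 0 ≤ y) (hy1 : y < 1) : ∑ e : Fin p, y ^ e.val ≤ (1 - y)⁻¹ := by
  rw [Fin.sum_univ_eq_sum_range (fun e => y ^ e) p]
  have h1 : (∑ e ∈ Finset.range p, y ^ e) * (1 - y) = 1 - y ^ p := geom_sum_mul_neg y p
  have h2 : 0 < 1 - y := by linarith
  have h3 : (∑ e ∈ Finset.range p, y ^ e) * (1 - y) ≤ 1 := by
    rw [h1]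
    have := pow_nonneg hy p
    linarith
  rw [← one_div]
  exact (le_div_iff₀ h2).mpr h3

theorem p8_exp (x y : ℝ) (hy : 0 ≤ y) (hyx : y ≤ x) (hx1 : x < 1) : (1 - y)⁻¹ ≤ Real.exp (y / (1 - x)) := by
  have h1 : 0 < 1 - y := by linarith
  have h2 : 0 < 1 - x := by linarith
  calc (1 - y)⁻¹ = y / (1 - y) + 1 := by field_simp; ring
    _ ≤ Real.exp (y / (1 - y)) := Real.add_one_le_exp _
    _ ≤ Real.exp (y / (1 - x)) := by
      apply Real.exp_le_exp.mpr
      exact div_le_div_of_nonneg_left hy h2 (by linarith)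

/-- PROOF. Let `0 < x < 1`. `Nat.card (Mono p c n) * x^n ≤ ∑_{a ∈ Mono} x^(∑ (i+1) a) ≤ ∏_{(i,j)} ∑_{a<p} x^((i+1) a) ≤ ∏_{i<n} (1 - x^(i+1))⁻¹ ^ (c i)` and `(1 - y)⁻¹ ≤ exp (y / (1 - x))` for
`0 ≤ y ≤ x` (as `-log (1-y) ≤ y/(1-y)`). So it is at most `exp (∑_i K (i+1) x^(i+1) / (1 - x)) ≤ F` with `F` independent of `n` (the series `∑ (i+1) x^(i+1)` converges:
`summable_pow_mul_geometric_of_norm_lt_one`). -/
theorem count_le (p K : ℕ) (c : ℕ → ℕ) (hc : ∀ i, c i ≤ K * (i + 1)) (x : ℝ) (hx : 0 < x)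
    (hx1 : x < 1) : ∃ F : ℝ, ∀ n, (Nat.card (Mono p c n) : ℝ) * x ^ n ≤ F := by
  classical
  have hsum : Summable fun i : ℕ => ((i : ℝ) + 1) * x ^ (i + 1) := by
    have h1 := summable_pow_mul_geometric_of_norm_lt_one 1 (r := x) (by rw [Real.norm_eq_abs, abs_of_pos hx]; exact hx1)
    have h2 := (summable_nat_add_iff 1).mpr h1
    refine h2.congr fun i => ?_
    push_cast
    rw [pow_one]
  refine ⟨Real.exp (∑' i : ℕ, K * (((i : ℝ) + 1) * x ^ (i + 1)) / (1 - x)), fun n => ?_⟩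
  have h1x : 0 < 1 - x := by linarith
  -- the weight
  obtain ⟨w, hw⟩ : ∃ w : ((Σ i : Fin n, Fin (c i)) → Fin p) → ℕ, w = fun a => ∑ x, (x.1.val + 1) * (a x).val := ⟨_, rfl⟩
  have hcard : (Nat.card (Mono p c n) : ℝ) * x ^ n ≤
      ∑ a : ((Σ i : Fin n, Fin (c i)) → Fin p), x ^ w a := by
    have e : Nat.card (Mono p c n) = (Finset.univ.filter fun a => w a < n).card := by
      unfold Mono
      rw [Nat.card_eq_fintype_card, Fintype.card_subtype, hw]
    rw [e]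
    calc ((Finset.univ.filter fun a => w a < n).card : ℝ) * x ^ n =
          ∑ a ∈ Finset.univ.filter fun a => w a < n, x ^ n := by rw [Finset.sum_const, nsmul_eq_mul]
      _ ≤ ∑ a ∈ Finset.univ.filter fun a => w a < n, x ^ w a := by
        refine Finset.sum_le_sum fun a ha => ?_
        exact pow_le_pow_of_le_one hx.le hx1.le (Finset.mem_filter.mp ha).2.le
      _ ≤ ∑ a, x ^ w a := by
        refine Finset.sum_le_sum_of_subset_of_nonneg (Finset.filter_subset _ _) fun a _ _ => ?_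
        positivity
  have hprod : ∑ a : ((Σ i : Fin n, Fin (c i)) → Fin p), x ^ w a =
      ∏ t : (Σ i : Fin n, Fin (c i)), ∑ e : Fin p, (x ^ (t.1.val + 1)) ^ e.val := by
    rw [Finset.prod_univ_sum, Fintype.piFinset_univ]
    refine Finset.sum_congr rfl fun a _ => ?_
    rw [hw]
    simp only
    rw [← Finset.prod_pow_eq_pow_sum]
    refine Finset.prod_congr rfl fun t _ => ?_
    rw [pow_mul]
  have hxi : ∀ i : ℕ, x ^ (i + 1) ≤ x := fun i => by
    calc x ^ (i + 1) ≤ x ^ 1 := pow_le_pow_of_le_one hx.le hx1.le (by omega)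
      _ = x := pow_one x
  have hle : ∏ t : (Σ i : Fin n, Fin (c i)), ∑ e : Fin p, (x ^ (t.1.val + 1)) ^ e.val ≤
      ∏ t : (Σ i : Fin n, Fin (c i)), Real.exp (x ^ (t.1.val + 1) / (1 - x)) := by
    refine Finset.prod_le_prod (fun t _ => Finset.sum_nonneg fun e _ => by positivity) fun t _ => ?_
    have h2 : 0 ≤ x ^ (t.1.val + 1) := by positivity
    exact le_trans (p8_geom p _ h2 (lt_of_le_of_lt (hxi _) hx1)) (p8_exp x _ h2 (hxi _) hx1)
  have hexp : ∏ t : (Σ i : Fin n, Fin (c i)), Real.exp (x ^ (t.1.val + 1) / (1 - x)) =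
      Real.exp (∑ i : Fin n, (c i : ℝ) * (x ^ (i.val + 1) / (1 - x))) := by
    rw [← Real.exp_sum, Fintype.sum_sigma]
    congr 1
    refine Finset.sum_congr rfl fun i _ => ?_
    show ∑ _y : Fin (c i), x ^ (i.val + 1) / (1 - x) = _
    rw [Finset.sum_const, Finset.card_univ, Fintype.card_fin, nsmul_eq_mul]
  refine le_trans hcard ?_
  rw [hprod]
  refine le_trans hle ?_
  rw [hexp]
  apply Real.exp_le_exp.mpr
  have h3 : ∑ i : Fin n, (c i : ℝ) * (x ^ (i.val + 1) / (1 - x)) ≤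
      ∑ i : Fin n, K * (((i : ℝ) + 1) * x ^ (i.val + 1)) / (1 - x) := by
    refine Finset.sum_le_sum fun i _ => ?_
    have h4 : (c i : ℝ) ≤ K * ((i : ℝ) + 1) := by exact_mod_cast hc i
    calc (c i : ℝ) * (x ^ (i.val + 1) / (1 - x)) ≤ (K * ((i : ℝ) + 1)) * (x ^ (i.val + 1) / (1 - x)) :=
          mul_le_mul_of_nonneg_right h4 (by positivity)
      _ = K * (((i : ℝ) + 1) * x ^ (i.val + 1)) / (1 - x) := by ring
  refine le_trans h3 ?_
  rw [Fin.sum_univ_eq_sum_range (fun i : ℕ => (K : ℝ) * (((i : ℝ) + 1) * x ^ (i + 1)) / (1 - x)) n]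
  refine Summable.sum_le_tsum _ (fun i _ => by positivity) ?_
  exact (hsum.mul_left _).div_const _

/-- PROOF. `count_le` with `x` such that `1 < x⁻¹ < b`, e.g. `x = 2 / (1 + b)`: `Nat.card ≤ F ((1+b)/2)^n < b^n` for large `n`. -/
theorem count_bound (p K : ℕ) (c : ℕ → ℕ) (hc : ∀ i, c i ≤ K * (i + 1)) (b : ℝ) (hb : 1 < b) :
    ∃ N : ℕ, ∀ n ≥ N, (Nat.card (Mono p c n) : ℝ) < b ^ n := by
  obtain ⟨F, hF⟩ := count_le p K c hc (2 / (1 + b)) (by positivity) (by rw [div_lt_one (by linarith)]; linarith)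
  have hr : |(1 + b) / (2 * b)| < 1 := by
    rw [abs_of_pos (by positivity), div_lt_one (by positivity)]
    linarith
  have h1 := (tendsto_pow_atTop_nhds_zero_of_abs_lt_one hr).const_mul F
  rw [mul_zero] at h1
  obtain ⟨N, hN⟩ := Filter.eventually_atTop.mp (h1.eventually (gt_mem_nhds (show (0 : ℝ) < 1 by norm_num)))
  refine ⟨N, fun n hn => ?_⟩
  have h2 := hF n
  have h3 := hN n hn
  have hb0 : 0 < b := by linarith
  have hp2 : (0 : ℝ) < (2 / (1 + b)) ^ n := by positivity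
  have h4 : (Nat.card (Mono p c n) : ℝ) ≤ F * ((1 + b) / 2) ^ n := by
    have h5 : (Nat.card (Mono p c n) : ℝ) ≤ F / (2 / (1 + b)) ^ n := (le_div_iff₀ hp2).mpr h2
    have h6 : F / (2 / (1 + b)) ^ n = F * ((1 + b) / 2) ^ n := by
      rw [div_eq_mul_inv, ← inv_pow, inv_div]
    rwa [h6] at h5
  calc (Nat.card (Mono p c n) : ℝ) ≤ F * ((1 + b) / 2) ^ n := h4
    _ = (F * ((1 + b) / (2 * b)) ^ n) * b ^ n := by
      rw [mul_assoc, ← mul_pow]
      congr 2
      field_simp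
    _ < 1 * b ^ n := mul_lt_mul_of_pos_right h3 (by positivity)
    _ = b ^ n := one_mul _

end ALG
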