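import Pool.Agent.ALG.P5
import Pool.Agent.ALG.P7b
import Pool.Agent.ALG.P8

/-!
# [ALG-P9] groups with exponentially growing group algebras
-/

set_option autoImplicit false

namespace ALG

open AG

/-- PROOF. Suppose `PolyBdd (autGrowth T)`. Choose `c i` with `PS_relIndex` (`H` is finitely generated by `hT`), `K` from `PS_growth`, so `c i ≤ K (i+1)`. `finrank_le` and `count_bound` (with
`b = a`) contradict `ExpAlg` (take `N` large, at least `1`). -/
theorem not_polyBdd_of_expAlg {H : Type*} [Group H] (p : ℕ) (hp : p.Prime) (T : Finset H)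
    (hT : Subgroup.closure (T : Set H) = ⊤) (h : ExpAlg p H) : ¬ PolyBdd (autGrowth T) := by
  intro hpol
  have hfg : Group.FG H := ⟨⟨T, hT⟩⟩
  choose c hc using PS_relIndex (H := H) p hp
  obtain ⟨K, hK⟩ := PS_growth p hp T hT hpol
  obtain ⟨a, ha, hN⟩ := h
  obtain ⟨N, hcb⟩ := count_bound p K c (fun i => hK i (c i) (hc i)) a ha
  obtain ⟨n, hn, h1⟩ := hN (max N 1)
  have h2 := finrank_le p hp c hc n (le_trans (le_max_right N 1) hn)
  have h3 := hcb n (le_trans (le_max_left N 1) hn)
  have h4 : (Module.finrank (ZMod p) (MonoidAlgebra (ZMod p) H ⧸ (aug p H) ^ n) : ℝ) ≤ (Nat.card (Mono p c n) : ℝ) := by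
    exact_mod_cast h2
  linarith

end ALG
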