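import Pool.Agent.ALG.Defs

/-!
# [ALG-Z1] exponential functions are not bounded by polynomials
-/

set_option autoImplicit false

namespace ALG

open AG

/-- PROOF. `Dom (2^n) f` and `f n ≤ C (n+1)^d` give `2^n ≤ C₁ (C (C₁ n + C₁ + 1)^d) + C₁`, which is false for large `n` (see the proof of `AG.not_dom_of_poly`). -/
theorem not_polyBdd_of_exponential {f : ℕ → ℕ} (h : Exponential f) : ¬ PolyBdd f := by
  obtain ⟨_, C, hC, hdom⟩ := h
  rintro ⟨C₁, d, hp⟩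
  obtain ⟨K, hK⟩ : ∃ K : ℕ, ∀ m, C * (C₁ * (C * (2 * m) + C + 1) ^ d) ≤ K * 2 ^ m := by
    refine ⟨C * (C₁ * ((2 * C + 1) ^ d * (d ^ d * 2 ^ (1 + d)))), fun m => ?_⟩
    have h1 : (C * (2 * m) + C + 1) ^ d ≤ (2 * C + 1) ^ d * (d ^ d * 2 ^ (1 + d)) * 2 ^ m := by
      calc (C * (2 * m) + C + 1) ^ d ≤ ((2 * C + 1) * (m + 1)) ^ d :=
            Nat.pow_le_pow_left (by nlinarith) d
        _ = (2 * C + 1) ^ d * (m + 1) ^ d := mul_pow _ _ _
        _ ≤ (2 * C + 1) ^ d * (d ^ d * 2 ^ (m + 1 + d)) :=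
            Nat.mul_le_mul_left _ (b2_pow d (m + 1))
        _ = (2 * C + 1) ^ d * (d ^ d * 2 ^ (1 + d)) * 2 ^ m := by
            rw [show m + 1 + d = (1 + d) + m by ring, pow_add]
            ring
    calc C * (C₁ * (C * (2 * m) + C + 1) ^ d)
        ≤ C * (C₁ * ((2 * C + 1) ^ d * (d ^ d * 2 ^ (1 + d)) * 2 ^ m)) :=
          Nat.mul_le_mul_left _ (Nat.mul_le_mul_left _ h1)
      _ = _ := by ring
  have h1 := hdom (2 * (K + C))
  have h2 : f (C * (2 * (K + C)) + C) ≤ C₁ * (C * (2 * (K + C)) + C + 1) ^ d :=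
    hp _
  have h3 : C * f (C * (2 * (K + C)) + C) ≤ K * 2 ^ (K + C) :=
    (Nat.mul_le_mul_left C h2).trans (hK (K + C))
  have h4 : K + C < 2 ^ (K + C) := Nat.lt_two_pow_self
  have h5 : 2 ^ (2 * (K + C)) = 2 ^ (K + C) * 2 ^ (K + C) := by rw [two_mul, pow_add]
  have h6 : (2 : ℕ) ^ (2 * (K + C)) ≤ K * 2 ^ (K + C) + C := by
    refine (h1 : 2 ^ (2 * (K + C)) ≤ C * f (C * (2 * (K + C)) + C) + C).trans ?_
    omega
  rw [h5] at h6
  generalize (2 : ℕ) ^ (K + C) = M at h4 h6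
  have h7 : (K + C + 1) * M ≤ M * M := Nat.mul_le_mul_right M h4
  have h8 : 1 ≤ M := by omega
  nlinarith

end ALG
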