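import Pool.Agent.AM.F4
import Pool.Agent.ALG.A1
import Pool.Agent.ALG.C3
import Pool.Agent.ALG.P9
import Pool.Agent.ALG.D4
import Pool.Agent.ALG.G2
import Pool.Agent.ALG.Z1

/-!
# [ALG-Z] the final theorem (helper52)
-/

set_option autoImplicit false

universe u v

namespace ALG

open AG

/-- `H` has a homomorphism into `GL_N(K)`, `K` a field of characteristic zero, whose image is not virtually nilpotent. -/
def BigLinear (H : Type u) [Group H] : Prop :=
  ∃ (K : Type v) (_ : Field K) (_ : CharZero K) (N : ℕ)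
    (ρ : H →* Matrix.GeneralLinearGroup (Fin N) K), ¬ Group.IsVirtuallyNilpotent ρ.range

/-- `H` has a homomorphism `ρ` into `GL_N(K)`, `K` a field, whose image spans the matrices, such that there are only finitely many functions `trace ∘ ρ ∘ φ`, `φ ∈ Aut H`, and the growth of the image (of some
finitely generated subgroup of it) is not bounded by a polynomial. -/
def BigRigid (H : Type u) [Group H] : Prop :=
  ∃ (K : Type v) (_ : Field K) (N : ℕ) (ρ : H →* Matrix.GeneralLinearGroup (Fin N) K),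
    Submodule.span K (Set.range fun g => (ρ g : Matrix (Fin N) (Fin N) K)) = ⊤ ∧
    (Set.range fun (φ : MulAut H) (g : H) =>
      Matrix.trace (ρ (φ g) : Matrix (Fin N) (Fin N) K)).Finite ∧
    ∃ T : Finset ρ.range, ¬ PolyG T

theorem not_polyBdd_of_solvable {H : Type u} [Group H] (T : Finset H)
    (hT : Subgroup.closure (T : Set H) = ⊤) (M : Subgroup H) [M.Normal]
    (hs : VirtSolvable (H ⧸ M)) (hn : ¬ Group.IsVirtuallyNilpotent (H ⧸ M)) :
    ¬ PolyBdd (autGrowth T) := by
  have hfg : Group.FG H := ⟨⟨T, hT⟩⟩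
  obtain ⟨N, hN, h1, h2⟩ := AM.exists_char_of_virtual_quotient (⊤ : Subgroup H)
    ((QuotientGroup.mk' M).comp (Subgroup.topEquiv (G := H)).toMonoidHom)
    ((QuotientGroup.mk'_surjective M).comp (Subgroup.topEquiv (G := H)).surjective) hs hn
  exact not_polyBdd_of_exponential (AM.main T hT N h1 h2)

theorem not_polyBdd_of_bigLinear {H : Type u} [Group H] (T : Finset H)
    (hT : Subgroup.closure (T : Set H) = ⊤) (h : BigLinear.{u, v} H) :
    ¬ PolyBdd (autGrowth T) := by
  obtain ⟨K, _, _, N, ρ, hn⟩ := h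
  by_cases hs : VirtSolvable ρ.range
  · have hfg : Group.FG H := ⟨⟨T, hT⟩⟩
    obtain ⟨M, hM, h1, h2⟩ := AM.exists_char_of_virtual_quotient (⊤ : Subgroup H)
      (ρ.rangeRestrict.comp (Subgroup.topEquiv (G := H)).toMonoidHom)
      (ρ.rangeRestrict_surjective.comp (Subgroup.topEquiv (G := H)).surjective) hs hn
    exact not_polyBdd_of_exponential (AM.main T hT M h1 h2)
  · exact not_polyBdd_of_linear T hT N ρ hs

theorem final {G : Type u} [Group G] (S : Finset G)
    (hS : Subgroup.closure (S : Set G) = ⊤) (H : Subgroup G) [H.FiniteIndex]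
    (h : (∃ (M : Subgroup H) (_ : M.Normal), VirtSolvable (H ⧸ M) ∧
        ¬ Group.IsVirtuallyNilpotent (H ⧸ M)) ∨ ManySimple H ∨
      (∃ p : ℕ, p.Prime ∧ ExpAlg p H) ∨ BigLinear.{u, v} H ∨ BigRigid.{u, v} H) :
    ¬ PolyBdd (autGrowth S) := by
  have : Group.FG G := ⟨⟨S, hS⟩⟩
  obtain ⟨T, hT⟩ : ∃ T : Finset H, Subgroup.closure (T : Set H) = ⊤ :=
    (Group.fg_def (G := H)).1 inferInstance
  intro hp
  have hp' : PolyBdd (autGrowth T) := polyBdd_sub S hS H T hp
  rcases h with ⟨M, hM, hs, hn⟩ | h | ⟨p, hpp, h⟩ | h | ⟨K, _, N, ρ, h1, h2, T', h3⟩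
  · exact not_polyBdd_of_solvable T hT M hs hn hp'
  · exact not_polyBdd_of_manySimple T hT h hp'
  · exact not_polyBdd_of_expAlg p hpp T hT h hp'
  · exact not_polyBdd_of_bigLinear T hT h hp'
  · exact not_polyBdd_of_rigid T hT N ρ h1 h2 T' h3 hp'

end ALG
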